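import Pool.Agent.H3.FS.BSA

set_option autoImplicit false

/-!
# [H3 FS BSP] Bombieri-Stepanov: the upper bound `Q + C √Q`

Let `Q = #k = p^e`, `w = p^(e / 2)`, `R = p^(e - e / 2)`: `w R = Q`, `w ≤ R ≤ p w`, so `R^2 ≤ p Q`, `R ≤ p √Q`.  `N = #ι ≥ 1`, `h ≥ 1`.
(1) `R < 2 (N h + 1)`: trivial bound: `#Y ≤ N Q`: for every `u ∈ k` at most `N` of the `y ∈ Y` have `y X = u`
(their vectors `(y (b j))_j ∈ k^ι` are linearly independent, as in `zer`; or apply `zer`'s argument to `G = X - u`, whose norm is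
`(X - u)^N`: `Algebra.norm_algebraMap`).  And `N Q = N w R ≤ N R^2 ≤ N R 2 (N h + 1) ≤ 4 N^2 h R ≤ 4 N^2 h p √Q`.
(2) `R ≥ 2 (N h + 1)`: put `a = (R - 1) / N - h` (so `R - N ≤ N (a + h) ≤ R - 1`; `(R - 1)/N ≥ h` as `R - 1 ≥ N h`), `δ = 4 N h + 1` and
`b = (w + δ + N - 1) / N - 1`, so `w + δ ≤ N (b + 1) ≤ w + δ + N - 1`.  With `α = N (a + h)`, `N (a + 1) = α - N (h - 1)` and
`δ' = N (b + 1) - w ∈ [δ, δ + N - 1]` the inequality `h2` of `bsa` reads `(α - N (h - 1)) (w + δ') > α w + N (b + h) + 1`,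
i.e. `δ' (α - N (h-1) - 1) > w (N (h - 1) + 1) + N (h - 1) + 1 = (w + 1)(N (h - 1) + 1)`.  It holds: `α - N (h - 1) - 1 ≥
R - N h - 1 ≥ R / 2 ≥ w / 2` and `δ' > 4 N h ≥ 4 (N (h - 1) + 1)`, so the left side is `> 2 w (N (h-1) + 1) ≥ (w + 1)(N (h-1) + 1)`.
`bsa` gives `#Y ≤ α + N (b + h) R ≤ R + (w + δ + N - 1 + N (h - 1)) R ≤ Q + R (δ + N h) ≤ Q + 6 N h R` (`N h ≥ 1`).
-/

namespace Pool.Agent.H3.FS

open Polynomial

private theorem bsp_num {N h w R : ℕ} (hN : 1 ≤ N) (hh : 1 ≤ h) (hw : 1 ≤ w) (hwR : w ≤ R)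
    (hR : 2 * (N * h + 1) ≤ R) : ∃ a b : ℕ, N * (a + h) < R ∧
      N * ((a + h) * w + (b + h)) + 1 < N * (a + 1) * (N * (b + 1)) ∧
      N * (a + h) + N * (b + h) * R ≤ w * R + 6 * (N * h) * R := by
  obtain ⟨a, ha1, ha2⟩ : ∃ a : ℕ, N * (a + h) ≤ R - 1 ∧ R - 1 < N * (a + h) + N := by
    obtain ⟨q, hq⟩ : ∃ q, q = (R - 1) / N := ⟨_, rfl⟩
    have h1 : N * q ≤ R - 1 := by
      rw [hq]
      exact Nat.mul_div_le _ _
    have h2 : R - 1 < N * q + N := by
      rw [hq]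
      have h3 := Nat.div_add_mod (R - 1) N
      have h4 := Nat.mod_lt (R - 1) (show 0 < N by omega)
      omega
    have h3 : h ≤ q := by
      rw [hq, Nat.le_div_iff_mul_le (by omega), mul_comm]
      omega
    refine ⟨q - h, ?_, ?_⟩
    · rw [Nat.sub_add_cancel h3]
      exact h1
    · rw [Nat.sub_add_cancel h3]
      exact h2
  obtain ⟨b, hb1, hb2⟩ : ∃ b : ℕ, N * (b + 1) ≤ w + 4 * (N * h) + N ∧
      w + 4 * (N * h) + 1 ≤ N * (b + 1) := by
    obtain ⟨q, hq⟩ : ∃ q, q = (w + 4 * (N * h) + N) / N := ⟨_, rfl⟩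
    have h1 : N * q ≤ w + 4 * (N * h) + N := by
      rw [hq]
      exact Nat.mul_div_le _ _
    have h2 : w + 4 * (N * h) + N < N * q + N := by
      rw [hq]
      have h3 := Nat.div_add_mod (w + 4 * (N * h) + N) N
      have h4 := Nat.mod_lt (w + 4 * (N * h) + N) (show 0 < N by omega)
      omega
    have h3 : 1 ≤ q := by
      rcases Nat.eq_zero_or_pos q with h0 | h0
      · rw [h0, mul_zero] at h2
        omega
      · exact h0
    refine ⟨q - 1, ?_, ?_⟩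
    · rw [Nat.sub_add_cancel h3]
      exact h1
    · rw [Nat.sub_add_cancel h3]
      omega
  refine ⟨a, b, by omega, ?_, ?_⟩
  · zify at *
    have hR0 : (1 : ℤ) ≤ R := by nlinarith
    rw [Nat.cast_sub (by exact_mod_cast hR0)] at ha1 ha2
    push_cast at ha1 ha2
    obtain ⟨α, hα⟩ : ∃ α : ℤ, α = N * (a + h) := ⟨_, rfl⟩
    obtain ⟨β, hβ⟩ : ∃ β : ℤ, β = N * (b + 1) := ⟨_, rfl⟩
    obtain ⟨P, hP⟩ : ∃ P : ℤ, P = N * h := ⟨_, rfl⟩
    have e1 : (N : ℤ) * (a + 1) = α - P + N := by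
      rw [hα, hP]
      ring
    have e2 : (N : ℤ) * ((a + h) * w + (b + h)) = α * w + β - N + P := by
      rw [hα, hβ, hP]
      ring
    rw [e1, e2, ← hβ]
    rw [← hα] at ha1 ha2
    rw [← hβ, ← hP] at hb1 hb2
    rw [← hP] at hR
    have hPN : (N : ℤ) ≤ P := by
      rw [hP]
      nlinarith
    obtain ⟨D, hD⟩ : ∃ D : ℤ, D = β - w := ⟨_, rfl⟩
    obtain ⟨X, hX⟩ : ∃ X : ℤ, X = α - (P - N) - 1 := ⟨_, rfl⟩
    have hD1 : 4 * P + 1 ≤ D := by linarith
    have hX1 : (R : ℤ) ≤ 2 * X := by linarith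
    have h5 : (4 * P + 1) * R ≤ D * (2 * X) :=
      mul_le_mul hD1 hX1 (by linarith) (by linarith)
    have h6 : (4 * P + 1) * (w : ℤ) ≤ (4 * P + 1) * R :=
      mul_le_mul_of_nonneg_left hwR (by linarith)
    have h7 : ((w : ℤ) + 1) * (P - N + 1) ≤ ((w : ℤ) + 1) * P :=
      mul_le_mul_of_nonneg_left (by linarith) (by linarith)
    have h8 : P * 1 ≤ P * (w : ℤ) := mul_le_mul_of_nonneg_left hw (by linarith)
    have e3 : (α - P + N) * β - (α * w + β - N + P + 1) = D * X - ((w : ℤ) + 1) * (P - N + 1) := by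
      rw [hD, hX]
      ring
    nlinarith
  · zify at *
    have hR0 : (1 : ℤ) ≤ R := by nlinarith
    rw [Nat.cast_sub (by exact_mod_cast hR0)] at ha1 ha2
    push_cast at ha1 ha2
    have h1 : (N : ℤ) * (b + h) ≤ w + 5 * (N * h) := by linarith
    have h2 : (N : ℤ) * (b + h) * R ≤ (w + 5 * (N * h)) * R :=
      mul_le_mul_of_nonneg_right h1 (by linarith)
    have h3 : (1 : ℤ) * R ≤ (N * h) * R := by
      refine mul_le_mul_of_nonneg_right ?_ (by linarith)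
      nlinarith
    linarith

private theorem bsp_triv {k : Type} [Field k] [Finite k] {B : Type} [CommRing B] [Algebra k[X] B]
    {ι : Type} [Fintype ι] [DecidableEq ι] (b : Module.Basis ι k[X] B)
    (Y : Finset (B →+* k)) (hY : ∀ y ∈ Y, ∀ c : k, y (algebraMap k[X] B (C c)) = c) :
    Y.card ≤ Fintype.card ι * Nat.card k := by
  have hf : Fintype k := Fintype.ofFinite k
  have hQ : 1 < Nat.card k := Finite.one_lt_card
  have hp : (X ^ Nat.card k - X : k[X]) ≠ 0 :=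
    FiniteField.X_pow_card_sub_X_ne_zero k hQ
  have hn : Algebra.norm k[X] (algebraMap k[X] B (X ^ Nat.card k - X)) =
      (X ^ Nat.card k - X : k[X]) ^ Fintype.card ι := Algebra.norm_algebraMap_of_basis b _
  have h1 := zer b (algebraMap k[X] B (X ^ Nat.card k - X)) (by
    rw [hn]
    exact pow_ne_zero _ hp) Y hY (by
      intro y _
      rw [map_sub, map_pow, map_sub, map_pow, Nat.card_eq_fintype_card, FiniteField.pow_card,
        sub_self])
  rw [hn, natDegree_pow, FiniteField.X_pow_card_sub_X_natDegree_eq k hQ] at h1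
  exact h1

theorem bsp {k : Type} [Field k] [Finite k] {B : Type} [CommRing B] [Algebra k[X] B] {ι : Type}
    [Fintype ι] [DecidableEq ι] [Nonempty ι] {h : ℕ} (hh : 1 ≤ h) (c : Conj k B ι h) {p : ℕ}
    [Fact p.Prime] [CharP k p] [CharP B p]
    (Y : Finset (B →+* k)) (hY : ∀ y ∈ Y, ∀ c : k, y (algebraMap k[X] B (C c)) = c) :
    (Y.card : ℝ) ≤ Nat.card k + 6 * (Fintype.card ι : ℝ) ^ 2 * h * p * √(Nat.card k) := by
  have hf : Fintype k := Fintype.ofFinite k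
  have hp : p.Prime := Fact.out
  obtain ⟨e, -, he⟩ := FiniteField.card k p
  rw [← Nat.card_eq_fintype_card] at he
  obtain ⟨w, hw⟩ : ∃ w, w = p ^ ((e : ℕ) / 2) := ⟨_, rfl⟩
  obtain ⟨R, hR⟩ : ∃ R, R = p ^ ((e : ℕ) - (e : ℕ) / 2) := ⟨_, rfl⟩
  have hQ : Nat.card k = w * R := by
    rw [he, hw, hR, ← pow_add]
    congr 1
    omega
  have hw1 : 1 ≤ w := by
    rw [hw]
    exact Nat.one_le_pow _ _ hp.pos
  have hwR : w ≤ R := by
    rw [hw, hR]
    exact Nat.pow_le_pow_right hp.pos (by omega)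
  have hRw : R ≤ p * w := by
    rw [hw, hR, ← pow_succ']
    exact Nat.pow_le_pow_right hp.pos (by omega)
  have hN : 1 ≤ Fintype.card ι := Fintype.card_pos
  obtain ⟨N, hNdef⟩ : ∃ N, N = Fintype.card ι := ⟨_, rfl⟩
  rw [← hNdef] at hN ⊢
  have hp1 : (1 : ℝ) ≤ p := by exact_mod_cast hp.one_le
  have hRr : (R : ℝ) ≤ p * √(Nat.card k) := by
    have h1 : (R : ℝ) ^ 2 ≤ (p * √(Nat.card k)) ^ 2 := by
      rw [mul_pow, Real.sq_sqrt (by positivity), hQ]
      push_cast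
      have h2 : (R : ℝ) ≤ p * w := by exact_mod_cast hRw
      have h3 : (0 : ℝ) ≤ R := by positivity
      have h4 : (0 : ℝ) ≤ w := by positivity
      calc (R : ℝ) ^ 2 = R * R := by ring
        _ ≤ (p * w) * R := mul_le_mul_of_nonneg_right h2 h3
        _ = p * (w * R) * 1 := by ring
        _ ≤ p * (w * R) * p := mul_le_mul_of_nonneg_left hp1 (by positivity)
        _ = p ^ 2 * (w * R) := by ring
    exact le_of_sq_le_sq h1 (by positivity)
  have hNr : (1 : ℝ) ≤ N := by exact_mod_cast hN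
  have hhr : (1 : ℝ) ≤ h := by exact_mod_cast hh
  have hNh : (N : ℝ) * h ≤ (N : ℝ) ^ 2 * h := by
    have h1 : 0 ≤ (N : ℝ) * h * (N - 1) := by
      have : (0 : ℝ) ≤ N - 1 := by linarith
      positivity
    linarith
  by_cases hc : R < 2 * (N * h + 1)
  · have h1 := bsp_triv c.b Y hY
    rw [← hNdef] at h1
    have h2 : (Y.card : ℝ) ≤ N * Nat.card k := by exact_mod_cast h1
    have h3 : (R : ℝ) ≤ 3 * (N * h) := by
      have h4 : R ≤ 2 * (N * h) + 1 := by omega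
      have h5 : 1 ≤ N * h := Nat.mul_pos hN hh
      have h6 : R ≤ 3 * (N * h) := by omega
      exact_mod_cast h6
    have h7 : (N : ℝ) * Nat.card k ≤ 3 * ((N : ℝ) ^ 2 * h) * (p * √(Nat.card k)) := by
      have h8 : ((Nat.card k : ℕ) : ℝ) ≤ R * R := by
        rw [hQ]
        push_cast
        have h9 : (w : ℝ) ≤ R := by exact_mod_cast hwR
        exact mul_le_mul_of_nonneg_right h9 (by positivity)
      calc (N : ℝ) * Nat.card k ≤ N * (R * R) := mul_le_mul_of_nonneg_left h8 (by positivity)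
        _ ≤ N * ((3 * (N * h)) * (p * √(Nat.card k))) :=
          mul_le_mul_of_nonneg_left (mul_le_mul h3 hRr (by positivity) (by positivity))
            (by positivity)
        _ = 3 * ((N : ℝ) ^ 2 * h) * (p * √(Nat.card k)) := by ring
    have h10 : 0 ≤ ((N : ℝ) ^ 2 * h) * (p * √(Nat.card k)) := by positivity
    have h11 : (0 : ℝ) ≤ Nat.card k := by positivity
    linarith
  · push Not at hc
    obtain ⟨a, b, h1, h2, h3⟩ := bsp_num hN hh hw1 hwR hc
    rw [hNdef, hw] at h2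
    rw [hNdef] at h1
    rw [hw] at hQ
    have h4 := bsa c hQ h1 h2 Y hY
    rw [← hNdef] at h4
    rw [← hw] at hQ
    have h5 : Y.card ≤ w * R + 6 * (N * h) * R := h4.trans h3
    have h6 : (Y.card : ℝ) ≤ Nat.card k + 6 * (N * h) * R := by
      rw [hQ]
      exact_mod_cast h5
    have h7 : 6 * ((N : ℝ) * h) * R ≤ 6 * ((N : ℝ) ^ 2 * h) * (p * √(Nat.card k)) :=
      mul_le_mul (by linarith) hRr (by positivity) (by positivity)
    linarith

end Pool.Agent.H3.FS
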