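import Pool.Agent.H3.FS.FRD

set_option autoImplicit false

/-!
# [H3 FS ALM] Alternating matrices

* `kc_rank`: `kc e = 2^s` iff `(altm e).rank + s = r` (rank-nullity: `Matrix.rank_add_finrank_ker_mulVecLin` or
  `LinearMap.finrank_range_add_finrank_ker`, `Module.card_eq_pow_finrank`, `Nat.pow_right_injective`).
* `alt_eq`: the number of the `e`, given by their values on `prs r` (here: functions `e` on all pairs which vanish outside `prs r`), with
  `kc e = 2^s` is `2^(#prs r) alt r s`; `#prs r = r (r - 1) / 2`.  Proof: `e ↦ altm e` is a bijection of the functions which vanish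
  outside `prs r` with the symmetric matrices with zero diagonal.
* `alt_sum` is not needed; `alt_nonneg`, `alt_le_one`.
-/

namespace Pool.Agent.H3.FS

theorem card_prs (r : ℕ) : (prs r).card = r * (r - 1) / 2 := by
  unfold prs
  rw [Finset.card_filter, Fintype.sum_prod_type_right]
  have h : ∀ j : Fin r, ∑ i : Fin r, (if (i, j).1 < (i, j).2 then 1 else 0) = (j : ℕ) := by
    intro j
    rw [← Finset.card_filter]
    have h1 : (Finset.univ.filter fun i : Fin r => (i, j).1 < (i, j).2) = Finset.Iio j := by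
      ext i
      simp
    rw [h1, Fin.card_Iio]
  rw [Finset.sum_congr rfl fun j _ => h j, Fin.sum_univ_eq_sum_range (fun i => i) r,
    Finset.sum_range_id]

theorem kc_rank {r : ℕ} (e : Fin r × Fin r → ZMod 2) (s : ℕ) :
    kc e = 2 ^ s ↔ (altm e).rank + s = r := by
  have h1 : kc e = 2 ^ Module.finrank (ZMod 2) (LinearMap.ker (altm e).mulVecLin) := by
    have h2 : kc e = Nat.card (LinearMap.ker (altm e).mulVecLin) := by
      unfold kc
      refine Nat.card_congr (Equiv.subtypeEquivRight fun x => ?_)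
      rw [LinearMap.mem_ker, Matrix.mulVecLin_apply]
    rw [h2, Module.natCard_eq_pow_finrank (K := ZMod 2), Nat.card_zmod]
  have h3 : (altm e).rank + Module.finrank (ZMod 2) (LinearMap.ker (altm e).mulVecLin) = r := by
    have h4 := LinearMap.finrank_range_add_finrank_ker (altm e).mulVecLin
    rw [Module.finrank_fin_fun] at h4
    exact h4
  rw [h1]
  constructor
  · intro h5
    have h6 := Nat.pow_right_injective le_rfl h5
    omega
  · intro h5
    have h6 : Module.finrank (ZMod 2) (LinearMap.ker (altm e).mulVecLin) = s := by omega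
    rw [h6]

private theorem alm_congr {r : ℕ} {e e' : Fin r × Fin r → ZMod 2} (h : ∀ p ∈ prs r, e p = e' p) :
    altm e = altm e' := by
  ext i j
  unfold altm
  have hm : ∀ a b : Fin r, a < b → e (a, b) = e' (a, b) := fun a b hab =>
    h (a, b) (Finset.mem_filter.2 ⟨Finset.mem_univ _, hab⟩)
  split_ifs with h1 h2
  · exact hm _ _ h1
  · exact hm _ _ h2
  · rfl

theorem kc_congr {r : ℕ} {e e' : Fin r × Fin r → ZMod 2} (h : ∀ p ∈ prs r, e p = e' p) :
    kc e = kc e' := by
  unfold kc
  rw [alm_congr h]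

private theorem alm_diag {r : ℕ} (e : Fin r × Fin r → ZMod 2) (i : Fin r) : altm e i i = 0 := by
  unfold altm
  rw [if_neg (lt_irrefl i), if_neg (lt_irrefl i)]

private theorem alm_symm {r : ℕ} (e : Fin r × Fin r → ZMod 2) (i j : Fin r) :
    altm e i j = altm e j i := by
  unfold altm
  rcases lt_trichotomy i j with h | h | h
  · rw [if_pos h, if_neg (lt_asymm h), if_pos h]
  · rw [h]
  · rw [if_neg (lt_asymm h), if_pos h, if_pos h]

private def unm {r : ℕ} (M : Matrix (Fin r) (Fin r) (ZMod 2)) (p : Fin r × Fin r) : ZMod 2 :=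
  if p.1 < p.2 then M p.1 p.2 else 0

private theorem unm_pos {r : ℕ} (M : Matrix (Fin r) (Fin r) (ZMod 2)) {i j : Fin r} (h : i < j) :
    unm M (i, j) = M i j := if_pos h

private theorem unm_altm {r : ℕ} (M : Matrix (Fin r) (Fin r) (ZMod 2)) (h1 : ∀ i, M i i = 0)
    (h2 : ∀ i j, M i j = M j i) : altm (unm M) = M := by
  ext i j
  unfold altm
  rcases lt_trichotomy i j with h | h | h
  · rw [if_pos h, unm_pos M h]
  · subst h
    rw [if_neg (lt_irrefl _), if_neg (lt_irrefl _), h1]
  · rw [if_neg (lt_asymm h), if_pos h, unm_pos M h, h2]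

open Classical in
private theorem alm_card (r s : ℕ) :
    ((Finset.univ.filter fun e : Fin r × Fin r → ZMod 2 =>
      (∀ p, p ∉ prs r → e p = 0) ∧ kc e = 2 ^ s).card : ℕ) =
    Nat.card {M : Matrix (Fin r) (Fin r) (ZMod 2) //
      (∀ i, M i i = 0) ∧ (∀ i j, M i j = M j i) ∧ M.rank + s = r} := by
  rw [← Fintype.card_subtype, ← Nat.card_eq_fintype_card]
  refine Nat.card_congr ⟨fun e => ⟨altm e.1, alm_diag e.1, alm_symm e.1, (kc_rank e.1 s).1 e.2.2⟩,
    fun M => ⟨unm M.1, fun p hp => ?_, ?_⟩, ?_, ?_⟩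
  · refine if_neg fun h => hp ?_
    exact Finset.mem_filter.2 ⟨Finset.mem_univ _, h⟩
  · rw [kc_rank, unm_altm M.1 M.2.1 M.2.2.1]
    exact M.2.2.2
  · rintro ⟨e, h1, h2⟩
    apply Subtype.ext
    funext p
    show unm (altm e) p = e p
    by_cases hp : p.1 < p.2
    · have h3 : unm (altm e) p = altm e p.1 p.2 := if_pos hp
      rw [h3]
      unfold altm
      rw [if_pos hp]
    · have h3 : unm (altm e) p = 0 := if_neg hp
      rw [h3, h1 p (fun h => hp (Finset.mem_filter.1 h).2)]
  · rintro ⟨M, h1, h2, h3⟩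
    exact Subtype.ext (unm_altm M h1 h2)

open Classical in
theorem alt_eq (r s : ℕ) :
    (((Finset.univ.filter fun e : Fin r × Fin r → ZMod 2 =>
      (∀ p, p ∉ prs r → e p = 0) ∧ kc e = 2 ^ s).card : ℕ) : ℝ) = 2 ^ (prs r).card * alt r s := by
  rw [alm_card, alt, card_prs]
  have h : (2 : ℝ) ^ (r * (r - 1) / 2) ≠ 0 := by positivity
  field_simp

theorem alt_nonneg (r s : ℕ) : 0 ≤ alt r s := by
  unfold alt
  positivity

theorem alt_le_one (r s : ℕ) : alt r s ≤ 1 := by
  classical
  have h1 := alt_eq r s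
  have h2 : (Finset.univ.filter fun e : Fin r × Fin r → ZMod 2 =>
      (∀ p, p ∉ prs r → e p = 0) ∧ kc e = 2 ^ s).card ≤ 2 ^ (prs r).card := by
    have h3 : Fintype.card ({p // p ∈ prs r} → ZMod 2) = 2 ^ (prs r).card := by
      rw [Fintype.card_fun, ZMod.card, Fintype.card_coe]
    rw [← h3, ← Finset.card_univ]
    refine Finset.card_le_card_of_injOn
      (fun e => fun p : {p // p ∈ prs r} => e p.1) (fun _ _ => Finset.mem_univ _) ?_
    intro e he e' he' hee
    have h4 := (Finset.mem_filter.1 (Finset.mem_coe.1 he)).2.1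
    have h5 := (Finset.mem_filter.1 (Finset.mem_coe.1 he')).2.1
    funext p
    by_cases hp : p ∈ prs r
    · exact congrFun hee ⟨p, hp⟩
    · rw [h4 p hp, h5 p hp]
  have h6 : (((Finset.univ.filter fun e : Fin r × Fin r → ZMod 2 =>
      (∀ p, p ∉ prs r → e p = 0) ∧ kc e = 2 ^ s).card : ℕ) : ℝ) ≤ 2 ^ (prs r).card := by
    exact_mod_cast h2
  rw [h1] at h6
  have h7 : (0 : ℝ) < 2 ^ (prs r).card := by positivity
  exact (mul_le_iff_le_one_right h7).1 h6

end Pool.Agent.H3.FS
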