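import Pool.Agent.H3.FS.LAU

set_option autoImplicit false

/-!
# [H3 FS FAI] Injectivity of the conjugates

`B` a domain with a finite basis over the domain `A`, `σ : B → T` a ring homomorphism to a non-trivial ring which is
injective on `A`.  Then `σ` is injective: its kernel is an ideal with `comap = ⊥`, and `B` is integral over `A`
(`Ideal.eq_bot_of_comap_eq_bot`, `Algebra.IsIntegral.of_finite`, `Module.Finite.of_basis`).
-/

namespace Pool.Agent.H3.FS

theorem fai {A B T : Type} [CommRing A] [IsDomain A] [CommRing B] [IsDomain B] [Algebra A B]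
    [CommRing T] [Nontrivial T] {ι : Type} [Fintype ι] (b : Module.Basis ι A B) (σ : B →+* T)
    (h : ∀ f : A, σ (algebraMap A B f) = 0 → f = 0) : Function.Injective σ := by
  haveI : Module.Finite A B := Module.Finite.of_basis b
  haveI : Algebra.IsIntegral A B := Algebra.IsIntegral.of_finite A B
  rw [injective_iff_map_eq_zero]
  intro x hx
  have hker : RingHom.ker σ = ⊥ := by
    apply Ideal.eq_bot_of_comap_eq_bot (R := A)
    rw [eq_bot_iff]
    intro f hf
    rw [Ideal.mem_comap, RingHom.mem_ker] at hf
    rw [Ideal.mem_bot]
    exact h f hf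
  have : x ∈ RingHom.ker σ := by rw [RingHom.mem_ker]; exact hx
  rw [hker, Ideal.mem_bot] at this
  exact this

end Pool.Agent.H3.FS
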