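import Pool.Agent.H3.FS.LFT
import Pool.Agent.H3.FS.FAI

set_option autoImplicit false

/-!
# [H3 FS CLO] The subfield generated by square roots is the fraction field of the tower

`R` the tower over the domain `A` (a domain with `y_i² = a_i` and basis `b_S = ∏_{i ∈ S} y_i`), `L` a field, `f : A → L` injective,
`t_i ∈ L`, `t_i² = f(a_i)`.  There is an injective `ψ : R → L` over `f` with `ψ y_i = t_i` (`lft`, `fai`), and every element
`w` of the subfield generated by `f(A)` and the `t_i` is a quotient of elements of `ψ(R)`: induction over the closure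
(`Subfield.closure_induction`): generators, `1`, sums, products, negatives, inverses of quotients of elements of a subring are such
quotients.
-/

namespace Pool.Agent.H3.FS

theorem clo {A R L : Type} [CommRing A] [IsDomain A] [CommRing R] [IsDomain R] [Field L]
    [Algebra A R] {n : ℕ} (a : Fin n → A) (y : Fin n → R) (hy : ∀ i, y i ^ 2 = algebraMap A R (a i))
    (b : Module.Basis (Finset (Fin n)) A R) (hb : ∀ S, b S = ∏ i ∈ S, y i) (f : A →+* L)
    (hf : Function.Injective f) (t : Fin n → L) (ht : ∀ i, t i ^ 2 = f (a i)) :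
    ∃ ψ : R →+* L, Function.Injective ψ ∧ (∀ g, ψ (algebraMap A R g) = f g) ∧
      (∀ i, ψ (y i) = t i) ∧ ∀ w ∈ Subfield.closure (Set.range f ∪ Set.range t),
        ∃ x z : R, x ≠ 0 ∧ ψ x * w = ψ z := by
  obtain ⟨ψ, hψ1, hψ2⟩ := lft a y hy b hb f t ht
  have hinj : Function.Injective ψ := by
    refine fai b ψ ?_
    intro g hg
    rw [hψ1] at hg
    exact hf (by rw [hg, map_zero])
  refine ⟨ψ, hinj, hψ1, hψ2, ?_⟩
  intro w hw
  induction hw using Subfield.closure_induction with
  | mem w hw =>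
    rcases hw with ⟨g, rfl⟩ | ⟨i, rfl⟩
    · exact ⟨1, algebraMap A R g, one_ne_zero, by rw [map_one, one_mul, hψ1]⟩
    · exact ⟨1, y i, one_ne_zero, by rw [map_one, one_mul, hψ2]⟩
  | one => exact ⟨1, 1, one_ne_zero, by rw [map_one, one_mul]⟩
  | add u v _ _ hu hv =>
    obtain ⟨x1, z1, h1, e1⟩ := hu
    obtain ⟨x2, z2, h2, e2⟩ := hv
    refine ⟨x1 * x2, x2 * z1 + x1 * z2, mul_ne_zero h1 h2, ?_⟩
    rw [map_mul, map_add, map_mul, map_mul, ← e1, ← e2]
    ring
  | neg u _ hu =>
    obtain ⟨x1, z1, h1, e1⟩ := hu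
    exact ⟨x1, -z1, h1, by rw [map_neg, ← e1, mul_neg]⟩
  | inv u _ hu =>
    obtain ⟨x1, z1, h1, e1⟩ := hu
    by_cases hu0 : u = 0
    · exact ⟨1, 0, one_ne_zero, by rw [hu0, inv_zero, mul_zero, map_zero]⟩
    · have hx1 : ψ x1 ≠ 0 := by
        intro h0
        exact h1 (hinj (by rw [h0, map_zero]))
      refine ⟨z1, x1, ?_, ?_⟩
      · intro h0
        rw [h0, map_zero] at e1
        exact mul_ne_zero hx1 hu0 e1
      · rw [← e1, mul_assoc, mul_inv_cancel₀ hu0, mul_one]
  | mul u v _ _ hu hv =>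
    obtain ⟨x1, z1, h1, e1⟩ := hu
    obtain ⟨x2, z2, h2, e2⟩ := hv
    refine ⟨x1 * x2, z1 * z2, mul_ne_zero h1 h2, ?_⟩
    rw [map_mul, map_mul, ← e1, ← e2]
    ring

end Pool.Agent.H3.FS
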