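import Pool.Agent.H3.FS.LAU
import Pool.Agent.H94.PC.Ch

set_option autoImplicit false

/-!
# [H3 FS CHD] Definitions for the Chebotarev chapter

`a_1, ..., a_ρ ∈ k[t]`, `Ξ ∈ k[t][Y_1, ..., Y_ρ]` (as `MvPolynomial (Fin ρ) k[X]`).  Think of `Y_i = √a_i`.

* `Ind a`: no product of a non-empty subset of the `a_i` is a constant times a square.
* `NS a Ξ`: for every field `L`, every injective `f : k[t] → L` and all `y_i ∈ L` with `y_i² = f(a_i)`: `Ξ(y)` is not a square in the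
  subfield `k(t, y)` of `L`.
* `Bd h d Ξ`: total degree at most `d`, degrees of the coefficients at most `h`.
* `NRM' a Ξ`: at the rational points `(t, y)` of the curve `y_i² = a_i(t)` the property of `Ξ(t, y) ≠ 0` to be a square does not
  depend on `y`.
* `pts a Ξ`: the rational points of `y_i² = a_i(t)`, `s² = Ξ(t, y)`.
-/

namespace Pool.Agent.H3.FS

open Polynomial

section
variable {k : Type} [Field k] {ρ : ℕ}

/-- independence of the `a_i` modulo constants and squares -/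
def Ind (a : Fin ρ → k[X]) : Prop :=
  ∀ I : Finset (Fin ρ), I.Nonempty → ∀ (c : k) (g : k[X]), ∏ i ∈ I, a i ≠ C c * g ^ 2

/-- value of `Ξ` at `y` over `f : k[t] → L` -/
noncomputable def mv {L : Type} [CommRing L] (f : k[X] →+* L) (Ξ : MvPolynomial (Fin ρ) k[X])
    (y : Fin ρ → L) : L :=
  MvPolynomial.eval₂ f y Ξ

/-- value at a rational point -/
noncomputable def mve (Ξ : MvPolynomial (Fin ρ) k[X]) (t : k) (y : Fin ρ → k) : k :=
  mv (evalRingHom t) Ξ y

/-- `Ξ(√a)` is not a square in `k(t, √a)` -/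
def NS (a : Fin ρ → k[X]) (Ξ : MvPolynomial (Fin ρ) k[X]) : Prop :=
  ∀ (L : Type) [Field L] (f : k[X] →+* L), Function.Injective f → ∀ y : Fin ρ → L,
    (∀ i, y i ^ 2 = f (a i)) → ∀ w ∈ Subfield.closure (Set.range f ∪ Set.range y), w ^ 2 ≠ mv f Ξ y

/-- bounds for the degrees of `Ξ` -/
def Bd (h d : ℕ) (Ξ : MvPolynomial (Fin ρ) k[X]) : Prop :=
  Ξ.totalDegree ≤ d ∧ ∀ α, (Ξ.coeff α).natDegree ≤ h

/-- over `y_i² = a_i(t)` -/
def Ov (a : Fin ρ → k[X]) (t : k) (y : Fin ρ → k) : Prop := ∀ i, y i ^ 2 = (a i).eval t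

/-- the character of `Ξ` depends only on `t` -/
def NRM' (a : Fin ρ → k[X]) (Ξ : MvPolynomial (Fin ρ) k[X]) : Prop :=
  ∀ (t : k) (y y' : Fin ρ → k), Ov a t y → Ov a t y' → mve Ξ t y ≠ 0 → mve Ξ t y' ≠ 0 →
    IsSquare (mve Ξ t y) → IsSquare (mve Ξ t y')

/-- rational points -/
def pts (a : Fin ρ → k[X]) (Ξ : MvPolynomial (Fin ρ) k[X]) : Set (k × (Fin ρ → k) × k) :=
  {x | Ov a x.1 x.2.1 ∧ x.2.2 ^ 2 = mve Ξ x.1 x.2.1}

/-- the sum of the quadratic character -/
noncomputable def chs (a : Fin ρ → k[X]) (Ξ : MvPolynomial (Fin ρ) k[X]) : ℝ :=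
  ∑ᶠ x : k × (Fin ρ → k), by
    classical exact if Ov a x.1 x.2 then H94.PC.ch (mve Ξ x.1 x.2) else 0

end

/-- the field `E` is an extension of the finite field `F` of degree `m` -/
structure Exn (F E : Type) [Field F] [Field E] [Finite F] [Algebra F E] (m : ℕ) : Prop where
  fin : Finite E
  deg : Module.finrank F E = m

end Pool.Agent.H3.FS
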