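import Pool.Agent.H3.FS.THE
import Pool.Agent.H3.FS.CHD

set_option autoImplicit false

/-!
# [H3 FS TND] Products of the `a_i` are not squares in the fraction field, before and after the change of variable

* `sq_of_frac`: in `k[X]`: `x² f = z²`, `x ≠ 0` implies that `f` is a square (`x² ∣ z²`, so `x ∣ z`: `pow_dvd_pow_iff`).
* `tnd0`: from `Ind a`: `x² ∏_I a_i = z²` implies `x = 0` (`I` not empty).
* `tnd`: the same for `theta c (2h) (a_i)`.  Proof: otherwise `∏_I theta c (2h) (a_i) = w²` (`sq_of_frac`).  The left side is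
  `theta c (2 h #I) (∏_I a_i)` (`theta_mul`, induction), of degree `≤ 2 h #I`, so `deg w ≤ h #I` and `w = theta c (h #I) w'`
  (`theta_surj`), `w² = theta c (2 h #I) (w'²)`, so `∏_I a_i = w'²` (`theta_inj`), against `Ind a` (constant `1`).
-/

namespace Pool.Agent.H3.FS

open Polynomial

variable {k : Type} [Field k] {ρ : ℕ}

theorem sq_of_frac {f x z : k[X]} (hx : x ≠ 0) (h : x ^ 2 * f = z ^ 2) : ∃ g, f = g ^ 2 := by
  have h1 : x ^ 2 ∣ z ^ 2 := ⟨f, h.symm⟩
  have h2 : x ∣ z := (IsIntegrallyClosed.pow_dvd_pow_iff two_ne_zero).1 h1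
  obtain ⟨g, rfl⟩ := h2
  refine ⟨g, ?_⟩
  rw [mul_pow] at h
  exact mul_left_cancel₀ (pow_ne_zero 2 hx) h

theorem tnd0 {a : Fin ρ → k[X]} (hI : Ind a) (I : Finset (Fin ρ)) (hn : I.Nonempty) (x z : k[X])
    (h : x ^ 2 * ∏ i ∈ I, a i = z ^ 2) : x = 0 := by
  by_contra hx
  obtain ⟨g, hg⟩ := sq_of_frac hx h
  exact hI I hn 1 g (by rw [hg, map_one, one_mul])

private theorem prod_deg {a : Fin ρ → k[X]} {h : ℕ} (ha : ∀ i, (a i).natDegree ≤ h)
    (I : Finset (Fin ρ)) : (∏ i ∈ I, a i).natDegree ≤ I.card * (2 * h) := by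
  refine (natDegree_prod_le I a).trans ?_
  refine (Finset.sum_le_card_nsmul I _ (2 * h) fun i _ => ?_).trans ?_
  · have := ha i
    omega
  · simp

private theorem theta_one (c : k) : theta c 0 (1 : k[X]) = 1 := by
  unfold theta
  simp

private theorem prod_theta {a : Fin ρ → k[X]} {h : ℕ} (ha : ∀ i, (a i).natDegree ≤ h) (c : k)
    (I : Finset (Fin ρ)) :
    ∏ i ∈ I, theta c (2 * h) (a i) = theta c (I.card * (2 * h)) (∏ i ∈ I, a i) := by
  classical
  induction I using Finset.induction_on with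
  | empty => simp [theta_one]
  | insert i s hi ih =>
    rw [Finset.prod_insert hi, Finset.prod_insert hi, ih, Finset.card_insert_of_notMem hi]
    have h1 : (s.card + 1) * (2 * h) = 2 * h + s.card * (2 * h) := by ring
    rw [h1, theta_mul c (by have := ha i; omega) (prod_deg ha s)]

theorem tnd {a : Fin ρ → k[X]} {h : ℕ} (ha : ∀ i, (a i).natDegree ≤ h) (hI : Ind a) (c : k)
    (I : Finset (Fin ρ)) (hn : I.Nonempty) (x z : k[X])
    (h : x ^ 2 * ∏ i ∈ I, theta c (2 * h) (a i) = z ^ 2) : x = 0 := by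
  rename_i h0
  by_contra hx
  obtain ⟨w, hw⟩ := sq_of_frac hx h
  rw [prod_theta ha] at hw
  have hd : (theta c (I.card * (2 * h0)) (∏ i ∈ I, a i)).natDegree ≤ I.card * (2 * h0) :=
    theta_deg c (prod_deg ha I)
  rw [hw, natDegree_pow] at hd
  have hdw : w.natDegree ≤ I.card * h0 := by
    have : I.card * (2 * h0) = 2 * (I.card * h0) := by ring
    omega
  obtain ⟨w', hw', rfl⟩ := theta_surj c hdw
  have h2 : I.card * (2 * h0) = I.card * h0 + I.card * h0 := by ring
  rw [sq, ← theta_mul c hw' hw', h2] at hw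
  have h3 := theta_inj c (h2 ▸ prod_deg ha I)
    ((natDegree_mul_le).trans (by omega : w'.natDegree + w'.natDegree ≤ I.card * h0 + I.card * h0)) hw
  exact hI I hn 1 w' (by rw [h3, map_one, one_mul, sq])

end Pool.Agent.H3.FS
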