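import Pool.Agent.H3.FS.TOW
import Pool.Agent.H3.FS.TND
import Pool.Agent.H3.FS.CLO

set_option autoImplicit false

/-!
# [H3 FS NSI] `ν a_(ρ+1)` is not a square in `k(t, √a_1, ..., √a_ρ)`

If `a_1, ..., a_(ρ+1)` are independent (`Ind`), then the constant polynomial `ν a_(ρ+1)` (`ν ∈ k^*`) satisfies `NS` for
`a_1, ..., a_ρ`.  Proof: let `R` be the tower of `tow` for `A = k[X]` and `a_1, ..., a_ρ` (`tnd0` for the sub-family: a subset of
`Fin ρ` is mapped to a subset of `Fin (ρ + 1)` by `Fin.castSucc`), `ψ : R → L` from `clo`.  If `w² = f(ν a_last)` with `w` in the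
closure, then `ψ(x) w = ψ(z)`, `x ≠ 0`, so `x² (ν a_last) = z²` in `R` (`ψ` injective); by the last clause of `tow` there are `I` and
`x' ≠ 0` with `x'² (ν a_last ∏_I a_i) = z'²`, so `ν a_last ∏_I a_i = g²` (`sq_of_frac`), `∏ over I ∪ {last} = ν⁻¹ g²`,
against `Ind`.
-/

namespace Pool.Agent.H3.FS

open Polynomial

theorem nsi {k : Type} [Field k] {ρ : ℕ} (h2 : (2 : k) ≠ 0) {a : Fin (ρ + 1) → k[X]} (hI : Ind a)
    {ν : k} (hν : ν ≠ 0) :
    NS (fun i => a (Fin.castSucc i)) (MvPolynomial.C (C ν * a (Fin.last ρ))) := by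
  intro L _ f hf y hy w hw hww
  have hI' : Ind (fun i => a (Fin.castSucc i)) := by
    intro I hne c g h
    refine hI (I.map Fin.castSuccEmb) (hne.map) c g ?_
    rw [Finset.prod_map]
    exact h
  have h2' : (2 : k[X]) ≠ 0 := by
    intro h
    apply h2
    have h3 : (C (2 : k) : k[X]) = 0 := by
      rw [map_ofNat C 2]
      exact h
    exact C_eq_zero.1 h3
  obtain ⟨R, _, _, _, yR, b, hyR, hb, hsq⟩ := tow h2' ρ (fun i => a (Fin.castSucc i))
    (fun I hn x z h => tnd0 hI' I hn x z h)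
  obtain ⟨ψ, hψ, hψf, -, hψw⟩ := clo (fun i => a (Fin.castSucc i)) yR hyR b hb f hf y hy
  obtain ⟨x, z, hx, hxz⟩ := hψw w hw
  have h4 : mv f (MvPolynomial.C (C ν * a (Fin.last ρ))) y = f (C ν * a (Fin.last ρ)) := by
    unfold mv
    rw [MvPolynomial.eval₂_C]
  rw [h4, ← hψf] at hww
  have h5 : x ^ 2 * algebraMap k[X] R (C ν * a (Fin.last ρ)) = z ^ 2 := by
    apply hψ
    rw [map_mul, map_pow, map_pow, ← hxz, ← hww, mul_pow]
  obtain ⟨I, x', z', hx', h'⟩ := hsq _ x z hx h5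
  obtain ⟨g, hg⟩ := sq_of_frac hx' h'
  have hnot : Fin.last ρ ∉ I.map Fin.castSuccEmb := by
    rw [Finset.mem_map]
    rintro ⟨i, -, hi⟩
    exact (Fin.castSucc_lt_last i).ne hi
  refine hI (insert (Fin.last ρ) (I.map Fin.castSuccEmb)) (Finset.insert_nonempty _ _) ν⁻¹ g ?_
  rw [Finset.prod_insert hnot, Finset.prod_map, ← hg]
  have h6 : (C ν⁻¹ * C ν : k[X]) = 1 := by
    rw [← C_mul, inv_mul_cancel₀ hν, C_1]
  calc a (Fin.last ρ) * ∏ i ∈ I, a (Fin.castSuccEmb i)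
      = (C ν⁻¹ * C ν) * (a (Fin.last ρ) * ∏ i ∈ I, a (Fin.castSuccEmb i)) := by rw [h6, one_mul]
    _ = C ν⁻¹ * (C ν * a (Fin.last ρ) * ∏ i ∈ I, a (Fin.castSucc i)) := by
        rw [mul_assoc, mul_assoc]
        rfl

end Pool.Agent.H3.FS
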