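import Pool.Agent.H3.FS.UPB
import Pool.Agent.H3.FS.NSI

set_option autoImplicit false

/-!
# [H3 FS ALO] The lower bound for the number of points of the multiquadratic curve

`#{(t, y) : y_i² = a_i(t)} ≥ Q - K h √Q`.

Proof.  `ρ = 0`: equality with `Q`.  `ρ + 1`: fix a non-square `ν_0 ∈ k`.  For `ν ∈ {1, ν_0}^(ρ+1)` let `a^ν_i = ν_i a_i`; `Ind a^ν` holds
(the constants are absorbed).  The points `(t, y)` of `a^ν` correspond to `pts (a^ν ∘ castSucc) (C (C ν_last * a_last))`
(`(t, y) ↦ (t, y ∘ castSucc, y last)`, `mve (C f) t y = f(t)`); `NS` is `nsi`, `NRM'` is trivial (the value does not depend on `y`),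
`Bd h 0`.  So by `upb p ρ 0` each of these sets has at most `Q + K_1 h √Q` elements.  On the other hand for `t ∈ k` with all
`a_i(t) ≠ 0` (all but `(ρ + 1) h` of the `t`) exactly one of `a_i(t)`, `ν_0 a_i(t)` is a square, with two roots: the sum over all `ν` of
the number of `y` is `2^(ρ+1)`.  So the sum over the `2^(ρ+1)` vectors `ν` of the numbers of points is at least
`2^(ρ+1) (Q - (ρ + 1) h)`, and the term of `ν = (1, ..., 1)` is at least
`2^(ρ+1) (Q - (ρ + 1) h) - (2^(ρ+1) - 1)(Q + K_1 h √Q) ≥ Q - 2^(ρ+1) ((ρ + 1) + K_1) h √Q`.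
-/

namespace Pool.Agent.H3.FS

open Polynomial

private theorem alo_sq {k : Type} [Field k] [Fintype k] [DecidableEq k] (h2 : (2 : k) ≠ 0) (x : k) :
    ((Finset.univ.filter (fun s : k => s ^ 2 = x)).card : ℝ) = 1 + H94.PC.ch x := by
  by_cases h0 : x = 0
  · subst h0
    have h1 : Finset.univ.filter (fun s : k => s ^ 2 = 0) = {0} := by
      ext s
      simp
    rw [h1, Finset.card_singleton, H94.PC.ch_zero]
    simp
  · by_cases hs : IsSquare x
    · obtain ⟨z, hz⟩ := hs
      have hz0 : z ≠ 0 := by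
        rintro rfl
        apply h0
        rw [hz, mul_zero]
      have hne : z ≠ -z := by
        intro h3
        have h4 : 2 * z = 0 := by
          have : z + z = 0 := by
            nth_rewrite 2 [h3]
            ring
          rw [two_mul]
          exact this
        rcases mul_eq_zero.1 h4 with h5 | h5
        · exact h2 h5
        · exact hz0 h5
      have h1 : Finset.univ.filter (fun s : k => s ^ 2 = x) = {z, -z} := by
        ext s
        rw [Finset.mem_filter, Finset.mem_insert, Finset.mem_singleton]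
        constructor
        · rintro ⟨-, h5⟩
          rw [hz, ← sq] at h5
          exact sq_eq_sq_iff_eq_or_eq_neg.1 h5
        · rintro (rfl | rfl)
          · exact ⟨Finset.mem_univ _, by rw [hz, sq]⟩
          · exact ⟨Finset.mem_univ _, by rw [hz]; ring⟩
      rw [h1, Finset.card_pair hne, H94.PC.ch_of_sq h0 ⟨z, hz⟩]
      norm_num
    · have h1 : Finset.univ.filter (fun s : k => s ^ 2 = x) = ∅ := by
        rw [Finset.filter_eq_empty_iff]
        intro s _ h5
        exact hs ⟨s, by rw [← h5, sq]⟩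
      rw [h1, Finset.card_empty, H94.PC.ch_of_not hs]
      norm_num

private theorem alo_card {k : Type} [Field k] [Fintype k] [DecidableEq k] {n : ℕ} (a : Fin n → k[X]) :
    {x : k × (Fin n → k) | Ov a x.1 x.2}.ncard =
      ∑ t : k, ∏ i, (Finset.univ.filter (fun s : k => s ^ 2 = (a i).eval t)).card := by
  classical
  have h1 : {x : k × (Fin n → k) | Ov a x.1 x.2} =
      ((Finset.univ.filter (fun x : k × (Fin n → k) => Ov a x.1 x.2) : Finset (k × (Fin n → k))) :
        Set (k × (Fin n → k))) := by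
    ext x
    simp
  rw [h1, Set.ncard_coe_finset, Finset.card_filter, Fintype.sum_prod_type]
  refine Finset.sum_congr rfl fun t _ => ?_
  rw [← Finset.card_filter, ← Fintype.card_piFinset]
  congr 1
  ext y
  simp [Ov, Fintype.mem_piFinset]

private theorem alo_ind {k : Type} [Field k] {n : ℕ} {a : Fin n → k[X]} (hI : Ind a) (c : Fin n → k)
    (hc : ∀ i, c i ≠ 0) : Ind (fun i => C (c i) * a i) := by
  intro I hne c' g h
  refine hI I hne ((∏ i ∈ I, c i)⁻¹ * c') g ?_
  have h0 : ∏ i ∈ I, c i ≠ 0 := Finset.prod_ne_zero_iff.2 fun i _ => hc i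
  rw [Finset.prod_mul_distrib, ← map_prod] at h
  calc ∏ i ∈ I, a i = C ((∏ i ∈ I, c i)⁻¹) * (C (∏ i ∈ I, c i) * ∏ i ∈ I, a i) := by
        rw [← mul_assoc, ← C_mul, inv_mul_cancel₀ h0, C_1, one_mul]
    _ = C ((∏ i ∈ I, c i)⁻¹ * c') * g ^ 2 := by
        rw [h, C_mul, mul_assoc]

private theorem alo_up {k : Type} [Field k] [Finite k] {n : ℕ} (a : Fin (n + 1) → k[X]) :
    {x : k × (Fin (n + 1) → k) | Ov a x.1 x.2}.ncard ≤
      (pts (fun i => a (Fin.castSucc i)) (MvPolynomial.C (C 1 * a (Fin.last n)))).ncard := by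
  refine Set.ncard_le_ncard_of_injOn (fun x : k × (Fin (n + 1) → k) =>
    (x.1, (fun i => x.2 (Fin.castSucc i)), x.2 (Fin.last n))) ?_ ?_ (Set.toFinite _)
  · rintro ⟨t, y⟩ hx
    refine ⟨fun i => hx (Fin.castSucc i), ?_⟩
    show y (Fin.last n) ^ 2 = mve _ t _
    unfold mve mv
    rw [MvPolynomial.eval₂_C]
    have h1 := hx (Fin.last n)
    simp only at h1
    rw [h1]
    simp
  · rintro ⟨t, y⟩ _ ⟨t', y'⟩ _ h
    simp only [Prod.mk.injEq] at h
    obtain ⟨rfl, h1, h2⟩ := h
    congr 1
    funext i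
    refine Fin.lastCases ?_ (fun j => ?_) i
    · exact h2
    · exact congrFun h1 j

theorem alo (p ρ : ℕ) [Fact p.Prime] (hp : p ≠ 2) : ∃ K : ℝ, 0 ≤ K ∧
    ∀ (k : Type) [Field k] [Finite k] [CharP k p] (h : ℕ) (a : Fin ρ → k[X]), 1 ≤ h →
      (∀ i, (a i).natDegree ≤ h) → Ind a →
      Nat.card k - K * h * √(Nat.card k) ≤
        ({x : k × (Fin ρ → k) | Ov a x.1 x.2}.ncard : ℝ) := by
  cases ρ with
  | zero =>
    refine ⟨0, le_rfl, ?_⟩
    intro k _ _ _ h a hh ha hI
    have h1 : {x : k × (Fin 0 → k) | Ov a x.1 x.2} = Set.univ := by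
      ext x
      simp only [Set.mem_setOf_eq, Set.mem_univ, iff_true]
      intro i
      exact i.elim0
    have h3 : Nat.card (Fin 0 → k) = 1 := Nat.card_unique
    rw [h1, Set.ncard_univ, Nat.card_prod, h3]
    simp
  | succ n =>
    obtain ⟨K1, hK1, hup⟩ := upb p n 0 hp
    refine ⟨2 ^ (n + 1) * K1, by positivity, ?_⟩
    intro k _ _ _ h a hh ha hI
    classical
    have hfk : Fintype k := Fintype.ofFinite k
    have h2 : (2 : k) ≠ 0 := by
      intro h0
      have h1 : ((2 : ℕ) : k) = 0 := by exact_mod_cast h0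
      rw [CharP.cast_eq_zero_iff k p 2] at h1
      have h3 := Nat.le_of_dvd (by norm_num) h1
      have h4 := (Fact.out : p.Prime).two_le
      omega
    obtain ⟨ν, hν⟩ := H94.PC.exists_ch_neg h2
    have hν0 : ν ≠ 0 := by
      rintro rfl
      rw [H94.PC.ch_zero] at hν
      norm_num at hν
    obtain ⟨c, hc⟩ : ∃ c : Bool → k, c = fun b => if b then ν else 1 := ⟨_, rfl⟩
    have hc0 : ∀ b, c b ≠ 0 := by
      intro b
      rw [hc]
      cases b
      · simp
      · simpa using hν0
    obtain ⟨N, hN⟩ : ∃ N : (Fin (n + 1) → Bool) → ℕ, N = fun x =>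
      {z : k × (Fin (n + 1) → k) | Ov (fun i => C (c (x i)) * a i) z.1 z.2}.ncard := ⟨_, rfl⟩
    obtain ⟨Q, hQ⟩ : ∃ Q : ℝ, Q = (Nat.card k : ℝ) := ⟨_, rfl⟩
    have hQ0 : 0 ≤ Q := by rw [hQ]; positivity
    -- the upper bounds
    have hu : ∀ x, (N x : ℝ) ≤ Q + K1 * h * √Q := by
      intro x
      have hdeg : ∀ i, (C (c (x i)) * a i).natDegree ≤ h := fun i =>
        (natDegree_C_mul_le _ _).trans (ha i)
      have hI' := alo_ind hI (fun i => c (x i)) (fun i => hc0 _)
      have h3 := hup k h (fun i => C (c (x (Fin.castSucc i))) * a (Fin.castSucc i))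
        (MvPolynomial.C (C 1 * (C (c (x (Fin.last n))) * a (Fin.last n)))) hh
        (fun i => hdeg _) ⟨by rw [MvPolynomial.totalDegree_C], fun α => by
          rw [MvPolynomial.coeff_C]
          split_ifs
          · rw [C_1, one_mul]
            exact hdeg _
          · simp⟩ (by
          intro I hne c' g h4
          refine hI' (I.map Fin.castSuccEmb) (hne.map) c' g ?_
          rw [Finset.prod_map]
          exact h4)
        (nsi h2 hI' one_ne_zero) (by
          intro t y y' _ _ _ _ h5
          unfold mve mv at h5 ⊢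
          rw [MvPolynomial.eval₂_C] at h5 ⊢
          exact h5)
      have h4 := alo_up (fun i => C (c (x i)) * a i)
      rw [hQ]
      refine le_trans ?_ h3
      rw [hN]
      exact_mod_cast h4
    -- the sum
    have hs : ∑ x, (N x : ℝ) = 2 ^ (n + 1) * Q := by
      have h3 : ∀ x, (N x : ℝ) = ∑ t : k, ∏ i, (1 + H94.PC.ch (c (x i) * (a i).eval t)) := by
        intro x
        rw [hN]
        simp only
        rw [alo_card]
        push_cast
        refine Finset.sum_congr rfl fun t _ => Finset.prod_congr rfl fun i _ => ?_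
        rw [eval_mul, eval_C]
        exact alo_sq h2 _
      rw [Finset.sum_congr rfl fun x _ => h3 x, Finset.sum_comm]
      have h4 : ∀ t : k, ∑ x : Fin (n + 1) → Bool, ∏ i, (1 + H94.PC.ch (c (x i) * (a i).eval t)) =
          2 ^ (n + 1) := by
        intro t
        have h5 := Finset.prod_univ_sum (fun _ : Fin (n + 1) => (Finset.univ : Finset Bool))
          (fun i b => 1 + H94.PC.ch (c b * (a i).eval t))
        rw [Fintype.piFinset_univ] at h5
        rw [← h5]
        have h6 : ∀ i : Fin (n + 1), ∑ b : Bool, (1 + H94.PC.ch (c b * (a i).eval t)) = 2 := by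
          intro i
          rw [Fintype.sum_bool, hc]
          simp only [if_true, Bool.false_eq_true, if_false, one_mul]
          rw [H94.PC.ch_mul, hν]
          ring
        rw [Finset.prod_congr rfl fun i _ => h6 i, Finset.prod_const, Finset.card_univ, Fintype.card_fin]
      rw [Finset.sum_congr rfl fun t _ => h4 t, Finset.sum_const, Finset.card_univ, nsmul_eq_mul, hQ,
        Nat.card_eq_fintype_card, mul_comm]
    have h0 : (N (fun _ => false) : ℝ) = ({x : k × (Fin (n + 1) → k) | Ov a x.1 x.2}.ncard : ℝ) := by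
      rw [hN]
      simp only
      have e : (fun i => C (c false) * a i) = a := by
        funext i
        rw [hc]
        simp
      rw [e]
    rw [← hQ, ← h0]
    have h5 := Finset.add_sum_erase Finset.univ (fun x => (N x : ℝ)) (Finset.mem_univ (fun _ => false))
    rw [hs] at h5
    have h6 : ∑ x ∈ Finset.univ.erase (fun _ : Fin (n + 1) => false), (N x : ℝ) ≤
        (2 ^ (n + 1) - 1) * (Q + K1 * h * √Q) := by
      refine (Finset.sum_le_sum fun x _ => hu x).trans (le_of_eq ?_)
      rw [Finset.sum_const, nsmul_eq_mul, Finset.card_erase_of_mem (Finset.mem_univ _), Finset.card_univ,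
        Fintype.card_fun, Fintype.card_bool, Fintype.card_fin, Nat.cast_sub Nat.one_le_two_pow]
      push_cast
      ring
    have h7 : 0 ≤ K1 * h * √Q := by positivity
    have e1 : ((2 : ℝ) ^ (n + 1) - 1) * (Q + K1 * h * √Q) =
        2 ^ (n + 1) * Q - Q + 2 ^ (n + 1) * K1 * h * √Q - K1 * h * √Q := by ring
    rw [e1] at h6
    linarith

end Pool.Agent.H3.FS
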