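import Mathlib

set_option autoImplicit false

/-!
# [H3 FS LFT] Homomorphisms from the tower

`R` an `A`-algebra with `y_i² = a_i` and basis `b_S = ∏_{i ∈ S} y_i` (`S ⊆ Fin n`).  Every ring homomorphism `φ : A → T`
with elements `t_i ∈ T`, `t_i² = φ(a_i)`, extends to `R`.  Proof: `ψ(r) = ∑_S φ(b.repr r S) ∏_{i ∈ S} t_i` is additive and
`φ`-semilinear, `ψ 1 = 1` (`1 = b ∅`), and multiplicative: by bilinearity it is enough to see
`ψ(b_S b_S') = ψ(b_S) ψ(b_S')`; both sides come from `∏_S y ∏_S' y = ∏_{S ∩ S'} a_i · ∏_{S Δ S'} y_i` and the same identity for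
`t` (`Finset.prod_union_inter`, `symmDiff`).
-/

namespace Pool.Agent.H3.FS

private theorem lft_prod {R : Type} [CommRing R] {n : ℕ} (y : Fin n → R) (S S' : Finset (Fin n)) :
    (∏ i ∈ S, y i) * ∏ i ∈ S', y i = (∏ i ∈ S ∩ S', y i ^ 2) * ∏ i ∈ symmDiff S S', y i := by
  have h1 : (∏ i ∈ S, y i) = (∏ i ∈ S ∩ S', y i) * ∏ i ∈ S \ S', y i := by
    rw [← Finset.prod_inter_mul_prod_sdiff S S' y]
  have h2 : (∏ i ∈ S', y i) = (∏ i ∈ S ∩ S', y i) * ∏ i ∈ S' \ S, y i := by
    rw [← Finset.prod_inter_mul_prod_sdiff S' S y, Finset.inter_comm]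
  have h3 : (∏ i ∈ symmDiff S S', y i) = (∏ i ∈ S \ S', y i) * ∏ i ∈ S' \ S, y i := by
    rw [symmDiff_def, Finset.sup_eq_union, Finset.prod_union]
    rw [Finset.disjoint_left]
    intro i hi hi'
    rw [Finset.mem_sdiff] at hi hi'
    exact hi.2 hi'.1
  rw [Finset.prod_pow, h1, h2, h3]
  ring

theorem lft {A R T : Type} [CommRing A] [CommRing R] [CommRing T] [Algebra A R] {n : ℕ}
    (a : Fin n → A) (y : Fin n → R) (hy : ∀ i, y i ^ 2 = algebraMap A R (a i))
    (b : Module.Basis (Finset (Fin n)) A R) (hb : ∀ S, b S = ∏ i ∈ S, y i) (φ : A →+* T)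
    (t : Fin n → T) (ht : ∀ i, t i ^ 2 = φ (a i)) :
    ∃ ψ : R →+* T, (∀ f, ψ (algebraMap A R f) = φ f) ∧ ∀ i, ψ (y i) = t i := by
  let : Algebra A T := φ.toAlgebra
  have hφ : ∀ f, algebraMap A T f = φ f := fun f => rfl
  let L : R →ₗ[A] T := b.constr A fun S => ∏ i ∈ S, t i
  have hL : ∀ S, L (b S) = ∏ i ∈ S, t i := fun S => b.constr_basis A _ S
  have h1 : L 1 = 1 := by
    have h0 : b ∅ = 1 := by rw [hb, Finset.prod_empty]
    rw [← h0, hL, Finset.prod_empty]
  have hmulb : ∀ S S', L (b S * b S') = L (b S) * L (b S') := by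
    intro S S'
    have e1 : b S * b S' = (∏ i ∈ S ∩ S', a i) • b (symmDiff S S') := by
      rw [hb, hb, hb, lft_prod, Algebra.smul_def, map_prod]
      simp_rw [hy]
    rw [e1, map_smul, hL, hL, hL, lft_prod t S S', Algebra.smul_def, map_prod]
    simp_rw [ht, hφ]
  have hmul : ∀ x z, L (x * z) = L x * L z := by
    let M1 : R →ₗ[A] R →ₗ[A] T := (LinearMap.mul A R).compr₂ L
    let M2 : R →ₗ[A] R →ₗ[A] T := (LinearMap.mul A T).compl₁₂ L L
    have : M1 = M2 := by
      refine b.ext fun S => b.ext fun S' => ?_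
      exact hmulb S S'
    intro x z
    exact LinearMap.congr_fun (LinearMap.congr_fun this x) z
  let ψ : R →+* T :=
    { toFun := L
      map_one' := h1
      map_mul' := hmul
      map_zero' := map_zero L
      map_add' := map_add L }
  refine ⟨ψ, fun f => ?_, fun i => ?_⟩
  · show L (algebraMap A R f) = φ f
    rw [Algebra.algebraMap_eq_smul_one, map_smul, h1, Algebra.smul_def, mul_one, hφ]
  · show L (y i) = t i
    have h0 : b {i} = y i := by rw [hb, Finset.prod_singleton]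
    rw [← h0, hL, Finset.prod_singleton]

/-- the extension to one more square root: `R[√ξ] → T` -/
theorem lftq {R T : Type} [CommRing R] [CommRing T] (ξ : R) (ψ : R →+* T) (s : T)
    (hs : s ^ 2 = ψ ξ) : ∃ Ψ : QuadraticAlgebra R ξ 0 →+* T,
      ∀ z, Ψ z = ψ z.re + ψ z.im * s := by
  refine ⟨{ toFun := fun z => ψ z.re + ψ z.im * s
            map_one' := ?_
            map_mul' := ?_
            map_zero' := ?_
            map_add' := ?_ }, fun z => rfl⟩
  · show ψ (1 : QuadraticAlgebra R ξ 0).re + ψ (1 : QuadraticAlgebra R ξ 0).im * s = 1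
    rw [QuadraticAlgebra.re_one, QuadraticAlgebra.im_one]
    simp
  · intro x z
    show ψ (x * z).re + ψ (x * z).im * s = (ψ x.re + ψ x.im * s) * (ψ z.re + ψ z.im * s)
    rw [QuadraticAlgebra.re_mul, QuadraticAlgebra.im_mul]
    simp only [map_add, map_mul, map_zero]
    linear_combination (-(ψ x.im * ψ z.im)) * hs
  · show ψ (0 : QuadraticAlgebra R ξ 0).re + ψ (0 : QuadraticAlgebra R ξ 0).im * s = 0
    rw [QuadraticAlgebra.re_zero, QuadraticAlgebra.im_zero]
    simp
  · intro x z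
    show ψ (x + z).re + ψ (x + z).im * s = (ψ x.re + ψ x.im * s) + (ψ z.re + ψ z.im * s)
    rw [QuadraticAlgebra.re_add, QuadraticAlgebra.im_add, map_add, map_add]
    ring

end Pool.Agent.H3.FS
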