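import Pool.Agent.H3.FS.QDM

set_option autoImplicit false

/-!
# [H3 FS TOW] The tower of square roots

`A` a domain, `2 ≠ 0`, `a_1, ..., a_n ∈ A` such that no product of a non-empty subset is a square in the fraction field.
There is a domain `R ⊇ A` with elements `y_i`, `y_i² = a_i`, such that the products `∏_{i ∈ S} y_i` are a basis over `A`;
and if `f ∈ A` is a square in the fraction field of `R` (`x² f = z²`, `x ≠ 0`), then `f ∏_{i ∈ I} a_i` is a square in the fraction
field of `A` for some `I`.

Proof: induction on `n`.  `n = 0`: `R = A`.  `n → n + 1`: let `R, y, b` be the data for `a ∘ Fin.castSucc`, `α` the image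
of `a (Fin.last n)` in `R`.
* `B = QuadraticAlgebra R α 0` is a domain (`qdm`): if `x² α = z²` in `R`, `x ≠ 0`, then the last clause gives `I`, `x' ≠ 0` with
  `x'² (a_last ∏_I a_i) = z'²` in `A`, against the hypothesis for the set `I ∪ {last}`.
* `y_i` for `i < n`, and `y_last = ω`.  Basis: `b.smulTower (QuadraticAlgebra.basis α 0)`, reindexed by
  `Finset (Fin n) × Fin 2 ≃ Finset (Fin (n + 1))`, `(S, e) ↦ S ∪ {last if e = 1}`.
* last clause for `B`: `x² f = z²` in `B`, `x ≠ 0`.  Multiply by `(star x)²`: `x_1² f = z_1²` with `x_1 = norm x ∈ R`, `x_1 ≠ 0`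
  (`QuadraticAlgebra.algebraMap_norm_eq_mul_star`).  `z_1 = β + γ ω`: `z_1² = β² + α γ² + 2 β γ ω`, so `2 β γ = 0`, so
  `β = 0` or `γ = 0` (`2 ≠ 0` in `R`: it contains `A`).  `γ = 0`: `x_1² f = β²` in `R`: induction.  `β = 0`: `x_1² f = α γ²`, so
  `x_1² (f a_last) = (α γ)²`: induction for `f a_last`, set `I ∪ {last}`.
-/

namespace Pool.Agent.H3.FS

private def towE (n : ℕ) : Finset (Fin n) × Fin 2 ≃ Finset (Fin (n + 1)) where
  toFun p := if p.2 = 0 then p.1.map Fin.castSuccEmb else
    insert (Fin.last n) (p.1.map Fin.castSuccEmb)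
  invFun T := (Finset.univ.filter fun i => Fin.castSucc i ∈ T, if Fin.last n ∈ T then 1 else 0)
  left_inv := by
    rintro ⟨S, e⟩
    have hl : Fin.last n ∉ S.map Fin.castSuccEmb := by
      rw [Finset.mem_map]
      rintro ⟨i, -, hi⟩
      exact (Fin.castSucc_lt_last i).ne hi
    fin_cases e
    · refine Prod.ext ?_ ?_
      · ext i
        simp
      · simp
    · refine Prod.ext ?_ ?_
      · ext i
        simp [(Fin.castSucc_lt_last i).ne]
      · simp
  right_inv := by
    intro T
    by_cases hT : Fin.last n ∈ T
    · simp only [hT, if_true]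
      ext i
      refine Fin.lastCases ?_ (fun i => ?_) i
      · simp [hT]
      · simp [(Fin.castSucc_lt_last i).ne]
    · simp only [hT, if_false]
      ext i
      refine Fin.lastCases ?_ (fun i => ?_) i
      · simp [hT]
      · simp

theorem tow {A : Type} [CommRing A] [IsDomain A] (h2 : (2 : A) ≠ 0) : ∀ (n : ℕ) (a : Fin n → A),
    (∀ I : Finset (Fin n), I.Nonempty → ∀ x z : A, x ^ 2 * ∏ i ∈ I, a i = z ^ 2 → x = 0) →
    ∃ (R : Type) (_ : CommRing R) (_ : IsDomain R) (_ : Algebra A R) (y : Fin n → R)
      (b : Module.Basis (Finset (Fin n)) A R), (∀ i, y i ^ 2 = algebraMap A R (a i)) ∧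
      (∀ S, b S = ∏ i ∈ S, y i) ∧
      (∀ (f : A) (x z : R), x ≠ 0 → x ^ 2 * algebraMap A R f = z ^ 2 →
        ∃ I : Finset (Fin n), ∃ x' z' : A, x' ≠ 0 ∧ x' ^ 2 * (f * ∏ i ∈ I, a i) = z' ^ 2) := by
  intro n
  induction n with
  | zero =>
    intro a _
    refine ⟨A, inferInstance, inferInstance, inferInstance, fun i => i.elim0,
      (Module.Basis.singleton (Finset (Fin 0)) A), fun i => i.elim0, fun S => ?_,
      fun f x z hx h => ⟨∅, x, z, hx, ?_⟩⟩
    · have hS : S = ∅ := Subsingleton.elim _ _
      rw [hS, Finset.prod_empty, Module.Basis.singleton_apply]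
    · rw [Finset.prod_empty, mul_one]
      exact h
  | succ n ih =>
    intro a ha
    obtain ⟨R, _, _, _, y, b, hy, hb, hsq⟩ := ih (fun i => a (Fin.castSucc i)) (by
      intro I hI x z h
      refine ha (I.map Fin.castSuccEmb) (hI.map) x z ?_
      rw [Finset.prod_map]
      exact h)
    have hinj : Function.Injective (algebraMap A R) := by
      intro u v huv
      have h0 : u • b ∅ = v • b ∅ := by
        rw [Algebra.smul_def, Algebra.smul_def, huv]
      have h1 := congrArg (fun r => b.repr r ∅) h0
      simp only [map_smul, Module.Basis.repr_self, Finsupp.smul_apply, Finsupp.single_eq_same,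
        smul_eq_mul, mul_one] at h1
      exact h1
    have hR2 : (2 : R) ≠ 0 := by
      intro h
      apply h2
      apply hinj
      rw [map_ofNat, map_zero, h]
    set α : R := algebraMap A R (a (Fin.last n)) with hα
    have hdom : IsDomain (QuadraticAlgebra R α 0) := by
      refine qdm α fun x z h => ?_
      by_contra hx
      obtain ⟨I, x', z', hx', h'⟩ := hsq (a (Fin.last n)) x z hx h
      refine hx' (ha (insert (Fin.last n) (I.map Fin.castSuccEmb)) (Finset.insert_nonempty _ _)
        x' z' ?_)
      rw [Finset.prod_insert, Finset.prod_map]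
      · exact h'
      · rw [Finset.mem_map]
        rintro ⟨i, -, hi⟩
        exact (Fin.castSucc_lt_last i).ne hi
    let B := QuadraticAlgebra R α 0
    let bb : Module.Basis (Finset (Fin n) × Fin 2) A B := b.smulTower (QuadraticAlgebra.basis α 0)
    let y' : Fin (n + 1) → B := Fin.lastCases (QuadraticAlgebra.omega) fun i => algebraMap R B (y i)
    have hy'l : y' (Fin.last n) = QuadraticAlgebra.omega := Fin.lastCases_last
    have hy'c : ∀ i, y' (Fin.castSucc i) = algebraMap R B (y i) := by
      intro i
      exact Fin.lastCases_castSucc i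
    have hω : (QuadraticAlgebra.omega : B) ^ 2 = algebraMap R B α := by
      rw [sq, QuadraticAlgebra.omega_mul_omega_eq_mk, QuadraticAlgebra.algebraMap_eq]
    have hb0 : QuadraticAlgebra.basis α 0 0 = (1 : B) := by
      apply (QuadraticAlgebra.basis α 0).repr.injective
      rw [Module.Basis.repr_self]
      ext i
      rw [QuadraticAlgebra.basis_repr_apply]
      fin_cases i
      · simp [QuadraticAlgebra.re_one]
      · simp [QuadraticAlgebra.im_one]
    have hb1 : QuadraticAlgebra.basis α 0 1 = (QuadraticAlgebra.omega : B) := by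
      apply (QuadraticAlgebra.basis α 0).repr.injective
      rw [Module.Basis.repr_self]
      ext i
      rw [QuadraticAlgebra.basis_repr_apply]
      fin_cases i
      · simp
      · simp
    refine ⟨B, inferInstance, hdom, inferInstance, y', bb.reindex (towE n), ?_, ?_, ?_⟩
    · intro i
      refine Fin.lastCases ?_ (fun i => ?_) i
      · rw [hy'l, hω, IsScalarTower.algebraMap_apply A R B]
      · rw [hy'c, ← map_pow, hy, ← IsScalarTower.algebraMap_apply A R B]
    · intro T
      obtain ⟨⟨S, e⟩, rfl⟩ := (towE n).surjective T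
      rw [Module.Basis.reindex_apply, Equiv.symm_apply_apply]
      have h1 : bb (S, e) = b S • QuadraticAlgebra.basis α 0 e := Module.Basis.smulTower_apply _ _ _
      have h3 : ∏ i ∈ S.map Fin.castSuccEmb, y' i = algebraMap R B (b S) := by
        rw [Finset.prod_map, hb, map_prod]
        refine Finset.prod_congr rfl fun i _ => ?_
        exact hy'c i
      rw [h1, Algebra.smul_def]
      fin_cases e
      · show algebraMap R B (b S) * QuadraticAlgebra.basis α 0 0 =
          ∏ i ∈ S.map Fin.castSuccEmb, y' i
        rw [h3, hb0, mul_one]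
      · show algebraMap R B (b S) * QuadraticAlgebra.basis α 0 1 =
          ∏ i ∈ insert (Fin.last n) (S.map Fin.castSuccEmb), y' i
        rw [Finset.prod_insert, h3, hb1, hy'l, mul_comm]
        rw [Finset.mem_map]
        rintro ⟨i, -, hi⟩
        exact (Fin.castSucc_lt_last i).ne hi
    · intro f x z hx h
      have hx1 : QuadraticAlgebra.norm x ≠ 0 := by
        intro h0
        have h4 := QuadraticAlgebra.algebraMap_norm_eq_mul_star x
        rw [h0, map_zero] at h4
        rcases mul_eq_zero.1 h4.symm with h5 | h5
        · exact hx h5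
        · apply hx
          rw [← star_star x, h5, star_zero]
      set x1 : R := QuadraticAlgebra.norm x with hx1d
      have h6 : algebraMap R B x1 = x * star x := QuadraticAlgebra.algebraMap_norm_eq_mul_star x
      have h7 : (algebraMap R B x1) ^ 2 * algebraMap R B (algebraMap A R f) = (z * star x) ^ 2 := by
        rw [h6, ← IsScalarTower.algebraMap_apply A R B, mul_pow, mul_pow, ← h]
        ring
      obtain ⟨w, hw⟩ : ∃ w : B, w = z * star x := ⟨_, rfl⟩
      rw [← hw, ← map_pow, ← map_mul] at h7
      have h8 : x1 ^ 2 * algebraMap A R f = w.re ^ 2 + α * w.im ^ 2 := by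
        have := congrArg QuadraticAlgebra.re h7
        rw [QuadraticAlgebra.algebraMap_re, sq w, QuadraticAlgebra.re_mul] at this
        rw [this]
        ring
      have h9 : 2 * (w.re * w.im) = 0 := by
        have := congrArg QuadraticAlgebra.im h7
        rw [QuadraticAlgebra.algebraMap_im, sq w, QuadraticAlgebra.im_mul] at this
        rw [zero_mul, zero_mul, add_zero] at this
        linear_combination -this
      rcases mul_eq_zero.1 ((mul_eq_zero.1 h9).resolve_left hR2) with h10 | h10
      · rw [h10] at h8
        have h11 : x1 ^ 2 * algebraMap A R (f * a (Fin.last n)) = (α * w.im) ^ 2 := by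
          rw [map_mul, ← hα]
          linear_combination α * h8
        obtain ⟨I, x', z', hx', h'⟩ := hsq _ _ _ hx1 h11
        refine ⟨insert (Fin.last n) (I.map Fin.castSuccEmb), x', z', hx', ?_⟩
        rw [Finset.prod_insert, Finset.prod_map, ← h']
        · simp only [Fin.coe_castSuccEmb]
          ring
        · rw [Finset.mem_map]
          rintro ⟨i, -, hi⟩
          exact (Fin.castSucc_lt_last i).ne hi
      · rw [h10] at h8
        have h11 : x1 ^ 2 * algebraMap A R f = w.re ^ 2 := by
          rw [h8]
          ring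
        obtain ⟨I, x', z', hx', h'⟩ := hsq _ _ _ hx1 h11
        refine ⟨I.map Fin.castSuccEmb, x', z', hx', ?_⟩
        rw [Finset.prod_map]
        exact h'

end Pool.Agent.H3.FS
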