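import Pool.Agent.H3.FS.DET

set_option autoImplicit false

/-!
# [H3 FS ZER] The number of rational zeros is at most the degree of the norm

`B` is an algebra over `k[X]` with finite basis `b`, `Y` a finite set of ring homomorphisms `y : B → k` which are the
identity on the constants, with `y G = 0`.  Then `#Y ≤ deg N(G)` if `N(G) ≠ 0`.

Proof.  For `y ∈ Y` put `u(y) = y X`; then `y (f • 1) = f(u(y))` for `f ∈ k[X]`.  For `u ∈ k` let `Y_u` be the set of
the `y ∈ Y` with `u(y) = u`.  The vectors `v_y = (y (b j))_j`, `y ∈ Y_u`, are linearly independent over `k`: if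
`∑ c_y v_y = 0` then `∑ c_y y(f) = 0` for all `f = ∑ f_j b_j` (`y f = ∑ f_j(u) y(b_j)`, the same `u` for all of them),
and different ring homomorphisms to a field are linearly independent (`linearIndependent_monoidHom`).  With
`M = Algebra.leftMulMatrix b G` one has `v_y M(u) = y(G) v_y = 0` (`G b_j = ∑_i M_ij b_i`).  So `det_dvd` gives
`(X - u)^(#Y_u) ∣ det M = N(G)` (`Algebra.norm_eq_matrix_det`); for different `u` these are coprime, so the product over
`u` divides `N(G) ≠ 0`, and the degrees give the claim.
-/

namespace Pool.Agent.H3.FS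

open Polynomial Matrix

theorem zer {k : Type} [Field k] {B : Type} [CommRing B] [Algebra k[X] B] {ι : Type} [Fintype ι]
    [DecidableEq ι] (b : Module.Basis ι k[X] B) (G : B) (hG : Algebra.norm k[X] G ≠ 0)
    (Y : Finset (B →+* k)) (hY : ∀ y ∈ Y, ∀ c : k, y (algebraMap k[X] B (C c)) = c)
    (hz : ∀ y ∈ Y, y G = 0) : Y.card ≤ (Algebra.norm k[X] G).natDegree := by
  classical
  obtain ⟨u, hu⟩ : ∃ u : (B →+* k) → k, u = fun y => y (algebraMap k[X] B X) := ⟨_, rfl⟩
  have hev : ∀ y ∈ Y, ∀ f : k[X], y (algebraMap k[X] B f) = f.eval (u y) := by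
    intro y hy f
    have h1 : y.comp (algebraMap k[X] B) = evalRingHom (u y) := by
      apply Polynomial.ringHom_ext
      · intro c
        rw [RingHom.comp_apply, hY y hy, coe_evalRingHom, eval_C]
      · rw [RingHom.comp_apply, coe_evalRingHom, eval_X, hu]
    have h2 := RingHom.congr_fun h1 f
    rw [RingHom.comp_apply, coe_evalRingHom] at h2
    exact h2
  have hsum : ∀ y ∈ Y, ∀ x : B, y x = ∑ j, (b.repr x j).eval (u y) * y (b j) := by
    intro y hy x
    conv_lhs => rw [← b.sum_repr x]
    rw [map_sum]
    refine Finset.sum_congr rfl fun j _ => ?_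
    rw [Algebra.smul_def, map_mul, hev y hy]
  obtain ⟨M, hM⟩ : ∃ M : Matrix ι ι k[X], M = Algebra.leftMulMatrix b G := ⟨_, rfl⟩
  have hN : Algebra.norm k[X] G = M.det := by
    rw [hM, Algebra.norm_eq_matrix_det b G]
  rw [hN] at hG ⊢
  have hdvd : ∀ w : k, (X - C w) ^ (Y.filter (fun y => u y = w)).card ∣ M.det := by
    intro w
    have hYw : ∀ y : {y // y ∈ Y.filter (fun y => u y = w)}, y.1 ∈ Y ∧ u y.1 = w := fun y =>
      Finset.mem_filter.1 y.2
    have hli : LinearIndependent k (fun (y : {y // y ∈ Y.filter (fun y => u y = w)}) (j : ι) => y.1 (b j)) := by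
      have h1 : LinearIndependent k (fun (y : {y // y ∈ Y.filter (fun y => u y = w)}) => (fun x : B => y.1 x)) :=
        (linearIndependent_monoidHom B k).comp
          (fun y : {y // y ∈ Y.filter (fun y => u y = w)} => ((y.1 : B →+* k) : B →* k)) (by
            intro y y' hyy
            apply Subtype.ext
            ext1 x
            exact DFunLike.congr_fun hyy x)
      rw [Fintype.linearIndependent_iff] at h1 ⊢
      intro g hg
      apply h1 g
      funext x
      rw [Finset.sum_apply]
      simp only [Pi.smul_apply, smul_eq_mul, Pi.zero_apply]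
      have h3 : ∀ y : {y // y ∈ Y.filter (fun y => u y = w)}, g y * y.1 x =
          ∑ j, (b.repr x j).eval w * (g y * y.1 (b j)) := by
        intro y
        rw [hsum y.1 (hYw y).1 x, (hYw y).2, Finset.mul_sum]
        refine Finset.sum_congr rfl fun j _ => ?_
        ring
      rw [Finset.sum_congr rfl fun y _ => h3 y, Finset.sum_comm]
      refine Finset.sum_eq_zero fun j _ => ?_
      rw [← Finset.mul_sum]
      have h4 := congrFun hg j
      rw [Finset.sum_apply] at h4
      simp only [Pi.smul_apply, smul_eq_mul, Pi.zero_apply] at h4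
      rw [h4, mul_zero]
    have h1 := det_dvd M w (fun (y : {y // y ∈ Y.filter (fun y => u y = w)}) (j : ι) => y.1 (b j)) hli (by
      intro y
      funext l
      rw [Matrix.vecMul, dotProduct, Pi.zero_apply]
      have h2 := hsum y.1 (hYw y).1 (G * b l)
      rw [map_mul, hz y.1 (hYw y).1, zero_mul, (hYw y).2] at h2
      rw [h2]
      refine Finset.sum_congr rfl fun j _ => ?_
      rw [Matrix.map_apply, hM, Algebra.leftMulMatrix_eq_repr_mul, mul_comm])
    rwa [Fintype.card_coe] at h1
  have hprod : ∏ w ∈ Y.image u, (X - C w) ^ (Y.filter (fun y => u y = w)).card ∣ M.det := by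
    apply Finset.prod_dvd_of_coprime
    · intro w _ w' _ hww
      have h1 : Pairwise (Function.onFun IsCoprime fun i : k => X - C i) :=
        pairwise_coprime_X_sub_C Function.injective_id
      exact (h1 hww).pow
    · exact fun w _ => hdvd w
  have hdeg := natDegree_le_of_dvd hprod hG
  rw [natDegree_prod_of_monic _ _ (fun w _ => (monic_X_sub_C w).pow _)] at hdeg
  refine le_trans (le_of_eq ?_) hdeg
  rw [Finset.card_eq_sum_card_fiberwise (fun y hy => Finset.mem_image_of_mem u hy)]
  refine Finset.sum_congr rfl fun w _ => ?_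
  rw [natDegree_pow, natDegree_X_sub_C, mul_one]

end Pool.Agent.H3.FS
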