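import Pool.Agent.H3.FS.BDG
import Pool.Agent.H3.FS.TND
import Pool.Agent.H3.FS.TOW
import Pool.Agent.H3.FS.LFT
import Pool.Agent.H3.FS.ZER

set_option autoImplicit false

/-!
# [H3 FS BAD] The number of bad values of `t`

The `t ∈ k` with `a_i(t) = 0` for some `i`, or `Ξ(t, y) = 0` for some `y` over `t`, are at most `ρ h + 2^ρ (d + 1) h`.

Proof.  First kind: `a_i ≠ 0` (`Ind` for `{i}` with `c = 0`), so at most `h` zeros each.  Second kind: let `R, y, b` be the tower of `tow`
for `A = k[X]`, `a` (`tnd0`), `G = Ξ(y) ∈ R`.  `G ≠ 0`: in `L = FractionRing R` with `f : k[X] → R → L` (injective) and `w = 0` the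
condition `NS` would be violated.  So `N(G) ≠ 0` (`Algebra.norm_ne_zero_iff` for a domain with finite basis, or directly).  For
every such `t` choose `η` over `t` with `Ξ(t, η) = 0`; `lft` (`φ = eval t`) gives `π_t : R → k`, the identity on constants,
`π_t(X) = t`, `π_t(G) = Ξ(t, η) = 0` (`MvPolynomial.eval₂` and homomorphisms: `MvPolynomial.eval₂_comp_left`/`hom_eval₂`); different `t`
give different `π_t`.  So by `zer` and `bdg` there are at most `2^ρ (d + 1) h` of them.
-/

namespace Pool.Agent.H3.FS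

open Polynomial

theorem bad {k : Type} [Field k] [Finite k] (h2 : (2 : k) ≠ 0) {ρ h d : ℕ} {a : Fin ρ → k[X]}
    {Ξ : MvPolynomial (Fin ρ) k[X]} (ha : ∀ i, (a i).natDegree ≤ h) (hΞ : Bd h d Ξ) (hI : Ind a)
    (hN : NS a Ξ) :
    {t : k | (∃ i, (a i).eval t = 0) ∨ ∃ y, Ov a t y ∧ mve Ξ t y = 0}.ncard ≤
      ρ * h + 2 ^ ρ * ((d + 1) * h) := by
  classical
  have : Fintype k := Fintype.ofFinite k
  have ha0 : ∀ i, a i ≠ 0 := by
    intro i h0
    apply hI {i} (Finset.singleton_nonempty i) 0 0
    rw [Finset.prod_singleton, h0]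
    simp
  have hS : {t : k | (∃ i, (a i).eval t = 0) ∨ ∃ y, Ov a t y ∧ mve Ξ t y = 0} ⊆
      {t : k | ∃ i, (a i).eval t = 0} ∪ {t : k | ∃ y, Ov a t y ∧ mve Ξ t y = 0} := by
    intro t ht
    exact ht
  refine (Set.ncard_le_ncard hS (Set.toFinite _)).trans ((Set.ncard_union_le _ _).trans ?_)
  apply Nat.add_le_add
  · have h1 : {t : k | ∃ i, (a i).eval t = 0} ⊆
        ((Finset.univ.biUnion fun i => (a i).roots.toFinset : Finset k) : Set k) := by
      rintro t ⟨i, hi⟩
      simp only [Finset.coe_biUnion, Finset.coe_univ, Set.mem_univ, Set.iUnion_true,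
        Set.mem_iUnion, Finset.mem_coe, Multiset.mem_toFinset]
      exact ⟨i, (mem_roots (ha0 i)).2 hi⟩
    refine (Set.ncard_le_ncard h1 (Set.toFinite _)).trans ?_
    rw [Set.ncard_coe_finset]
    refine Finset.card_biUnion_le.trans ?_
    refine (Finset.sum_le_card_nsmul Finset.univ _ h (fun i _ => ?_)).trans ?_
    · exact (Multiset.toFinset_card_le _).trans ((card_roots' _).trans (ha i))
    · simp
  · have h2' : (2 : k[X]) ≠ 0 := by
      intro h0
      apply h2
      have h1 := congrArg (eval 0) h0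
      simpa using h1
    obtain ⟨R, iR, iD, iA, y, b, hy, hb, -⟩ := tow h2' ρ a
      (fun I hn x z hxz => tnd0 hI I hn x z hxz)
    have hb1 : b ∅ = 1 := by rw [hb, Finset.prod_empty]
    have hinj : Function.Injective (algebraMap k[X] R) := by
      rw [injective_iff_map_eq_zero]
      intro f hf
      have h1 : f • b ∅ = 0 := by rw [hb1, Algebra.smul_def, hf, zero_mul]
      have h2 := congrArg (fun r => b.repr r ∅) h1
      simpa using h2
    have hG : mv (algebraMap k[X] R) Ξ y ≠ 0 := by
      intro h0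
      have hL : Function.Injective (algebraMap R (FractionRing R)) :=
        IsFractionRing.injective R (FractionRing R)
      have h1 := hN (FractionRing R) ((algebraMap R (FractionRing R)).comp (algebraMap k[X] R))
        (hL.comp hinj) (fun i => algebraMap R (FractionRing R) (y i))
        (fun i => by rw [← map_pow, hy i]; rfl) 0 (zero_mem _)
      apply h1
      unfold mv at h0 ⊢
      have h3 := MvPolynomial.eval₂_comp_left (algebraMap R (FractionRing R))
        (algebraMap k[X] R) y Ξ
      rw [h0, map_zero] at h3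
      rw [zero_pow two_ne_zero]
      exact h3
    have hn : Algebra.norm k[X] (mv (algebraMap k[X] R) Ξ y) ≠ 0 :=
      (Algebra.norm_ne_zero_iff_of_basis b).2 hG
    have hch : ∀ t : k, (∃ η, Ov a t η ∧ mve Ξ t η = 0) → ∃ ψ : R →+* k,
        (∀ f, ψ (algebraMap k[X] R f) = f.eval t) ∧
          ψ (mv (algebraMap k[X] R) Ξ y) = 0 := by
      rintro t ⟨η, hη, h0⟩
      obtain ⟨ψ, h1, h2⟩ := lft a y hy b hb (evalRingHom t) η (fun i => hη i)
      refine ⟨ψ, h1, ?_⟩
      unfold mve mv at h0
      unfold mv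
      rw [MvPolynomial.eval₂_comp_left]
      have h3 : ψ.comp (algebraMap k[X] R) = evalRingHom t := RingHom.ext h1
      have h4 : (ψ ∘ y) = η := funext h2
      rw [h3, h4]
      exact h0
    rcases isEmpty_or_nonempty (R →+* k) with he | he
    · have h0 : {t : k | ∃ y, Ov a t y ∧ mve Ξ t y = 0} = ∅ := by
        apply Set.eq_empty_of_forall_notMem
        intro t ht
        obtain ⟨ψ, -⟩ := hch t ht
        exact he.elim ψ
      rw [h0, Set.ncard_empty]
      exact Nat.zero_le _
    choose! ψ h3 h4 using hch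
    let Tt : Finset k := Finset.univ.filter (fun t => ∃ η, Ov a t η ∧ mve Ξ t η = 0)
    have hT : ∀ t, t ∈ Tt ↔ ∃ η, Ov a t η ∧ mve Ξ t η = 0 := by
      intro t
      simp [Tt]
    have hcard : {t : k | ∃ y, Ov a t y ∧ mve Ξ t y = 0}.ncard = Tt.card := by
      rw [← Set.ncard_coe_finset]
      congr 1
      ext t
      simp only [Set.mem_ofPred_eq, Finset.mem_coe]
      exact (hT t).symm
    rw [hcard]
    have hi : Set.InjOn ψ (Tt : Set k) := by
      intro t ht t' ht' he
      have h5 := h3 t ((hT t).1 ht) X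
      have h6 := h3 t' ((hT t').1 ht') X
      rw [he] at h5
      rw [h5] at h6
      simpa using h6
    rw [← Finset.card_image_of_injOn hi]
    refine (zer b _ hn (Tt.image ψ) ?_ ?_).trans (bdg ha hΞ y hy b hb)
    · intro φ hφ c
      obtain ⟨t, ht, rfl⟩ := Finset.mem_image.1 hφ
      rw [h3 t ((hT t).1 ht), eval_C]
    · intro φ hφ
      obtain ⟨t, ht, rfl⟩ := Finset.mem_image.1 hφ
      exact h4 t ((hT t).1 ht)

end Pool.Agent.H3.FS
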