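import Pool.Agent.H3.FS.LAU

set_option autoImplicit false

/-!
# [H3 FS BAS] Bases with different orders

Every finite dimensional subspace `W` of `k((z))` contains `dim W` non-zero elements with pairwise different orders.

Proof: induction on `n = dim W`.  `n = 0`: nothing.  `n + 1`: `W ≠ 0`.  The orders of the non-zero elements of `W` are bounded
below (take a finite spanning family and `m_0` = minimum of the orders of its non-zero members: all coefficients below `m_0` of
all elements vanish), so there is `w ∈ W`, `w ≠ 0`, of minimal order `m`.  The linear form `f ↦ coeff_m f` on `W` is not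
zero (at `w`: `HahnSeries.coeff_order_ne_zero`), so its kernel `W'` has dimension `n`; all non-zero elements of
`W'` have order `> m` (order `≥ m` by minimality, and the coefficient at `m` is zero).  Take the `n` elements for `W'`
and `w`.
-/

namespace Pool.Agent.H3.FS

open Polynomial

private theorem bas_aux {k : Type} [Field k] (n : ℕ) : ∀ (W : Submodule k (LaurentSeries k)),
    FiniteDimensional k W → Module.finrank k W = n →
    ∃ g : Fin n → LaurentSeries k, (∀ i, g i ∈ W) ∧ (∀ i, g i ≠ 0) ∧
      Function.Injective fun i => (g i).order := by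
  induction n with
  | zero =>
    intro W _ _
    exact ⟨fun _ => 0, fun i => i.elim0, fun i => i.elim0, fun i => i.elim0⟩
  | succ n ih =>
    intro W hW hn
    have hne : ∃ w : W, w ≠ 0 := by
      by_contra hc
      push Not at hc
      have h1 : Subsingleton W := ⟨fun a b => by rw [hc a, hc b]⟩
      have h2 : Module.finrank k W = 0 := Module.finrank_zero_of_subsingleton
      omega
    obtain ⟨w, hw⟩ := hne
    have hw0 : (w : LaurentSeries k) ≠ 0 := fun h => hw (Subtype.ext h)
    obtain ⟨m, hm⟩ : ∃ m : ℤ, m = (w : LaurentSeries k).order := ⟨_, rfl⟩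
    obtain ⟨f, hf⟩ : ∃ f : W →ₗ[k] k, ∀ x : W, f x = (x : LaurentSeries k).coeff m :=
      ⟨{ toFun := fun x => (x : LaurentSeries k).coeff m
         map_add' := fun x y => by rw [Submodule.coe_add, HahnSeries.coeff_add]
         map_smul' := fun c x => by
          rw [Submodule.coe_smul, HahnSeries.coeff_smul, RingHom.id_apply] }, fun _ => rfl⟩
    have hf0 : f ≠ 0 := by
      intro h
      have h1 := hf w
      rw [h, LinearMap.zero_apply, hm] at h1
      exact hw0 (HahnSeries.coeff_order_eq_zero.1 h1.symm)
    have hk := Module.Dual.finrank_ker_add_one_of_ne_zero (f := f) hf0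
    obtain ⟨W', hW'⟩ : ∃ W' : Submodule k (LaurentSeries k), W' = (LinearMap.ker f).map W.subtype := ⟨_, rfl⟩
    have hfr : Module.finrank k W' = n := by
      rw [hW', Submodule.finrank_map_subtype_eq]
      omega
    have hfd : FiniteDimensional k W' := by
      rw [hW']
      infer_instance
    obtain ⟨g, hg1, hg2, hg3⟩ := ih W' hfd hfr
    have hg4 : ∀ i, g i ∈ W ∧ (g i).coeff m = 0 := by
      intro i
      have h1 := hg1 i
      rw [hW', Submodule.mem_map] at h1
      obtain ⟨x, hx1, hx2⟩ := h1
      rw [LinearMap.mem_ker, hf] at hx1
      rw [← hx2]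
      exact ⟨x.2, hx1⟩
    have hg5 : ∀ i, (g i).order ≠ m := by
      intro i h
      have h1 := (hg4 i).2
      rw [← h] at h1
      exact hg2 i (HahnSeries.coeff_order_eq_zero.1 h1)
    refine ⟨Fin.cons (w : LaurentSeries k) g, ?_, ?_, ?_⟩
    · intro i
      refine Fin.cases ?_ (fun i => ?_) i
      · exact w.2
      · exact (hg4 i).1
    · intro i
      refine Fin.cases ?_ (fun i => ?_) i
      · exact hw0
      · exact hg2 i
    · intro i j
      refine Fin.cases ?_ (fun i => ?_) i
      · refine Fin.cases ?_ (fun j => ?_) j
        · exact fun _ => rfl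
        · intro h
          exact absurd (hm.trans h).symm (hg5 j)
      · refine Fin.cases ?_ (fun j => ?_) j
        · intro h
          exact absurd (h.trans hm.symm) (hg5 i)
        · intro h
          have h1 : i = j := hg3 h
          rw [h1]

theorem bas {k : Type} [Field k] (W : Submodule k (LaurentSeries k)) [FiniteDimensional k W] :
    ∃ g : Fin (Module.finrank k W) → LaurentSeries k, (∀ i, g i ∈ W) ∧ (∀ i, g i ≠ 0) ∧
      Function.Injective fun i => (g i).order := by
  exact bas_aux _ W inferInstance rfl

end Pool.Agent.H3.FS
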