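import Pool.Agent.H3.FS.CHD

set_option autoImplicit false

/-!
# [H3 FS BDG] The degree of the norm of `Ξ(√a)`

`R` an algebra over `k[X]` with `y_i² = a_i`, `deg a_i ≤ h`, and basis `b_S = ∏_{i ∈ S} y_i`; `Bd h d Ξ`.  Then the norm of `Ξ(y)` has
degree at most `2^ρ (d + 1) h`.

Proof.  Say that `r ∈ R` has size `≤ s` if all `b.repr r S` have degree `≤ s`.  Size of sums; size of `f • r` is `≤ deg f + size r`;
size of `y_i r` is `≤ size r + h` (`y_i b_S = b_(S ∪ i)` or `a_i b_(S \ i)`).  So `∏ y_i^(α_i) b_T` has size `≤ h |α|` and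
`Ξ(y) b_T` has size `≤ (d + 1) h`.  The norm is the determinant of `Algebra.leftMulMatrix b (Ξ(y))`
(`Algebra.norm_eq_matrix_det`), a square matrix of size `2^ρ` with entries of degree `≤ (d + 1) h` (`Matrix.det_apply`,
`natDegree_sum_le_of_forall_le`, `natDegree_prod_le`).
-/

namespace Pool.Agent.H3.FS

open Polynomial

section
variable {k : Type} [Field k] {ρ : ℕ} {R : Type} [CommRing R] [Algebra k[X] R]

private def Sz (b : Module.Basis (Finset (Fin ρ)) k[X] R) (s : ℕ) (r : R) : Prop :=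
  ∀ S, (b.repr r S).natDegree ≤ s

private theorem sz_mono {b : Module.Basis (Finset (Fin ρ)) k[X] R} {s s' : ℕ} {r : R}
    (h : Sz b s r) (hs : s ≤ s') : Sz b s' r := fun S => (h S).trans hs

private theorem sz_sum {b : Module.Basis (Finset (Fin ρ)) k[X] R} {s : ℕ} {ι : Type}
    (A : Finset ι) (f : ι → R) (h : ∀ i ∈ A, Sz b s (f i)) : Sz b s (∑ i ∈ A, f i) := by
  intro S
  rw [map_sum, Finsupp.finsetSum_apply]
  exact natDegree_sum_le_of_forall_le _ _ (fun i hi => h i hi S)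

private theorem sz_smul {b : Module.Basis (Finset (Fin ρ)) k[X] R} {s e : ℕ} {r : R} {f : k[X]}
    (hf : f.natDegree ≤ e) (h : Sz b s r) : Sz b (s + e) (f • r) := by
  intro S
  rw [map_smul, Finsupp.smul_apply, smul_eq_mul]
  have h1 := natDegree_mul_le (p := f) (q := b.repr r S)
  have h2 := h S
  omega

private theorem sz_basis (b : Module.Basis (Finset (Fin ρ)) k[X] R) (T : Finset (Fin ρ)) :
    Sz b 0 (b T) := by
  intro S
  rw [Module.Basis.repr_self, Finsupp.single_apply]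
  split_ifs <;> simp

private theorem sz_y {a : Fin ρ → k[X]} {h : ℕ} (ha : ∀ i, (a i).natDegree ≤ h)
    {y : Fin ρ → R} (hy : ∀ i, y i ^ 2 = algebraMap k[X] R (a i))
    {b : Module.Basis (Finset (Fin ρ)) k[X] R} (hb : ∀ S, b S = ∏ i ∈ S, y i) (i : Fin ρ)
    {s : ℕ} {r : R} (hr : Sz b s r) : Sz b (s + h) (y i * r) := by
  have h1 : y i * r = ∑ S, b.repr r S • (y i * b S) := by
    conv_lhs => rw [← b.sum_repr r]
    rw [Finset.mul_sum]
    exact Finset.sum_congr rfl (fun S _ => by rw [mul_smul_comm])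
  rw [h1]
  refine sz_sum _ _ (fun S _ => ?_)
  have h2 : Sz b h (y i * b S) := by
    by_cases hi : i ∈ S
    · have h3 : y i * b S = a i • b (S.erase i) := by
        rw [hb, hb, ← Finset.mul_prod_erase S y hi, ← mul_assoc, ← pow_two, hy i,
          Algebra.smul_def]
      rw [h3]
      exact sz_mono (sz_smul (ha i) (sz_basis b _)) (by omega)
    · have h3 : y i * b S = b (insert i S) := by
        rw [hb, hb, Finset.prod_insert hi]
      rw [h3]
      exact sz_mono (sz_basis b _) (by omega)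
  exact sz_mono (sz_smul (hr S) h2) (by omega)

private theorem sz_pow {a : Fin ρ → k[X]} {h : ℕ} (ha : ∀ i, (a i).natDegree ≤ h)
    {y : Fin ρ → R} (hy : ∀ i, y i ^ 2 = algebraMap k[X] R (a i))
    {b : Module.Basis (Finset (Fin ρ)) k[X] R} (hb : ∀ S, b S = ∏ i ∈ S, y i) (i : Fin ρ)
    (n : ℕ) {s : ℕ} {r : R} (hr : Sz b s r) : Sz b (s + n * h) (y i ^ n * r) := by
  induction n with
  | zero => simpa using hr
  | succ n ih =>
    have h1 : y i ^ (n + 1) * r = y i * (y i ^ n * r) := by ring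
    rw [h1]
    exact sz_mono (sz_y ha hy hb i ih) (by rw [Nat.succ_mul]; omega)

private theorem sz_prod {a : Fin ρ → k[X]} {h : ℕ} (ha : ∀ i, (a i).natDegree ≤ h)
    {y : Fin ρ → R} (hy : ∀ i, y i ^ 2 = algebraMap k[X] R (a i))
    {b : Module.Basis (Finset (Fin ρ)) k[X] R} (hb : ∀ S, b S = ∏ i ∈ S, y i)
    (α : Fin ρ → ℕ) (A : Finset (Fin ρ)) {s : ℕ} {r : R} (hr : Sz b s r) :
    Sz b (s + (∑ i ∈ A, α i) * h) ((∏ i ∈ A, y i ^ α i) * r) := by
  classical
  induction A using Finset.induction_on with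
  | empty => simpa using hr
  | insert i A hi ih =>
    rw [Finset.prod_insert hi, Finset.sum_insert hi, mul_assoc]
    refine sz_mono (sz_pow ha hy hb i (α i) ih) ?_
    rw [add_mul]
    omega

private theorem sz_mv {a : Fin ρ → k[X]} {h d : ℕ} {Ξ : MvPolynomial (Fin ρ) k[X]}
    (ha : ∀ i, (a i).natDegree ≤ h) (hΞ : Bd h d Ξ)
    {y : Fin ρ → R} (hy : ∀ i, y i ^ 2 = algebraMap k[X] R (a i))
    {b : Module.Basis (Finset (Fin ρ)) k[X] R} (hb : ∀ S, b S = ∏ i ∈ S, y i)
    (T : Finset (Fin ρ)) : Sz b ((d + 1) * h) (mv (algebraMap k[X] R) Ξ y * b T) := by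
  have h1 : mv (algebraMap k[X] R) Ξ y * b T
      = ∑ α ∈ Ξ.support, Ξ.coeff α • ((∏ i, y i ^ α i) * b T) := by
    unfold mv
    rw [MvPolynomial.eval₂_eq', Finset.sum_mul]
    exact Finset.sum_congr rfl (fun α _ => by rw [Algebra.smul_def, mul_assoc])
  rw [h1]
  refine sz_sum _ _ (fun α hα => ?_)
  have h2 : ∑ i, α i ≤ d := by
    have h3 := MvPolynomial.le_totalDegree hα
    rw [Finsupp.sum_fintype _ _ (fun _ => rfl)] at h3
    exact h3.trans hΞ.1
  have h4 := sz_smul (hΞ.2 α) (sz_prod ha hy hb (fun i => α i) Finset.univ (sz_basis b T))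
  refine sz_mono h4 ?_
  have h5 : (∑ i, α i) * h ≤ d * h := Nat.mul_le_mul_right h h2
  rw [add_mul]
  omega

end

theorem bdg {k : Type} [Field k] {ρ h d : ℕ} {a : Fin ρ → k[X]} {Ξ : MvPolynomial (Fin ρ) k[X]}
    (ha : ∀ i, (a i).natDegree ≤ h) (hΞ : Bd h d Ξ) {R : Type} [CommRing R] [Algebra k[X] R]
    (y : Fin ρ → R) (hy : ∀ i, y i ^ 2 = algebraMap k[X] R (a i))
    (b : Module.Basis (Finset (Fin ρ)) k[X] R) (hb : ∀ S, b S = ∏ i ∈ S, y i) :
    (Algebra.norm k[X] (mv (algebraMap k[X] R) Ξ y)).natDegree ≤ 2 ^ ρ * ((d + 1) * h) := by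
  classical
  rw [Algebra.norm_eq_matrix_det b, Matrix.det_apply]
  refine natDegree_sum_le_of_forall_le _ _ (fun σ _ => ?_)
  have h1 : (∏ i, Algebra.leftMulMatrix b (mv (algebraMap k[X] R) Ξ y) (σ i) i).natDegree
      ≤ 2 ^ ρ * ((d + 1) * h) := by
    refine (natDegree_prod_le _ _).trans ?_
    refine (Finset.sum_le_card_nsmul Finset.univ _ ((d + 1) * h) (fun T _ => ?_)).trans ?_
    · rw [Algebra.leftMulMatrix_eq_repr_mul]
      exact sz_mv ha hΞ hy hb T (σ T)
    · rw [smul_eq_mul, Finset.card_univ, Fintype.card_finset, Fintype.card_fin]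
  refine le_trans ?_ h1
  rcases Int.units_eq_one_or (Equiv.Perm.sign σ) with h2 | h2
  · rw [h2, one_smul]
  · rw [h2, Units.neg_smul, one_smul, natDegree_neg]

end Pool.Agent.H3.FS
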