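import Pool.Agent.H3.FS.XIV
import Pool.Agent.H3.FS.TND

set_option autoImplicit false

/-!
# [H3 FS BLB] `Ξ` is not a square in the fraction field of the tower

`R` a domain, algebra over `k[u]`, `y_i² = theta c (2h) (a_i)`, basis `b_S = ∏_{i ∈ S} y_i`; `ξ = xit c h e Ξ y`.  If `NS a Ξ`, then
`x² ξ = z²` in `R` implies `x = 0`.

Proof.  Let `L = FractionRing R`, `Ψ : R → L` the inclusion, `u = Ψ(X) ≠ 0` (`k[X] → R` is injective: `b` is a non-empty
basis), `g' : k[X] → L` with `g'(x) = Ψ(x)` for constants and `g'(X) = Ψ(c) + 1/u` (`Polynomial.eval₂RingHom`).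
* `g'` is injective: if `g' f = 0`, `N = deg f`, then `Ψ (theta c N f) = u^N g' f = 0` (`theta_map` for `g = Ψ ∘ algebraMap`), so
  `theta c N f = 0 = theta c N 0`, `f = 0` (`theta_inj`).
* `y'_i = Ψ(y_i)/u^h` satisfies `y'_i² = g'(a_i)` (`theta_map`, `N = 2h`).
* `Ψ(R)` is contained in `E = Subfield.closure (range g' ∪ range y')`: `u = (g'(X) - g'(C c))⁻¹ ∈ E`, constants, so
  `Ψ(k[X]) ⊆ E`; `Ψ(y_i) = y'_i u^h ∈ E`; and `r = ∑ repr_S b_S`.
* if `x² ξ = z²`, `x ≠ 0`: `w = Ψ(z) / (Ψ(x) u^e) ∈ E` and `w² = Ψ(ξ)/u^(2e) = mv g' Ξ y'` (`xiv`), against `NS`.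
-/

namespace Pool.Agent.H3.FS

open Polynomial

theorem blb {k : Type} [Field k] {ρ h d e : ℕ} {a : Fin ρ → k[X]} {Ξ : MvPolynomial (Fin ρ) k[X]}
    (ha : ∀ i, (a i).natDegree ≤ h) (hΞ : Bd h d Ξ) (he : h * (d + 1) ≤ 2 * e) (hN : NS a Ξ) (c : k)
    {R : Type} [CommRing R] [IsDomain R] [Algebra k[X] R] (y : Fin ρ → R)
    (hy : ∀ i, y i ^ 2 = algebraMap k[X] R (theta c (2 * h) (a i)))
    (b : Module.Basis (Finset (Fin ρ)) k[X] R) (hb : ∀ S, b S = ∏ i ∈ S, y i) (x z : R)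
    (hx : x ^ 2 * xit c h e Ξ y = z ^ 2) : x = 0 := by
  classical
  by_contra hx0
  obtain ⟨Ψ, hΨ⟩ : ∃ Ψ : R →+* FractionRing R, Function.Injective Ψ :=
    ⟨algebraMap R (FractionRing R), IsFractionRing.injective R (FractionRing R)⟩
  have hb1 : b ∅ = 1 := by rw [hb, Finset.prod_empty]
  have hinj : Function.Injective (algebraMap k[X] R) := by
    rw [injective_iff_map_eq_zero]
    intro f hf
    have h1 : f • b ∅ = 0 := by rw [hb1, Algebra.smul_def, hf, zero_mul]
    have h2 := congrArg (fun r => b.repr r ∅) h1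
    simpa using h2
  obtain ⟨G, hG⟩ : ∃ G : k[X] →+* FractionRing R, G = Ψ.comp (algebraMap k[X] R) := ⟨_, rfl⟩
  have hGa : ∀ f, G f = Ψ (algebraMap k[X] R f) := fun f => by rw [hG]; rfl
  have hGi : Function.Injective G := by
    rw [hG]
    exact hΨ.comp hinj
  have hu : G X ≠ 0 := by
    intro h0
    exact X_ne_zero (hGi (h0.trans (map_zero G).symm))
  obtain ⟨g', hg'⟩ : ∃ g' : k[X] →+* FractionRing R,
      g' = eval₂RingHom (G.comp C) (G (C c) + (G X)⁻¹) := ⟨_, rfl⟩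
  have hC : ∀ x : k, g' (C x) = G (C x) := by
    intro x
    rw [hg', coe_eval₂RingHom, eval₂_C]
    rfl
  have hX : g' X = G (C c) + (G X)⁻¹ := by
    rw [hg', coe_eval₂RingHom, eval₂_X]
  have hinj' : Function.Injective g' := by
    rw [injective_iff_map_eq_zero]
    intro f hf
    have h1 := theta_map c G g' hu hC hX (le_refl f.natDegree)
    rw [hf, mul_zero] at h1
    have h2 : theta c f.natDegree f = 0 := hGi (h1.trans (map_zero G).symm)
    apply theta_inj c (le_refl _) (by simp)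
    rw [h2]
    simp [theta]
  have hsq : ∀ i, (Ψ (y i) / G X ^ h) ^ 2 = g' (a i) := by
    intro i
    have h1 := theta_map c G g' hu hC hX (N := 2 * h) (f := a i) ((ha i).trans (by omega))
    rw [hGa (theta c (2 * h) (a i)), ← hy i, map_pow] at h1
    rw [div_pow, h1, ← pow_mul, mul_comm h 2]
    field_simp
  obtain ⟨E, hE⟩ : ∃ E : Subfield (FractionRing R),
      E = Subfield.closure (Set.range g' ∪ Set.range fun i => Ψ (y i) / G X ^ h) := ⟨_, rfl⟩
  have hgE : ∀ f, g' f ∈ E := by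
    intro f
    rw [hE]
    exact Subfield.subset_closure (Or.inl ⟨f, rfl⟩)
  have hyE : ∀ i, Ψ (y i) / G X ^ h ∈ E := by
    intro i
    rw [hE]
    exact Subfield.subset_closure (Or.inr ⟨i, rfl⟩)
  have huE : G X ∈ E := by
    have h1 : G X = (g' X - g' (C c))⁻¹ := by
      rw [hX, hC, add_sub_cancel_left, inv_inv]
    rw [h1]
    exact E.inv_mem (E.sub_mem (hgE _) (hgE _))
  have hGE : ∀ f, G f ∈ E := by
    intro f
    induction f using Polynomial.induction_on' with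
    | add p q hp hq =>
      rw [map_add]
      exact E.add_mem hp hq
    | monomial n x =>
      rw [← C_mul_X_pow_eq_monomial, map_mul, map_pow, ← hC]
      exact E.mul_mem (hgE _) (E.pow_mem huE n)
  have hyE' : ∀ i, Ψ (y i) ∈ E := by
    intro i
    have h1 : Ψ (y i) = Ψ (y i) / G X ^ h * G X ^ h := by
      field_simp
    rw [h1]
    exact E.mul_mem (hyE i) (E.pow_mem huE h)
  have hRE : ∀ r, Ψ r ∈ E := by
    intro r
    rw [← b.sum_repr r, map_sum]
    refine E.sum_mem (fun S _ => ?_)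
    rw [Algebra.smul_def, map_mul, ← hGa, hb, map_prod]
    exact E.mul_mem (hGE _) (E.prod_mem (fun i _ => hyE' i))
  have h1 := hN (FractionRing R) g' hinj' (fun i => Ψ (y i) / G X ^ h) hsq
    (Ψ z / (Ψ x * G X ^ e)) (by
      rw [← hE]
      exact E.div_mem (hRE z) (E.mul_mem (hRE x) (E.pow_mem huE e)))
  apply h1
  have h3 := xiv (c := c) hΞ he y Ψ (by rw [← hGa]; exact hu) g' (fun t => by rw [hC, hGa])
    (by rw [hX, hGa, hGa])
  have h4 : Ψ x ≠ 0 := by
    intro h0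
    exact hx0 (hΨ (h0.trans (map_zero Ψ).symm))
  have h5 := congrArg Ψ hx
  rw [map_mul, map_pow, map_pow, h3, ← hGa] at h5
  rw [div_pow, ← h5, mul_pow, ← pow_mul, mul_comm e 2]
  field_simp

end Pool.Agent.H3.FS
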