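import Mathlib

set_option autoImplicit false

/-!
# [H3 FS SQR] Square roots of Laurent series

`k` a field with `2 ≠ 0`.  A non-zero Laurent series of even order whose lowest coefficient is a square is a square.

Proof.  `f = z^(2m) F`, `F` a power series with constant coefficient `c² ≠ 0` (`LaurentSeries.powerSeriesPart`, or
`HahnSeries` arithmetic).  A power series `F` with constant coefficient `c² ≠ 0` is a square: either Hensel's lemma
(`PowerSeries` over a field is a complete local ring) or directly: define `g_0 = c` and recursively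
`g_n = (F_n - ∑_{0 < i < n} g_i g_(n-i)) / (2 c)`; then `g² = F`.
-/

namespace Pool.Agent.H3.FS

theorem sqr_ps {k : Type} [Field k] (h2 : (2 : k) ≠ 0) (F : PowerSeries k) (c : k) (hc : c ≠ 0)
    (h : PowerSeries.constantCoeff F = c ^ 2) : ∃ g : PowerSeries k, g ^ 2 = F := by
  set P : Polynomial (PowerSeries k) := Polynomial.X ^ 2 - Polynomial.C F with hP
  have hPm : P.Monic := Polynomial.monic_X_pow_sub_C F two_ne_zero
  have h1 : P.eval (PowerSeries.C c) ∈ (Ideal.span {PowerSeries.X} : Ideal (PowerSeries k)) := by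
    rw [Ideal.mem_span_singleton, PowerSeries.X_dvd_iff, hP, Polynomial.eval_sub,
      Polynomial.eval_pow, Polynomial.eval_X, Polynomial.eval_C, map_sub, map_pow, h,
      PowerSeries.constantCoeff_C, sub_self]
  have h3 : IsUnit (P.derivative.eval (PowerSeries.C c)) := by
    have e : P.derivative.eval (PowerSeries.C c) = 2 * PowerSeries.C c := by
      rw [hP, Polynomial.derivative_sub, Polynomial.derivative_C, sub_zero,
        Polynomial.derivative_X_pow]
      simp [Nat.cast_ofNat]
      try ring_nf
    rw [e, PowerSeries.isUnit_iff_constantCoeff, map_mul, PowerSeries.constantCoeff_C,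
      isUnit_iff_ne_zero, map_ofNat]
    exact mul_ne_zero h2 hc
  obtain ⟨g, hg, -⟩ := HenselianRing.is_henselian
    (I := (Ideal.span {PowerSeries.X} : Ideal (PowerSeries k))) P hPm
    (PowerSeries.C c) h1 (h3.map _)
  refine ⟨g, ?_⟩
  have h4 : P.eval g = 0 := hg
  rw [hP, Polynomial.eval_sub, Polynomial.eval_pow, Polynomial.eval_X, Polynomial.eval_C] at h4
  exact sub_eq_zero.1 h4

theorem sqr {k : Type} [Field k] (h2 : (2 : k) ≠ 0) (f : LaurentSeries k) (hf : f ≠ 0)
    (he : Even f.order) (hc : IsSquare (f.coeff f.order)) : ∃ g : LaurentSeries k, g ^ 2 = f := by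
  obtain ⟨m, hm⟩ := he
  obtain ⟨c, hc⟩ := hc
  have hf0 : f.coeff f.order ≠ 0 := fun h0 => hf (HahnSeries.coeff_order_eq_zero.1 h0)
  have hc0 : c ≠ 0 := by
    rintro rfl
    exact hf0 (by rw [hc, mul_zero])
  have h1 : PowerSeries.constantCoeff f.powerSeriesPart = c ^ 2 := by
    rw [← PowerSeries.coeff_zero_eq_constantCoeff_apply, LaurentSeries.powerSeriesPart_coeff,
      Nat.cast_zero, add_zero, hc, sq]
  obtain ⟨g, hg⟩ := sqr_ps h2 f.powerSeriesPart c hc0 h1
  refine ⟨HahnSeries.single m 1 * (g : LaurentSeries k), ?_⟩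
  have e1 : (HahnSeries.single m (1 : k)) ^ 2 = HahnSeries.single f.order 1 := by
    rw [sq, HahnSeries.single_mul_single, hm, mul_one]
  have e2 : ((g : PowerSeries k) : LaurentSeries k) ^ 2 = (f.powerSeriesPart : LaurentSeries k) := by
    rw [← hg]
    simp
  rw [mul_pow, e1, e2, LaurentSeries.single_order_mul_powerSeriesPart]

end Pool.Agent.H3.FS
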