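import Pool.Agent.H3.FS.XIV
import Pool.Agent.H3.FS.LFT
import Pool.Agent.H3.FS.SQR

set_option autoImplicit false

/-!
# [H3 FS BLC] The conjugates

`R` an algebra over `k[u]` with `y_i² = theta c (2h) (a_i)` and basis `b_S = ∏_{i ∈ S} y_i`; `ξ = xit c h e Ξ y`, `h (d + 1) ≤ 2 e`.
Above the place `t = c` everything splits: `a_i(c) = r_i² ≠ 0`, and `Ξ(c, y') ` is a non-zero square for all `y'` with
`y'_i² = a_i(c)`.  Then `B = R[√ξ]` has `2^(ρ+1)` different homomorphisms to `k((z))` over `lau`, indexed by `Finset (Fin ρ) × Fin 2`, and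
the orders of the images of the basis `b_S • ω^ε` are at least `-(ρ h + e)`.

Proof.  (1) `Y_i ∈ k((z))` with `Y_i² = lau (theta c (2h) (a_i))` (`sqr`, `lau_theta`: order `-2h`, lowest coefficient
`a_i(c) = r_i²`); then `ord Y_i = -h` and the lowest coefficient is `± r_i`; replace `Y_i` by `-Y_i` if it is `-r_i`.
(2) for `T ⊆ Fin ρ` let `φ_T : R → k((z))` be the homomorphism of `lft` with `y_i ↦ ε_i Y_i`, `ε_i = -1` for `i ∈ T`.
(3) `φ_T(ξ) = z^(-2e) Ξ(z^h ε_i Y_i)` with coefficients mapped by `g' : X ↦ c + z` (`xiv`, `u = z⁻¹`).  The Laurent series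
`Ξ(z^h ε_i Y_i)` is in the subring of power series, and its constant coefficient is `Ξ(c, (ε_i r_i)) ≠ 0`, a square
(reduction mod `z` is a ring homomorphism on power series; `MvPolynomial.eval₂`); so `φ_T(ξ) = S_T²` by `sqr`, `ord S_T = -e`,
`S_T ≠ 0`.
(4) `σ_(T, 0)`, `σ_(T, 1)` : `ω ↦ S_T`, `ω ↦ -S_T` (`lftq`).  They are different: `σ(y_i) = ε_i Y_i` determines `T`
(`Y_i ≠ -Y_i`), `σ(ω) = ± S_T` the second index.
(5) orders: `σ(b_S) = ± ∏_{i ∈ S} Y_i` has order `-h #S ≥ -ρ h`, and `σ(ω)` has order `-e`.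
-/

namespace Pool.Agent.H3.FS

open Polynomial

private theorem blc_ord {k : Type} [Field k] (G : PowerSeries k) :
    0 ≤ (HahnSeries.ofPowerSeries ℤ k G).order := by
  by_contra h
  push Not at h
  by_cases h0 : HahnSeries.ofPowerSeries ℤ k G = 0
  · rw [h0, HahnSeries.order_zero] at h
    exact lt_irrefl _ h
  · have h1 := mt HahnSeries.coeff_order_eq_zero.1 h0
    apply h1
    have h2 := PowerSeries.coeff_coe G (HahnSeries.ofPowerSeries ℤ k G).order
    rw [if_pos h] at h2
    exact h2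

private theorem blc_Y {k : Type} [Field k] {h : ℕ} {a0 : k} {Y f : LaurentSeries k}
    (hY : Y ^ 2 = f) (hf0 : f ≠ 0) (hord : f.order = -((2 * h : ℕ) : ℤ))
    (hco : f.coeff (-((2 * h : ℕ) : ℤ)) = a0) :
    Y ≠ 0 ∧ Y.order = -(h : ℤ) ∧ PowerSeries.constantCoeff Y.powerSeriesPart ^ 2 = a0 := by
  have hY0 : Y ≠ 0 := by
    rintro rfl
    apply hf0
    rw [← hY]
    ring
  have h1 : f.order = Y.order + Y.order := by
    rw [← hY, sq, HahnSeries.order_mul hY0 hY0]
  have h2 : Y.order = -(h : ℤ) := by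
    rw [hord] at h1
    push_cast at h1
    linarith
  refine ⟨hY0, h2, ?_⟩
  have h3 := HahnSeries.coeff_mul_order_add_order Y Y
  rw [← sq, hY, ← h1, hord, hco, HahnSeries.leadingCoeff_eq] at h3
  have h4 : PowerSeries.constantCoeff Y.powerSeriesPart = Y.coeff Y.order := by
    rw [← PowerSeries.coeff_zero_eq_constantCoeff_apply, LaurentSeries.powerSeriesPart_coeff,
      Nat.cast_zero, add_zero]
  rw [h4, sq, ← h3]

private theorem blc_prod {k : Type} [Field k] {ρ h : ℕ} {t : Fin ρ → LaurentSeries k}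
    (ht : ∀ i, t i ≠ 0 ∧ (t i).order = -(h : ℤ)) (S : Finset (Fin ρ)) :
    (∏ i ∈ S, t i) ≠ 0 ∧ (∏ i ∈ S, t i).order = -((S.card * h : ℕ) : ℤ) := by
  classical
  induction S using Finset.induction_on with
  | empty =>
    rw [Finset.prod_empty, HahnSeries.order_one]
    exact ⟨one_ne_zero, by simp⟩
  | insert i S hi ih =>
    rw [Finset.prod_insert hi]
    refine ⟨mul_ne_zero (ht i).1 ih.1, ?_⟩
    rw [HahnSeries.order_mul (ht i).1 ih.1, (ht i).2, ih.2, Finset.card_insert_of_notMem hi]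
    push_cast
    ring

theorem blc {k : Type} [Field k] (h2 : (2 : k) ≠ 0) {ρ h d e : ℕ} {a : Fin ρ → k[X]}
    {Ξ : MvPolynomial (Fin ρ) k[X]} (ha : ∀ i, (a i).natDegree ≤ h) (hΞ : Bd h d Ξ)
    (he : h * (d + 1) ≤ 2 * e) (c : k) (r : Fin ρ → k) (hr : Ov a c r)
    (hr0 : ∀ i, (a i).eval c ≠ 0) (hsq : ∀ y, Ov a c y → mve Ξ c y ≠ 0 ∧ IsSquare (mve Ξ c y))
    {R : Type} [CommRing R] [Algebra k[X] R] (y : Fin ρ → R)
    (hy : ∀ i, y i ^ 2 = algebraMap k[X] R (theta c (2 * h) (a i)))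
    (b : Module.Basis (Finset (Fin ρ)) k[X] R) (hb : ∀ S, b S = ∏ i ∈ S, y i) :
    ∃ σ : Finset (Fin ρ) × Fin 2 → (QuadraticAlgebra R (xit c h e Ξ y) 0 →+* LaurentSeries k),
      Function.Injective σ ∧
      (∀ i f, σ i (algebraMap R _ (algebraMap k[X] R f)) = lau k f) ∧
      ∀ i S ε, -((ρ * h + e : ℕ) : ℤ) ≤
        (σ i (b S • QuadraticAlgebra.basis (xit c h e Ξ y) 0 ε)).order := by
  classical
  have hdeg : ∀ i, (a i).natDegree ≤ 2 * h := fun i => (ha i).trans (by omega)
  have hlt := fun i => lau_theta c (hdeg i) (hr0 i)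
  have hlne : ∀ i, lau k (theta c (2 * h) (a i)) ≠ 0 := by
    intro i h0
    have h3 := (hlt i).2
    rw [h0, HahnSeries.coeff_zero] at h3
    exact hr0 i h3.symm
  have hYex : ∀ i, ∃ Y : LaurentSeries k, Y ^ 2 = lau k (theta c (2 * h) (a i)) := by
    intro i
    refine sqr h2 _ (hlne i) ?_ ?_
    · rw [(hlt i).1]
      exact ⟨-(h : ℤ), by push_cast; ring⟩
    · rw [(hlt i).1, (hlt i).2, ← hr i]
      exact ⟨r i, sq _⟩
  choose Y hY using hYex
  have hYp := fun i => blc_Y (hY i) (hlne i) (hlt i).1 (hlt i).2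
  have h2K : (2 : LaurentSeries k) ≠ 0 := by
    intro h0
    apply h2
    apply HahnSeries.C_injective (Γ := ℤ)
    rw [map_ofNat, map_zero]
    exact h0
  have hnegne : ∀ Z : LaurentSeries k, Z ≠ 0 → -Z ≠ Z := by
    intro Z hZ hneg
    have h3 : 2 * Z = 0 := by linear_combination -hneg
    rcases mul_eq_zero.1 h3 with h4 | h4
    · exact h2K h4
    · exact hZ h4
  -- the homomorphisms of `R`
  obtain ⟨t, ht⟩ : ∃ t : Finset (Fin ρ) → Fin ρ → LaurentSeries k,
      t = fun T i => if i ∈ T then -Y i else Y i := ⟨_, rfl⟩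
  have htp : ∀ T i, t T i ≠ 0 ∧ (t T i).order = -(h : ℤ) := by
    intro T i
    rw [ht]
    show (if i ∈ T then -Y i else Y i) ≠ 0 ∧ (if i ∈ T then -Y i else Y i).order = -(h : ℤ)
    split_ifs with hi
    · refine ⟨neg_ne_zero.2 (hYp i).1, ?_⟩
      rw [HahnSeries.order_neg]
      exact (hYp i).2.1
    · exact ⟨(hYp i).1, (hYp i).2.1⟩
  have ht2 : ∀ T i, t T i ^ 2 = lau k (theta c (2 * h) (a i)) := by
    intro T i
    rw [ht]
    show (if i ∈ T then -Y i else Y i) ^ 2 = _
    split_ifs with hi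
    · rw [neg_sq, hY]
    · exact hY i
  choose φ hφ1 hφ2 using fun T => lft (fun i => theta c (2 * h) (a i)) y hy b hb (lau k) (t T) (ht2 T)
  -- power series
  obtain ⟨P, hP⟩ : ∃ P : Finset (Fin ρ) → Fin ρ → PowerSeries k,
      P = fun T i => if i ∈ T then -(Y i).powerSeriesPart else (Y i).powerSeriesPart := ⟨_, rfl⟩
  have hu : lau k X = HahnSeries.single (-1 : ℤ) (1 : k) := lau_X
  have hupow : ∀ n : ℕ, (HahnSeries.single (-1 : ℤ) (1 : k)) ^ n =
      HahnSeries.single (-(n : ℤ)) (1 : k) := by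
    intro n
    rw [HahnSeries.single_pow, one_pow]
    congr 1
    simp
  have hsne : ∀ m : ℤ, (HahnSeries.single m (1 : k) : LaurentSeries k) ≠ 0 := by
    intro m h0
    exact one_ne_zero (HahnSeries.single_eq_zero_iff.1 h0)
  have htP : ∀ T i, t T i = HahnSeries.single (-(h : ℤ)) (1 : k) *
      HahnSeries.ofPowerSeries ℤ k (P T i) := by
    intro T i
    have h3 := LaurentSeries.single_order_mul_powerSeriesPart (Y i)
    rw [(hYp i).2.1] at h3
    rw [ht, hP]
    show (if i ∈ T then -Y i else Y i) = _ * HahnSeries.ofPowerSeries ℤ k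
      (if i ∈ T then -(Y i).powerSeriesPart else (Y i).powerSeriesPart)
    split_ifs with hi
    · rw [map_neg, mul_neg]
      exact congrArg (fun f => -f) h3.symm
    · exact h3.symm
  have hPc : ∀ T i, PowerSeries.constantCoeff (P T i) ^ 2 = (a i).eval c := by
    intro T i
    rw [hP]
    show PowerSeries.constantCoeff
      (if i ∈ T then -(Y i).powerSeriesPart else (Y i).powerSeriesPart) ^ 2 = _
    split_ifs with hi
    · rw [map_neg, neg_sq]
      exact (hYp i).2.2
    · exact (hYp i).2.2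
  obtain ⟨γ, hγ⟩ : ∃ γ : k[X] →+* PowerSeries k, γ = eval₂RingHom (PowerSeries.C : k →+* PowerSeries k)
    (PowerSeries.C c + PowerSeries.X) := ⟨_, rfl⟩
  have hγC : ∀ x, γ (C x) = PowerSeries.C x := by
    intro x
    rw [hγ]
    simp
  have hγX : γ X = PowerSeries.C c + PowerSeries.X := by
    rw [hγ]
    simp
  have hγ0 : (PowerSeries.constantCoeff : PowerSeries k →+* k).comp γ = evalRingHom c := by
    refine Polynomial.ringHom_ext ?_ ?_
    · intro x
      rw [RingHom.comp_apply, hγC, PowerSeries.constantCoeff_C, coe_evalRingHom, eval_C]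
    · rw [RingHom.comp_apply, hγX, map_add, PowerSeries.constantCoeff_C,
        PowerSeries.constantCoeff_X, coe_evalRingHom, eval_X, add_zero]
  obtain ⟨F, hF⟩ : ∃ F : Finset (Fin ρ) → PowerSeries k, F = fun T => MvPolynomial.eval₂ γ (P T) Ξ :=
    ⟨_, rfl⟩
  have hFc : ∀ T, PowerSeries.constantCoeff (F T) =
      mve Ξ c (fun i => PowerSeries.constantCoeff (P T i)) := by
    intro T
    rw [hF]
    show PowerSeries.constantCoeff (MvPolynomial.eval₂ γ (P T) Ξ) = _
    rw [MvPolynomial.eval₂_comp_left, hγ0]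
    rfl
  have hGex : ∀ T, ∃ G : PowerSeries k, G ^ 2 = F T ∧ G ≠ 0 := by
    intro T
    obtain ⟨h3, c', h4⟩ := hsq (fun i => PowerSeries.constantCoeff (P T i)) (hPc T)
    rw [← hFc T] at h3 h4
    have hc' : c' ≠ 0 := by
      rintro rfl
      apply h3
      rw [h4, mul_zero]
    obtain ⟨G, hG⟩ := sqr_ps h2 (F T) c' hc' (by rw [h4, sq])
    refine ⟨G, hG, ?_⟩
    rintro rfl
    apply h3
    rw [← hG]
    simp
  choose G hG hG0 using hGex
  obtain ⟨s, hs⟩ : ∃ s : Finset (Fin ρ) → LaurentSeries k, s = fun T =>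
    HahnSeries.single (-(e : ℤ)) (1 : k) * HahnSeries.ofPowerSeries ℤ k (G T) := ⟨_, rfl⟩
  have hιne : ∀ T, HahnSeries.ofPowerSeries ℤ k (G T) ≠ 0 := by
    intro T h0
    apply hG0 T
    apply HahnSeries.ofPowerSeries_injective (Γ := ℤ)
    rw [h0, map_zero]
  have hsp : ∀ T, s T ≠ 0 ∧ -(e : ℤ) ≤ (s T).order := by
    intro T
    rw [hs]
    refine ⟨mul_ne_zero (hsne _) (hιne T), ?_⟩
    show -(e : ℤ) ≤ (HahnSeries.single (-(e : ℤ)) (1 : k) *
      HahnSeries.ofPowerSeries ℤ k (G T)).order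
    rw [HahnSeries.order_mul (hsne _) (hιne T), HahnSeries.order_single one_ne_zero]
    have := blc_ord (G T)
    linarith
  have hs2 : ∀ T, s T ^ 2 = φ T (xit c h e Ξ y) := by
    intro T
    have hφX : φ T (algebraMap k[X] R X) = HahnSeries.single (-1 : ℤ) (1 : k) := by
      rw [hφ1, hu]
    rw [xiv hΞ he y (φ T) (by rw [hφX]; exact hsne _)
      ((HahnSeries.ofPowerSeries ℤ k).comp γ) ?_ ?_, hφX]
    · have h3 : (fun i => φ T (y i) / (HahnSeries.single (-1 : ℤ) (1 : k)) ^ h) =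
          fun i => HahnSeries.ofPowerSeries ℤ k (P T i) := by
        funext i
        rw [hφ2, htP, hupow, mul_div_cancel_left₀ _ (hsne _)]
      rw [h3, hs, hupow]
      show (HahnSeries.single (-(e : ℤ)) (1 : k) * HahnSeries.ofPowerSeries ℤ k (G T)) ^ 2 =
        _ * MvPolynomial.eval₂ _ _ Ξ
      have h4 : MvPolynomial.eval₂ ((HahnSeries.ofPowerSeries ℤ k).comp γ)
          (fun i => HahnSeries.ofPowerSeries ℤ k (P T i)) Ξ = HahnSeries.ofPowerSeries ℤ k (F T) := by
        rw [hF]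
        exact (MvPolynomial.eval₂_comp_left _ _ _ _).symm
      have h5 : HahnSeries.ofPowerSeries ℤ k (G T) ^ 2 = HahnSeries.ofPowerSeries ℤ k (F T) := by
        rw [← map_pow (HahnSeries.ofPowerSeries ℤ k), hG]
      rw [h4, mul_pow, h5, HahnSeries.single_pow, one_pow]
      congr 2
      push_cast
      simp
    · intro x
      rw [RingHom.comp_apply, hγC, hφ1, lau_C]
      exact HahnSeries.ofPowerSeries_C x
    · rw [RingHom.comp_apply, hγX, hφ1, hφ1, lau_C, hu, map_add]
      congr 1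
      · exact HahnSeries.ofPowerSeries_C c
      · rw [HahnSeries.ofPowerSeries_X]
        exact eq_inv_of_mul_eq_one_left (by rw [HahnSeries.single_mul_single]; simp)
  -- the homomorphisms of `B`
  obtain ⟨ss, hss⟩ : ∃ ss : Finset (Fin ρ) × Fin 2 → LaurentSeries k,
      ss = fun i => if i.2 = 0 then s i.1 else -s i.1 := ⟨_, rfl⟩
  have hss2 : ∀ i, ss i ^ 2 = φ i.1 (xit c h e Ξ y) := by
    intro i
    rw [hss]
    show (if i.2 = 0 then s i.1 else -s i.1) ^ 2 = _
    split_ifs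
    · exact hs2 i.1
    · rw [neg_sq]
      exact hs2 i.1
  have hssp : ∀ i, ss i ≠ 0 ∧ -(e : ℤ) ≤ (ss i).order := by
    intro i
    rw [hss]
    show (if i.2 = 0 then s i.1 else -s i.1) ≠ 0 ∧
      -(e : ℤ) ≤ (if i.2 = 0 then s i.1 else -s i.1).order
    split_ifs
    · exact hsp i.1
    · rw [HahnSeries.order_neg]
      exact ⟨neg_ne_zero.2 (hsp i.1).1, (hsp i.1).2⟩
  choose σ hσ using fun i => lftq (xit c h e Ξ y) (φ i.1) (ss i) (hss2 i)
  refine ⟨σ, ?_, ?_, ?_⟩
  · rintro ⟨T, ε⟩ ⟨T', ε'⟩ heq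
    have h3 : ∀ j, t T j = t T' j := by
      intro j
      have h4 := RingHom.congr_fun heq (⟨y j, 0⟩ : QuadraticAlgebra R (xit c h e Ξ y) 0)
      rw [hσ, hσ] at h4
      simp only [map_zero, zero_mul, add_zero] at h4
      rwa [hφ2, hφ2] at h4
    have hT : T = T' := by
      ext j
      have h4 := h3 j
      rw [ht] at h4
      simp only at h4
      by_cases hj : j ∈ T <;> by_cases hj' : j ∈ T'
      · exact ⟨fun _ => hj', fun _ => hj⟩
      · rw [if_pos hj, if_neg hj'] at h4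
        exact absurd h4 (hnegne _ (hYp j).1)
      · rw [if_neg hj, if_pos hj'] at h4
        exact absurd h4.symm (hnegne _ (hYp j).1)
      · exact ⟨fun h => absurd h hj, fun h => absurd h hj'⟩
    subst hT
    have h5 := RingHom.congr_fun heq (⟨0, 1⟩ : QuadraticAlgebra R (xit c h e Ξ y) 0)
    rw [hσ, hσ] at h5
    simp only [map_zero, zero_add, map_one, one_mul] at h5
    rw [hss] at h5
    simp only at h5
    have hε : ε = ε' := by
      by_cases h6 : ε = 0 <;> by_cases h7 : ε' = 0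
      · rw [h6, h7]
      · rw [if_pos h6, if_neg h7] at h5
        exact absurd h5.symm (hnegne _ (hsp T).1)
      · rw [if_neg h6, if_pos h7] at h5
        exact absurd h5 (hnegne _ (hsp T).1)
      · have : ∀ δ : Fin 2, δ ≠ 0 → δ = 1 := by decide
        rw [this _ h6, this _ h7]
    rw [hε]
  · intro i f
    rw [hσ]
    have h3 : (algebraMap R (QuadraticAlgebra R (xit c h e Ξ y) 0) (algebraMap k[X] R f)).re =
      algebraMap k[X] R f := rfl
    have h4 : (algebraMap R (QuadraticAlgebra R (xit c h e Ξ y) 0) (algebraMap k[X] R f)).im = 0 := rfl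
    rw [h3, h4, map_zero, zero_mul, add_zero, hφ1]
  · intro i S ε
    have hbS : φ i.1 (b S) = ∏ j ∈ S, t i.1 j := by
      rw [hb, map_prod]
      exact Finset.prod_congr rfl fun j _ => hφ2 i.1 j
    have hpr := blc_prod (htp i.1) S
    have hcard : S.card * h ≤ ρ * h := by
      refine Nat.mul_le_mul_right h ?_
      have := Finset.card_le_univ S
      rwa [Fintype.card_fin] at this
    have hcase : ∀ ε : Fin 2, ε = 0 ∨ ε = 1 := by decide
    rcases hcase ε with rfl | rfl
    · have h3 : b S • QuadraticAlgebra.basis (xit c h e Ξ y) 0 0 =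
          (⟨b S, 0⟩ : QuadraticAlgebra R (xit c h e Ξ y) 0) := by
        apply (QuadraticAlgebra.basis (xit c h e Ξ y) 0).repr.injective
        rw [map_smul, Module.Basis.repr_self]
        ext j
        fin_cases j <;> simp [QuadraticAlgebra.basis_repr_apply]
      rw [h3, hσ]
      show _ ≤ (φ i.1 (b S) + φ i.1 0 * ss i).order
      rw [map_zero, zero_mul, add_zero, hbS, hpr.2]
      push_cast
      have : ((S.card * h : ℕ) : ℤ) ≤ ((ρ * h : ℕ) : ℤ) := by exact_mod_cast hcard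
      push_cast at this
      have he0 : (0 : ℤ) ≤ e := Int.natCast_nonneg e
      linarith
    · have h3 : b S • QuadraticAlgebra.basis (xit c h e Ξ y) 0 1 =
          (⟨0, b S⟩ : QuadraticAlgebra R (xit c h e Ξ y) 0) := by
        apply (QuadraticAlgebra.basis (xit c h e Ξ y) 0).repr.injective
        rw [map_smul, Module.Basis.repr_self]
        ext j
        fin_cases j <;> simp [QuadraticAlgebra.basis_repr_apply]
      rw [h3, hσ]
      show _ ≤ (φ i.1 0 + φ i.1 (b S) * ss i).order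
      rw [map_zero, zero_add, hbS, HahnSeries.order_mul hpr.1 (hssp i).1, hpr.2]
      have h4 := (hssp i).2
      push_cast
      have : ((S.card * h : ℕ) : ℤ) ≤ ((ρ * h : ℕ) : ℤ) := by exact_mod_cast hcard
      push_cast at this
      linarith

end Pool.Agent.H3.FS
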