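import Pool.Agent.H3.FS.XIV
import Pool.Agent.H3.FS.LFT

set_option autoImplicit false

/-!
# [H3 FS BLP] Rational points as homomorphisms

`R` an algebra over `k[u]` with `y_i² = theta c (2h) (a_i)` and basis `b_S = ∏_{i ∈ S} y_i`; `ξ = xit c h e Ξ y`, `h (d + 1) ≤ 2 e`.
A rational point `(t, η, s)` of `η_i² = a_i(t)`, `s² = Ξ(t, η)` with `t ≠ c` gives `π : R[√ξ] → k` with
`u ↦ u_0 = (t - c)⁻¹`, `y_i ↦ η_i u_0^h`, `ω ↦ s u_0^e`, the identity on constants; different points give different `π`.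

Proof.  `φ = eval u_0 : k[X] → k`; `(η_i u_0^h)² = a_i(t) u_0^(2h) = φ(theta c (2h) (a_i))` (`theta_map` with
`g = evalRingHom u_0`, `g' = evalRingHom t`, `t = c + u_0⁻¹`); `lft` gives `ψ : R → k`; `ψ(ξ) = u_0^(2e) Ξ(t, η) = (s u_0^e)²` (`xiv` with
`Ψ = ψ`, `g' = evalRingHom t`); `lftq` gives `π`.  Injectivity: `π(X) = u_0` determines `t`, then `π(y_i)` and `π(ω)` determine
`η_i` and `s`.
-/

namespace Pool.Agent.H3.FS

open Polynomial

theorem blp {k : Type} [Field k] {ρ h d e : ℕ} {a : Fin ρ → k[X]}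
    {Ξ : MvPolynomial (Fin ρ) k[X]} (ha : ∀ i, (a i).natDegree ≤ h) (hΞ : Bd h d Ξ)
    (he : h * (d + 1) ≤ 2 * e) (c : k)
    {R : Type} [CommRing R] [Algebra k[X] R] (y : Fin ρ → R)
    (hy : ∀ i, y i ^ 2 = algebraMap k[X] R (theta c (2 * h) (a i)))
    (b : Module.Basis (Finset (Fin ρ)) k[X] R) (hb : ∀ S, b S = ∏ i ∈ S, y i) :
    ∃ π : {x : k × (Fin ρ → k) × k // x ∈ pts a Ξ ∧ x.1 ≠ c} →
        (QuadraticAlgebra R (xit c h e Ξ y) 0 →+* k), Function.Injective π ∧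
      ∀ x (c' : k), π x (algebraMap R _ (algebraMap k[X] R (C c'))) = c' := by
  have key : ∀ x : {x : k × (Fin ρ → k) × k // x ∈ pts a Ξ ∧ x.1 ≠ c},
      ∃ P : QuadraticAlgebra R (xit c h e Ξ y) 0 →+* k,
        (∀ f : k[X], P (algebraMap R _ (algebraMap k[X] R f)) = f.eval ((x.1.1 - c)⁻¹)) ∧
        (∀ i, P (algebraMap R _ (y i)) = x.1.2.1 i * ((x.1.1 - c)⁻¹) ^ h) ∧
        P ⟨0, 1⟩ = x.1.2.2 * ((x.1.1 - c)⁻¹) ^ e := by
    rintro ⟨⟨t, η, s⟩, ⟨h1, h2⟩, htc⟩
    simp only at h1 h2 htc ⊢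
    obtain ⟨u0, hu0⟩ : ∃ u0 : k, u0 = (t - c)⁻¹ := ⟨_, rfl⟩
    rw [← hu0]
    have hne : u0 ≠ 0 := by
      rw [hu0]
      exact inv_ne_zero (sub_ne_zero.2 htc)
    have htu : t = c + u0⁻¹ := by
      rw [hu0, inv_inv]
      ring
    have g1 : ∀ i, (η i * u0 ^ h) ^ 2 = (evalRingHom u0 : k[X] →+* k) (theta c (2 * h) (a i)) := by
      intro i
      rw [theta_map c (evalRingHom u0) (evalRingHom t) (by simpa using hne) (by intro x; simp)
        (by simpa using htu) ((ha i).trans (by omega))]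
      have := h1 i
      simp only [coe_evalRingHom, eval_X]
      rw [← this]
      ring
    obtain ⟨ψ, hψ1, hψ2⟩ := lft (fun i => theta c (2 * h) (a i)) y hy b hb (evalRingHom u0)
      (fun i => η i * u0 ^ h) g1
    have hX : ψ (algebraMap k[X] R X) = u0 := by
      rw [hψ1]
      simp
    have g2 := xiv hΞ he y ψ (by rw [hX]; exact hne) (evalRingHom t) (by
      intro x
      rw [hψ1]
      simp) (by
      rw [hψ1, hX]
      simpa using htu)
    rw [hX] at g2
    have e1 : (fun i => ψ (y i) / u0 ^ h) = η := by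
      funext i
      rw [hψ2 i]
      field_simp
    rw [e1] at g2
    have g3 : (s * u0 ^ e) ^ 2 = ψ (xit c h e Ξ y) := by
      rw [g2]
      have h2' : s ^ 2 = mv (evalRingHom t) Ξ η := h2
      rw [← h2']
      ring
    obtain ⟨P, hP⟩ := lftq (xit c h e Ξ y) ψ (s * u0 ^ e) g3
    refine ⟨P, fun f => ?_, fun i => ?_, ?_⟩
    · rw [hP, QuadraticAlgebra.algebraMap_eq]
      simp only [map_zero, zero_mul, add_zero]
      rw [hψ1]
      simp
    · rw [hP, QuadraticAlgebra.algebraMap_eq]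
      simp only [map_zero, zero_mul, add_zero]
      rw [hψ2]
    · rw [hP]
      simp
  choose π h1 h2 h3 using key
  refine ⟨π, ?_, fun x c' => ?_⟩
  · intro x x' hxx
    have hu : (x.1.1 - c)⁻¹ = (x'.1.1 - c)⁻¹ := by
      have g1 := h1 x X
      have g2 := h1 x' X
      rw [hxx, g2] at g1
      simpa using g1.symm
    have ht : x.1.1 = x'.1.1 := by
      have := inv_injective hu
      exact sub_left_injective this
    have hne : (x.1.1 - c)⁻¹ ≠ 0 := inv_ne_zero (sub_ne_zero.2 x.2.2)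
    have hη : x.1.2.1 = x'.1.2.1 := by
      funext i
      have g1 := h2 x i
      have g2 := h2 x' i
      rw [hxx, g2, ← hu] at g1
      exact (mul_right_cancel₀ (pow_ne_zero h hne) g1).symm
    have hs : x.1.2.2 = x'.1.2.2 := by
      have g1 := h3 x
      have g2 := h3 x'
      rw [hxx, g2, ← hu] at g1
      exact (mul_right_cancel₀ (pow_ne_zero e hne) g1).symm
    exact Subtype.ext (Prod.ext ht (Prod.ext hη hs))
  · rw [h1, eval_C]

end Pool.Agent.H3.FS
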