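import Pool.Agent.H3.FS.LAU

set_option autoImplicit false

/-!
# [H3 FS NRM] The norm is the product of the conjugates

`B` is an algebra over `k[X]` (`X = u = 1/z`) with finite basis `b` indexed by `ι`, `σ_i : B → k((z))` (`i ∈ ι`)
different ring homomorphisms which extend `lau`.  Then `lau (N G) = ∏ σ_i G`.

Proof.  Let `M = Algebra.leftMulMatrix b G`, `P_ij = σ_i (b_j)`, `D = diag(σ_i G)`.  Then `P * M.map lau = D * P`
(`G b_j = ∑_l M_lj b_l`, apply `σ_i`).  `det P ≠ 0`: otherwise there is a vector `c ≠ 0` with `c P = 0`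
(`Matrix.exists_vecMul_eq_zero_iff`), i.e. `∑ c_i σ_i (b_j) = 0` for all `j`, so `∑ c_i σ_i = 0` on `B` (`σ_i (∑ f_j b_j) =
∑ lau (f_j) σ_i (b_j)`), against the linear independence of characters (`linearIndependent_monoidHom`).  Now take
determinants (`Algebra.norm_eq_matrix_det`, `RingHom.map_det`).
-/

namespace Pool.Agent.H3.FS

open Polynomial Matrix

/-- the data: a basis of `B` over `k[X]`, the conjugates `σ_i`, and the bound `h` for the poles of the basis -/
structure Conj (k : Type) [Field k] (B : Type) [CommRing B] [Algebra k[X] B] (ι : Type) [Fintype ι]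
    (h : ℕ) where
  /-- basis -/
  b : Module.Basis ι k[X] B
  /-- conjugates -/
  σ : ι → B →+* LaurentSeries k
  inj : Function.Injective σ
  base : ∀ i f, σ i (algebraMap k[X] B f) = lau k f
  faith : ∀ i, Function.Injective (σ i)
  pole : ∀ i j, -(h : ℤ) ≤ (σ i (b j)).order

theorem nrm {k : Type} [Field k] {B : Type} [CommRing B] [Algebra k[X] B] {ι : Type} [Fintype ι]
    [DecidableEq ι] {h : ℕ} (c : Conj k B ι h) (G : B) :
    lau k (Algebra.norm k[X] G) = ∏ i, c.σ i G := by
  have hsmul : ∀ i (r : k[X]) (x : B), c.σ i (r • x) = lau k r * c.σ i x := by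
    intro i r x
    rw [Algebra.smul_def, map_mul, c.base]
  have hsum : ∀ i (x : B), c.σ i x = ∑ j, lau k (c.b.repr x j) * c.σ i (c.b j) := by
    intro i x
    conv_lhs => rw [← c.b.sum_repr x]
    rw [map_sum]
    exact Finset.sum_congr rfl fun j _ => hsmul i _ _
  obtain ⟨P, hP⟩ : ∃ P : Matrix ι ι (LaurentSeries k), P = Matrix.of (fun i j => c.σ i (c.b j)) := ⟨_, rfl⟩
  have hPij : ∀ i j, P i j = c.σ i (c.b j) := fun i j => by rw [hP, Matrix.of_apply]
  have hmul : P * (lau k).mapMatrix (Algebra.leftMulMatrix c.b G) = Matrix.diagonal (fun i => c.σ i G) * P := by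
    ext1 i l
    rw [Matrix.mul_apply, Matrix.diagonal_mul, hPij, ← map_mul, hsum i (G * c.b l)]
    refine Finset.sum_congr rfl fun j _ => ?_
    rw [RingHom.mapMatrix_apply, Matrix.map_apply, Algebra.leftMulMatrix_eq_repr_mul, hPij, mul_comm]
  have hdet : P.det ≠ 0 := by
    intro h0
    rw [← Matrix.exists_vecMul_eq_zero_iff] at h0
    obtain ⟨v, hv, hvP⟩ := h0
    apply hv
    have hli : LinearIndependent (LaurentSeries k) (fun i : ι => (fun x : B => c.σ i x)) := by
      have h1 := (linearIndependent_monoidHom B (LaurentSeries k)).comp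
        (fun i : ι => ((c.σ i : B →+* LaurentSeries k) : B →* LaurentSeries k)) (by
          intro i j hij
          apply c.inj
          ext1 x
          exact DFunLike.congr_fun hij x)
      exact h1
    rw [Fintype.linearIndependent_iff] at hli
    have h2 := hli v (by
      funext x
      rw [Finset.sum_apply]
      simp only [Pi.smul_apply, smul_eq_mul, Pi.zero_apply]
      have h3 : ∀ i, v i * c.σ i x = ∑ j, lau k (c.b.repr x j) * (v i * P i j) := by
        intro i
        rw [hsum i x, Finset.mul_sum]
        refine Finset.sum_congr rfl fun j _ => ?_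
        rw [hPij]
        ring
      rw [Finset.sum_congr rfl fun i _ => h3 i, Finset.sum_comm]
      refine Finset.sum_eq_zero fun j _ => ?_
      rw [← Finset.mul_sum]
      have h4 := congrFun hvP j
      rw [Matrix.vecMul, dotProduct, Pi.zero_apply] at h4
      rw [h4, mul_zero])
    funext i
    exact h2 i
  have h1 := congrArg Matrix.det hmul
  rw [Matrix.det_mul, Matrix.det_mul, Matrix.det_diagonal, ← RingHom.map_det, mul_comm] at h1
  rw [Algebra.norm_eq_matrix_det c.b G]
  exact mul_right_cancel₀ hdet h1

end Pool.Agent.H3.FS
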