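import Pool.Agent.H3.FS.BLB
import Pool.Agent.H3.FS.BLC
import Pool.Agent.H3.FS.BLP
import Pool.Agent.H3.FS.NRM
import Pool.Agent.H3.FS.TOW
import Pool.Agent.H3.FS.FAI

set_option autoImplicit false

/-!
# [H3 FS BLD] The ring `B`

Assembly.  `e = (d + 1) h`.  Let `R, y, b` be the tower of `tow` for `A = k[X]` and `theta c (2h) (a_i)` (`tnd`).
`B = QuadraticAlgebra R ξ 0`, `ξ = xit c h e Ξ y`, a domain by `qdm` and `blb`; basis `b.smulTower (QuadraticAlgebra.basis ξ 0)`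
(index `Finset (Fin ρ) × Fin 2`; `Module.Basis.smulTower_apply`), conjugates and pole bounds `ρ h + e = (ρ + d + 1) h` from `blc`, injectivity
of the conjugates from `fai` (`lau_inj`), points from `blp`.  `algebraMap k[X] B f = algebraMap R B (algebraMap k[X] R f)` by
`IsScalarTower`.
-/

namespace Pool.Agent.H3.FS

open Polynomial

theorem bld {k : Type} [Field k] (h2 : (2 : k) ≠ 0) {ρ h d : ℕ} {a : Fin ρ → k[X]}
    {Ξ : MvPolynomial (Fin ρ) k[X]} (ha : ∀ i, (a i).natDegree ≤ h) (hΞ : Bd h d Ξ) (hI : Ind a)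
    (hN : NS a Ξ) (c : k) (r : Fin ρ → k) (hr : Ov a c r)
    (hr0 : ∀ i, (a i).eval c ≠ 0) (hsq : ∀ y, Ov a c y → mve Ξ c y ≠ 0 ∧ IsSquare (mve Ξ c y)) :
    ∃ (B : Type) (_ : CommRing B) (_ : IsDomain B) (_ : Algebra k[X] B)
      (_ : Conj k B (Finset (Fin ρ) × Fin 2) ((ρ + d + 1) * h))
      (π : {x : k × (Fin ρ → k) × k // x ∈ pts a Ξ ∧ x.1 ≠ c} → (B →+* k)),
      Function.Injective π ∧ ∀ x (c' : k), π x (algebraMap k[X] B (C c')) = c' := by
  classical
  have h2' : (2 : k[X]) ≠ 0 := by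
    intro h0
    apply h2
    have h1 := congrArg (eval 0) h0
    simpa using h1
  obtain ⟨R, iR, iD, iA, y, b, hy, hb, -⟩ := tow h2' ρ (fun i => theta c (2 * h) (a i))
    (fun I hn x z hxz => tnd ha hI c I hn x z hxz)
  have he : h * (d + 1) ≤ 2 * ((d + 1) * h) := by
    rw [mul_comm h (d + 1)]
    omega
  have hdom : IsDomain (QuadraticAlgebra R (xit c h ((d + 1) * h) Ξ y) 0) :=
    qdm _ (fun x z hx => blb ha hΞ he hN c y hy b hb x z hx)
  obtain ⟨σ, hσ1, hσ2, hσ3⟩ := blc h2 ha hΞ he c r hr hr0 hsq y hy b hb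
  obtain ⟨π, hπ1, hπ2⟩ := blp ha hΞ he c y hy b hb
  have hbase : ∀ f : k[X], algebraMap k[X] (QuadraticAlgebra R (xit c h ((d + 1) * h) Ξ y) 0) f
      = algebraMap R _ (algebraMap k[X] R f) := fun f => IsScalarTower.algebraMap_apply _ _ _ f
  refine ⟨QuadraticAlgebra R (xit c h ((d + 1) * h) Ξ y) 0, inferInstance, hdom, inferInstance,
    { b := b.smulTower (QuadraticAlgebra.basis (xit c h ((d + 1) * h) Ξ y) 0)
      σ := σ
      inj := hσ1
      base := fun i f => by rw [hbase, hσ2]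
      faith := fun i => fai (b.smulTower (QuadraticAlgebra.basis (xit c h ((d + 1) * h) Ξ y) 0))
        (σ i) (fun f hf => ?_)
      pole := fun i j => ?_ }, π, hπ1, fun x c' => by rw [hbase, hπ2]⟩
  · rw [hbase, hσ2] at hf
    exact lau_inj (hf.trans (map_zero _).symm)
  · rw [Module.Basis.smulTower_apply]
    have h3 := hσ3 i j.1 j.2
    have h4 : ρ * h + (d + 1) * h = (ρ + d + 1) * h := by ring
    rw [h4] at h3
    exact h3

end Pool.Agent.H3.FS
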