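import Pool.Agent.H3.FS.LAU

set_option autoImplicit false

/-!
# [H3 FS GNE] A sum with different orders does not vanish

`H_i` (`i ∈ κ`) non-zero Laurent series with pairwise different orders, `f_i` Laurent series with `f_i = 0` or
`lo ≤ ord f_i < lo + R`, not all zero.  Then `∑ f_i H_i^R ≠ 0`.

Proof.  For `f_i ≠ 0` the order of `f_i H_i^R` is `ord f_i + R ord H_i` (`HahnSeries.order_mul`, `HahnSeries.order_pow`),
which lies in `[lo + R ord H_i, lo + R ord H_i + R)`; these intervals are disjoint for different `i`.  So there is exactly one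
`i_0` with minimal order `m` among the non-zero terms; the coefficient of the sum at `m` is the one of this term, which is not zero
(`HahnSeries.coeff_order_ne_zero`, `HahnSeries.coeff_eq_zero_of_lt_order`).
-/

namespace Pool.Agent.H3.FS

open Polynomial

theorem gne {k : Type} [Field k] {κ : Type} [Fintype κ] (H f : κ → LaurentSeries k)
    (hH : ∀ i, H i ≠ 0) (hi : Function.Injective fun i => (H i).order) (lo : ℤ) {R : ℕ}
    (hf : ∀ i, f i = 0 ∨ (lo ≤ (f i).order ∧ (f i).order < lo + R)) (hne : ∃ i, f i ≠ 0) :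
    ∑ i, f i * H i ^ R ≠ 0 := by
  classical
  have hinj := hi
  obtain ⟨S, hS⟩ : ∃ S : Finset κ, S = Finset.univ.filter (fun i => f i ≠ 0) := ⟨_, rfl⟩
  have hmem : ∀ i, i ∈ S ↔ f i ≠ 0 := fun i => by rw [hS]; simp
  have hSne : S.Nonempty := by
    obtain ⟨i, hi⟩ := hne
    exact ⟨i, (hmem i).2 hi⟩
  have hord : ∀ i ∈ S, (f i * H i ^ R).order = (f i).order + R * (H i).order := by
    intro i hi
    rw [HahnSeries.order_mul ((hmem i).1 hi) (pow_ne_zero _ (hH i)), HahnSeries.order_pow, nsmul_eq_mul]
  have hbd : ∀ i ∈ S, lo ≤ (f i).order ∧ (f i).order < lo + R := fun i hi =>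
    (hf i).resolve_left ((hmem i).1 hi)
  obtain ⟨i0, hi0, hmin⟩ := Finset.exists_min_image S (fun i => (f i * H i ^ R).order) hSne
  have hlt : ∀ i ∈ S, i ≠ i0 → (f i0 * H i0 ^ R).order < (f i * H i ^ R).order := by
    intro i hi hne'
    refine lt_of_le_of_ne (hmin i hi) fun heq => hne' ?_
    rw [hord i hi, hord i0 hi0] at heq
    obtain ⟨a1, a2⟩ := hbd i hi
    obtain ⟨b1, b2⟩ := hbd i0 hi0
    apply hinj
    change (H i).order = (H i0).order
    have h1 : (R : ℤ) * ((H i).order - (H i0).order) = (f i0).order - (f i).order := by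
      rw [mul_sub]
      linarith
    have hR : (0 : ℤ) < R := by linarith
    rcases lt_trichotomy ((H i).order - (H i0).order) 0 with h2 | h2 | h2
    · have h3 : (R : ℤ) * ((H i).order - (H i0).order) ≤ R * (-1) := mul_le_mul_of_nonneg_left (by omega) hR.le
      linarith
    · linarith
    · have h3 : (R : ℤ) * 1 ≤ (R : ℤ) * ((H i).order - (H i0).order) := mul_le_mul_of_nonneg_left (by omega) hR.le
      linarith
  intro h0
  have hco := congrArg (fun x : LaurentSeries k => x.coeff (f i0 * H i0 ^ R).order) h0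
  simp only [HahnSeries.coeff_zero] at hco
  rw [HahnSeries.coeff_sum, Finset.sum_eq_single i0] at hco
  · have hne0 : f i0 * H i0 ^ R ≠ 0 := mul_ne_zero ((hmem i0).1 hi0) (pow_ne_zero _ (hH i0))
    exact hne0 (HahnSeries.coeff_order_eq_zero.1 hco)
  · intro i _ hne'
    by_cases hi : i ∈ S
    · exact HahnSeries.coeff_eq_zero_of_lt_order (hlt i hi hne')
    · have h1 : f i = 0 := by
        by_contra h
        exact hi ((hmem i).2 h)
      rw [h1, zero_mul, HahnSeries.coeff_zero]
  · intro h
    exact absurd (Finset.mem_univ i0) h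

end Pool.Agent.H3.FS
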