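import Pool.Agent.H3.FS.KER
import Pool.Agent.H3.FS.BAS
import Pool.Agent.H3.FS.GNE
import Pool.Agent.H3.FS.ZER

set_option autoImplicit false

/-!
# [H3 FS BSA] Bombieri-Stepanov with parameters

`k` finite with `Q = p^μ R` elements; `N = #ι`.  If `N (a + h) < R` and
`N ((a + h) p^μ + (b + h)) + 1 < N (a + 1) N (b + 1)`, then every set `Y` of ring homomorphisms `B → k` which are the identity on
the constants has at most `N (a + h) + N (b + h) R` elements.

Proof.  Fix `i_0 ∈ ι`, `σ = c.σ i_0`.  The image of `Wsp c b` under `σ` is a `k`-subspace of `k((z))` of dimension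
`d = N (b + 1)` (`σ` is injective; it is `k`-linear as `σ (algebraMap (C c) * f) = lau (C c) * σ f = HahnSeries.C c * σ f`;
for the dimension: it is finite with `Q^(N (b+1))` elements, `wsp_card`, so `finrank = N (b + 1)` by
`Module.card_eq_pow_finrank`, `Q ≥ 2`).  By `bas` there are `g_i ∈ Wsp c b` (`i ∈ Fin d`) such that the `σ g_i` are
non-zero with different orders.  `g_i ∈ Lsp c (b + h)` (`wsp_mem`), so by `ker` (`ℓ = b + h`) there are `f_i ∈ Wsp c a`, not all zero,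
with `∑ f_i^(p^μ) g_i = 0`.  Put `G = ∑ f_i g_i^R`.
(1) `G ≠ 0`: `σ G = ∑ σ(f_i) σ(g_i)^R`; for `f_i ≠ 0`: `-(a + h) ≤ ord σ(f_i) ≤ (N - 1)(a + h)` (`wsp_mem`, `ord_norm`), and
`(N - 1)(a + h) < -(a + h) + R`; so `gne` with `lo = -(a + h)`.
(2) `y G = 0` for `y ∈ Y`: `(y G)^(p^μ) = ∑ y(f_i)^(p^μ) y(g_i)^Q = ∑ y(f_i)^(p^μ) y(g_i) = y (∑ f_i^(p^μ) g_i) = 0`
(`sum_pow_char_pow` in `k`, `x^Q = x` in `k`: `FiniteField.pow_card`), and `k` is a field.
(3) `G ∈ Lsp c ((a + h) + R (b + h))` (`lsp_sum`, `lsp_mul`, `lsp_pow`), so `deg N(G) ≤ N ((a + h) + (b + h) R)` (`ord_norm`), and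
`#Y ≤ deg N(G)` by `zer`.
-/

namespace Pool.Agent.H3.FS

open Polynomial

/-- the image of `Wsp c b` under a conjugate -/
private def bsaW {k : Type} [Field k] {B : Type} [CommRing B] [Algebra k[X] B] {ι : Type}
    [Fintype ι] {h : ℕ} (c : Conj k B ι h) (i0 : ι) (b : ℕ) : Submodule k (LaurentSeries k) where
  carrier := c.σ i0 '' Wsp c b
  zero_mem' := ⟨0, fun j => by simp, map_zero _⟩
  add_mem' := by
    rintro _ _ ⟨f, hf, rfl⟩ ⟨g, hg, rfl⟩
    refine ⟨f + g, fun j => ?_, map_add _ _ _⟩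
    rw [map_add, Finsupp.add_apply]
    exact (natDegree_add_le _ _).trans (max_le (hf j) (hg j))
  smul_mem' := by
    rintro r _ ⟨f, hf, rfl⟩
    refine ⟨(C r : k[X]) • f, fun j => ?_, ?_⟩
    · rw [map_smul, Finsupp.smul_apply, smul_eq_mul]
      exact (natDegree_C_mul_le _ _).trans (hf j)
    · rw [Algebra.smul_def, map_mul, c.base, lau_C]
      exact HahnSeries.C_mul_eq_smul

private theorem bsaW_dim {k : Type} [Field k] [Finite k] {B : Type} [CommRing B] [Algebra k[X] B]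
    {ι : Type} [Fintype ι] {h : ℕ} (c : Conj k B ι h) (i0 : ι) (b : ℕ) :
    FiniteDimensional k (bsaW c i0 b) ∧
      Module.finrank k (bsaW c i0 b) = Fintype.card ι * (b + 1) := by
  obtain ⟨hf, hc⟩ := wsp_card c b
  have h1 : (c.σ i0 '' Wsp c b).Finite := hf.image _
  have h2 : (c.σ i0 '' Wsp c b).ncard = (Nat.card k) ^ (Fintype.card ι * (b + 1)) := by
    rw [Set.ncard_image_of_injective _ (c.faith i0), hc]
  have h3 : Finite (bsaW c i0 b) := h1
  have h4 : FiniteDimensional k (bsaW c i0 b) := Module.Finite.of_finite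
  have h5 : Nat.card (bsaW c i0 b) = (Nat.card k) ^ (Fintype.card ι * (b + 1)) := h2
  refine ⟨h4, ?_⟩
  have h6 := Module.natCard_eq_pow_finrank (K := k) (V := bsaW c i0 b)
  have hQ : 1 < Nat.card k := Finite.one_lt_card
  exact Nat.pow_right_injective hQ (h6.symm.trans h5)

theorem bsa {k : Type} [Field k] [Finite k] {B : Type} [CommRing B] [Algebra k[X] B] {ι : Type}
    [Fintype ι] [DecidableEq ι] [Nonempty ι] {h : ℕ} (c : Conj k B ι h) {p : ℕ} [Fact p.Prime]
    [CharP k p] [CharP B p] {μ R a b : ℕ} (hQ : Nat.card k = p ^ μ * R)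
    (h1 : Fintype.card ι * (a + h) < R)
    (h2 : Fintype.card ι * ((a + h) * p ^ μ + (b + h)) + 1 <
      Fintype.card ι * (a + 1) * (Fintype.card ι * (b + 1)))
    (Y : Finset (B →+* k)) (hY : ∀ y ∈ Y, ∀ c : k, y (algebraMap k[X] B (C c)) = c) :
    Y.card ≤ Fintype.card ι * (a + h) + Fintype.card ι * (b + h) * R := by
  have hf : Fintype k := Fintype.ofFinite k
  have hp : p.Prime := Fact.out
  obtain ⟨i0⟩ : Nonempty ι := inferInstance
  obtain ⟨hfd, hdim⟩ := bsaW_dim c i0 b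
  obtain ⟨g', hg', hg0, hgi⟩ := bas (bsaW c i0 b)
  have hch : ∀ i, ∃ g ∈ Wsp c b, c.σ i0 g = g' i := fun i => hg' i
  choose g hgW hgσ using hch
  have hgL : ∀ i, g i ∈ Lsp c (b + h) := fun i => wsp_mem c (hgW i)
  obtain ⟨f, hfW, ⟨i1, hi1⟩, hsum⟩ := ker c (p := p) (μ := μ) (a := a) g hgL (by
    rw [hdim]
    exact h2)
  have hfL : ∀ i, f i ∈ Lsp c (a + h) := fun i => wsp_mem c (hfW i)
  obtain ⟨G, hG⟩ : ∃ G, G = ∑ i, f i * g i ^ R := ⟨_, rfl⟩
  have hσ : ∀ z : B, z ≠ 0 → c.σ i0 z ≠ 0 := fun z hz h0 =>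
    hz (c.faith i0 (h0.trans (map_zero _).symm))
  -- `G` is not zero
  have hG0 : G ≠ 0 := by
    intro h0
    refine gne g' (fun i => c.σ i0 (f i)) hg0 hgi (-((a + h : ℕ) : ℤ)) (R := R) (fun i => ?_)
      ⟨i1, hσ _ hi1⟩ ?_
    · by_cases hi : f i = 0
      · left
        rw [hi, map_zero]
      · right
        refine ⟨(hfL i i0).resolve_left (hσ _ hi), ?_⟩
        have h3 := (ord_norm c (hfL i) hi).2.2 i0
        have h4 : ((Fintype.card ι * (a + h) : ℕ) : ℤ) < R := by exact_mod_cast h1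
        push_cast at h3 h4 ⊢
        linarith
    · have h3 := congrArg (c.σ i0) h0
      rw [hG, map_zero, map_sum] at h3
      rw [← h3]
      refine Finset.sum_congr rfl fun i _ => ?_
      rw [map_mul, map_pow, hgσ]
  -- `G` vanishes at the points
  have hGy : ∀ y ∈ Y, y G = 0 := by
    intro y _
    have h3 : (y G) ^ (p ^ μ) = 0 := by
      rw [hG, map_sum, sum_pow_char_pow, ← map_zero y, ← hsum, map_sum]
      refine Finset.sum_congr rfl fun i _ => ?_
      rw [map_mul, map_pow, map_mul, map_pow, mul_pow, ← pow_mul, mul_comm R, ← hQ,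
        Nat.card_eq_fintype_card, FiniteField.pow_card]
    exact pow_eq_zero_iff (pow_ne_zero μ hp.ne_zero) |>.1 h3
  have hGL : G ∈ Lsp c ((a + h) + R * (b + h)) := by
    rw [hG]
    exact lsp_sum c _ fun i _ => lsp_mul c (hfL i) (lsp_pow c (hgL i) R)
  obtain ⟨hN0, hdeg, -⟩ := ord_norm c hGL hG0
  have h5 := zer c.b G hN0 Y hY hGy
  have h6 : (Y.card : ℤ) ≤ Fintype.card ι * ((a + h) + R * (b + h) : ℕ) :=
    le_trans (by exact_mod_cast h5) hdeg
  have h7 : Y.card ≤ Fintype.card ι * ((a + h) + R * (b + h)) := by exact_mod_cast h6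
  calc Y.card ≤ Fintype.card ι * ((a + h) + R * (b + h)) := h7
    _ = Fintype.card ι * (a + h) + Fintype.card ι * (b + h) * R := by ring

end Pool.Agent.H3.FS
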