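import Pool.Agent.H3.FS.ALO

set_option autoImplicit false

/-!
# [H3 FS CHE] The sum of the quadratic character of `Ξ` over the curve

`|∑_{(t, y)} ch (Ξ(t, y))| ≤ K h √Q`.

Proof.  `#pts a Ξ = ∑_{(t,y)} (1 + ch Ξ(t, y)) = A + S` (for every `x ∈ k` the number of `s` with `s² = x` is `1 + ch x`), where `A` is the
number of points `(t, y)`, and for a non-square `ν` (it exists: `H94.PC.exists_ch_neg`) `#pts a (C (C ν) * Ξ) = A - S`
(`ch (ν x) = -ch x`, `H94.PC.ch_mul`).  `upb` for `Ξ` and for `C (C ν) * Ξ` (`NRM'` holds for it: multiply by `ν`; for non-zero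
elements of a finite field `ν x` is a square iff `x` is not; `Bd` is the same) gives `A ± S ≤ Q + K_1 h √Q`, and
`A ≥ Q - K_2 h √Q` (`alo`).  So `|S| ≤ (K_1 + K_2) h √Q`.
-/

namespace Pool.Agent.H3.FS

open Polynomial

private theorem che_sq {k : Type} [Field k] [Fintype k] [DecidableEq k] (h2 : (2 : k) ≠ 0) (x : k) :
    ((Finset.univ.filter (fun s : k => s ^ 2 = x)).card : ℝ) = 1 + H94.PC.ch x := by
  by_cases h0 : x = 0
  · subst h0
    have h1 : Finset.univ.filter (fun s : k => s ^ 2 = 0) = {0} := by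
      ext s
      simp
    rw [h1, Finset.card_singleton, H94.PC.ch_zero]
    simp
  · by_cases hs : IsSquare x
    · obtain ⟨z, hz⟩ := hs
      have hz0 : z ≠ 0 := by
        rintro rfl
        apply h0
        rw [hz, mul_zero]
      have hne : z ≠ -z := by
        intro h3
        have h4 : 2 * z = 0 := by
          have : z + z = 0 := by
            nth_rewrite 2 [h3]
            ring
          rw [two_mul]
          exact this
        rcases mul_eq_zero.1 h4 with h5 | h5
        · exact h2 h5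
        · exact hz0 h5
      have h1 : Finset.univ.filter (fun s : k => s ^ 2 = x) = {z, -z} := by
        ext s
        rw [Finset.mem_filter, Finset.mem_insert, Finset.mem_singleton]
        constructor
        · rintro ⟨-, h5⟩
          rw [hz, ← sq] at h5
          exact sq_eq_sq_iff_eq_or_eq_neg.1 h5
        · rintro (rfl | rfl)
          · exact ⟨Finset.mem_univ _, by rw [hz, sq]⟩
          · exact ⟨Finset.mem_univ _, by rw [hz]; ring⟩
      rw [h1, Finset.card_pair hne, H94.PC.ch_of_sq h0 ⟨z, hz⟩]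
      norm_num
    · have h1 : Finset.univ.filter (fun s : k => s ^ 2 = x) = ∅ := by
        rw [Finset.filter_eq_empty_iff]
        intro s _ h5
        exact hs ⟨s, by rw [← h5, sq]⟩
      rw [h1, Finset.card_empty, H94.PC.ch_of_not hs]
      norm_num

private theorem che_pts {k : Type} [Field k] [Finite k] (h2 : (2 : k) ≠ 0) {ρ : ℕ}
    (a : Fin ρ → k[X]) (Ξ : MvPolynomial (Fin ρ) k[X]) :
    ((pts a Ξ).ncard : ℝ) = ({x : k × (Fin ρ → k) | Ov a x.1 x.2}.ncard : ℝ) + chs a Ξ := by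
  classical
  have hfk : Fintype k := Fintype.ofFinite k
  let A : Finset (k × (Fin ρ → k)) := Finset.univ.filter (fun x => Ov a x.1 x.2)
  have hA : {x : k × (Fin ρ → k) | Ov a x.1 x.2}.ncard = A.card := by
    rw [← Set.ncard_coe_finset]
    congr 1
    ext x
    simp [A]
  have hS : chs a Ξ = ∑ x ∈ A, H94.PC.ch (mve Ξ x.1 x.2) := by
    unfold chs
    rw [finsum_eq_sum_of_fintype, Finset.sum_filter]
  let T : Finset (k × (Fin ρ → k) × k) := A.biUnion (fun x =>
    (Finset.univ.filter (fun s : k => s ^ 2 = mve Ξ x.1 x.2)).image (fun s => (x.1, x.2, s)))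
  have hT : pts a Ξ = (T : Set (k × (Fin ρ → k) × k)) := by
    ext ⟨t, y, s⟩
    rw [Finset.mem_coe, Finset.mem_biUnion]
    constructor
    · rintro ⟨h1, h3⟩
      refine ⟨(t, y), Finset.mem_filter.2 ⟨Finset.mem_univ _, h1⟩, ?_⟩
      rw [Finset.mem_image]
      exact ⟨s, Finset.mem_filter.2 ⟨Finset.mem_univ _, h3⟩, rfl⟩
    · rintro ⟨⟨t', y'⟩, h1, h3⟩
      rw [Finset.mem_image] at h3
      obtain ⟨s', h4, h5⟩ := h3
      rw [Finset.mem_filter] at h1 h4
      simp only [Prod.mk.injEq] at h5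
      obtain ⟨rfl, rfl, rfl⟩ := h5
      exact ⟨h1.2, h4.2⟩
  have hTc : T.card = ∑ x ∈ A, (Finset.univ.filter (fun s : k => s ^ 2 = mve Ξ x.1 x.2)).card := by
    rw [Finset.card_biUnion]
    · refine Finset.sum_congr rfl fun x _ => ?_
      apply Finset.card_image_of_injective
      intro s s' h5
      simp only [Prod.mk.injEq] at h5
      exact h5.2.2
    · intro x _ x' _ hxx
      refine Finset.disjoint_left.2 ?_
      rintro z hz hz'
      rw [Finset.mem_image] at hz hz'
      obtain ⟨s, -, rfl⟩ := hz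
      obtain ⟨s', -, h5⟩ := hz'
      simp only [Prod.mk.injEq] at h5
      exact hxx (Prod.ext h5.1.symm h5.2.1.symm)
  rw [hT, Set.ncard_coe_finset, hTc, hA, hS]
  push_cast
  rw [Finset.sum_congr rfl (fun x _ => che_sq h2 (mve Ξ x.1 x.2)), Finset.sum_add_distrib]
  simp

private theorem che_mve {k : Type} [Field k] {ρ : ℕ} (ν : k) (Ξ : MvPolynomial (Fin ρ) k[X])
    (t : k) (y : Fin ρ → k) : mve (MvPolynomial.C (C ν) * Ξ) t y = ν * mve Ξ t y := by
  unfold mve mv
  rw [MvPolynomial.eval₂_mul, MvPolynomial.eval₂_C]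
  simp

theorem che (p ρ d : ℕ) [Fact p.Prime] (hp : p ≠ 2) : ∃ K : ℝ, 0 ≤ K ∧
    ∀ (k : Type) [Field k] [Finite k] [CharP k p] (h : ℕ) (a : Fin ρ → k[X])
      (Ξ : MvPolynomial (Fin ρ) k[X]), 1 ≤ h → (∀ i, (a i).natDegree ≤ h) → Bd h d Ξ → Ind a →
      (∀ ν : k, ν ≠ 0 → NS a (MvPolynomial.C (C ν) * Ξ)) → NRM' a Ξ →
      |chs a Ξ| ≤ K * h * √(Nat.card k) := by
  obtain ⟨K1, hK1, hup⟩ := upb p ρ d hp
  obtain ⟨K2, hK2, hlo⟩ := alo p ρ hp
  refine ⟨K1 + K2, by positivity, ?_⟩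
  intro k _ _ _ h a Ξ hh ha hΞ hI hNS hNRM
  classical
  have h2 : (2 : k) ≠ 0 := by
    intro h0
    have h1 : ((2 : ℕ) : k) = 0 := by exact_mod_cast h0
    rw [CharP.cast_eq_zero_iff k p 2] at h1
    have h3 := Nat.le_of_dvd (by norm_num) h1
    have h4 := (Fact.out : p.Prime).two_le
    omega
  obtain ⟨ν, hν⟩ := H94.PC.exists_ch_neg h2
  have hν0 : ν ≠ 0 := by
    rintro rfl
    rw [H94.PC.ch_zero] at hν
    norm_num at hν
  have hBd : Bd h d (MvPolynomial.C (C ν) * Ξ) := by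
    refine ⟨?_, fun α => ?_⟩
    · refine (MvPolynomial.totalDegree_mul _ _).trans ?_
      rw [MvPolynomial.totalDegree_C, zero_add]
      exact hΞ.1
    · rw [MvPolynomial.coeff_C_mul]
      exact (natDegree_C_mul_le _ _).trans (hΞ.2 α)
  have hNRM2 : NRM' a (MvPolynomial.C (C ν) * Ξ) := by
    intro t y y' hy hy' h3 h4 h5
    rw [che_mve] at h3 h4 h5 ⊢
    have x0 : mve Ξ t y ≠ 0 := fun h6 => h3 (by rw [h6, mul_zero])
    have x0' : mve Ξ t y' ≠ 0 := fun h6 => h4 (by rw [h6, mul_zero])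
    have c1 : H94.PC.ch (mve Ξ t y) = -1 := by
      have h7 := H94.PC.ch_of_sq h3 h5
      rw [H94.PC.ch_mul, hν] at h7
      linarith
    have c2 : ¬ IsSquare (mve Ξ t y') := by
      intro h8
      have h9 := H94.PC.ch_of_sq x0 (hNRM t y' y hy' hy x0' x0 h8)
      rw [h9] at c1
      norm_num at c1
    rw [← H94.PC.ch_eq_one_iff h4, H94.PC.ch_mul, hν, H94.PC.ch_of_not c2]
    norm_num
  have hNS1 : NS a Ξ := by
    have h3 := hNS 1 one_ne_zero
    rwa [C_1, MvPolynomial.C_1, one_mul] at h3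
  have u1 := hup k h a Ξ hh ha hΞ hI hNS1 hNRM
  have u2 := hup k h a _ hh ha hBd hI (hNS ν hν0) hNRM2
  have l1 := hlo k h a hh ha hI
  rw [che_pts h2] at u1 u2
  have hS2 : chs a (MvPolynomial.C (C ν) * Ξ) = - chs a Ξ := by
    have hfk : Fintype k := Fintype.ofFinite k
    unfold chs
    rw [finsum_eq_sum_of_fintype, finsum_eq_sum_of_fintype, ← Finset.sum_neg_distrib]
    refine Finset.sum_congr rfl fun x _ => ?_
    split_ifs
    · rw [che_mve, H94.PC.ch_mul, hν]
      ring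
    · rw [neg_zero]
  rw [hS2] at u2
  rw [abs_le]
  constructor
  · linarith
  · linarith

end Pool.Agent.H3.FS
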