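import Pool.Agent.H94.LT.Fin

set_option autoImplicit false

/-!
# [H3 FS CNV] The places of `F[t]` belong to monic irreducible polynomials
-/

namespace Pool.Agent.H3.FS

open Polynomial IsDedekindDomain

variable {F : Type} [Field F]

theorem cnv_place (v : HeightOneSpectrum F[X]) :
    ∃ (P : F[X]) (_ : P.Monic) (hP : Irreducible P), v = H94.LT.place P hP := by
  obtain ⟨g, hg⟩ := (IsPrincipalIdealRing.principal v.asIdeal).principal
  have hg' : v.asIdeal = Ideal.span {g} := hg
  have hg0 : g ≠ 0 := by
    rintro rfl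
    apply v.ne_bot
    rw [hg', Ideal.span_singleton_eq_bot]
  have hpr : Prime g := by
    have h1 := v.isPrime
    rw [hg'] at h1
    exact (Ideal.span_singleton_prime hg0).1 h1
  have hu : IsUnit (C g.leadingCoeff⁻¹) :=
    isUnit_C.2 (isUnit_iff_ne_zero.2 (inv_ne_zero (leadingCoeff_ne_zero.2 hg0)))
  have hass : Associated g (g * C g.leadingCoeff⁻¹) := (associated_mul_unit_left _ _ hu).symm
  refine ⟨g * C g.leadingCoeff⁻¹, monic_mul_leadingCoeff_inv hg0,
    hass.irreducible hpr.irreducible, ?_⟩
  apply HeightOneSpectrum.ext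
  show v.asIdeal = Ideal.span {g * C g.leadingCoeff⁻¹}
  rw [hg']
  exact Ideal.span_singleton_eq_span_singleton.2 hass

end Pool.Agent.H3.FS
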