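import Mathlib

set_option autoImplicit false

/-!
# [H3 FS DET] Determinants of polynomial matrices with small rank at a point

Let `M` be a square matrix over `k[X]`, `u ∈ k`, and let `v_1, ..., v_s` be linearly independent row vectors over `k` with
`v_i M(u) = 0`.  Then `(X - u)^s` divides `det M`.  Proof: extend the `v_i` to a basis of `k^ι` (e.g.
`Basis.sumExtend` or `LinearIndependent.extend`; as `card = card ι` one gets an invertible matrix `P` with rows
indexed by a type `κ ≃ ι`, of which `s` rows are the `v_i`).  The rows `i` of `P M` (`P` with constant polynomials) are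
`0` at `u`, so divisible by `X - u`; `det (P M) = det P det M`, `det P` is a non-zero constant, and a determinant
with `s` rows divisible by `X - u` is divisible by `(X - u)^s` (write `P M = diag(d) N` with `d_i = X - u` for these rows
and `1` for the other ones: `Matrix.det_mul`, `Matrix.det_diagonal`).
-/

namespace Pool.Agent.H3.FS

open Polynomial Matrix

theorem det_dvd {k : Type} [Field k] {ι : Type} [Fintype ι] [DecidableEq ι] (M : Matrix ι ι k[X])
    (u : k) {κ : Type} [Fintype κ] (v : κ → ι → k) (hv : LinearIndependent k v)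
    (h : ∀ i, v i ᵥ* (M.map (eval u)) = 0) : (X - C u) ^ (Fintype.card κ) ∣ M.det := by
  classical
  have hb0 : ∀ i, Module.Basis.sumExtend hv (Sum.inl i) = v i := fun i => by
    unfold Module.Basis.sumExtend
    simp only [Module.Basis.reindex_apply, Module.Basis.extend_apply_self, Equiv.symm_symm]
    rfl
  obtain ⟨σ, hσ⟩ : ∃ σ : Type, σ = Module.Basis.sumExtendIndex hv := ⟨_, rfl⟩
  obtain ⟨b, hb⟩ : ∃ b : Module.Basis (κ ⊕ σ) k (ι → k), ∀ i, b (Sum.inl i) = v i := by
    subst hσ
    exact ⟨Module.Basis.sumExtend hv, hb0⟩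
  have : Finite (κ ⊕ σ) := Module.Finite.finite_basis b
  have hfσ : Finite σ := Finite.of_injective (Sum.inr : σ → κ ⊕ σ) Sum.inr_injective
  have : Fintype σ := Fintype.ofFinite σ
  have hcard : Fintype.card (κ ⊕ σ) = Fintype.card ι := by
    rw [← Module.finrank_eq_card_basis b, Module.finrank_fintype_fun_eq_card]
  obtain ⟨f⟩ : Nonempty ((κ ⊕ σ) ≃ ι) := ⟨Fintype.equivOfCardEq hcard⟩
  obtain ⟨P, hP⟩ : ∃ P : Matrix ι ι k, P = Matrix.of (fun i j => b (f.symm i) j) := ⟨_, rfl⟩
  have hPu : IsUnit P := by
    rw [← linearIndependent_rows_iff_isUnit]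
    have h1 : P.row = (fun x => b x) ∘ f.symm := by
      funext i
      rw [hP]
      rfl
    rw [h1]
    exact b.linearIndependent.comp _ f.symm.injective
  have hPd : IsUnit P.det := (Matrix.isUnit_iff_isUnit_det P).1 hPu
  obtain ⟨d, hd⟩ : ∃ d : ι → k[X], d = fun i => Sum.elim (fun _ : κ => X - C u) (fun _ : σ => 1) (f.symm i) := ⟨_, rfl⟩
  obtain ⟨N, hN⟩ : ∃ N : Matrix ι ι k[X], N = (P.map C) * M := ⟨_, rfl⟩
  have hdvd : ∀ i l, d i ∣ N i l := by
    intro i l
    obtain ⟨x, rfl⟩ := f.surjective i
    rw [hd]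
    simp only [Equiv.symm_apply_apply]
    rcases x with x | x
    · simp only [Sum.elim_inl]
      rw [dvd_iff_isRoot, IsRoot.def, hN, Matrix.mul_apply, eval_finsetSum]
      have h1 := congrFun (h x) l
      rw [Pi.zero_apply] at h1
      rw [← h1, Matrix.vecMul, dotProduct]
      refine Finset.sum_congr rfl fun j _ => ?_
      rw [eval_mul, Matrix.map_apply, eval_C, Matrix.map_apply, hP, Matrix.of_apply, Equiv.symm_apply_apply, hb]
    · simp only [Sum.elim_inr]
      exact one_dvd _
  choose N' hN' using hdvd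
  have hNd : N = Matrix.diagonal d * Matrix.of N' := by
    ext1 i l
    rw [Matrix.diagonal_mul, Matrix.of_apply]
    exact hN' i l
  have hdet1 : N.det = C P.det * M.det := by
    rw [hN, Matrix.det_mul]
    congr 1
    exact (RingHom.map_det (C : k →+* k[X]) P).symm
  have hprod : ∏ i, d i = (X - C u) ^ (Fintype.card κ) := by
    rw [← Equiv.prod_comp f, hd]
    simp only [Equiv.symm_apply_apply]
    rw [Fintype.prod_sum_type]
    simp
  have hdet2 : (X - C u) ^ (Fintype.card κ) ∣ C P.det * M.det := by
    rw [← hdet1, hNd, Matrix.det_mul, Matrix.det_diagonal, hprod]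
    exact dvd_mul_right _ _
  exact (IsUnit.dvd_mul_left (hPd.map C)).1 hdet2

end Pool.Agent.H3.FS
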