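import Pool.Agent.H3.FS.ORD

set_option autoImplicit false

/-!
# [H3 FS DIM] The number of elements with bounded poles

`k` finite with `Q` elements, `N = #ι ≥ 1`.
* `lsp_card`: `Lsp c ℓ` is finite with at most `Q^(N ℓ + 1)` elements.  Proof: fix `i`.  The map `f ↦ (coeff_m (σ_i f))` for
  `-ℓ ≤ m ≤ (N - 1) ℓ` (these are `N ℓ + 1` integers) is injective on `Lsp c ℓ`: the difference `g = f - f'` of two elements with the
  same image is in `Lsp c ℓ` (closed under subtraction) and, if `g ≠ 0`, the order `m` of `σ_i g ≠ 0` satisfies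
  `-ℓ ≤ m ≤ (N - 1) ℓ` (`ord_norm`), and the coefficient at `m` is not zero.
* `wsp_card`: `Wsp c n` is finite with exactly `Q^(N (n + 1))` elements (`c.b.repr` is a bijection of `B` with the
  functions `ι → k[X]`; polynomials of degree `≤ n`: `Q^(n+1)`, e.g. `Polynomial.degreeLTEquiv`).
-/

namespace Pool.Agent.H3.FS

open Polynomial

variable {k : Type} [Field k] [Finite k] {B : Type} [CommRing B] [Algebra k[X] B] {ι : Type}
  [Fintype ι] [DecidableEq ι] [Nonempty ι] {h : ℕ} (c : Conj k B ι h)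

theorem lsp_card (ℓ : ℕ) : (Lsp c ℓ).Finite ∧
    (Lsp c ℓ).ncard ≤ (Nat.card k) ^ (Fintype.card ι * ℓ + 1) := by
  obtain ⟨i⟩ := (inferInstance : Nonempty ι)
  obtain ⟨Φ, hΦ⟩ : ∃ Φ : B → (Fin (Fintype.card ι * ℓ + 1) → k), Φ = fun f (m : Fin (Fintype.card ι * ℓ + 1)) =>
      (c.σ i f).coeff (-(ℓ : ℤ) + (m : ℕ)) := ⟨_, rfl⟩
  have hinj : Set.InjOn Φ (Lsp c ℓ) := by
    intro f hf f' hf' hff
    by_contra hne
    have hg0 : f + -f' ≠ 0 := fun h => hne (by rwa [← sub_eq_add_neg, sub_eq_zero] at h)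
    have hneg : -f' ∈ Lsp c ℓ := by
      intro j
      rcases hf' j with h | h
      · left
        rw [map_neg, h, neg_zero]
      · right
        rw [map_neg, HahnSeries.order_neg]
        exact h
    have hg := lsp_add c hf hneg
    obtain ⟨-, -, h3⟩ := ord_norm c hg hg0
    have hs0 : c.σ i (f + -f') ≠ 0 := by
      intro h
      apply hg0
      apply c.faith i
      rw [h, map_zero]
    have h1 : -(ℓ : ℤ) ≤ (c.σ i (f + -f')).order := (hg i).resolve_left hs0
    have h2 := h3 i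
    have hco : (c.σ i (f + -f')).coeff (c.σ i (f + -f')).order ≠ 0 := mt HahnSeries.coeff_order_eq_zero.1 hs0
    apply hco
    obtain ⟨m, hm⟩ : ∃ m : ℕ, (c.σ i (f + -f')).order = -(ℓ : ℤ) + m :=
      ⟨((c.σ i (f + -f')).order + ℓ).toNat, by omega⟩
    have hm2 : m < Fintype.card ι * ℓ + 1 := by
      rw [hm] at h2
      have h4 : (m : ℤ) ≤ Fintype.card ι * ℓ := by linarith
      have h5 : m ≤ Fintype.card ι * ℓ := by exact_mod_cast h4
      omega
    have h6 := congrFun hff ⟨m, hm2⟩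
    rw [hΦ] at h6
    simp only at h6
    rw [hm, map_add, map_neg, HahnSeries.coeff_add, HahnSeries.coeff_neg, h6, add_neg_cancel]
  refine ⟨Set.Finite.of_finite_image (Set.toFinite _) hinj, ?_⟩
  have h1 := Set.ncard_le_ncard_of_injOn Φ (fun a _ => Set.mem_univ (Φ a)) hinj Set.finite_univ
  rw [Set.ncard_univ, Nat.card_fun, Nat.card_fin] at h1
  exact h1

omit [DecidableEq ι] [Nonempty ι] in
theorem wsp_card (n : ℕ) : (Wsp c n).Finite ∧
    (Wsp c n).ncard = (Nat.card k) ^ (Fintype.card ι * (n + 1)) := by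
  obtain ⟨Ψ, hΨ⟩ : ∃ Ψ : B → (ι → Fin (n + 1) → k), Ψ = fun f j (m : Fin (n + 1)) => (c.b.repr f j).coeff m := ⟨_, rfl⟩
  have hinj : Set.InjOn Ψ (Wsp c n) := by
    intro f hf f' hf' hff
    apply c.b.repr.injective
    ext j m
    by_cases hm : m < n + 1
    · have h1 := congrFun (congrFun hff j) ⟨m, hm⟩
      rw [hΨ] at h1
      exact h1
    · rw [coeff_eq_zero_of_natDegree_lt (lt_of_le_of_lt (hf j) (by omega)),
        coeff_eq_zero_of_natDegree_lt (lt_of_le_of_lt (hf' j) (by omega))]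
  have hsurj : Ψ '' (Wsp c n) = Set.univ := by
    rw [Set.eq_univ_iff_forall]
    intro a
    obtain ⟨g, hg⟩ : ∃ g : ι → k[X], g = fun j => ((degreeLTEquiv k (n + 1)).symm (a j) : k[X]) := ⟨_, rfl⟩
    have hrepr : ∀ j, c.b.repr (c.b.equivFun.symm g) j = g j := by
      intro j
      rw [← Module.Basis.equivFun_apply, LinearEquiv.apply_symm_apply]
    refine ⟨c.b.equivFun.symm g, ?_, ?_⟩
    · intro j
      rw [hrepr, hg, natDegree_le_iff_coeff_eq_zero]
      intro N hN
      have h1 := ((degreeLTEquiv k (n + 1)).symm (a j)).2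
      rw [mem_degreeLT, degree_lt_iff_coeff_zero] at h1
      exact h1 N hN
    · funext j m
      rw [hΨ]
      simp only
      rw [hrepr, hg]
      have h1 := congrFun ((degreeLTEquiv k (n + 1)).apply_symm_apply (a j)) m
      exact h1
  refine ⟨Set.Finite.of_finite_image (Set.toFinite _) hinj, ?_⟩
  rw [← hinj.ncard_image, hsurj, Set.ncard_univ, Nat.card_fun, Nat.card_fun, Nat.card_fin,
    Nat.card_eq_fintype_card (α := ι), ← pow_mul, mul_comm]

end Pool.Agent.H3.FS
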