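import Pool.Agent.H3.FS.GVN

set_option autoImplicit false

/-!
# [H3 FS GVR] `NRM'` for products of governing elements

`a : Fin (r * 2) → F[X]`, governing data `G p` for `p ∈ prs r`, `n ⊆ prs r`, `g ∈ E[X]`, `E` a finite extension of `F`:
`NRM'` holds for `C g * mpE E (∏_{p ∈ n} (G p).el)` over `E`.

Proof.  At `(t, y)`, `(t, y')` with `y_i² = y'_i² = a_i(t)`: the value is `g(t) ∏_p gel(...)` (`mv_el`, `MvPolynomial.eval₂_map`; the
value of `mpE E Ξ` at `(t, y)` is the value of `Ξ` for `f = (eval t) ∘ map`).  If both values are non-zero, all factors are; for every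
`p = (i, j)` the product of the two factors is a square by `nrm_gov` with `u = y (ix j 0)`, `v = y (ix j 1)` (`G.e0`: `Z_0² - x_1 X_0² =
c y_2 W_0²`, the value of `y_2 = a (ix j 1)` at `t` is `v²`).  So the product of the two values is a square, and if one of two non-zero elements
of a field whose product is a square is a square, so is the other one.
-/

namespace Pool.Agent.H3.FS

open Polynomial

theorem gvr {F : Type} [Field F] {r : ℕ} (a : Fin (r * 2) → F[X])
    (G : ∀ p : Fin r × Fin r, p ∈ prs r → Gd a p.1 p.2) (n : Finset (Fin r × Fin r))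
    (hn : n ⊆ prs r) (E : Type) [Field E] [Algebra F E] (g : E[X]) :
    NRM' (fun i => (a i).map (algebraMap F E))
      (MvPolynomial.C g * mpE E (∏ p ∈ n.attach, (G p.1 (hn p.2)).el)) := by
  classical
  intro t y y' hy hy' h0 h0' hsq
  obtain ⟨f, hf⟩ : ∃ f : F[X] →+* E, f = (evalRingHom t).comp (mapRingHom (algebraMap F E)) :=
    ⟨_, rfl⟩
  have hfe : ∀ u : F[X], f u = (u.map (algebraMap F E)).eval t := by
    intro u
    rw [hf]
    rfl
  have hval : ∀ z : Fin (r * 2) → E,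
      mve (MvPolynomial.C g * mpE E (∏ p ∈ n.attach, (G p.1 (hn p.2)).el)) t z =
        g.eval t * ∏ p ∈ n.attach, gel (f (G p.1 (hn p.2)).g)
          (fun l => f ((G p.1 (hn p.2)).X l)) (fun l => f ((G p.1 (hn p.2)).Z l))
          (z (ix p.1.1 0)) (z (ix p.1.1 1)) := by
    intro z
    unfold mve mv mpE
    rw [MvPolynomial.eval₂_mul, MvPolynomial.eval₂_C, MvPolynomial.eval₂_map, ← hf,
      MvPolynomial.eval₂_prod]
    congr 1
    refine Finset.prod_congr rfl fun p _ => ?_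
    exact mv_el (G p.1 (hn p.2)) f z
  rw [hval] at h0 h0' hsq ⊢
  have hyf : ∀ i, y i ^ 2 = f (a i) := by
    intro i
    rw [hfe]
    exact hy i
  have hyf' : ∀ i, y' i ^ 2 = y i ^ 2 := by
    intro i
    rw [hyf, hfe]
    exact hy' i
  have h1 : ∀ p : {p // p ∈ n}, gel (f (G p.1 (hn p.2)).g)
      (fun l => f ((G p.1 (hn p.2)).X l)) (fun l => f ((G p.1 (hn p.2)).Z l))
      (y (ix p.1.1 0)) (y (ix p.1.1 1)) ≠ 0 := by
    intro p h2
    apply h0
    rw [Finset.prod_eq_zero (Finset.mem_attach n p) h2, mul_zero]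
  have h1' : ∀ p : {p // p ∈ n}, gel (f (G p.1 (hn p.2)).g)
      (fun l => f ((G p.1 (hn p.2)).X l)) (fun l => f ((G p.1 (hn p.2)).Z l))
      (y' (ix p.1.1 0)) (y' (ix p.1.1 1)) ≠ 0 := by
    intro p h2
    apply h0'
    rw [Finset.prod_eq_zero (Finset.mem_attach n p) h2, mul_zero]
  have h3 : ∀ p : {p // p ∈ n}, IsSquare (gel (f (G p.1 (hn p.2)).g)
      (fun l => f ((G p.1 (hn p.2)).X l)) (fun l => f ((G p.1 (hn p.2)).Z l))
      (y (ix p.1.1 0)) (y (ix p.1.1 1)) * gel (f (G p.1 (hn p.2)).g)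
      (fun l => f ((G p.1 (hn p.2)).X l)) (fun l => f ((G p.1 (hn p.2)).Z l))
      (y' (ix p.1.1 0)) (y' (ix p.1.1 1))) := by
    intro p
    refine nrm_gov (f (G p.1 (hn p.2)).g) (f (G p.1 (hn p.2)).c) _ _
      (fun l => f ((G p.1 (hn p.2)).W l)) _ _ _ _ (y (ix p.1.2 0)) (y (ix p.1.2 1))
      (hyf' _) (hyf' _) ?_ ?_ ?_ (h1 p) (h1' p)
    · have h4 := congrArg f (G p.1 (hn p.2)).e0
      simp only [map_sub, map_mul, map_pow, ← hyf] at h4
      exact h4
    · have h4 := congrArg f (G p.1 (hn p.2)).e1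
      simp only [map_sub, map_mul, map_pow, ← hyf] at h4
      exact h4
    · have h4 := congrArg f (G p.1 (hn p.2)).e2
      simp only [map_sub, map_mul, map_pow, ← hyf] at h4
      exact h4
  have h5 : IsSquare ((∏ p ∈ n.attach, gel (f (G p.1 (hn p.2)).g)
          (fun l => f ((G p.1 (hn p.2)).X l)) (fun l => f ((G p.1 (hn p.2)).Z l))
          (y (ix p.1.1 0)) (y (ix p.1.1 1))) * ∏ p ∈ n.attach, gel (f (G p.1 (hn p.2)).g)
          (fun l => f ((G p.1 (hn p.2)).X l)) (fun l => f ((G p.1 (hn p.2)).Z l))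
          (y' (ix p.1.1 0)) (y' (ix p.1.1 1))) := by
    rw [← Finset.prod_mul_distrib]
    exact Finset.prod_induction _ IsSquare (fun _ _ => IsSquare.mul) IsSquare.one
      (fun p _ => h3 p)
  generalize (∏ p ∈ n.attach, gel (f (G p.1 (hn p.2)).g)
          (fun l => f ((G p.1 (hn p.2)).X l)) (fun l => f ((G p.1 (hn p.2)).Z l))
          (y (ix p.1.1 0)) (y (ix p.1.1 1))) = A at h0 hsq h5
  generalize (∏ p ∈ n.attach, gel (f (G p.1 (hn p.2)).g)
          (fun l => f ((G p.1 (hn p.2)).X l)) (fun l => f ((G p.1 (hn p.2)).Z l))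
          (y' (ix p.1.1 0)) (y' (ix p.1.1 1))) = A' at h0' h5 ⊢
  obtain ⟨z, hz⟩ := h5
  obtain ⟨s, hs⟩ := hsq
  have hs0 : s ≠ 0 := by
    rintro rfl
    apply h0
    rw [hs, mul_zero]
  refine ⟨eval t g * z / s, ?_⟩
  have e1 : s * s * (eval t g * A') = (eval t g * z) * (eval t g * z) := by
    rw [← hs]
    calc eval t g * A * (eval t g * A') = eval t g * eval t g * (A * A') := by ring
      _ = _ := by rw [hz]; ring
  rw [div_mul_div_comm, eq_div_iff (mul_ne_zero hs0 hs0), mul_comm]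
  exact e1

end Pool.Agent.H3.FS
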