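import Pool.Agent.H3.FS.CHD

set_option autoImplicit false

/-!
# [H3 FS INK] Independence is preserved under extension of the constants

`F` a finite field (perfect), `E` an extension.  If no product `∏_I a_i` is a constant times a square in `F[X]`, then the same holds
in `E[X]`.  Proof: `f = ∏_I a_i ≠ 0`; write `f = D g_0²` with `D` squarefree in `F[X]` (`Nat.sq_mul_squarefree`-type statement for
polynomials: take `g_0` of maximal degree with `g_0² ∣ f`; then `D` is squarefree).  `D` is separable (`F` perfect: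
`PerfectField.separable_iff_squarefree`), so its image in `E[X]` is separable, hence squarefree.  If `f = c g²` in `E[X]`, `c ≠ 0`, then
`D g_0² = c g²`, so `g_0² ∣ g²`, `g = g_0 g_1`, `D = c g_1²`, so `g_1` is a unit (`D` squarefree), `D` is constant, and `f` is a constant times a
square in `F[X]`: contradiction.
-/

namespace Pool.Agent.H3.FS

open Polynomial

private theorem ink_dec {F : Type} [Field F] (n : ℕ) : ∀ f : F[X], f.natDegree ≤ n → f ≠ 0 →
    ∃ D g : F[X], f = D * g ^ 2 ∧ Squarefree D := by
  induction n with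
  | zero =>
    intro f hf hf0
    refine ⟨f, 1, by ring, ?_⟩
    have h1 : IsUnit f := by
      rw [isUnit_iff_degree_eq_zero, degree_eq_natDegree hf0]
      have : f.natDegree = 0 := by omega
      rw [this]
      rfl
    exact h1.squarefree
  | succ n ih =>
    intro f hf hf0
    by_cases hsq : Squarefree f
    · exact ⟨f, 1, by ring, hsq⟩
    · unfold Squarefree at hsq
      push Not at hsq
      obtain ⟨x, hx, hxu⟩ := hsq
      obtain ⟨f', hf'⟩ := hx
      have hx0 : x ≠ 0 := by
        rintro rfl
        apply hf0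
        rw [hf']
        ring
      have hf'0 : f' ≠ 0 := by
        rintro rfl
        apply hf0
        rw [hf']
        ring
      have hdx : 1 ≤ x.natDegree := by
        by_contra hlt
        apply hxu
        rw [isUnit_iff_degree_eq_zero, degree_eq_natDegree hx0]
        have : x.natDegree = 0 := by omega
        rw [this]
        rfl
      have hdeg : f'.natDegree ≤ n := by
        rw [hf', natDegree_mul (mul_ne_zero hx0 hx0) hf'0, natDegree_mul hx0 hx0] at hf
        omega
      obtain ⟨D, g, h1, h2⟩ := ih f' hdeg hf'0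
      refine ⟨D, x * g, ?_, h2⟩
      rw [hf', h1]
      ring

theorem ink {F E : Type} [Field F] [Finite F] [Field E] [Algebra F E] {ρ : ℕ} {a : Fin ρ → F[X]}
    (hI : Ind a) : Ind (fun i => (a i).map (algebraMap F E)) := by
  intro I hne c g h
  have hf0 : (∏ i ∈ I, a i) ≠ 0 := by
    intro h0
    refine hI I hne 0 0 ?_
    rw [h0]
    simp
  obtain ⟨D, g0, hD, hsq⟩ := ink_dec _ (∏ i ∈ I, a i) le_rfl hf0
  have hmap : (∏ i ∈ I, (a i).map (algebraMap F E)) = (∏ i ∈ I, a i).map (algebraMap F E) := by
    rw [Polynomial.map_prod]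
  rw [hmap, hD, Polynomial.map_mul, Polynomial.map_pow] at h
  have hD0 : D ≠ 0 := by
    rintro rfl
    apply hf0
    rw [hD, zero_mul]
  have hg00 : g0 ≠ 0 := by
    rintro rfl
    apply hf0
    rw [hD]
    ring
  have hD0' : D.map (algebraMap F E) ≠ 0 := Polynomial.map_ne_zero hD0
  have hg0' : g0.map (algebraMap F E) ≠ 0 := Polynomial.map_ne_zero hg00
  have hlhs : D.map (algebraMap F E) * g0.map (algebraMap F E) ^ 2 ≠ 0 :=
    mul_ne_zero hD0' (pow_ne_zero 2 hg0')
  have hc : c ≠ 0 := by
    rintro rfl
    apply hlhs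
    rw [h, C_0, zero_mul]
  have hsep : D.Separable := PerfectField.separable_iff_squarefree.2 hsq
  have hsq' : Squarefree (D.map (algebraMap F E)) := (hsep.map).squarefree
  have hcu : (C c⁻¹ * C c : E[X]) = 1 := by
    rw [← C_mul, inv_mul_cancel₀ hc, C_1]
  have hdvd : g0.map (algebraMap F E) ^ 2 ∣ g ^ 2 := by
    refine ⟨C c⁻¹ * D.map (algebraMap F E), ?_⟩
    have h1 : g ^ 2 = C c⁻¹ * (C c * g ^ 2) := by rw [← mul_assoc, hcu, one_mul]
    rw [h1, ← h]
    ring
  have hdvd' : g0.map (algebraMap F E) ∣ g := (IsIntegrallyClosed.pow_dvd_pow_iff two_ne_zero).1 hdvd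
  obtain ⟨g1, rfl⟩ := hdvd'
  have hDg : D.map (algebraMap F E) = C c * g1 ^ 2 := by
    have h1 : D.map (algebraMap F E) * g0.map (algebraMap F E) ^ 2 =
        (C c * g1 ^ 2) * g0.map (algebraMap F E) ^ 2 := by
      rw [h]
      ring
    exact mul_right_cancel₀ (pow_ne_zero 2 hg0') h1
  have hg1 : IsUnit g1 := hsq' g1 ⟨C c, by rw [hDg]; ring⟩
  have hdeg : D.natDegree = 0 := by
    have h1 : (D.map (algebraMap F E)).natDegree = D.natDegree := natDegree_map _
    rw [← h1, hDg, natDegree_C_mul hc, natDegree_pow, natDegree_eq_zero_of_isUnit hg1]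
  refine hI I hne (D.coeff 0) g0 ?_
  rw [hD, ← eq_C_of_natDegree_eq_zero hdeg]

end Pool.Agent.H3.FS
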