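import Pool.Agent.H94.PC.JsA

set_option autoImplicit false

/-!
# [H3 FS JSE] The symbol modulo an irreducible polynomial as a character of the residue field

`F ⊆ E` finite fields of odd characteristic, `θ ∈ E` with `F(θ) = E` in the form: `P` monic irreducible over `F`, `P(θ) = 0`, `deg P = [E : F]`.
Then `js A P = ch (A(θ))`.

Proof.  `js A P = ch (resultant P A)`.  Over an algebraic closure `resultant P A = ∏_{P(α) = 0} A(α)` (`P` monic;
`Polynomial.resultant_eq_prod_eval` or similar) `= N_{E/F}(A(θ))`.  Simpler: avoid resultants by the three cases: if `P ∣ A` both are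
`0`.  Otherwise `js A P = ± 1` (`js_cases'`), and it is `1` iff `A` is a square mod `P`: the function `A ↦ js A P` is a
multiplicative function on `(F[X]/P)^* ≅ E^*` (`js_mul_left`, `js_congr`) with values `± 1`, and `ch (A(θ))` is the quadratic
character; a homomorphism `E^* → {± 1}` is trivial or the quadratic character (`E^*` is cyclic), so it is enough to
see that `js · P` is not trivial: `js (C c) P = ch c ^ deg P` is not enough for even degree; so use the norm: `resultant P A =
Algebra.norm F (A(θ))` (Mathlib: `Algebra.norm_eq_prod_roots`/`Polynomial.resultant` lemmas) and `ch_F (N x) = ch_E x` (`x = g^i`, `g` a generator of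
`E^*`; `N g = g^((Q-1)/(q-1))` generates `F^*`: the norm is surjective for finite fields, `FiniteField.unitsMap_norm_surjective`).
Any proof is fine.
-/

namespace Pool.Agent.H3.FS

open Polynomial

private lemma res_norm {F E : Type} [Field F] [Finite F] [Field E] [Finite E] [Algebra F E]
    {P : F[X]} (hP : P.Monic) (hi : Irreducible P) (hd : P.natDegree = Module.finrank F E) {θ : E}
    (hθ : aeval θ P = 0) (A : F[X]) : resultant P A = Algebra.norm F (aeval θ A) := by
  classical
  have hmin : P = minpoly F θ := minpoly.eq_of_irreducible_of_monic hi hθ hP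
  have hfin : FiniteDimensional F E := Module.Finite.of_finite
  have htop : IntermediateField.adjoin F {θ} = ⊤ := by
    rw [Field.primitive_element_iff_minpoly_natDegree_eq, ← hmin]
    exact hd
  have hinj : Function.Injective fun φ : E →ₐ[F] AlgebraicClosure E => φ θ :=
    (Field.primitive_element_iff_algHom_eq_of_eval' F (AlgebraicClosure E)
      (fun _ => IsAlgClosed.splits _) θ).1 htop
  have hroots : (Finset.univ : Finset (E →ₐ[F] AlgebraicClosure E)).val.map (fun φ => φ θ)
      = (P.map (algebraMap F (AlgebraicClosure E))).roots := by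
    apply Multiset.eq_of_le_of_card_le
    · rw [Multiset.le_iff_subset]
      · intro x hx
        rw [Multiset.mem_map] at hx
        obtain ⟨φ, -, rfl⟩ := hx
        rw [Polynomial.mem_roots ((hP.map _).ne_zero), Polynomial.IsRoot.def, Polynomial.eval_map_algebraMap]
        have h1 : aeval (φ θ) P = φ (aeval θ P) := Polynomial.aeval_algHom_apply φ θ P
        rw [h1, hθ, map_zero]
      · exact Multiset.Nodup.map hinj Finset.univ.nodup
    · rw [Multiset.card_map]
      have h2 : Multiset.card (Finset.univ : Finset (E →ₐ[F] AlgebraicClosure E)).val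
          = Module.finrank F E := by
        rw [← AlgHom.card F E (AlgebraicClosure E)]
        rfl
      rw [h2, ← hd]
      refine le_trans (Polynomial.card_roots' _) ?_
      exact Polynomial.natDegree_map_le
  apply (algebraMap F (AlgebraicClosure E)).injective
  rw [Algebra.norm_eq_prod_embeddings, ← resultant_map_map]
  have h3 := resultant_eq_prod_eval (P.map (algebraMap F (AlgebraicClosure E)))
    (A.map (algebraMap F (AlgebraicClosure E))) A.natDegree Polynomial.natDegree_map_le
    (IsAlgClosed.splits _)
  rw [Polynomial.natDegree_map, (hP.map _).leadingCoeff, one_pow, one_mul, ← hroots] at h3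
  rw [h3, Multiset.map_map, Finset.prod]
  congr 1
  refine Multiset.map_congr rfl (fun φ _ => ?_)
  rw [Function.comp_apply, Polynomial.eval_map_algebraMap]
  exact Polynomial.aeval_algHom_apply φ θ A

private lemma ch_norm {F E : Type} [Field F] [Finite F] [Field E] [Finite E] [Algebra F E]
    (h2 : (2 : F) ≠ 0) (x : E) : H94.PC.ch (Algebra.norm F x) = H94.PC.ch x := by
  have hfin : FiniteDimensional F E := Module.Finite.of_finite
  by_cases hx : x = 0
  · rw [hx, Algebra.norm_zero, H94.PC.ch_zero, H94.PC.ch_zero]
  have hnx : ∀ y : E, y ≠ 0 → Algebra.norm F y ≠ 0 := fun y hy => Algebra.norm_ne_zero_iff.2 hy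
  have hsq : ∀ y : E, y ≠ 0 → IsSquare y → H94.PC.ch (Algebra.norm F y) = 1 := by
    intro y hy hys
    obtain ⟨r, rfl⟩ := hys
    refine H94.PC.ch_of_sq (hnx _ hy) ⟨Algebra.norm F r, ?_⟩
    rw [map_mul]
  rcases H94.PC.ch_cases' hx with h | h
  · rw [h]
    exact hsq x hx ((H94.PC.ch_eq_one_iff hx).1 h)
  · obtain ⟨c, hc⟩ := H94.PC.exists_ch_neg h2
    obtain ⟨y, rfl⟩ := FiniteField.norm_surjective F E c
    have hy0 : y ≠ 0 := by
      rintro rfl
      rw [Algebra.norm_zero, H94.PC.ch_zero] at hc
      norm_num at hc
    have hy : H94.PC.ch y = -1 := by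
      rcases H94.PC.ch_cases' hy0 with h1 | h1
      · have := hsq y hy0 ((H94.PC.ch_eq_one_iff hy0).1 h1)
        rw [this] at hc
        norm_num at hc
      · exact h1
    have hxy : H94.PC.ch (x * y) = 1 := by
      rw [H94.PC.ch_mul, h, hy]
      norm_num
    have h3 := hsq (x * y) (mul_ne_zero hx hy0) ((H94.PC.ch_eq_one_iff (mul_ne_zero hx hy0)).1 hxy)
    rw [map_mul, H94.PC.ch_mul, hc] at h3
    rw [h]
    linarith

theorem jse {F E : Type} [Field F] [Finite F] [Field E] [Finite E] [Algebra F E] (h2 : (2 : F) ≠ 0)
    {P : F[X]} (hP : P.Monic) (hi : Irreducible P) (hd : P.natDegree = Module.finrank F E) {θ : E}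
    (hθ : aeval θ P = 0) (A : F[X]) : H94.PC.js A P = H94.PC.ch (aeval θ A) := by
  rw [H94.PC.js, res_norm hP hi hd hθ A, ch_norm h2]

end Pool.Agent.H3.FS
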