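import Pool.Agent.H3.FS.CHE
import Pool.Agent.H3.FS.INK
import Pool.Agent.H3.FS.JSE

set_option autoImplicit false

/-!
# [H3 FS PRI] The sum over the primes of degree `m`

`Rt m P a` = the tuples `r` of polynomials of degree `< m` with `P ∣ r_i² - a_i`.  Then
`|∑_{P ∈ Pr F m} ∑_{r ∈ Rt m P a} js (Ξ(r)) P| ≤ K h √(q^m)`.

Proof.  Let `E` be an extension of `F` of degree `m` (`FiniteField.Extension`, `Q = q^m` elements), `a'`, `Ξ'` the images over `E`.  For
`θ ∈ E` put `S_θ = ∑_{y over θ} ch (Ξ'(θ, y))`, so `∑_θ S_θ = chs a' Ξ'` and `|chs a' Ξ'| ≤ K_1 h √Q` (`che` with `p = char F`; `ink`; the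
hypotheses `hN`, `hR`).  (1) If `θ` has degree `m` over `F` with minimal polynomial `P`, then `S_θ = ∑_{r ∈ Rt m P a} js (Ξ(r)) P`: the map
`r ↦ (r_i(θ))_i` is a bijection of `Rt m P a` with the `y` over `θ` (polynomials of degree `< m` ↔ `E` by evaluation at `θ`;
`P ∣ r_i² - a_i ↔ r_i(θ)² = a_i(θ)`, `minpoly.dvd_iff`), and `js (Ξ(r)) P = ch (Ξ(r)(θ)) = ch (Ξ'(θ, r(θ)))` (`jse`).  (2) Every `P ∈ Pr F m` is
the minimal polynomial of exactly `m` elements of `E` (its roots; it splits and is separable).  So `∑_θ S_θ = m ∑_P (...) +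
∑_{deg θ < m} S_θ`.  (3) There are at most `2 √Q` elements of degree `< m` (the degree `d` of such `θ` divides `m` and is `≤ m/2`; at
most `q^d` elements satisfy `θ^(q^d) = θ`; `∑_{d ≤ m/2} q^d ≤ 2 q^(m/2)`), each with `|S_θ| ≤ 2^ρ`.  So the sum over `P` is at most
`(K_1 h √Q + 2^(ρ+1) √Q) / m ≤ (K_1 + 2^(ρ+1)) h √Q`.
-/

namespace Pool.Agent.H3.FS

open Polynomial

/-- tuples of square roots of the `a_i` modulo `P` -/
def Rt {F : Type} [Field F] {ρ : ℕ} (m : ℕ) (P : F[X]) (a : Fin ρ → F[X]) : Set (Fin ρ → F[X]) :=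
  {r | (∀ i, (r i).natDegree < m) ∧ ∀ i, P ∣ r i ^ 2 - a i}

/-- the polynomial over the extension -/
noncomputable def mpE {F : Type} [Field F] {ρ : ℕ} (E : Type) [Field E] [Algebra F E]
    (Ξ : MvPolynomial (Fin ρ) F[X]) : MvPolynomial (Fin ρ) E[X] :=
  MvPolynomial.map (Polynomial.mapRingHom (algebraMap F E)) Ξ

section
variable {F E : Type} [Field F] [Finite F] [Field E] [Finite E] [Algebra F E] {ρ : ℕ}

private theorem pri_val (Ξ : MvPolynomial (Fin ρ) F[X]) (θ : E) (r : Fin ρ → F[X]) :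
    aeval θ (MvPolynomial.eval r Ξ) = mve (mpE E Ξ) θ (fun i => aeval θ (r i)) := by
  unfold mve mv mpE
  rw [MvPolynomial.eval₂_map, MvPolynomial.eval, MvPolynomial.coe_eval₂Hom]
  have h1 := MvPolynomial.eval₂_comp_left (aeval θ : F[X] →ₐ[F] E).toRingHom (RingHom.id F[X]) r Ξ
  have h2 : ((aeval θ : F[X] →ₐ[F] E).toRingHom).comp (RingHom.id F[X]) =
      (evalRingHom θ).comp (mapRingHom (algebraMap F E)) := by
    apply Polynomial.ringHom_ext
    · intro c
      simp
    · simp
  rw [h2] at h1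
  exact h1

open Classical in
/-- the sum over `θ` -/
private noncomputable def Sth (a : Fin ρ → F[X]) (Ξ : MvPolynomial (Fin ρ) F[X]) (θ : E) : ℝ :=
  ∑ᶠ y ∈ {y : Fin ρ → E | Ov (fun i => (a i).map (algebraMap F E)) θ y}, H94.PC.ch (mve (mpE E Ξ) θ y)

private theorem pri_gen {m : ℕ} (hm : 1 ≤ m) (hE : Module.finrank F E = m) {θ : E}
    (hθ : (minpoly F θ).natDegree = m) (y : E) :
    ∃ r : F[X], r.natDegree < m ∧ aeval θ r = y := by
  have hfin : FiniteDimensional F E := Module.Finite.of_finite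
  have h1 : IntermediateField.adjoin F {θ} = ⊤ :=
    (Field.primitive_element_iff_minpoly_natDegree_eq F θ).2 (by rw [hθ, hE])
  have hint : IsIntegral F θ := IsIntegral.of_finite F θ
  have h2 : y ∈ Algebra.adjoin F {θ} := by
    rw [← IntermediateField.adjoin_simple_toSubalgebra_of_isAlgebraic hint.isAlgebraic, h1]
    exact Algebra.mem_top
  rw [Algebra.adjoin_singleton_eq_range_aeval] at h2
  obtain ⟨f, hf⟩ := h2
  have hmon := minpoly.monic hint
  have hne : minpoly F θ ≠ 1 := minpoly.ne_one F θ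
  refine ⟨f %ₘ minpoly F θ, ?_, ?_⟩
  · have := natDegree_modByMonic_lt f hmon hne
    rwa [hθ] at this
  · rw [← hf]
    have h3 := modByMonic_add_div f (minpoly F θ)
    have h4 : aeval θ f = aeval θ (f %ₘ minpoly F θ) + aeval θ (minpoly F θ) * aeval θ (f /ₘ minpoly F θ) := by
      rw [← map_mul, ← map_add, h3]
    rw [minpoly.aeval, zero_mul, add_zero] at h4
    exact h4.symm

private theorem pri_one (h2 : (2 : F) ≠ 0) {m : ℕ} (hm : 1 ≤ m) (hE : Module.finrank F E = m)
    (a : Fin ρ → F[X]) (Ξ : MvPolynomial (Fin ρ) F[X]) {θ : E} {P : F[X]} (hP : minpoly F θ = P)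
    (hd : P.natDegree = m) :
    ∑ᶠ r ∈ Rt m P a, H94.PC.js (MvPolynomial.eval r Ξ) P = Sth a Ξ θ := by
  have hfin : FiniteDimensional F E := Module.Finite.of_finite
  have hint : IsIntegral F θ := IsIntegral.of_finite F θ
  have hmon : P.Monic := by rw [← hP]; exact minpoly.monic hint
  have hirr : Irreducible P := by rw [← hP]; exact minpoly.irreducible hint
  have hz : aeval θ P = 0 := by rw [← hP]; exact minpoly.aeval F θ
  have hdv : ∀ f : F[X], P ∣ f ↔ aeval θ f = 0 := by
    intro f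
    rw [← hP]
    exact (minpoly.dvd_iff).trans Iff.rfl
  unfold Sth
  refine finsum_mem_eq_of_bijOn (fun r i => aeval θ (r i)) ⟨?_, ?_, ?_⟩ ?_
  · rintro r ⟨_, h4⟩ i
    have h5 := (hdv _).1 (h4 i)
    rw [map_sub, map_pow, sub_eq_zero] at h5
    rw [eval_map_algebraMap]
    exact h5
  · rintro r ⟨h3, _⟩ r' ⟨h3', _⟩ h
    funext i
    have h5 : aeval θ (r i) = aeval θ (r' i) := congrFun h i
    have h6 : P ∣ r i - r' i := by
      rw [hdv, map_sub, sub_eq_zero]
      exact h5
    by_contra hne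
    have h7 : r i - r' i ≠ 0 := sub_ne_zero.2 hne
    have h8 := natDegree_le_of_dvd h6 h7
    have h9 := natDegree_sub_le (r i) (r' i)
    have h10 := h3 i
    have h11 := h3' i
    rw [hd] at h8
    have h12 := max_lt h10 h11
    omega
  · intro y hy
    have h5 : ∀ i, ∃ r : F[X], r.natDegree < m ∧ aeval θ r = y i := fun i =>
      pri_gen hm hE (by rw [hP, hd]) (y i)
    choose r hr1 hr2 using h5
    refine ⟨r, ⟨hr1, fun i => ?_⟩, ?_⟩
    · rw [hdv, map_sub, map_pow, hr2, sub_eq_zero]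
      have := hy i
      rw [eval_map_algebraMap] at this
      exact this
    · funext i
      exact hr2 i
  · intro r _
    rw [jse h2 hmon hirr (by rw [hd, hE]) hz, pri_val]

private theorem pri_roots {m : ℕ} (hm : 1 ≤ m) (hE : Module.finrank F E = m) [Fintype E] [DecidableEq F[X]]
    {P : F[X]} (hP : P ∈ H94.PC.Pr F m) :
    (Finset.univ.filter (fun θ : E => minpoly F θ = P)).card = m := by
  classical
  have hfin : FiniteDimensional F E := Module.Finite.of_finite
  obtain ⟨hmon, hd, hirr⟩ := H94.PC.mem_Pr.1 hP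
  have hsep : P.Separable := PerfectField.separable_of_irreducible hirr
  have hdvd : P ∣ X ^ (Nat.card F) ^ m - X :=
    hirr.natDegree_dvd_iff_dvd_X_pow_card_pow_sub_X.1 (by rw [hd])
  have hspl : (P.map (algebraMap F E)).Splits := by
    have hS : IsSplittingField F E (X ^ Nat.card F ^ m - X) := by
      rw [← hE, ← Module.natCard_eq_pow_finrank, ← Fintype.card_eq_nat_card]
      exact FiniteField.isSplittingField_sub E F
    refine Splits.of_dvd ?_ ?_ (map_dvd (algebraMap F E) hdvd)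
    · exact hS.splits'
    · exact Polynomial.map_ne_zero (FiniteField.X_pow_card_pow_sub_X_ne_zero F (by omega) Finite.one_lt_card)
  have h1 := card_rootSet_eq_natDegree (K := E) hsep hspl
  rw [hd] at h1
  rw [← h1, ← Set.toFinset_card]
  congr 1
  ext θ
  rw [Finset.mem_filter, Set.mem_toFinset, mem_rootSet]
  constructor
  · rintro ⟨-, h2⟩
    refine ⟨hmon.ne_zero, ?_⟩
    rw [← h2]
    exact minpoly.aeval F θ
  · rintro ⟨-, h2⟩
    exact ⟨Finset.mem_univ _, (minpoly.eq_of_irreducible_of_monic hirr h2 hmon).symm⟩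

private theorem pri_geom (q n : ℕ) (hq : 2 ≤ q) : ∑ d ∈ Finset.range (n + 1), q ^ d ≤ 2 * q ^ n := by
  induction n with
  | zero => simp
  | succ n ih =>
    rw [Finset.sum_range_succ]
    have h1 : 2 * q ^ n ≤ q ^ (n + 1) := by
      rw [pow_succ, mul_comm (q ^ n)]
      exact Nat.mul_le_mul_right _ hq
    omega

private theorem pri_few {m : ℕ} (hm : 1 ≤ m) (hE : Module.finrank F E = m) [Fintype E] :
    ((Finset.univ.filter (fun θ : E => (minpoly F θ).natDegree ≠ m)).card : ℝ) ≤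
      2 * √((Nat.card F : ℝ) ^ m) := by
  classical
  have hfin : FiniteDimensional F E := Module.Finite.of_finite
  have hq : 2 ≤ Nat.card F := Finite.one_lt_card
  have hqc : Nat.card E = Nat.card F ^ m := by rw [← hE]; exact Module.natCard_eq_pow_finrank
  have hsub : (Finset.univ.filter (fun θ : E => (minpoly F θ).natDegree ≠ m)) ⊆
      (Finset.range (m / 2 + 1)).biUnion (fun d => if 1 ≤ d then
        (X ^ (Nat.card F) ^ d - X : E[X]).roots.toFinset else ∅) := by
    intro θ hθ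
    rw [Finset.mem_filter] at hθ
    have hint : IsIntegral F θ := IsIntegral.of_finite F θ
    have hirr := minpoly.irreducible hint
    obtain ⟨d, hd⟩ : ∃ d, d = (minpoly F θ).natDegree := ⟨_, rfl⟩
    have hd1 : 1 ≤ d := by rw [hd]; exact hirr.natDegree_pos
    have hdm : d ∣ m := by
      rw [hd, ← hE]
      exact minpoly.degree_dvd hint
    obtain ⟨e, he⟩ := hdm
    have hne : d ≠ m := by rw [hd]; exact hθ.2
    have he2 : 2 ≤ e := by
      rcases Nat.lt_or_ge e 2 with h1 | h1
      · interval_cases e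
        · omega
        · omega
      · exact h1
    have hd2 : d ≤ m / 2 := by
      rw [Nat.le_div_iff_mul_le (by norm_num), he]
      exact Nat.mul_le_mul_left d he2
    rw [Finset.mem_biUnion]
    refine ⟨d, Finset.mem_range.2 (by omega), ?_⟩
    rw [if_pos hd1, Multiset.mem_toFinset, mem_roots]
    · have hdvd : minpoly F θ ∣ X ^ (Nat.card F) ^ d - X :=
        hirr.natDegree_dvd_iff_dvd_X_pow_card_pow_sub_X.1 (by rw [hd])
      have h3 := (minpoly.dvd_iff (A := F) (x := θ)).1 hdvd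
      rw [map_sub, map_pow, aeval_X] at h3
      rw [IsRoot.def, eval_sub, eval_pow, eval_X]
      exact h3
    · exact FiniteField.X_pow_card_pow_sub_X_ne_zero E (by omega) hq
  have h1 : (Finset.univ.filter (fun θ : E => (minpoly F θ).natDegree ≠ m)).card ≤
      2 * (Nat.card F) ^ (m / 2) := by
    refine (Finset.card_le_card hsub).trans (Finset.card_biUnion_le.trans ?_)
    refine le_trans (Finset.sum_le_sum fun d _ => ?_) (pri_geom (Nat.card F) (m / 2) hq)
    split_ifs with hd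
    · refine (Multiset.toFinset_card_le _).trans ((card_roots' _).trans ?_)
      rw [FiniteField.X_pow_card_pow_sub_X_natDegree_eq E (by omega) hq]
    · rw [Finset.card_empty]
      exact Nat.zero_le _
  have h2 : ((Finset.univ.filter (fun θ : E => (minpoly F θ).natDegree ≠ m)).card : ℝ) ≤
      2 * (Nat.card F : ℝ) ^ (m / 2) := by exact_mod_cast h1
  refine h2.trans ?_
  apply mul_le_mul_of_nonneg_left _ (by norm_num)
  apply Real.le_sqrt_of_sq_le
  rw [← pow_mul]
  apply pow_le_pow_right₀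
  · exact_mod_cast (by omega : 1 ≤ Nat.card F)
  · omega

private theorem pri_bd (a : Fin ρ → F[X]) (Ξ : MvPolynomial (Fin ρ) F[X]) (θ : E) :
    |Sth a Ξ θ| ≤ 2 ^ ρ := by
  classical
  have hfE : Fintype E := Fintype.ofFinite E
  have hset : ({y : Fin ρ → E | Ov (fun i => (a i).map (algebraMap F E)) θ y}) =
      ((Fintype.piFinset (fun i => Finset.univ.filter (fun s : E => s ^ 2 =
        ((a i).map (algebraMap F E)).eval θ)) : Finset (Fin ρ → E)) : Set (Fin ρ → E)) := by
    ext y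
    simp [Ov, Fintype.mem_piFinset]
  unfold Sth
  rw [hset, finsum_mem_coe_finset]
  refine (Finset.abs_sum_le_sum_abs _ _).trans ?_
  refine (Finset.sum_le_sum fun y _ => H94.PC.abs_ch_le _).trans ?_
  rw [Finset.sum_const, nsmul_eq_mul, mul_one, Fintype.card_piFinset]
  have h1 : ∏ i, (Finset.univ.filter (fun s : E => s ^ 2 =
      ((a i).map (algebraMap F E)).eval θ)).card ≤ 2 ^ ρ := by
    refine (Finset.prod_le_prod' (g := fun _ => 2) fun i _ => ?_).trans ?_
    · have h3 : (Finset.univ.filter (fun s : E => s ^ 2 =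
          ((a i).map (algebraMap F E)).eval θ)) ⊆
          (X ^ 2 - C (((a i).map (algebraMap F E)).eval θ) : E[X]).roots.toFinset := by
        intro s hs
        rw [Finset.mem_filter] at hs
        rw [Multiset.mem_toFinset, mem_roots (X_pow_sub_C_ne_zero (by norm_num) _)]
        simp [hs.2]
      refine (Finset.card_le_card h3).trans ((Multiset.toFinset_card_le _).trans
        ((card_roots' _).trans ?_))
      rw [natDegree_X_pow_sub_C]
    · rw [Finset.prod_const, Finset.card_univ, Fintype.card_fin]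
  exact_mod_cast h1

end

theorem pri (F : Type) [Field F] [Finite F] (h2 : (2 : F) ≠ 0) (ρ d : ℕ) : ∃ K : ℝ, 0 ≤ K ∧
    ∀ (m h : ℕ) (a : Fin ρ → F[X]) (Ξ : MvPolynomial (Fin ρ) F[X]), 1 ≤ m → 1 ≤ h →
      (∀ i, (a i).natDegree ≤ h) → Bd h d Ξ → Ind a →
      (∀ (E : Type) [Field E] [Finite E] [Algebra F E], ∀ ν : E, ν ≠ 0 →
        NS (fun i => (a i).map (algebraMap F E)) (MvPolynomial.C (C ν) * mpE E Ξ)) →
      (∀ (E : Type) [Field E] [Finite E] [Algebra F E],
        NRM' (fun i => (a i).map (algebraMap F E)) (mpE E Ξ)) →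
      |∑ P ∈ H94.PC.Pr F m, ∑ᶠ r ∈ Rt m P a, H94.PC.js (MvPolynomial.eval r Ξ) P| ≤
        K * h * √((Nat.card F : ℝ) ^ m) := by
  classical
  obtain ⟨p, hp⟩ := CharP.exists F
  have hpp : Fact p.Prime := ⟨CharP.char_is_prime F p⟩
  have hp2 : p ≠ 2 := by
    rintro rfl
    apply h2
    exact_mod_cast CharP.cast_eq_zero F 2
  obtain ⟨K1, hK1, hche⟩ := che p ρ d hp2
  refine ⟨K1 + 2 * 2 ^ ρ, by positivity, ?_⟩
  intro m h a Ξ hm hh ha hΞ hI hN hR
  have hmz : NeZero m := ⟨by omega⟩
  obtain ⟨E, iE, iF, iA, hE⟩ : ∃ (E : Type) (_ : Field E) (_ : Finite E) (_ : Algebra F E),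
      Module.finrank F E = m :=
    ⟨FiniteField.Extension F p m, inferInstance, inferInstance, inferInstance,
      FiniteField.finrank_extension F p m⟩
  have hfin : FiniteDimensional F E := Module.Finite.of_finite
  have hfE : Fintype E := Fintype.ofFinite E
  have hchE : CharP E p := charP_of_injective_algebraMap (algebraMap F E).injective p
  have hqc : (Nat.card E : ℝ) = (Nat.card F : ℝ) ^ m := by
    have : Nat.card E = Nat.card F ^ m := by rw [← hE]; exact Module.natCard_eq_pow_finrank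
    rw [this]
    push_cast
    rfl
  have hc := hche E h (fun i => (a i).map (algebraMap F E)) (mpE E Ξ) hh
    (fun i => natDegree_map_le.trans (ha i)) ⟨(Finset.sup_mono (MvPolynomial.support_map_subset (mapRingHom (algebraMap F E)) Ξ)).trans hΞ.1,
      fun α => by
        unfold mpE
        rw [MvPolynomial.coeff_map]
        exact natDegree_map_le.trans (hΞ.2 α)⟩ (ink hI) (hN E) (hR E)
  rw [hqc] at hc
  obtain ⟨Q, hQ⟩ : ∃ Q : ℝ, Q = √((Nat.card F : ℝ) ^ m) := ⟨_, rfl⟩
  rw [← hQ] at hc ⊢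
  have hQ0 : 0 ≤ Q := by rw [hQ]; exact Real.sqrt_nonneg _
  -- the character sum as a sum over `θ`
  have hsum : chs (fun i => (a i).map (algebraMap F E)) (mpE E Ξ) = ∑ θ : E, Sth a Ξ θ := by
    unfold chs
    rw [finsum_eq_sum_of_fintype, Fintype.sum_prod_type]
    refine Finset.sum_congr rfl fun θ _ => ?_
    unfold Sth
    rw [finsum_mem_eq_finite_toFinset_sum _ (Set.toFinite _), ← Finset.sum_filter]
    apply Finset.sum_congr _ (fun _ _ => rfl)
    ext y
    simp
  have hsplit : ∑ θ : E, Sth a Ξ θ = ∑ θ ∈ Finset.univ.filter (fun θ : E => (minpoly F θ).natDegree = m), Sth a Ξ θ +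
      ∑ θ ∈ Finset.univ.filter (fun θ : E => (minpoly F θ).natDegree ≠ m), Sth a Ξ θ :=
    (Finset.sum_filter_add_sum_filter_not _ _ _).symm
  obtain ⟨T, hT⟩ : ∃ T : ℝ, T = ∑ P ∈ H94.PC.Pr F m, ∑ᶠ r ∈ Rt m P a, H94.PC.js (MvPolynomial.eval r Ξ) P :=
    ⟨_, rfl⟩
  have hmain : ∑ θ ∈ Finset.univ.filter (fun θ : E => (minpoly F θ).natDegree = m), Sth a Ξ θ = m * T := by
    have hmaps : ∀ θ ∈ Finset.univ.filter (fun θ : E => (minpoly F θ).natDegree = m),
        minpoly F θ ∈ H94.PC.Pr F m := by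
      intro θ hθ
      rw [Finset.mem_filter] at hθ
      have hint : IsIntegral F θ := IsIntegral.of_finite F θ
      exact H94.PC.mem_Pr.2 ⟨minpoly.monic hint, hθ.2, minpoly.irreducible hint⟩
    rw [← Finset.sum_fiberwise_of_maps_to hmaps, hT, Finset.mul_sum]
    refine Finset.sum_congr rfl fun P hP => ?_
    have hP' := H94.PC.mem_Pr.1 hP
    have h1 : (Finset.univ.filter (fun θ : E => (minpoly F θ).natDegree = m)).filter
        (fun θ => minpoly F θ = P) = Finset.univ.filter (fun θ : E => minpoly F θ = P) := by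
      ext θ
      simp only [Finset.mem_filter, Finset.mem_univ, true_and]
      constructor
      · exact fun h => h.2
      · intro h
        exact ⟨by rw [h]; exact hP'.2.1, h⟩
    rw [h1]
    have h3 : ∀ θ ∈ Finset.univ.filter (fun θ : E => minpoly F θ = P), Sth a Ξ θ =
        ∑ᶠ r ∈ Rt m P a, H94.PC.js (MvPolynomial.eval r Ξ) P := by
      intro θ hθ
      rw [Finset.mem_filter] at hθ
      exact (pri_one h2 hm hE a Ξ hθ.2 hP'.2.1).symm
    rw [Finset.sum_congr rfl h3, Finset.sum_const, nsmul_eq_mul, pri_roots hm hE hP]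
  have hrest : |∑ θ ∈ Finset.univ.filter (fun θ : E => (minpoly F θ).natDegree ≠ m), Sth a Ξ θ| ≤
      2 * Q * 2 ^ ρ := by
    refine (Finset.abs_sum_le_sum_abs _ _).trans ((Finset.sum_le_sum fun θ _ => pri_bd a Ξ θ).trans ?_)
    rw [Finset.sum_const, nsmul_eq_mul, hQ]
    exact mul_le_mul_of_nonneg_right (pri_few hm hE) (by positivity)
  rw [hsum, hsplit, hmain] at hc
  rw [← hT]
  have hhR : (1 : ℝ) ≤ h := by exact_mod_cast hh
  have hmR : (1 : ℝ) ≤ m := by exact_mod_cast hm
  have h4 : |(m : ℝ) * T| ≤ K1 * h * Q + 2 * Q * 2 ^ ρ := by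
    have h5 := abs_sub_le ((m : ℝ) * T + ∑ θ ∈ Finset.univ.filter
      (fun θ : E => (minpoly F θ).natDegree ≠ m), Sth a Ξ θ) 0 (∑ θ ∈ Finset.univ.filter
      (fun θ : E => (minpoly F θ).natDegree ≠ m), Sth a Ξ θ)
    rw [add_sub_cancel_right, sub_zero, zero_sub, abs_neg] at h5
    linarith
  rw [abs_mul, abs_of_nonneg (by linarith : (0 : ℝ) ≤ m)] at h4
  have h6 : |T| ≤ m * |T| := le_mul_of_one_le_left (abs_nonneg _) hmR
  have h7 : 2 * Q * 2 ^ ρ ≤ 2 * 2 ^ ρ * h * Q := by
    have h8 : 0 ≤ 2 * 2 ^ ρ * Q := by positivity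
    have h9 := mul_le_mul_of_nonneg_left hhR h8
    linarith
  have h10 : (K1 + 2 * 2 ^ ρ) * h * Q = K1 * h * Q + 2 * 2 ^ ρ * h * Q := by ring
  rw [h10]
  linarith

end Pool.Agent.H3.FS
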