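import Pool.Agent.H3.FS.GVX
import Pool.Agent.H3.FS.GVR
import Pool.Agent.H3.FS.PRI

set_option autoImplicit false

/-!
# [H3 FS EQA] The character sums of the equidistribution

For `n ⊆ prs r` not empty and a polynomial `g ≠ 0` of degree `≤ h`:
`|∑_{P ∈ Pr F m} ∑_{ρ ∈ Rt m P a} js (eval ρ (C g * ∏_{p ∈ n} el_p)) P| ≤ K h √(q^m)`, `K` depends on `F` and `r` only.

Proof.  `pri` with `ρ = r * 2`, `d = 4 #(prs r)`, for `Ξ = C g * ∏`: `Bd ((7 #(prs r) + 1) h) (4 #(prs r)) Ξ` (`bd_mul`, `bd_C`, `bd_prod`,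
`gel_bd`; `Bd` is monotone), and the same bound for the degrees of the `a_i`.  `NS`: over `E`, `C (C ν) * mpE E Ξ = C (ν g) * ∏ (G.ext E).el`
(`ext_el`, `map_mul`, `map_prod`), so `gvx` over `E` (`ink` for `Ind`; `2 ≠ 0` in `E`).  `NRM'`: `gvr` (`mpE E (C g * ∏) = C (g.map) * mpE E ∏`).
-/

namespace Pool.Agent.H3.FS

open Polynomial

theorem eqa (F : Type) [Field F] [Finite F] (h2 : (2 : F) ≠ 0) (r : ℕ) : ∃ K : ℝ, 0 ≤ K ∧
    ∀ (m h : ℕ) (a : Fin (r * 2) → F[X]) (G : ∀ p : Fin r × Fin r, p ∈ prs r → Gd a p.1 p.2)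
      (n : Finset (Fin r × Fin r)) (hn : n ⊆ prs r) (g : F[X]), 1 ≤ m → 1 ≤ h →
      (∀ i, (a i).natDegree ≤ h) → (∀ p hp, (G p hp).Dg h) → Ind a → n.Nonempty → g ≠ 0 →
      g.natDegree ≤ h →
      |∑ P ∈ H94.PC.Pr F m, ∑ᶠ ρ ∈ Rt m P a, H94.PC.js (MvPolynomial.eval ρ
        (MvPolynomial.C g * ∏ p ∈ n.attach, (G p.1 (hn p.2)).el)) P| ≤
        K * h * √((Nat.card F : ℝ) ^ m) := by
  obtain ⟨K0, hK0, hpri⟩ := pri F h2 (r * 2) (4 * (prs r).card)
  refine ⟨K0 * (7 * (prs r).card + 1), by positivity, ?_⟩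
  intro m h a G n hn g hm hh ha hG hI hne hg hgd
  have hcard : n.attach.card ≤ (prs r).card := by
    rw [Finset.card_attach]
    exact Finset.card_le_card hn
  have hBd : Bd ((7 * (prs r).card + 1) * h) (4 * (prs r).card)
      (MvPolynomial.C g * ∏ p ∈ n.attach, (G p.1 (hn p.2)).el) := by
    have h1 := bd_mul (bd_C (ρ := r * 2) g) (bd_prod (h := 7 * h) (d := 4) n.attach
      (fun p => (G p.1 (hn p.2)).el) (fun p _ => gel_bd (G p.1 (hn p.2)) (hG p.1 (hn p.2))))
    refine ⟨h1.1.trans ?_, fun α => (h1.2 α).trans ?_⟩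
    · rw [zero_add, mul_comm]
      exact Nat.mul_le_mul_left 4 hcard
    · calc g.natDegree + n.attach.card * (7 * h) ≤ h + (prs r).card * (7 * h) :=
            Nat.add_le_add hgd (Nat.mul_le_mul_right _ hcard)
        _ = (7 * (prs r).card + 1) * h := by ring
  have h3 := hpri m ((7 * (prs r).card + 1) * h) a
    (MvPolynomial.C g * ∏ p ∈ n.attach, (G p.1 (hn p.2)).el) hm (by
      have : 1 ≤ 7 * (prs r).card + 1 := by omega
      exact Nat.mul_pos this hh) (fun i => (ha i).trans (by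
      exact Nat.le_mul_of_pos_left _ (by omega))) hBd hI (by
      intro E _ _ _ ν hν
      have h2E : (2 : E) ≠ 0 := by
        intro h0
        apply h2
        apply (algebraMap F E).injective
        rw [map_ofNat, map_zero]
        exact h0
      have hg' : C ν * g.map (algebraMap F E) ≠ 0 :=
        mul_ne_zero (C_ne_zero.2 hν) ((Polynomial.map_ne_zero_iff (algebraMap F E).injective).2 hg)
      have h4 := gvx h2E (ink (E := E) hI) (fun p hp => (G p hp).ext E) n hn hne hg'
      have e1 : MvPolynomial.C (C ν * g.map (algebraMap F E)) *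
          ∏ p ∈ n.attach, ((G p.1 (hn p.2)).ext E).el =
          MvPolynomial.C (C ν) * mpE E (MvPolynomial.C g * ∏ p ∈ n.attach, (G p.1 (hn p.2)).el) := by
        unfold mpE
        rw [map_mul (MvPolynomial.map (mapRingHom (algebraMap F E))), MvPolynomial.map_C, map_prod,
          MvPolynomial.C_mul, mul_assoc]
        congr 2
        refine Finset.prod_congr rfl fun p _ => ?_
        rw [ext_el]
        rfl
      rw [e1] at h4
      exact h4) (by
      intro E _ _ _
      have h4 := gvr a G n hn E (g.map (algebraMap F E))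
      have e1 : MvPolynomial.C (g.map (algebraMap F E)) *
          mpE E (∏ p ∈ n.attach, (G p.1 (hn p.2)).el) =
          mpE E (MvPolynomial.C g * ∏ p ∈ n.attach, (G p.1 (hn p.2)).el) := by
        unfold mpE
        rw [map_mul (MvPolynomial.map (mapRingHom (algebraMap F E))), MvPolynomial.map_C]
        rfl
      rw [e1] at h4
      exact h4)
  refine h3.trans (le_of_eq ?_)
  push_cast
  ring

end Pool.Agent.H3.FS
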