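import Pool.Agent.H3.FS.GVX
import Pool.Agent.H3.FS.GVR
import Pool.Agent.H3.FS.PRI

set_option autoImplicit false

/-!
# [H3 FS EQB] Bad primes; the value of the governing symbol

* `eqb`: the number of the `P ∈ Pr F m` which divide some `a_i` or for which some `js (eval ρ el_p) P = 0` (`ρ ∈ Rt m P a`) is at most
  `K h`.  Proof: let `E` be an extension of `F` of degree `m`.  Every such `P` has a root `θ ∈ E`, with `a_i(θ) = 0`, or
  `Ξ'(θ, ρ(θ)) = 0` for `Ξ = el_p` (`jse`: `js A P = ch (A(θ))`, and `ch x = 0 ↔ x = 0`); `P` is the minimal polynomial of `θ`.  So the number is at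
  most the sum over `p` of the bound of `bad` (`NS`: `gvx` with `n = {p}`, `g = 1`; `ink`).
* `eqc`: if `P ∈ Pr F m` and `js (eval ρ el_p) P`, `js (eval ρ' el_p) P` are not `0`, `ρ, ρ' ∈ Rt m P a`, then they are equal: `jse` and
  `gvr` over `E`.
* `card_Rt`: if `P ∈ Pr F m` does not divide the `a_i` and every `a_i` is a square mod `P`, then `Rt m P a` has `2^ρ` elements (for
  every `i` exactly two residues `± r_i`, represented by polynomials of degree `< m`; `2 ≠ 0`).
-/

namespace Pool.Agent.H3.FS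

open Polynomial

private theorem eqb_ext (F : Type) [Field F] [Finite F] {m : ℕ} (hm : 1 ≤ m) :
    ∃ (E : Type) (_ : Field E) (_ : Finite E) (_ : Algebra F E), Module.finrank F E = m ∧
      ∀ P ∈ H94.PC.Pr F m, ∃ θ : E, aeval θ P = 0 := by
  obtain ⟨p, hp⟩ := CharP.exists F
  have hpp : Fact p.Prime := ⟨CharP.char_is_prime F p⟩
  have hm0 : NeZero m := ⟨by omega⟩
  refine ⟨FiniteField.Extension F p m, inferInstance, inferInstance, inferInstance,
    FiniteField.finrank_extension F p m, fun P hP => ?_⟩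
  obtain ⟨hP1, hP2, hP3⟩ := H94.PC.mem_Pr.1 hP
  have hfi : Fact (Irreducible P) := ⟨hP3⟩
  have e := FiniteField.algEquivExtension F p m (AdjoinRoot P) (by
    have h1 := finrank_quotient_span_eq_natDegree (f := P)
    rw [hP2] at h1
    exact h1)
  refine ⟨e (AdjoinRoot.root P), ?_⟩
  have h1 : aeval (e (AdjoinRoot.root P)) P = e (aeval (AdjoinRoot.root P) P) :=
    Polynomial.aeval_algHom_apply (e.toAlgHom) (AdjoinRoot.root P) P
  rw [h1, AdjoinRoot.aeval_eq, AdjoinRoot.mk_self, map_zero]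

private theorem eqb_val {F E : Type} [Field F] [Field E] [Algebra F E] {n : ℕ}
    (Ξ : MvPolynomial (Fin n) F[X]) (θ : E) (ρ : Fin n → F[X]) :
    mve (mpE E Ξ) θ (fun i => aeval θ (ρ i)) = aeval θ (MvPolynomial.eval ρ Ξ) := by
  have h1 := MvPolynomial.eval₂_comp_left (aeval θ : F[X] →ₐ[F] E).toRingHom
    (RingHom.id F[X]) ρ Ξ
  rw [MvPolynomial.eval₂_id] at h1
  have h2 : aeval θ (MvPolynomial.eval ρ Ξ) =
      (aeval θ : F[X] →ₐ[F] E).toRingHom (MvPolynomial.eval ρ Ξ) := rfl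
  rw [h2, h1]
  unfold mve mv mpE
  rw [MvPolynomial.eval₂_map]
  congr 1
  ext u
  · simp
  · simp

private theorem eqb_ov {F E : Type} [Field F] [Field E] [Algebra F E] {n m : ℕ}
    {a : Fin n → F[X]} {P : F[X]} {θ : E} (hθ : aeval θ P = 0) {ρ : Fin n → F[X]}
    (hr : ρ ∈ Rt m P a) : Ov (fun i => (a i).map (algebraMap F E)) θ (fun i => aeval θ (ρ i)) := by
  intro i
  obtain ⟨u, hu⟩ := hr.2 i
  have h1 := congrArg (aeval θ) hu
  rw [map_mul, hθ, zero_mul, map_sub, map_pow, sub_eq_zero] at h1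
  show (aeval θ (ρ i)) ^ 2 = _
  rw [h1, eval_map_algebraMap]

/-- the governing data over the extension -/
private noncomputable def gdE {F : Type} [Field F] (E : Type) [Field E] [Algebra F E] {r : ℕ}
    {a : Fin (r * 2) → F[X]} {i j : Fin r} (G : Gd a i j) :
    Gd (fun l => (a l).map (algebraMap F E)) i j where
  g := G.g.map (algebraMap F E)
  c := G.c.map (algebraMap F E)
  X := fun l => (G.X l).map (algebraMap F E)
  Z := fun l => (G.Z l).map (algebraMap F E)
  W := fun l => (G.W l).map (algebraMap F E)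
  g0 := Polynomial.map_ne_zero G.g0
  c0 := Polynomial.map_ne_zero G.c0
  X0 := fun l => Polynomial.map_ne_zero (G.X0 l)
  W0 := fun l => Polynomial.map_ne_zero (G.W0 l)
  e0 := by
    have h := congrArg (Polynomial.map (algebraMap F E)) G.e0
    simpa only [Polynomial.map_sub, Polynomial.map_mul, Polynomial.map_pow] using h
  e1 := by
    have h := congrArg (Polynomial.map (algebraMap F E)) G.e1
    simpa only [Polynomial.map_sub, Polynomial.map_mul, Polynomial.map_pow] using h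
  e2 := by
    have h := congrArg (Polynomial.map (algebraMap F E)) G.e2
    simpa only [Polynomial.map_sub, Polynomial.map_mul, Polynomial.map_pow] using h

private theorem gdE_el {F : Type} [Field F] (E : Type) [Field E] [Algebra F E] {r : ℕ}
    {a : Fin (r * 2) → F[X]} {i j : Fin r} (G : Gd a i j) : (gdE E G).el = mpE E G.el := by
  unfold mpE Gd.el
  rw [gel_map]
  simp only [MvPolynomial.map_C, MvPolynomial.map_X]
  rfl

private theorem eqb_single {α M : Type} [DecidableEq α] [CommMonoid M] (p : α)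
    (f : {q // q ∈ ({p} : Finset α)} → M) :
    ∏ q ∈ ({p} : Finset α).attach, f q = f ⟨p, Finset.mem_singleton_self p⟩ := by
  refine Finset.prod_eq_single_of_mem _ (Finset.mem_attach _ _) fun q _ hq => ?_
  exact absurd (Subtype.ext (Finset.mem_singleton.1 q.2)) hq

private theorem eqb_ns {F : Type} [Field F] [Finite F] (h2 : (2 : F) ≠ 0) {r : ℕ}
    {a : Fin (r * 2) → F[X]} (hI : Ind a) (G : ∀ p : Fin r × Fin r, p ∈ prs r → Gd a p.1 p.2)
    (p : Fin r × Fin r) (hp : p ∈ prs r) (E : Type) [Field E] [Algebra F E] :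
    NS (fun i => (a i).map (algebraMap F E)) (mpE E (G p hp).el) := by
  classical
  have h2E : (2 : E) ≠ 0 := by
    intro h0
    apply h2
    apply (algebraMap F E).injective
    rw [map_ofNat, map_zero]
    exact h0
  have h1 := gvx h2E (ink (E := E) hI) (fun q hq => gdE E (G q hq)) {p}
    (by simpa using hp) (Finset.singleton_nonempty p) (g := 1) one_ne_zero
  rw [eqb_single p, MvPolynomial.C_1, one_mul, gdE_el] at h1
  exact h1

private theorem eqb_nrm {F : Type} [Field F] {r : ℕ}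
    {a : Fin (r * 2) → F[X]} (G : ∀ p : Fin r × Fin r, p ∈ prs r → Gd a p.1 p.2)
    (p : Fin r × Fin r) (hp : p ∈ prs r) (E : Type) [Field E] [Algebra F E] :
    NRM' (fun i => (a i).map (algebraMap F E)) (mpE E (G p hp).el) := by
  classical
  have h1 := gvr a G {p} (by simpa using hp) E 1
  rw [eqb_single p, MvPolynomial.C_1, one_mul] at h1
  exact h1

private theorem eqb_bd {F : Type} [Field F] {n h d : ℕ} {Ξ : MvPolynomial (Fin n) F[X]}
    (hΞ : Bd h d Ξ) (E : Type) [Field E] [Algebra F E] : Bd h d (mpE E Ξ) := by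
  refine ⟨?_, fun α => ?_⟩
  · exact (Finset.sup_mono (MvPolynomial.support_map_subset _ _)).trans hΞ.1
  · unfold mpE
    rw [MvPolynomial.coeff_map]
    exact natDegree_map_le.trans (hΞ.2 α)

private theorem eqb_zeros {E : Type} [Field E] [Finite E] {n h : ℕ} {a : Fin n → E[X]}
    (ha0 : ∀ i, a i ≠ 0) (ha : ∀ i, (a i).natDegree ≤ h) :
    {θ : E | ∃ i, (a i).eval θ = 0}.ncard ≤ n * h := by
  classical
  have hsub : {θ : E | ∃ i, (a i).eval θ = 0} ⊆
      ((Finset.univ.biUnion fun i => (a i).roots.toFinset : Finset E) : Set E) := by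
    rintro θ ⟨i, hi⟩
    rw [Finset.mem_coe, Finset.mem_biUnion]
    refine ⟨i, Finset.mem_univ _, ?_⟩
    rw [Multiset.mem_toFinset, mem_roots (ha0 i)]
    exact hi
  calc _ ≤ ((Finset.univ.biUnion fun i => (a i).roots.toFinset : Finset E) : Set E).ncard :=
        Set.ncard_le_ncard hsub (Finset.finite_toSet _)
    _ = (Finset.univ.biUnion fun i => (a i).roots.toFinset : Finset E).card :=
        Set.ncard_coe_finset _
    _ ≤ ∑ i : Fin n, (a i).roots.toFinset.card := Finset.card_biUnion_le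
    _ ≤ ∑ i : Fin n, h := Finset.sum_le_sum fun i _ =>
        (Multiset.toFinset_card_le _).trans ((card_roots' _).trans (ha i))
    _ = n * h := by rw [Finset.sum_const, Finset.card_univ, Fintype.card_fin, smul_eq_mul]

theorem eqb (F : Type) [Field F] [Finite F] (h2 : (2 : F) ≠ 0) (r : ℕ) : ∃ K : ℝ, 0 ≤ K ∧
    ∀ (m h : ℕ) (a : Fin (r * 2) → F[X]) (G : ∀ p : Fin r × Fin r, p ∈ prs r → Gd a p.1 p.2),
      1 ≤ m → 1 ≤ h → (∀ i, (a i).natDegree ≤ h) → (∀ p hp, (G p hp).Dg h) → Ind a →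
      (({P : F[X] | P ∈ H94.PC.Pr F m ∧ ((∃ i, P ∣ a i) ∨ ∃ p hp, ∃ ρ ∈ Rt m P a,
        H94.PC.js (MvPolynomial.eval ρ (G p hp).el) P = 0)}.ncard : ℝ)) ≤ K * h := by
  classical
  refine ⟨((r * 2 + (prs r).card * (r * 2 * 7 + 2 ^ (r * 2) * 35) : ℕ) : ℝ), Nat.cast_nonneg _, ?_⟩
  intro m h a G hm hh ha hG hI
  obtain ⟨E, iE, iFin, iAlg, hfr, hroot⟩ := eqb_ext F hm
  choose! f hf using hroot
  have hfE : Fintype E := Fintype.ofFinite E
  have h2E : (2 : E) ≠ 0 := by
    intro h0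
    apply h2
    apply (algebraMap F E).injective
    rw [map_ofNat, map_zero]
    exact h0
  obtain ⟨T, hT⟩ : ∃ T : Fin r × Fin r → Set E, ∀ p, T p = {θ : E | ∃ hp : p ∈ prs r,
      ∃ y, Ov (fun i => (a i).map (algebraMap F E)) θ y ∧ mve (mpE E (G p hp).el) θ y = 0} :=
    ⟨_, fun _ => rfl⟩
  have hTfin : ∀ p, (T p).Finite := fun p => Set.toFinite _
  have hTc : ∀ p ∈ prs r, (T p).ncard ≤ (r * 2 * 7 + 2 ^ (r * 2) * 35) * h := by
    intro p hp
    have h3 := bad h2E (h := 7 * h) (d := 4) (a := fun i => (a i).map (algebraMap F E))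
      (Ξ := mpE E (G p hp).el) (fun i => natDegree_map_le.trans ((ha i).trans (by omega)))
      (eqb_bd (gel_bd (G p hp) (hG p hp)) E) (ink hI) (eqb_ns h2 hI G p hp E)
    refine (Set.ncard_le_ncard ?_ (Set.toFinite _)).trans (h3.trans (le_of_eq (by ring)))
    intro θ hθ
    rw [hT] at hθ
    obtain ⟨_, y, hy1, hy2⟩ := hθ
    exact Or.inr ⟨y, hy1, hy2⟩
  have hmaps : ∀ P ∈ {P : F[X] | P ∈ H94.PC.Pr F m ∧ ((∃ i, P ∣ a i) ∨ ∃ p hp, ∃ ρ ∈ Rt m P a,
        H94.PC.js (MvPolynomial.eval ρ (G p hp).el) P = 0)},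
      f P ∈ {θ : E | ∃ i, ((a i).map (algebraMap F E)).eval θ = 0} ∪
        (((prs r).biUnion fun p => (hTfin p).toFinset : Finset E) : Set E) := by
    rintro P ⟨hP, hP2⟩
    obtain ⟨hm1, hm2, hm3⟩ := H94.PC.mem_Pr.1 hP
    rcases hP2 with ⟨i, u, hu⟩ | ⟨p, hp, ρ, hρ, h0⟩
    · refine Or.inl ⟨i, ?_⟩
      rw [eval_map_algebraMap, hu, map_mul, hf P hP, zero_mul]
    · refine Or.inr ?_
      rw [Finset.mem_coe, Finset.mem_biUnion]
      refine ⟨p, hp, ?_⟩
      rw [Set.Finite.mem_toFinset, hT]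
      refine ⟨hp, fun i => aeval (f P) (ρ i), eqb_ov (hf P hP) hρ, ?_⟩
      rw [jse h2 hm1 hm3 (by rw [hm2, hfr]) (hf P hP), H94.PC.ch_eq_zero] at h0
      rw [eqb_val]
      exact h0
  have hinj : Set.InjOn f {P : F[X] | P ∈ H94.PC.Pr F m ∧ ((∃ i, P ∣ a i) ∨
      ∃ p hp, ∃ ρ ∈ Rt m P a, H94.PC.js (MvPolynomial.eval ρ (G p hp).el) P = 0)} := by
    rintro P ⟨hP, -⟩ P' ⟨hP', -⟩ hPP
    obtain ⟨m1, -, m3⟩ := H94.PC.mem_Pr.1 hP
    obtain ⟨m1', -, m3'⟩ := H94.PC.mem_Pr.1 hP'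
    rw [minpoly.eq_of_irreducible_of_monic m3 (hf P hP) m1,
      minpoly.eq_of_irreducible_of_monic m3' (hf P' hP') m1', hPP]
  have h4 := Set.ncard_le_ncard_of_injOn f hmaps hinj (Set.toFinite _)
  have ha0 : ∀ i, (a i).map (algebraMap F E) ≠ 0 := by
    intro i h0
    have h5 : a i = 0 := by
      by_contra h6
      exact Polynomial.map_ne_zero h6 h0
    apply hI {i} (Finset.singleton_nonempty i) 0 0
    rw [Finset.prod_singleton, h5]
    simp
  have h5 := eqb_zeros ha0 (h := h) (fun i => natDegree_map_le.trans (ha i))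
  have h6 : (((prs r).biUnion fun p => (hTfin p).toFinset : Finset E) : Set E).ncard ≤
      (prs r).card * ((r * 2 * 7 + 2 ^ (r * 2) * 35) * h) := by
    rw [Set.ncard_coe_finset]
    refine Finset.card_biUnion_le.trans ?_
    have h7 : ∀ p ∈ prs r, ((hTfin p).toFinset).card ≤ (r * 2 * 7 + 2 ^ (r * 2) * 35) * h := by
      intro p hp
      rw [← Set.ncard_eq_toFinset_card]
      exact hTc p hp
    refine (Finset.sum_le_sum h7).trans ?_
    rw [Finset.sum_const, smul_eq_mul]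
  have h8 := (h4.trans (Set.ncard_union_le _ _)).trans (Nat.add_le_add h5 h6)
  have h9 : r * 2 * h + (prs r).card * ((r * 2 * 7 + 2 ^ (r * 2) * 35) * h) =
      (r * 2 + (prs r).card * (r * 2 * 7 + 2 ^ (r * 2) * 35)) * h := by ring
  rw [h9] at h8
  exact_mod_cast h8

theorem eqc {F : Type} [Field F] [Finite F] (h2 : (2 : F) ≠ 0) {r m : ℕ} {a : Fin (r * 2) → F[X]}
    (G : ∀ p : Fin r × Fin r, p ∈ prs r → Gd a p.1 p.2) (p : Fin r × Fin r) (hp : p ∈ prs r)
    (hm : 1 ≤ m) {P : F[X]} (hP : P ∈ H94.PC.Pr F m) {ρ ρ' : Fin (r * 2) → F[X]}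
    (hr : ρ ∈ Rt m P a) (hr' : ρ' ∈ Rt m P a)
    (h0 : H94.PC.js (MvPolynomial.eval ρ (G p hp).el) P ≠ 0)
    (h0' : H94.PC.js (MvPolynomial.eval ρ' (G p hp).el) P ≠ 0) :
    H94.PC.js (MvPolynomial.eval ρ (G p hp).el) P =
      H94.PC.js (MvPolynomial.eval ρ' (G p hp).el) P := by
  obtain ⟨E, iE, iFin, iAlg, hfr, hroot⟩ := eqb_ext F hm
  obtain ⟨θ, hθ⟩ := hroot P hP
  obtain ⟨m1, m2, m3⟩ := H94.PC.mem_Pr.1 hP
  have hj : ∀ A : F[X], H94.PC.js A P = H94.PC.ch (aeval θ A) :=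
    fun A => jse h2 m1 m3 (by rw [m2, hfr]) hθ A
  rw [hj] at h0 h0' ⊢
  rw [hj]
  rw [← eqb_val] at h0 h0' ⊢
  rw [← eqb_val]
  have hN := eqb_nrm G p hp E
  have n0 : mve (mpE E (G p hp).el) θ (fun i => aeval θ (ρ i)) ≠ 0 := fun h3 => h0 (by
    rw [h3, H94.PC.ch_zero])
  have n0' : mve (mpE E (G p hp).el) θ (fun i => aeval θ (ρ' i)) ≠ 0 := fun h3 => h0' (by
    rw [h3, H94.PC.ch_zero])
  by_cases hs : IsSquare (mve (mpE E (G p hp).el) θ (fun i => aeval θ (ρ i)))
  · rw [H94.PC.ch_of_sq n0 hs, H94.PC.ch_of_sq n0' (hN θ _ _ (eqb_ov hθ hr) (eqb_ov hθ hr')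
      n0 n0' hs)]
  · have hs' : ¬ IsSquare (mve (mpE E (G p hp).el) θ (fun i => aeval θ (ρ' i))) := fun h3 =>
      hs (hN θ _ _ (eqb_ov hθ hr') (eqb_ov hθ hr) n0' n0 h3)
    rw [H94.PC.ch_of_not hs, H94.PC.ch_of_not hs']

theorem card_Rt {F : Type} [Field F] [Finite F] (h2 : (2 : F) ≠ 0) {n m : ℕ} {a : Fin n → F[X]}
    (hm : 1 ≤ m) {P : F[X]} (hP : P ∈ H94.PC.Pr F m) (h0 : ∀ i, ¬ P ∣ a i)
    (hs : ∀ i, ∃ ρ, P ∣ ρ ^ 2 - a i) : (Rt m P a).ncard = 2 ^ n := by
  classical
  obtain ⟨m1, m2, m3⟩ := H94.PC.mem_Pr.1 hP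
  have hP1 : P ≠ 1 := by
    rintro rfl
    rw [natDegree_one] at m2
    omega
  have hu : ∀ i, ∃ u : F[X], u.natDegree < m ∧ P ∣ u ^ 2 - a i := by
    intro i
    obtain ⟨s, hs⟩ := hs i
    refine ⟨s %ₘ P, ?_, ?_⟩
    · rw [← m2]
      exact natDegree_modByMonic_lt s m1 hP1
    · have h1 : s %ₘ P = s - P * (s /ₘ P) := by
        have := modByMonic_add_div s P
        exact eq_sub_of_add_eq this
      have h3 : (s %ₘ P) ^ 2 - a i = (s ^ 2 - a i) + P * (P * (s /ₘ P) ^ 2 - 2 * s * (s /ₘ P)) := by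
        rw [h1]
        ring
      rw [h3]
      exact dvd_add hs (dvd_mul_right _ _)
  choose u hu1 hu2 using hu
  have hne : ∀ i, u i ≠ - u i := by
    intro i h3
    have h4 : C (2 : F) * u i = 0 := by
      have : u i + u i = 0 := by
        nth_rewrite 2 [h3]
        ring
      rw [← this]
      have h5 : (C (2 : F) : F[X]) = 2 := map_ofNat C 2
      rw [h5]
      ring
    rcases mul_eq_zero.1 h4 with h5 | h5
    · rw [C_eq_zero] at h5
      exact h2 h5
    · apply h0 i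
      have h6 := hu2 i
      rw [h5] at h6
      have h7 : (0 : F[X]) ^ 2 - a i = - a i := by ring
      rw [h7, dvd_neg] at h6
      exact h6
  have hset : Rt m P a = ((Fintype.piFinset fun i => ({u i, - u i} : Finset F[X]) :
      Finset (Fin n → F[X])) : Set (Fin n → F[X])) := by
    ext v
    rw [Finset.mem_coe, Fintype.mem_piFinset]
    constructor
    · rintro ⟨hv1, hv2⟩ i
      rw [Finset.mem_insert, Finset.mem_singleton]
      have h3 : P ∣ (v i - u i) * (v i + u i) := by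
        have h4 := dvd_sub (hv2 i) (hu2 i)
        have h5 : v i ^ 2 - a i - (u i ^ 2 - a i) = (v i - u i) * (v i + u i) := by ring
        rwa [h5] at h4
      have hdz : ∀ w : F[X], w.natDegree < m → P ∣ w → w = 0 := by
        intro w hw hd
        by_contra hw0
        have := natDegree_le_of_dvd hd hw0
        omega
      rcases m3.prime.dvd_or_dvd h3 with h4 | h4
      · left
        have h5 := hdz _ (lt_of_le_of_lt (natDegree_sub_le _ _) (max_lt (hv1 i) (hu1 i))) h4
        exact sub_eq_zero.1 h5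
      · right
        have h5 := hdz _ (lt_of_le_of_lt (natDegree_add_le _ _) (max_lt (hv1 i) (hu1 i))) h4
        exact eq_neg_of_add_eq_zero_left h5
    · intro hv
      refine ⟨fun i => ?_, fun i => ?_⟩
      · have h3 := hv i
        rw [Finset.mem_insert, Finset.mem_singleton] at h3
        rcases h3 with h3 | h3
        · rw [h3]
          exact hu1 i
        · rw [h3, natDegree_neg]
          exact hu1 i
      · have h3 := hv i
        rw [Finset.mem_insert, Finset.mem_singleton] at h3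
        rcases h3 with h3 | h3
        · rw [h3]
          exact hu2 i
        · rw [h3, neg_sq]
          exact hu2 i
  rw [hset, Set.ncard_coe_finset, Fintype.card_piFinset]
  rw [Finset.prod_congr rfl (fun i _ => Finset.card_pair (hne i)), Finset.prod_const,
    Finset.card_univ, Fintype.card_fin]

end Pool.Agent.H3.FS
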