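import Pool.Agent.H3.FS.EQA
import Pool.Agent.H3.FS.EQB

set_option autoImplicit false

/-!
# [H3 FS EQD] Equidistribution of the governing symbols in a cell

`Cel m S τ a` = the `P ∈ Pr F m` with `js v P = τ v` for `v ∈ S` such that all `a_i` are squares modulo `P`.  For signs `w_p`
(`p ∈ prs r`) the number of the `P` in the cell with all governing symbols `js (eval ρ el_p) P = w_p` (for all `ρ ∈ Rt m P a`) is
`#Cel / 2^(#prs r)` up to `K h √(q^m)`.

Proof.  Call `P` good if it does not divide an `a_i` and no symbol vanishes (`eqb`: at most `K_1 h` are not good).  For a good `P` in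
`{P : all a_i squares mod P}` the symbol `s_p(P) = js (eval ρ el_p) P = ± 1` does not depend on `ρ ∈ Rt m P a` (`eqc`), `Rt m P a` has
`2^(2r)` elements (`card_Rt`), and `js v P = ± 1` for `v ∈ S` (`P ≠ v` as `deg v < m`; both irreducible, so coprime: `js_cases'`).  So
`[∀ p, s_p = w_p] = 2^(-#prs r) ∑_{n ⊆ prs r} ∏_{p ∈ n} w_p s_p`, `[∀ v ∈ S, js v P = τ v] = 2^(-#S) ∑_{T ⊆ S} ∏_{v ∈ T} τ_v js v P`
(`Finset.prod_one_add`/`Finset.prod_add`: `∏ (1 + x_p) = ∑_n ∏_n x_p`).  The number of good `P` in question minus `2^(-#prs r)` times the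
number of good `P` in the cell is `2^(-#prs r - #S) ∑_{n ≠ ∅} ∑_T (∏_n w)(∏_T τ) ∑_{P good, split} ∏_T js v P ∏_n s_p(P)`, and the inner
sum is `2^(-2r) ∑_{P good} ∑_{ρ ∈ Rt m P a} js (eval ρ (C (∏_T v) * ∏_n el_p)) P` (`js_mul_left`, `js_prod_left`; `Rt` is empty if some
`a_i` is not a square), which differs from the sum over all `P` by at most the number of `P` that are not good (`#Rt ≤ 2^(2r)` always).
So it is `≤ (K_2 h √(q^m) + 2^(2r) K_1 h)` by `eqa` (`g = ∏_{v ∈ T} v` divides `∏_S v`, degree `≤ h`).  Sum over `n` and `T`: the factor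
`2^(#prs r + #S)` cancels.  The `P` that are not good contribute at most `2 K_1 h`.
-/

namespace Pool.Agent.H3.FS

open Polynomial

/-- the primes of degree `m` with given symbols at `S` which split in `F(t)(√a)` -/
def Cel {F : Type} [Field F] [Finite F] {n : ℕ} (m : ℕ) (S : Finset F[X]) (τ : F[X] → ℝ)
    (a : Fin n → F[X]) : Set F[X] :=
  {P | P ∈ H94.PC.Pr F m ∧ (∀ v ∈ S, H94.PC.js v P = τ v) ∧ ∀ i, ∃ ρ, P ∣ ρ ^ 2 - a i}

/-- those with given governing symbols -/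
def CelG {F : Type} [Field F] [Finite F] {r : ℕ} (m : ℕ) (S : Finset F[X]) (τ : F[X] → ℝ)
    (a : Fin (r * 2) → F[X]) (G : ∀ p : Fin r × Fin r, p ∈ prs r → Gd a p.1 p.2)
    (w : Fin r × Fin r → ℝ) : Set F[X] :=
  {P | P ∈ Cel m S τ a ∧ ∀ p hp, ∀ ρ ∈ Rt m P a,
    H94.PC.js (MvPolynomial.eval ρ (G p hp).el) P = w p}

/-- the Fourier argument -/
private theorem eqd_comb {α β γ : Type} [DecidableEq α] [DecidableEq β] [DecidableEq γ]
    (D : Finset α) (S : Finset β) (Q : Finset γ) (j : β → α → ℝ) (s : γ → α → ℝ) (τ : β → ℝ)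
    (w : γ → ℝ) (M : ℝ) (hM : 0 ≤ M) (hj : ∀ P ∈ D, ∀ v ∈ S, j v P = 1 ∨ j v P = -1)
    (hs : ∀ P ∈ D, ∀ p ∈ Q, s p P = 1 ∨ s p P = -1) (hτ : ∀ v, τ v = 1 ∨ τ v = -1)
    (hw : ∀ p, w p = 1 ∨ w p = -1)
    (h : ∀ T ⊆ S, ∀ n ⊆ Q, n.Nonempty → |∑ P ∈ D, (∏ v ∈ T, j v P) * ∏ p ∈ n, s p P| ≤ M)
    (A B : Finset α)
    (hA : ∀ P, P ∈ A ↔ P ∈ D ∧ (∀ v ∈ S, j v P = τ v) ∧ ∀ p ∈ Q, s p P = w p)
    (hB : ∀ P, P ∈ B ↔ P ∈ D ∧ ∀ v ∈ S, j v P = τ v) :
    |(A.card : ℝ) - B.card / 2 ^ Q.card| ≤ M := by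
  classical
  have hind : ∀ {δ : Type} (A : Finset δ) (f g : δ → ℝ), (∀ i ∈ A, f i = 1 ∨ f i = -1) →
      (∀ i ∈ A, g i = 1 ∨ g i = -1) → ∏ i ∈ A, (1 + g i * f i) =
        2 ^ A.card * (if ∀ i ∈ A, f i = g i then (1 : ℝ) else 0) := by
    intro δ A f g hf hg
    by_cases hall : ∀ i ∈ A, f i = g i
    · rw [if_pos hall, mul_one, ← Finset.prod_const]
      refine Finset.prod_congr rfl fun i hi => ?_
      rw [hall i hi]
      rcases hg i hi with h1 | h1 <;> rw [h1] <;> norm_num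
    · rw [if_neg hall, mul_zero]
      push Not at hall
      obtain ⟨i, hi, hne⟩ := hall
      refine Finset.prod_eq_zero hi ?_
      rcases hf i hi with h1 | h1
      · rcases hg i hi with h2 | h2
        · exact absurd (h1.trans h2.symm) hne
        · rw [h1, h2]
          norm_num
      · rcases hg i hi with h2 | h2
        · rw [h1, h2]
          norm_num
        · exact absurd (h1.trans h2.symm) hne
  have e1 : (A.card : ℝ) =
      ∑ P ∈ D, (if ∀ v ∈ S, j v P = τ v then (1 : ℝ) else 0) *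
        (if ∀ p ∈ Q, s p P = w p then (1 : ℝ) else 0) := by
    have e0 : A = D.filter fun P => (∀ v ∈ S, j v P = τ v) ∧ ∀ p ∈ Q, s p P = w p := by
      ext P
      rw [hA, Finset.mem_filter]
    rw [e0, Finset.card_filter]
    push_cast
    refine Finset.sum_congr rfl fun P _ => ?_
    by_cases h1 : ∀ v ∈ S, j v P = τ v
    · by_cases h2 : ∀ p ∈ Q, s p P = w p
      · rw [if_pos ⟨h1, h2⟩, if_pos h1, if_pos h2, mul_one]
      · rw [if_neg fun h => h2 h.2, if_neg h2, mul_zero]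
    · rw [if_neg fun h => h1 h.1, if_neg h1, zero_mul]
  have e2 : (B.card : ℝ) =
      ∑ P ∈ D, (if ∀ v ∈ S, j v P = τ v then (1 : ℝ) else 0) := by
    have e0 : B = D.filter fun P => ∀ v ∈ S, j v P = τ v := by
      ext P
      rw [hB, Finset.mem_filter]
    rw [e0, Finset.card_filter]
    push_cast
    rfl
  have hS0 : (0 : ℝ) < 2 ^ S.card := by positivity
  have hQ0 : (0 : ℝ) < 2 ^ Q.card := by positivity
  have e3 : 2 ^ S.card * 2 ^ Q.card * ((A.card : ℝ) - B.card / 2 ^ Q.card) =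
      ∑ T ∈ S.powerset, ∑ n ∈ Q.powerset.erase ∅, ((∏ v ∈ T, τ v) * ∏ p ∈ n, w p) *
        ∑ P ∈ D, (∏ v ∈ T, j v P) * ∏ p ∈ n, s p P := by
    rw [e1, e2, mul_sub]
    have e4 : ∀ X : ℝ, 2 ^ S.card * 2 ^ Q.card * (X / 2 ^ Q.card) = 2 ^ S.card * X := by
      intro X
      field_simp
    rw [e4, Finset.mul_sum, Finset.mul_sum, ← Finset.sum_sub_distrib]
    have e5 : ∀ P ∈ D, 2 ^ S.card * 2 ^ Q.card * ((if ∀ v ∈ S, j v P = τ v then (1 : ℝ) else 0) *
        (if ∀ p ∈ Q, s p P = w p then (1 : ℝ) else 0)) -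
        2 ^ S.card * (if ∀ v ∈ S, j v P = τ v then (1 : ℝ) else 0) =
        ∑ T ∈ S.powerset, ∑ n ∈ Q.powerset.erase ∅, ((∏ v ∈ T, τ v) * ∏ p ∈ n, w p) *
          ((∏ v ∈ T, j v P) * ∏ p ∈ n, s p P) := by
      intro P hP
      have f1 := hind S (fun v => j v P) τ (hj P hP) (fun v _ => hτ v)
      have f2 := hind Q (fun p => s p P) w (hs P hP) (fun p _ => hw p)
      have f3 : ∏ v ∈ S, (1 + τ v * j v P) =
          ∑ T ∈ S.powerset, (∏ v ∈ T, τ v) * ∏ v ∈ T, j v P := by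
        rw [Finset.prod_one_add]
        exact Finset.sum_congr rfl fun T _ => Finset.prod_mul_distrib
      have f4 : ∏ p ∈ Q, (1 + w p * s p P) - 1 =
          ∑ n ∈ Q.powerset.erase ∅, (∏ p ∈ n, w p) * ∏ p ∈ n, s p P := by
        rw [Finset.prod_one_add, ← Finset.sum_erase_add _ _ (Finset.empty_mem_powerset Q),
          Finset.prod_empty, add_sub_cancel_right]
        exact Finset.sum_congr rfl fun T _ => Finset.prod_mul_distrib
      have f5 : 2 ^ S.card * 2 ^ Q.card * ((if ∀ v ∈ S, j v P = τ v then (1 : ℝ) else 0) *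
        (if ∀ p ∈ Q, s p P = w p then (1 : ℝ) else 0)) -
        2 ^ S.card * (if ∀ v ∈ S, j v P = τ v then (1 : ℝ) else 0) =
        (∏ v ∈ S, (1 + τ v * j v P)) * (∏ p ∈ Q, (1 + w p * s p P) - 1) := by
        rw [f1, f2]
        ring
      rw [f5, f3, f4, Finset.sum_mul_sum]
      refine Finset.sum_congr rfl fun T _ => Finset.sum_congr rfl fun n _ => ?_
      ring
    rw [Finset.sum_congr rfl e5, Finset.sum_comm]
    refine Finset.sum_congr rfl fun T _ => ?_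
    rw [Finset.sum_comm]
    refine Finset.sum_congr rfl fun n _ => ?_
    rw [Finset.mul_sum]
  have hone : ∀ {δ : Type} (A : Finset δ) (g : δ → ℝ), (∀ i, g i = 1 ∨ g i = -1) →
      |∏ i ∈ A, g i| = 1 := by
    intro δ A g hg
    rw [Finset.abs_prod]
    refine Finset.prod_eq_one fun i _ => ?_
    rcases hg i with h1 | h1 <;> rw [h1] <;> norm_num
  have hbd : |2 ^ S.card * 2 ^ Q.card * ((A.card : ℝ) - B.card / 2 ^ Q.card)| ≤
      2 ^ S.card * 2 ^ Q.card * M := by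
    rw [e3]
    refine (Finset.abs_sum_le_sum_abs _ _).trans ?_
    have g1 : ∀ T ∈ S.powerset, |∑ n ∈ Q.powerset.erase ∅, ((∏ v ∈ T, τ v) * ∏ p ∈ n, w p) *
        ∑ P ∈ D, (∏ v ∈ T, j v P) * ∏ p ∈ n, s p P| ≤ 2 ^ Q.card * M := by
      intro T hT
      refine (Finset.abs_sum_le_sum_abs _ _).trans ?_
      have g2 : ∀ n ∈ Q.powerset.erase ∅, |((∏ v ∈ T, τ v) * ∏ p ∈ n, w p) *
          ∑ P ∈ D, (∏ v ∈ T, j v P) * ∏ p ∈ n, s p P| ≤ M := by
        intro n hn
        rw [Finset.mem_erase, Finset.mem_powerset] at hn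
        rw [abs_mul, abs_mul, hone T τ hτ, hone n w hw, one_mul, one_mul]
        exact h T (Finset.mem_powerset.1 hT) n hn.2 (Finset.nonempty_iff_ne_empty.2 hn.1)
      refine (Finset.sum_le_sum g2).trans ?_
      rw [Finset.sum_const, nsmul_eq_mul]
      refine mul_le_mul_of_nonneg_right ?_ hM
      have g3 : (Q.powerset.erase ∅).card ≤ 2 ^ Q.card := by
        rw [← Finset.card_powerset]
        exact Finset.card_erase_le
      exact_mod_cast g3
    refine (Finset.sum_le_sum g1).trans ?_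
    rw [Finset.sum_const, nsmul_eq_mul, Finset.card_powerset]
    push_cast
    rw [mul_assoc]
  rw [abs_mul, abs_of_pos (mul_pos hS0 hQ0)] at hbd
  exact le_of_mul_le_mul_left hbd (mul_pos hS0 hQ0)

/-- at most two square roots -/
private theorem eqd_two {F : Type} [Field F] [Finite F] {m : ℕ} {P : F[X]}
    (hP : P ∈ H94.PC.Pr F m) (b : F[X]) : ∃ R : Finset F[X], R.card ≤ 2 ∧
      ∀ x : F[X], x.natDegree < m → P ∣ x ^ 2 - b → x ∈ R := by
  classical
  rw [H94.PC.mem_Pr] at hP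
  obtain ⟨hP1, hP2, hP3⟩ := hP
  by_cases h : ∃ x : F[X], x.natDegree < m ∧ P ∣ x ^ 2 - b
  · obtain ⟨x0, hx0, hx1⟩ := h
    refine ⟨{x0, -x0}, Finset.card_le_two, fun x h1 h2 => ?_⟩
    have h3 : P ∣ (x - x0) * (x + x0) := by
      have e : (x - x0) * (x + x0) = (x ^ 2 - b) - (x0 ^ 2 - b) := by ring
      rw [e]
      exact dvd_sub h2 hx1
    rw [Finset.mem_insert, Finset.mem_singleton]
    rcases hP3.prime.dvd_or_dvd h3 with h4 | h4
    · left
      by_contra hne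
      have h5 := natDegree_le_of_dvd h4 (sub_ne_zero.2 hne)
      have h6 := natDegree_sub_le x x0
      omega
    · right
      by_contra hne
      have h5 := natDegree_le_of_dvd h4 (fun h0 => hne (eq_neg_of_add_eq_zero_left h0))
      have h6 := natDegree_add_le x x0
      omega
  · refine ⟨∅, by simp, fun x h1 h2 => absurd ⟨x, h1, h2⟩ h⟩

private theorem eqd_rt {F : Type} [Field F] [Finite F] {n m : ℕ} {P : F[X]}
    (hP : P ∈ H94.PC.Pr F m) (a : Fin n → F[X]) :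
    (Rt m P a).Finite ∧ (Rt m P a).ncard ≤ 2 ^ n := by
  classical
  choose R hR1 hR2 using fun i : Fin n => eqd_two hP (a i)
  have hsub : Rt m P a ⊆ ((Fintype.piFinset R : Finset (Fin n → F[X])) : Set (Fin n → F[X])) := by
    intro x hx
    rw [Finset.mem_coe, Fintype.mem_piFinset]
    exact fun i => hR2 i (x i) (hx.1 i) (hx.2 i)
  have hfin : (Rt m P a).Finite := (Finset.finite_toSet _).subset hsub
  refine ⟨hfin, ?_⟩
  have h1 := Set.ncard_le_ncard hsub (Finset.finite_toSet _)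
  rw [Set.ncard_coe_finset, Fintype.card_piFinset] at h1
  refine h1.trans ?_
  calc ∏ i, (R i).card ≤ ∏ _i : Fin n, 2 := Finset.prod_le_prod' fun i _ => hR1 i
    _ = 2 ^ n := by rw [Finset.prod_const, Finset.card_univ, Fintype.card_fin]

theorem eqd (F : Type) [Field F] [Finite F] (h2 : (2 : F) ≠ 0) (r : ℕ) : ∃ K : ℝ, 0 ≤ K ∧
    ∀ (m h : ℕ) (S : Finset F[X]) (a : Fin (r * 2) → F[X])
      (G : ∀ p : Fin r × Fin r, p ∈ prs r → Gd a p.1 p.2) (τ : F[X] → ℝ)
      (w : Fin r × Fin r → ℝ), 1 ≤ m → 1 ≤ h →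
      (∀ v ∈ S, v.Monic ∧ Irreducible v ∧ v.natDegree < m) → (∏ v ∈ S, v).natDegree ≤ h →
      (∀ i, (a i).natDegree ≤ h) → (∀ p hp, (G p hp).Dg h) → Ind a →
      (∀ v, τ v = 1 ∨ τ v = -1) → (∀ p, w p = 1 ∨ w p = -1) →
      |((CelG m S τ a G w).ncard : ℝ) - (Cel m S τ a).ncard / 2 ^ (prs r).card| ≤
        K * h * √((Nat.card F : ℝ) ^ m) := by
  classical
  obtain ⟨K1, hK1, H1⟩ := eqb F h2 r
  obtain ⟨K2, hK2, H2⟩ := eqa F h2 r
  refine ⟨K2 + 3 * K1, by positivity, fun m h S a G τ w hm hh hS hSh ha hG hI hτ hw => ?_⟩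
  have hbad := H1 m h a G hm hh ha hG hI
  obtain ⟨X, hX⟩ : ∃ X : ℝ, X = √((Nat.card F : ℝ) ^ m) := ⟨_, rfl⟩
  have hX1 : 1 ≤ X := by
    rw [hX, Real.one_le_sqrt]
    have h1 : (1 : ℝ) ≤ Nat.card F := by exact_mod_cast Nat.card_pos
    exact one_le_pow₀ h1
  have hh1 : (1 : ℝ) ≤ h := by exact_mod_cast hh
  rw [← hX]
  -- the elements without proofs
  obtain ⟨el, hel⟩ : ∃ el : Fin r × Fin r → MvPolynomial (Fin (r * 2)) F[X],
      ∀ p (hp : p ∈ prs r), el p = (G p hp).el :=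
    ⟨fun p => if hp : p ∈ prs r then (G p hp).el else 0, fun p hp => dif_pos hp⟩
  -- bad and good primes
  obtain ⟨bad, hbd⟩ : ∃ bad : Finset F[X], bad = (H94.PC.Pr F m).filter (fun P =>
      (∃ i, P ∣ a i) ∨ ∃ p hp, ∃ ρ ∈ Rt m P a,
        H94.PC.js (MvPolynomial.eval ρ (G p hp).el) P = 0) := ⟨_, rfl⟩
  have hbc : (bad.card : ℝ) ≤ K1 * h := by
    have e : {P : F[X] | P ∈ H94.PC.Pr F m ∧ ((∃ i, P ∣ a i) ∨ ∃ p hp, ∃ ρ ∈ Rt m P a,
        H94.PC.js (MvPolynomial.eval ρ (G p hp).el) P = 0)} = (bad : Set F[X]) := by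
      rw [hbd]
      ext P
      simp only [Finset.coe_filter]
    rw [e, Set.ncard_coe_finset] at hbad
    exact hbad
  obtain ⟨good, hgd⟩ : ∃ good : Finset F[X], good = H94.PC.Pr F m \ bad := ⟨_, rfl⟩
  have hgP : ∀ P ∈ good, P ∈ H94.PC.Pr F m := fun P hP => by
    rw [hgd, Finset.mem_sdiff] at hP
    exact hP.1
  have hgi : ∀ P ∈ good, ∀ i, ¬ P ∣ a i := fun P hP i hi => by
    rw [hgd, Finset.mem_sdiff] at hP
    apply hP.2
    rw [hbd, Finset.mem_filter]
    exact ⟨hP.1, Or.inl ⟨i, hi⟩⟩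
  have hgj : ∀ P ∈ good, ∀ p, ∀ hp : p ∈ prs r, ∀ ρ ∈ Rt m P a,
      H94.PC.js (MvPolynomial.eval ρ (G p hp).el) P ≠ 0 := fun P hP p hp ρ hρ h0 => by
    rw [hgd, Finset.mem_sdiff] at hP
    apply hP.2
    rw [hbd, Finset.mem_filter]
    exact ⟨hP.1, Or.inr ⟨p, hp, ρ, hρ, h0⟩⟩
  -- the symbol
  obtain ⟨s, hs⟩ : ∃ s : Fin r × Fin r → F[X] → ℝ, ∀ P (hne : (Rt m P a).Nonempty) p,
      s p P = H94.PC.js (MvPolynomial.eval hne.some (el p)) P :=
    ⟨fun p P => if hne : (Rt m P a).Nonempty then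
      H94.PC.js (MvPolynomial.eval hne.some (el p)) P else 0, fun P hne p => dif_pos hne⟩
  obtain ⟨D, hD⟩ : ∃ D : Finset F[X], D = good.filter (fun P => ∀ i, ∃ ρ, P ∣ ρ ^ 2 - a i) :=
    ⟨_, rfl⟩
  have hDg : ∀ P ∈ D, P ∈ good := fun P hP => by
    rw [hD, Finset.mem_filter] at hP
    exact hP.1
  have hDs : ∀ P ∈ D, ∀ i, ∃ ρ, P ∣ ρ ^ 2 - a i := fun P hP => by
    rw [hD, Finset.mem_filter] at hP
    exact hP.2
  have hDc : ∀ P ∈ D, (Rt m P a).ncard = 2 ^ (r * 2) := fun P hP =>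
    card_Rt h2 hm (hgP P (hDg P hP)) (hgi P (hDg P hP)) (hDs P hP)
  have hDn : ∀ P ∈ D, (Rt m P a).Nonempty := fun P hP => by
    apply Set.nonempty_of_ncard_ne_zero
    rw [hDc P hP]
    positivity
  have hsym : ∀ P ∈ D, ∀ p (hp : p ∈ prs r), ∀ ρ ∈ Rt m P a,
      H94.PC.js (MvPolynomial.eval ρ (el p)) P = s p P := by
    intro P hP p hp ρ hρ
    have hg := hDg P hP
    rw [hs P (hDn P hP), hel p hp]
    exact eqc h2 G p hp hm (hgP P hg) hρ (hDn P hP).some_mem (hgj P hg p hp ρ hρ)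
      (hgj P hg p hp _ (hDn P hP).some_mem)
  have hs1 : ∀ P ∈ D, ∀ p ∈ prs r, s p P = 1 ∨ s p P = -1 := by
    intro P hP p hp
    have hg := hDg P hP
    rw [hs P (hDn P hP), hel p hp]
    rcases H94.PC.js_cases (MvPolynomial.eval (hDn P hP).some (G p hp).el) P with h0 | h0
    · exact absurd h0 (hgj P hg p hp _ (hDn P hP).some_mem)
    · exact h0
  have hj1 : ∀ P ∈ D, ∀ v ∈ S, H94.PC.js v P = 1 ∨ H94.PC.js v P = -1 := by
    intro P hP v hv
    have h3 := hgP P (hDg P hP)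
    rw [H94.PC.mem_Pr] at h3
    obtain ⟨h4, h5, h6⟩ := h3
    obtain ⟨h7, h8, h9⟩ := hS v hv
    refine H94.PC.js_cases' h4 ?_
    rw [isCoprime_comm, h6.coprime_iff_not_dvd]
    intro h10
    have h11 := natDegree_le_of_dvd h10 h7.ne_zero
    omega
  -- the character sums
  have hsum : ∀ T ⊆ S, ∀ n ⊆ prs r, n.Nonempty →
      |∑ P ∈ D, (∏ v ∈ T, H94.PC.js v P) * ∏ p ∈ n, s p P| ≤ K2 * h * X + K1 * h := by
    intro T hT n hn hne
    obtain ⟨f, hf⟩ : ∃ f : F[X] → ℝ, f = fun P => ∑ᶠ ρ ∈ Rt m P a, H94.PC.js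
      (MvPolynomial.eval ρ (MvPolynomial.C (∏ v ∈ T, v) *
        ∏ p ∈ n.attach, (G p.1 (hn p.2)).el)) P := ⟨_, rfl⟩
    have hmon : ∀ v ∈ T, v.Monic := fun v hv => (hS v (hT hv)).1
    have hT0 : (∏ v ∈ T, v).Monic := monic_prod_of_monic _ _ hmon
    have hTd : (∏ v ∈ T, v).natDegree ≤ h := by
      refine le_trans ?_ hSh
      rw [natDegree_prod_of_monic _ _ hmon, natDegree_prod_of_monic _ _ fun v hv => (hS v hv).1]
      exact Finset.sum_le_sum_of_subset hT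
    have hf1 := H2 m h a G n hn (∏ v ∈ T, v) hm hh ha hG hI hne hT0.ne_zero hTd
    rw [← hX] at hf1
    have hf1' : |∑ P ∈ H94.PC.Pr F m, f P| ≤ K2 * h * X := by
      rw [hf]
      exact hf1
    have hprod : ∏ p ∈ n.attach, (G p.1 (hn p.2)).el = ∏ p ∈ n, el p := by
      rw [← Finset.prod_attach n]
      exact Finset.prod_congr rfl fun p _ => (hel p.1 (hn p.2)).symm
    have hfD : ∀ P ∈ D, f P = 2 ^ (r * 2) * ((∏ v ∈ T, H94.PC.js v P) * ∏ p ∈ n, s p P) := by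
      intro P hP
      have hPm : P.Monic := by
        have h3 := hgP P (hDg P hP)
        rw [H94.PC.mem_Pr] at h3
        exact h3.1
      have hfin := (eqd_rt (hgP P (hDg P hP)) a).1
      rw [hf]
      simp only
      rw [finsum_mem_eq_finite_toFinset_sum _ hfin]
      have h3 : ∀ ρ ∈ hfin.toFinset, H94.PC.js (MvPolynomial.eval ρ
          (MvPolynomial.C (∏ v ∈ T, v) * ∏ p ∈ n.attach, (G p.1 (hn p.2)).el)) P =
          (∏ v ∈ T, H94.PC.js v P) * ∏ p ∈ n, s p P := by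
        intro ρ hρ
        rw [Set.Finite.mem_toFinset] at hρ
        rw [hprod, map_mul, MvPolynomial.eval_C, map_prod, H94.PC.js_mul_left hPm,
          H94.PC.js_prod_left _ _ hPm, H94.PC.js_prod_left _ _ hPm]
        congr 1
        exact Finset.prod_congr rfl fun p hp => hsym P hP p (hn hp) ρ hρ
      rw [Finset.sum_congr rfl h3, Finset.sum_const, ← Set.ncard_eq_toFinset_card _ hfin,
        hDc P hP, nsmul_eq_mul]
      push_cast
      ring
    have hf0 : ∀ P ∈ good, P ∉ D → f P = 0 := by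
      intro P hP hPD
      have hem : Rt m P a = ∅ := by
        rw [Set.eq_empty_iff_forall_notMem]
        intro ρ hρ
        apply hPD
        rw [hD, Finset.mem_filter]
        exact ⟨hP, fun i => ⟨ρ i, hρ.2 i⟩⟩
      rw [hf]
      simp only
      rw [hem, finsum_mem_empty]
    have hfb : ∀ P ∈ bad, |f P| ≤ 2 ^ (r * 2) := by
      intro P hP
      have hPP : P ∈ H94.PC.Pr F m := by
        rw [hbd, Finset.mem_filter] at hP
        exact hP.1
      obtain ⟨hfin, hcd⟩ := eqd_rt hPP a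
      rw [hf]
      simp only
      rw [finsum_mem_eq_finite_toFinset_sum _ hfin]
      refine (Finset.abs_sum_le_sum_abs _ _).trans ?_
      refine (Finset.sum_le_sum fun ρ _ => H94.PC.abs_js_le _ _).trans ?_
      rw [Finset.sum_const, ← Set.ncard_eq_toFinset_card _ hfin, nsmul_eq_mul, mul_one]
      exact_mod_cast hcd
    have hbP : bad ⊆ H94.PC.Pr F m := by
      rw [hbd]
      exact Finset.filter_subset _ _
    have hDgood : D ⊆ good := fun P hP => hDg P hP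
    have e1 : ∑ P ∈ D, f P = ∑ P ∈ H94.PC.Pr F m, f P - ∑ P ∈ bad, f P := by
      rw [Finset.sum_subset hDgood fun P h3 h4 => hf0 P h3 h4, hgd, ← Finset.sum_sdiff hbP]
      ring
    have e2 : ∑ P ∈ D, f P =
        2 ^ (r * 2) * ∑ P ∈ D, (∏ v ∈ T, H94.PC.js v P) * ∏ p ∈ n, s p P := by
      rw [Finset.mul_sum]
      exact Finset.sum_congr rfl hfD
    have e3 : |∑ P ∈ bad, f P| ≤ 2 ^ (r * 2) * (K1 * h) := by
      refine (Finset.abs_sum_le_sum_abs _ _).trans ((Finset.sum_le_sum hfb).trans ?_)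
      rw [Finset.sum_const, nsmul_eq_mul, mul_comm]
      exact mul_le_mul_of_nonneg_left hbc (by positivity)
    have hpow : (1 : ℝ) ≤ 2 ^ (r * 2) := one_le_pow₀ (by norm_num)
    have e4 : 2 ^ (r * 2) * |∑ P ∈ D, (∏ v ∈ T, H94.PC.js v P) * ∏ p ∈ n, s p P| ≤
        2 ^ (r * 2) * (K2 * h * X + K1 * h) := by
      have e5 : 2 ^ (r * 2) * |∑ P ∈ D, (∏ v ∈ T, H94.PC.js v P) * ∏ p ∈ n, s p P| =
          |∑ P ∈ H94.PC.Pr F m, f P - ∑ P ∈ bad, f P| := by
        rw [← e1, e2, abs_mul, abs_of_pos (by positivity : (0 : ℝ) < 2 ^ (r * 2))]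
      rw [e5]
      refine (abs_sub _ _).trans ?_
      have e6 : K2 * h * X ≤ 2 ^ (r * 2) * (K2 * h * X) :=
        le_mul_of_one_le_left (by positivity) hpow
      rw [mul_add]
      exact add_le_add (hf1'.trans e6) e3
    exact le_of_mul_le_mul_left e4 (by positivity)
  obtain ⟨A, hAd⟩ : ∃ A : Finset F[X], A = D.filter (fun P => (∀ v ∈ S, H94.PC.js v P = τ v) ∧
    ∀ p ∈ prs r, s p P = w p) := ⟨_, rfl⟩
  have hA : ∀ P, P ∈ A ↔ P ∈ D ∧ (∀ v ∈ S, H94.PC.js v P = τ v) ∧ ∀ p ∈ prs r, s p P = w p :=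
    fun P => by rw [hAd, Finset.mem_filter]
  obtain ⟨B, hBd⟩ : ∃ B : Finset F[X], B = D.filter (fun P => ∀ v ∈ S, H94.PC.js v P = τ v) :=
    ⟨_, rfl⟩
  have hB : ∀ P, P ∈ B ↔ P ∈ D ∧ ∀ v ∈ S, H94.PC.js v P = τ v :=
    fun P => by rw [hBd, Finset.mem_filter]
  have hmain := eqd_comb D S (prs r) H94.PC.js s τ w (K2 * h * X + K1 * h) (by positivity) hj1 hs1
    hτ hw hsum A B hA hB
  -- comparison of the sets
  have c1 : (Cel m S τ a).ncard ≤ B.card +
      bad.card := by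
    have hsub : Cel m S τ a ⊆ ((B ∪ bad :
        Finset F[X]) : Set F[X]) := by
      rintro P ⟨h3, h4, h5⟩
      rw [Finset.mem_coe, Finset.mem_union]
      by_cases hb : P ∈ bad
      · exact Or.inr hb
      · left
        rw [hB, hD, Finset.mem_filter, hgd, Finset.mem_sdiff]
        exact ⟨⟨⟨h3, hb⟩, h5⟩, h4⟩
    refine (Set.ncard_le_ncard hsub (Finset.finite_toSet _)).trans ?_
    rw [Set.ncard_coe_finset]
    exact Finset.card_union_le _ _
  have hCf : (Cel m S τ a).Finite := by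
    refine (Finset.finite_toSet (H94.PC.Pr F m)).subset ?_
    rintro P ⟨h3, -⟩
    exact h3
  have hCGf : (CelG m S τ a G w).Finite := hCf.subset fun P hP => hP.1
  have c2 : B.card ≤ (Cel m S τ a).ncard := by
    rw [← Set.ncard_coe_finset]
    refine Set.ncard_le_ncard ?_ hCf
    intro P hP
    rw [Finset.mem_coe, hB] at hP
    exact ⟨hgP P (hDg P hP.1), hP.2, hDs P hP.1⟩
  have c3 : (CelG m S τ a G w).ncard ≤ A.card + bad.card := by
    have hsub : CelG m S τ a G w ⊆ ((A ∪ bad : Finset F[X]) : Set F[X]) := by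
      rintro P ⟨⟨h3, h4, h5⟩, h6⟩
      rw [Finset.mem_coe, Finset.mem_union]
      by_cases hb : P ∈ bad
      · exact Or.inr hb
      · left
        have hPD : P ∈ D := by
          rw [hD, Finset.mem_filter, hgd, Finset.mem_sdiff]
          exact ⟨⟨h3, hb⟩, h5⟩
        rw [hA]
        refine ⟨hPD, h4, fun p hp => ?_⟩
        rw [← hsym P hPD p hp _ (hDn P hPD).some_mem, hel p hp]
        exact h6 p hp _ (hDn P hPD).some_mem
    refine (Set.ncard_le_ncard hsub (Finset.finite_toSet _)).trans ?_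
    rw [Set.ncard_coe_finset]
    exact Finset.card_union_le _ _
  have c4 : A.card ≤ (CelG m S τ a G w).ncard := by
    rw [← Set.ncard_coe_finset]
    refine Set.ncard_le_ncard ?_ hCGf
    intro P hP
    rw [Finset.mem_coe, hA] at hP
    refine ⟨⟨hgP P (hDg P hP.1), hP.2.1, hDs P hP.1⟩, fun p hp ρ hρ => ?_⟩
    rw [← hel p hp, hsym P hP.1 p hp ρ hρ]
    exact hP.2.2 p hp
  have c1' : ((Cel m S τ a).ncard : ℝ) ≤
      B.card + bad.card := by exact_mod_cast c1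
  have c2' : (B.card : ℝ) ≤
      (Cel m S τ a).ncard := by exact_mod_cast c2
  have c3' : ((CelG m S τ a G w).ncard : ℝ) ≤ A.card + bad.card := by exact_mod_cast c3
  have c4' : (A.card : ℝ) ≤ (CelG m S τ a G w).ncard := by exact_mod_cast c4
  have hp2 : (1 : ℝ) ≤ 2 ^ (prs r).card := one_le_pow₀ (by norm_num)
  have hp0 : (0 : ℝ) < 2 ^ (prs r).card := by positivity
  have hbad0 : (0 : ℝ) ≤ bad.card := Nat.cast_nonneg _
  have d1 : ((Cel m S τ a).ncard : ℝ) / 2 ^ (prs r).card ≤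
      B.card / 2 ^ (prs r).card + bad.card := by
    have e1 : ((Cel m S τ a).ncard : ℝ) / 2 ^ (prs r).card ≤
      (B.card + bad.card) / 2 ^ (prs r).card :=
      div_le_div_of_nonneg_right c1' hp0.le
    rw [add_div] at e1
    have e2 : (bad.card : ℝ) / 2 ^ (prs r).card ≤ bad.card := div_le_self hbad0 hp2
    linarith
  have d2 : (B.card : ℝ) / 2 ^ (prs r).card ≤
      (Cel m S τ a).ncard / 2 ^ (prs r).card := div_le_div_of_nonneg_right c2' hp0.le
  have hK1X : K1 * h ≤ K1 * h * X := le_mul_of_one_le_right (by positivity) hX1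
  have hfinal : (K2 + 3 * K1) * h * X = K2 * h * X + 3 * (K1 * h * X) := by ring
  rw [hfinal]
  rw [abs_le] at hmain ⊢
  obtain ⟨m1, m2⟩ := hmain
  constructor <;> linarith

end Pool.Agent.H3.FS
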