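import Pool.Agent.H3.FS.EQD

set_option autoImplicit false

/-!
# [H3 FS FRD] The frame of the four-Selmer law: definitions

`q = #F`.  `Δ ≠ 0` a fixed polynomial (the product of the differences), `T` a condition on the twisting polynomial (a detecting prime
does not divide it), `R D`, `S4 D` the numbers of elements of the Selmer group and of its subset of the lifting classes, `Idp D P` the
independence condition with respect to the largest prime factor `P` of `D`.

* `altm e` is the alternating matrix with the entries `e (i, j)`, `i < j`, over `ZMod 2`; `kc e` the number of elements of its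
  kernel; `alt r s` the share of the `e` with `kc e = 2^s`.
* `Lg n D P`: `P ∈ Pr F m`, `m ≥ √n`, divides `D`, and all primes dividing `D / P` or `Δ` have degree `< m`.
* `CellD Δ D' m τ`: the `P ∈ Pr F m` with `js v P = τ v` for all primes `v` dividing `D' Δ`.
* `Hyp`: the hypothesis on the cells (chapters of helper40 and helper74).
-/

namespace Pool.Agent.H3.FS

open Polynomial

/-- the alternating matrix with entries `e (i, j)`, `i < j` -/
def altm {r : ℕ} (e : Fin r × Fin r → ZMod 2) : Matrix (Fin r) (Fin r) (ZMod 2) :=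
  fun i j => if i < j then e (i, j) else if j < i then e (j, i) else 0

/-- the number of elements of the kernel -/
noncomputable def kc {r : ℕ} (e : Fin r × Fin r → ZMod 2) : ℕ :=
  Nat.card {x : Fin r → ZMod 2 // (altm e).mulVec x = 0}

/-- the share of the alternating `r × r` matrices over `ZMod 2` with kernel of dimension `s` -/
noncomputable def alt (r s : ℕ) : ℝ :=
  (Nat.card {M : Matrix (Fin r) (Fin r) (ZMod 2) //
    (∀ i, M i i = 0) ∧ (∀ i j, M i j = M j i) ∧ M.rank + s = r} : ℝ) / 2 ^ (r * (r - 1) / 2)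

section
variable {F : Type} [Field F] [Finite F]

/-- `P` is the largest prime factor of `D`, larger than those of `Δ`, of degree at least `√n` -/
def Lg (Δ : F[X]) (n : ℕ) (D P : F[X]) : Prop :=
  P.Monic ∧ Irreducible P ∧ Nat.sqrt n ≤ P.natDegree ∧ ∃ D' : F[X], D = D' * P ∧
    ∀ v ∈ H94.PC.pf (D' * Δ), v.natDegree < P.natDegree

/-- the primes of degree `m` with given symbols at the primes dividing `D' Δ` -/
def CellD (Δ D' : F[X]) (m : ℕ) (τ : F[X] → ℝ) : Set F[X] :=
  {P | P ∈ H94.PC.Pr F m ∧ ∀ v ∈ H94.PC.pf (D' * Δ), H94.PC.js v P = τ v}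

/-- the hypothesis on a cell which contains a prime `P₀` with `2`-Selmer rank `r` and independence -/
structure HCell (Δ : F[X]) (R S4 : F[X] → ℕ) (Idp : F[X] → F[X] → Prop) (r h : ℕ) (D' : F[X])
    (m : ℕ) (τ : F[X] → ℝ) : Prop where
  /-- the rank and the independence are constant on the cell -/
  const : ∀ P ∈ CellD Δ D' m τ, R (D' * P) = 2 ^ (2 + r) ∧ Idp (D' * P) P
  /-- the components `a` of a basis, the governing data and the signs -/
  data : ∃ (a : Fin (r * 2) → F[X]) (G : ∀ p : Fin r × Fin r, p ∈ prs r → Gd a p.1 p.2)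
    (w : Fin r × Fin r → ℝ), Ind a ∧ (∀ i, (a i).natDegree ≤ h) ∧ (∀ p hp, (G p hp).Dg h) ∧
    (∀ p, w p = 1 ∨ w p = -1) ∧ (∀ P ∈ CellD Δ D' m τ, ∀ i, ∃ ρ, P ∣ ρ ^ 2 - a i) ∧
    ∀ P ∈ CellD Δ D' m τ,
      (∀ p hp, ∀ ρ ∈ Rt m P a, H94.PC.js (MvPolynomial.eval ρ (G p hp).el) P ≠ 0) →
      ∀ e : Fin r × Fin r → ZMod 2, (∀ p hp, ∀ ρ ∈ Rt m P a,
        H94.PC.sg (e p) = w p * H94.PC.js (MvPolynomial.eval ρ (G p hp).el) P) →
      S4 (D' * P) = 4 * kc e

/-- the hypothesis: all cells, with data of polynomial height -/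
def Hyp (Δ : F[X]) (T : F[X] → Prop) (R S4 : F[X] → ℕ) (Idp : F[X] → F[X] → Prop) : Prop :=
  ∀ r : ℕ, ∃ C : ℕ, ∀ (D' : F[X]) (m : ℕ) (τ : F[X] → ℝ), D'.Monic → Squarefree D' → 1 ≤ m →
    (∀ v ∈ H94.PC.pf (D' * Δ), v.natDegree < m) →
    ∀ P₀ ∈ CellD Δ D' m τ, T (D' * P₀) → R (D' * P₀) = 2 ^ (2 + r) → Idp (D' * P₀) P₀ →
      HCell Δ R S4 Idp r (C * (D'.natDegree + m + 1) ^ C) D' m τ

end

end Pool.Agent.H3.FS
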