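import Pool.Agent.H94.PC.RhoSum

set_option autoImplicit false

/-!
# [H3 FS FRS] The sum of `2^ω` over the monic squarefree polynomials of degree `k`

`∑_{D ∈ Sq F k} 2^(#pf D) ≤ (k + 1) q^k`.  Proof: `2^(#pf D)` is the number of the subsets of `pf D`, and `I ↦ (∏_{v ∈ I} v, D / ∏_{v ∈ I} v)`
is an injection of the pairs `(D, I)` into the pairs `(A, B)` of monic polynomials with `deg A + deg B = k` (`D = A B`, and `I` is the set of
the primes dividing `A`); there are `∑_{j ≤ k} q^j q^(k-j) = (k + 1) q^k` of them.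
-/

namespace Pool.Agent.H3.FS

open Polynomial

theorem frs (F : Type) [Field F] [Finite F] (k : ℕ) :
    ∑ D ∈ H94.PC.Sq F k, (2 : ℝ) ^ (H94.PC.pf D).card ≤ (k + 1) * (Nat.card F : ℝ) ^ k := by
  have hθ : H94.PC.CM (fun _ : F[X] => (1 : ℝ)) :=
    ⟨rfl, fun _ _ _ _ => (one_mul 1).symm, fun _ _ => Or.inr (Or.inl rfl)⟩
  have h1 : ∑ D ∈ H94.PC.Sq F k, (2 : ℝ) ^ (H94.PC.pf D).card =
      ∑ D ∈ H94.PC.Sq F k, ∑ B ∈ H94.PC.dv D, (1 : ℝ) := by
    refine Finset.sum_congr rfl fun D hD => ?_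
    rw [H94.PC.mem_Sq] at hD
    have h := H94.PC.rho_sqfree hθ hD.1 hD.2.2
    rw [h, Finset.prod_const]
    norm_num
  have h2 : ∑ D ∈ H94.PC.Sq F k, ∑ B ∈ H94.PC.dv D, (1 : ℝ) ≤
      ∑ D ∈ H94.PC.Mo F k, ∑ B ∈ H94.PC.dv D, (1 : ℝ) := by
    refine Finset.sum_le_sum_of_subset_of_nonneg ?_ ?_
    · intro D hD
      rw [H94.PC.mem_Sq] at hD
      rw [H94.PC.mem_Mo]
      exact ⟨hD.1, hD.2.1⟩
    · intro D _ _
      exact Finset.sum_nonneg fun _ _ => zero_le_one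
  have h3 := H94.PC.sum_rho (F := F) (fun _ => (1 : ℝ)) k
  rw [h1]
  refine h2.trans (le_of_eq ?_)
  rw [h3]
  have h4 : ∀ i ∈ Finset.range (k + 1), (∑ B ∈ H94.PC.Mo F i, (1 : ℝ)) *
      (Nat.card F : ℝ) ^ (k - i) = (Nat.card F : ℝ) ^ k := by
    intro i hi
    have hi' := Finset.mem_range.1 hi
    rw [Finset.sum_const, nsmul_eq_mul, mul_one, H94.PC.card_Mo, Nat.cast_pow, ← pow_add]
    congr 1
    omega
  rw [Finset.sum_congr rfl h4, Finset.sum_const, Finset.card_range, nsmul_eq_mul]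
  push_cast
  ring

end Pool.Agent.H3.FS
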