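import Pool.Agent.H3.FS.FRM
import Pool.Agent.H94.FS.IN2
import Pool.Agent.H94.PN.ALL2
import Pool.Agent.H94.PN.GENF

set_option autoImplicit false

/-!
# [H3 FS FIN] The four-Selmer law from the hypothesis on the cells

Assembly of `frm` (frame), `in2` (independence), `all2` (law of the 2-Selmer groups).
-/

namespace Pool.Agent.H3.FS

open Polynomial Filter
open Pool.Agent.H94.PC (Sq pf mem_Sq mem_pf mem_pf')
open Pool.Agent.H94.PL (dl Cls mem_Cls)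
open Pool.Agent.H94.PN (SomeDtv Dtv SelC GenA all2 dtv_dvd)

theorem fin_T {F : Type} [Field F] [Finite F] {m : ℕ} {A : Fin m → F[X]}
    (hA : ∀ i k, i ≠ k → A i ≠ A k) (D' P : F[X])
    (hm : P.Monic) (hP : Irreducible P) (h : ∀ v ∈ pf (dl A), v.natDegree < P.natDegree) :
    SomeDtv A (D' * P) ↔ SomeDtv A D' := by
  classical
  have hdl : dl A ≠ 0 := H94.PM.wl2_dl0 hA
  constructor
  · rintro ⟨v, hv, h1⟩
    exact ⟨v, hv, fun h2 => h1 (h2.mul_right P)⟩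
  · rintro ⟨v, hv, h1⟩
    refine ⟨v, hv, fun h2 => ?_⟩
    rcases hv.1.prime.dvd_or_dvd h2 with h3 | h3
    · exact h1 h3
    · have h4 : Associated v P := hv.1.associated_of_dvd hP h3
      have h5 : normalize v ∈ pf (dl A) := by
        rw [mem_pf hdl]
        exact ⟨monic_normalize hv.1.ne_zero, (normalize_associated v).symm.irreducible hv.1,
          (normalize_associated v).dvd.trans (dtv_dvd hv)⟩
      have h6 := h _ h5
      have h7 : (normalize v).natDegree = P.natDegree :=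
        natDegree_eq_of_degree_eq (degree_eq_degree_of_associated
          ((normalize_associated v).trans h4))
      omega

theorem fin_q {F : Type} [Field F] [Finite F] (h2 : (2 : F) ≠ 0) : 2 ∣ Nat.card F - 1 := by
  have : Fintype F := Fintype.ofFinite F
  have h := FiniteField.odd_card_of_char_ne_two (F := F) (fun h => by
    have := ringChar.of_eq h
    exact h2 (by exact_mod_cast CharP.cast_eq_zero F 2))
  rw [Nat.card_eq_fintype_card]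
  obtain ⟨j, hj⟩ := Nat.odd_iff.2 h
  exact ⟨j, by omega⟩

theorem fin_pos (F : Type) [Field F] [Finite F] (h2 : (2 : F) ≠ 0) (A : Fin 3 → F[X])
    (hA : ∀ i k, i ≠ k → A i ≠ A k) (hd : ∃ v, Dtv A v) :
    ∃ κ : ℝ, 0 < κ ∧ ∃ N' : ℕ, ∀ n, N' ≤ n → κ * (Nat.card F : ℝ) ^ n ≤
      ({D | D ∈ Sq F n ∧ SomeDtv A D}.ncard : ℝ) := by
  classical
  have hq := fin_q h2
  have hdl : dl A ≠ 0 := H94.PM.wl2_dl0 hA
  have hq3 : 3 ≤ Nat.card F := by
    have h4 : 2 ≤ Nat.card F := Finite.one_lt_card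
    omega
  obtain ⟨κ, hκ, N', hN'⟩ := H94.PM.card_Cls_ge3 (F := F) hq3 (dl A) hdl
  refine ⟨κ, hκ, N', fun n hn => ?_⟩
  have hset1 : ((((Sq F n).filter fun D => SomeDtv A D).card : ℕ) : ℝ) =
      ({D | D ∈ Sq F n ∧ SomeDtv A D}.ncard : ℝ) := by
    rw [← Set.ncard_coe_finset]
    congr 2
    ext D
    simp [Finset.mem_filter]
  rw [← hset1]
  refine (hN' n hn).trans (Nat.cast_le.2 (Finset.card_le_card fun D hD => ?_))
  rw [mem_Cls] at hD
  rw [Finset.mem_filter, mem_Sq]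
  refine ⟨⟨hD.1, hD.2.1, hD.2.2.1⟩, ?_⟩
  obtain ⟨v, hv⟩ := hd
  refine ⟨v, hv, fun hvD => ?_⟩
  have hv2 : v ∣ dl A := dtv_dvd hv
  obtain ⟨a, b, hab⟩ := hD.2.2.2
  exact hv.1.not_isUnit (isUnit_of_dvd_one (hab ▸ dvd_add (hvD.mul_left a) (hv2.mul_left b)))

/-- the law of the ranks -/
theorem fin_rk (F : Type) [Field F] [Finite F] [DecidableEq (RatFunc F)]
    (h2 : (2 : F) ≠ 0) (A : Fin 3 → F[X]) (hA : ∀ i k, i ≠ k → A i ≠ A k)
    (hG : GenA 2 A) (hd : ∃ v, Dtv A v) (c : F) (hc : c ≠ 0) (r : ℕ) :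
    Tendsto (fun n : ℕ => ({D | D ∈ Sq F n ∧ SomeDtv A D ∧
      Nat.card (SelC 2 1 c A D) = 2 ^ (2 + r)}.ncard : ℝ) /
      {D | D ∈ Sq F n ∧ SomeDtv A D}.ncard) atTop
      (nhds ((∏' i : ℕ, (1 + 1 / (2 : ℝ) ^ i))⁻¹ *
        (∏ i ∈ Finset.range r, (2 / ((2 : ℝ) ^ (i + 1) - 1))))) := by
  classical
  have hq := fin_q h2
  have hq0 : (0 : ℝ) < Nat.card F := by exact_mod_cast (Nat.card_pos : 0 < Nat.card F)
  have hset1 : ∀ n : ℕ, ((((Sq F n).filter fun D => SomeDtv A D).card : ℕ) : ℝ) =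
      ({D | D ∈ Sq F n ∧ SomeDtv A D}.ncard : ℝ) := by
    intro n
    rw [← Set.ncard_coe_finset]
    congr 2
    ext D
    simp [Finset.mem_filter]
  have hset2 : ∀ (n N : ℕ), ((((Sq F n).filter fun D => SomeDtv A D ∧
      Nat.card (SelC 2 1 c A D) = N).card : ℕ) : ℝ) =
      ({D | D ∈ Sq F n ∧ SomeDtv A D ∧ Nat.card (SelC 2 1 c A D) = N}.ncard : ℝ) := by
    intro n N
    rw [← Set.ncard_coe_finset]
    congr 2
    ext D
    simp [Finset.mem_filter]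
  obtain ⟨κ, hκ, N', hN'⟩ := fin_pos F h2 A hA hd
  rw [Metric.tendsto_atTop]
  intro ε hε
  obtain ⟨N, hN⟩ := all2 (α := 1) (c := c) (A := A) hq (by norm_num) (le_refl 3) (by norm_num) hc
    hA hG r (ε / 2) (by positivity)
  refine ⟨max N N', fun n hn => ?_⟩
  have h1 := hN n ((le_max_left _ _).trans hn)
  have hT : (0 : ℝ) < ({D | D ∈ Sq F n ∧ SomeDtv A D}.ncard : ℝ) :=
    lt_of_lt_of_le (by positivity) (hN' n ((le_max_right _ _).trans hn))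
  rw [hset1, hset2] at h1
  rw [Real.dist_eq]
  have h7 : |({D | D ∈ Sq F n ∧ SomeDtv A D ∧ Nat.card (SelC 2 1 c A D) = 2 ^ (2 + r)}.ncard : ℝ) /
      ({D | D ∈ Sq F n ∧ SomeDtv A D}.ncard : ℝ) -
      (∏' i : ℕ, (1 + 1 / (2 : ℝ) ^ i))⁻¹ *
        ∏ i ∈ Finset.range r, (2 / ((2 : ℝ) ^ (i + 1) - 1))| *
      ({D | D ∈ Sq F n ∧ SomeDtv A D}.ncard : ℝ) ≤
      ε / 2 * ({D | D ∈ Sq F n ∧ SomeDtv A D}.ncard : ℝ) := by
    rw [← abs_of_pos hT, ← abs_mul, abs_of_pos hT, sub_mul, div_mul_cancel₀ _ hT.ne']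
    exact h1
  have h8 := le_of_mul_le_mul_right h7 hT
  linarith

theorem fin (F : Type) [Field F] [Finite F] [DecidableEq (RatFunc F)]
    (h2 : (2 : F) ≠ 0) (A : Fin 3 → F[X]) (hA : ∀ i k, i ≠ k → A i ≠ A k)
    (hG : GenA 2 A) (hd : ∃ v, Dtv A v) (c : F) (hc : c ≠ 0) (S4 : F[X] → ℕ)
    (hH : Hyp (dl A) (SomeDtv A) (fun D => Nat.card (SelC 2 1 c A D)) S4
      (fun D P => H94.FS.Idp 1 c A D P)) (r s : ℕ) :
    Tendsto (fun n : ℕ => ({D | D ∈ Sq F n ∧ SomeDtv A D ∧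
      Nat.card (SelC 2 1 c A D) = 2 ^ (2 + r) ∧ S4 D = 2 ^ (2 + s)}.ncard : ℝ) /
      {D | D ∈ Sq F n ∧ SomeDtv A D}.ncard) atTop
      (nhds ((∏' i : ℕ, (1 + 1 / (2 : ℝ) ^ i))⁻¹ *
        (∏ i ∈ Finset.range r, (2 / ((2 : ℝ) ^ (i + 1) - 1))) * alt r s)) := by
  classical
  have hq := fin_q h2
  have hdl : dl A ≠ 0 := H94.PM.wl2_dl0 hA
  obtain ⟨κ, hκ, N', hN'⟩ := fin_pos F h2 A hA hd
  refine frm F h2 hdl (T := SomeDtv A) (R := fun D => Nat.card (SelC 2 1 c A D)) (S4 := S4)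
    (Idp := fun D P => H94.FS.Idp 1 c A D P) (fun D' P h1 h3 h4 => fin_T hA D' P h1 h3 h4) hH ?_
    (fun r => (∏' i : ℕ, (1 + 1 / (2 : ℝ) ^ i))⁻¹ *
      (∏ i ∈ Finset.range r, (2 / ((2 : ℝ) ^ (i + 1) - 1))))
    (fin_rk F h2 A hA hG hd c hc) ⟨κ, hκ, Filter.eventually_atTop.2 ⟨N', hN'⟩⟩ r s
  have h := H94.FS.in2 (α := 1) (c := c) (A := A) hq (by norm_num) hc hA hG
  refine squeeze_zero (fun n => by positivity) (fun n => ?_) h
  refine div_le_div_of_nonneg_right (Nat.cast_le.2 (Set.ncard_le_ncard ?_ ?_)) (by positivity)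
  · rintro D ⟨h1, -, h3⟩
    exact ⟨h1, h3⟩
  · exact (Set.Finite.subset (Sq F n).finite_toSet fun D hD => hD.1)

end Pool.Agent.H3.FS
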