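import Pool.Agent.H3.FS.FIN

set_option autoImplicit false

/-!
# [H3 FS FIS] The law of the number of lifting classes

The joint law `fin` of the pairs `(r, s)` and the law `all2` of `r`, whose total mass is `1`, give the law of `s` (no mass is lost).
-/

namespace Pool.Agent.H3.FS

open Polynomial Filter
open Pool.Agent.H94.PC (Sq pf mem_Sq mem_pf mem_pf')
open Pool.Agent.H94.PL (dl Cls mem_Cls)
open Pool.Agent.H94.PN (SomeDtv Dtv SelC GenA wt Sm wt2_eul wt_summable wt_pos)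

/-- no mass is lost -/
theorem fis_gen {a b : ℕ → ℕ → ℝ} {A B : ℕ → ℝ} {β : ℕ → ℝ}
    (ha : ∀ r, Tendsto (fun n => a n r) atTop (nhds (A r)))
    (hb : ∀ r, Tendsto (fun n => b n r) atTop (nhds (B r)))
    (h0 : ∀ n r, 0 ≤ b n r) (h1 : ∀ n r, b n r ≤ a n r)
    (hl : ∀ n R, ∑ r ∈ Finset.range R, b n r ≤ β n)
    (hu : ∀ᶠ n in atTop, ∀ R, β n ≤ ∑ r ∈ Finset.range R, b n r + (1 - ∑ r ∈ Finset.range R, a n r))
    (hA : HasSum A 1) : Tendsto β atTop (nhds (∑' r, B r)) := by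
  have hB0 : ∀ r, 0 ≤ B r := fun r => ge_of_tendsto' (hb r) fun n => h0 n r
  have hBA : ∀ r, B r ≤ A r := fun r => le_of_tendsto_of_tendsto' (hb r) (ha r) fun n => h1 n r
  have hs : Summable B := Summable.of_nonneg_of_le hB0 hBA hA.summable
  have hlim := hs.hasSum.tendsto_sum_nat
  have hlimA := hA.tendsto_sum_nat
  rw [Metric.tendsto_atTop]
  intro ε hε
  rw [Metric.tendsto_atTop] at hlim hlimA
  obtain ⟨R1, hR1⟩ := hlim (ε / 8) (by positivity)
  obtain ⟨R2, hR2⟩ := hlimA (ε / 8) (by positivity)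
  set R := max R1 R2 with hR
  have e1 := hR1 R (le_max_left _ _)
  have e2 := hR2 R (le_max_right _ _)
  have hb' : Tendsto (fun n => ∑ r ∈ Finset.range R, b n r) atTop
      (nhds (∑ r ∈ Finset.range R, B r)) := tendsto_finsetSum _ fun r _ => hb r
  have ha' : Tendsto (fun n => ∑ r ∈ Finset.range R, a n r) atTop
      (nhds (∑ r ∈ Finset.range R, A r)) := tendsto_finsetSum _ fun r _ => ha r
  rw [Metric.tendsto_atTop] at hb' ha'
  obtain ⟨N1, hN1⟩ := hb' (ε / 8) (by positivity)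
  obtain ⟨N2, hN2⟩ := ha' (ε / 8) (by positivity)
  obtain ⟨N3, hN3⟩ := eventually_atTop.1 hu
  refine ⟨max N1 (max N2 N3), fun n hn => ?_⟩
  have e3 := hN1 n ((le_max_left _ _).trans hn)
  have e4 := hN2 n ((le_max_left _ _).trans ((le_max_right _ _).trans hn))
  have e5 := hN3 n ((le_max_right _ _).trans ((le_max_right _ _).trans hn)) R
  have e6 := hl n R
  rw [Real.dist_eq, abs_lt] at e1 e2 e3 e4 ⊢
  constructor <;> linarith [e1.1, e1.2, e2.1, e2.2, e3.1, e3.2, e4.1, e4.2]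

theorem fis_mass : HasSum (fun r : ℕ => (∏' i : ℕ, (1 + 1 / (2 : ℝ) ^ i))⁻¹ *
    (∏ i ∈ Finset.range r, (2 / ((2 : ℝ) ^ (i + 1) - 1)))) 1 := by
  have hs : Summable fun r => wt 2 (2 : ℝ) r := by
    have h := wt_summable 2 (one_lt_two : (1 : ℝ) < 2) 0
    simpa using h
  have h1 : Sm 2 (2 : ℝ) 0 = ∑' r, wt 2 (2 : ℝ) r := by
    unfold Sm
    simp
  have h2 : 0 < Sm 2 (2 : ℝ) 0 := by
    rw [h1]
    exact hs.tsum_pos (fun r => (wt_pos two_pos one_lt_two r).le) 0 (wt_pos two_pos one_lt_two 0)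
  have h3 := hs.hasSum.div_const (Sm 2 (2 : ℝ) 0)
  rw [← h1, div_self h2.ne'] at h3
  simp_rw [wt2_eul] at h3
  exact h3

/-- **the law of the number of lifting classes** -/
theorem fis (F : Type) [Field F] [Finite F] [DecidableEq (RatFunc F)]
    (h2 : (2 : F) ≠ 0) (A : Fin 3 → F[X]) (hA : ∀ i k, i ≠ k → A i ≠ A k)
    (hG : GenA 2 A) (hd : ∃ v, Dtv A v) (c : F) (hc : c ≠ 0) (S4 : F[X] → ℕ)
    (hH : Hyp (dl A) (SomeDtv A) (fun D => Nat.card (SelC 2 1 c A D)) S4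
      (fun D P => H94.FS.Idp 1 c A D P)) (s : ℕ) :
    Tendsto (fun n : ℕ => ({D | D ∈ Sq F n ∧ SomeDtv A D ∧ S4 D = 2 ^ (2 + s)}.ncard : ℝ) /
      {D | D ∈ Sq F n ∧ SomeDtv A D}.ncard) atTop
      (nhds (∑' r : ℕ, (∏' i : ℕ, (1 + 1 / (2 : ℝ) ^ i))⁻¹ *
        (∏ i ∈ Finset.range r, (2 / ((2 : ℝ) ^ (i + 1) - 1))) * alt r s)) := by
  classical
  obtain ⟨κ, hκ, N', hN'⟩ := fin_pos F h2 A hA hd
  have hq0 : (0 : ℝ) < Nat.card F := by exact_mod_cast (Nat.card_pos : 0 < Nat.card F)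
  have hfin : ∀ (n : ℕ) (p : F[X] → Prop), {D | D ∈ Sq F n ∧ p D}.Finite := fun n p =>
    (Sq F n).finite_toSet.subset fun D hD => hD.1
  set X : ℕ → Set F[X] := fun n => {D | D ∈ Sq F n ∧ SomeDtv A D} with hX
  set U : ℕ → ℕ → Set F[X] := fun n r => {D | D ∈ Sq F n ∧ SomeDtv A D ∧
    Nat.card (SelC 2 1 c A D) = 2 ^ (2 + r)} with hU
  set V : ℕ → ℕ → Set F[X] := fun n r => {D | D ∈ Sq F n ∧ SomeDtv A D ∧
    Nat.card (SelC 2 1 c A D) = 2 ^ (2 + r) ∧ S4 D = 2 ^ (2 + s)} with hV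
  set W : ℕ → Set F[X] := fun n => {D | D ∈ Sq F n ∧ SomeDtv A D ∧ S4 D = 2 ^ (2 + s)} with hW
  have hXf : ∀ n, (X n).Finite := fun n => hfin n _
  have hUf : ∀ n r, (U n r).Finite := fun n r => hfin n _
  have hVf : ∀ n r, (V n r).Finite := fun n r => hfin n _
  have hWf : ∀ n, (W n).Finite := fun n => hfin n _
  have hinj : ∀ {D : F[X]} {r r' : ℕ}, Nat.card (SelC 2 1 c A D) = 2 ^ (2 + r) →
      Nat.card (SelC 2 1 c A D) = 2 ^ (2 + r') → r = r' := by
    intro D r r' h1 h3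
    have := Nat.pow_right_injective le_rfl (h1.symm.trans h3)
    omega
  -- sums over `r < R` are cardinalities of unions
  have hsum : ∀ (Y : ℕ → Set F[X]), (∀ r, (Y r).Finite) →
      (∀ r, ∀ D ∈ Y r, Nat.card (SelC 2 1 c A D) = 2 ^ (2 + r)) → ∀ R : ℕ,
      ∑ r ∈ Finset.range R, ((Y r).ncard : ℝ) = ((⋃ r ∈ Finset.range R, Y r).ncard : ℝ) := by
    intro Y hY hr R
    induction R with
    | zero => simp
    | succ R ih =>
      have hd1 : Disjoint (Y R) (⋃ r ∈ Finset.range R, Y r) := by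
        rw [Set.disjoint_left]
        intro D h1 h3
        rw [Set.mem_iUnion₂] at h3
        obtain ⟨r, hr1, hr3⟩ := h3
        have := hinj (hr R D h1) (hr r D hr3)
        rw [Finset.mem_range] at hr1
        omega
      have hf1 : (⋃ r ∈ Finset.range R, Y r).Finite :=
        (Finset.range R).finite_toSet.biUnion fun r _ => hY r
      rw [Finset.sum_range_succ, ih, Finset.range_add_one, Finset.set_biUnion_insert,
        Set.ncard_union_eq hd1 (hY R) hf1]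
      push_cast
      ring
  have hUs : ∀ n R, ∑ r ∈ Finset.range R, ((U n r).ncard : ℝ) =
      ((⋃ r ∈ Finset.range R, U n r).ncard : ℝ) := fun n R =>
    hsum (U n) (hUf n) (fun r D hD => hD.2.2) R
  have hVs : ∀ n R, ∑ r ∈ Finset.range R, ((V n r).ncard : ℝ) =
      ((⋃ r ∈ Finset.range R, V n r).ncard : ℝ) := fun n R =>
    hsum (V n) (hVf n) (fun r D hD => hD.2.2.1) R
  refine fis_gen (a := fun n r => ((U n r).ncard : ℝ) / ((X n).ncard : ℝ))
    (b := fun n r => ((V n r).ncard : ℝ) / ((X n).ncard : ℝ))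
    (β := fun n => ((W n).ncard : ℝ) / ((X n).ncard : ℝ))
    (fin_rk F h2 A hA hG hd c hc) (fun r => fin F h2 A hA hG hd c hc S4 hH r s)
    (fun n r => by positivity) (fun n r => ?_) (fun n R => ?_) ?_ fis_mass
  · exact div_le_div_of_nonneg_right (Nat.cast_le.2 (Set.ncard_le_ncard
      (fun D hD => ⟨hD.1, hD.2.1, hD.2.2.1⟩) (hUf n r))) (by positivity)
  · rw [← Finset.sum_div, hVs]
    refine div_le_div_of_nonneg_right (Nat.cast_le.2 (Set.ncard_le_ncard ?_ (hWf n)))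
      (by positivity)
    intro D hD
    rw [Set.mem_iUnion₂] at hD
    obtain ⟨r, -, hD⟩ := hD
    exact ⟨hD.1, hD.2.1, hD.2.2.2⟩
  · refine eventually_atTop.2 ⟨N', fun n hn R => ?_⟩
    have hT : (0 : ℝ) < ((X n).ncard : ℝ) := lt_of_lt_of_le (by positivity) (hN' n hn)
    rw [← Finset.sum_div, ← Finset.sum_div, hVs, hUs, ← sub_nonneg]
    have e : ((⋃ r ∈ Finset.range R, V n r).ncard : ℝ) / ((X n).ncard : ℝ) +
        (1 - ((⋃ r ∈ Finset.range R, U n r).ncard : ℝ) / ((X n).ncard : ℝ)) -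
        ((W n).ncard : ℝ) / ((X n).ncard : ℝ) =
        (((⋃ r ∈ Finset.range R, V n r).ncard : ℝ) + (X n).ncard -
          ((⋃ r ∈ Finset.range R, U n r).ncard : ℝ) - (W n).ncard) / (X n).ncard := by
      field_simp
      ring
    rw [e]
    refine div_nonneg ?_ hT.le
    have h3 : (W n ∪ ⋃ r ∈ Finset.range R, U n r) ⊆ X n := by
      rintro D (hD | hD)
      · exact ⟨hD.1, hD.2.1⟩
      · rw [Set.mem_iUnion₂] at hD
        obtain ⟨r, -, hD⟩ := hD
        exact ⟨hD.1, hD.2.1⟩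
    have h4 : (W n ∩ ⋃ r ∈ Finset.range R, U n r) ⊆ ⋃ r ∈ Finset.range R, V n r := by
      rintro D ⟨hD, hD'⟩
      rw [Set.mem_iUnion₂] at hD' ⊢
      obtain ⟨r, hr, hD'⟩ := hD'
      exact ⟨r, hr, hD.1, hD.2.1, hD'.2.2, hD.2.2⟩
    have h5 := Set.ncard_le_ncard h3 (hXf n)
    have h6 := Set.ncard_le_ncard h4
      ((Finset.range R).finite_toSet.biUnion fun r _ => hVf n r)
    have h7 := Set.ncard_union_add_ncard_inter (W n) (⋃ r ∈ Finset.range R, U n r) (hWf n)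
      ((Finset.range R).finite_toSet.biUnion fun r _ => hUf n r)
    have h8 : (W n).ncard + (⋃ r ∈ Finset.range R, U n r).ncard ≤
        (X n).ncard + (⋃ r ∈ Finset.range R, V n r).ncard := by omega
    have h9 : ((W n).ncard : ℝ) + ((⋃ r ∈ Finset.range R, U n r).ncard : ℝ) ≤
        ((X n).ncard : ℝ) + ((⋃ r ∈ Finset.range R, V n r).ncard : ℝ) := by exact_mod_cast h8
    linarith

end Pool.Agent.H3.FS
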