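import Pool.Agent.H3.FS.ALM

/-!
# [H3 FS FRA] One cell

For a cell as in `HCell` the number of the `P` in the cell with `S4 (D' P) = 2^(2+s)` is `alt r s` times the size of the cell up to
`K h √(q^m)`; `K` depends on `F`, `r` only.

Proof.  `S = pf (D' Δ)`; `CellD = Cel m S τ a` (the last condition holds by hypothesis), `js v P = τ v` and `τ v = ± 1`: if the cell is empty
there is nothing to prove; otherwise `js v P ≠ 0` for `v ∈ S` (`P ≠ v` as `deg v < m`), so `τ v = ± 1` for `v ∈ S`; replace `τ` outside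
`S` by `1` (this changes neither `CellD` nor `Cel`).  For a function `e` on the pairs which vanishes outside `prs r` let `w_e p = w p * sg (e p)`
(`CelG` for these signs = the `P` whose symbols satisfy `sg (e p) = w p * js(...)`, as `w p ^ 2 = 1`).  These sets (for different `e`)
are disjoint (`Rt m P a` is not empty: `card_Rt` or the hypothesis on squares; reduce representatives mod `P` to degree `< m`), and their
union is the set of the `P` in the cell whose symbols do not vanish and do not depend on `ρ` (`eqc`), i.e. all but `K_1 h` of the cell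
(`eqb`).  On each of them `S4 (D' P) = 4 kc e`, which is `2^(2+s)` iff `kc e = 2^s`.  By `eqd` each has `#Cel / 2^(#prs r)` elements up to
`K_2 h √(q^m)`; the number of `e` with `kc e = 2^s` is `2^(#prs r) alt r s` (`alt_eq`).  Total error `2^(#prs r) K_2 h √(q^m) + K_1 h`.
The hypothesis `(∏ v ∈ S, v).natDegree ≤ h` of `eqd` is a hypothesis here.
-/

set_option autoImplicit false

namespace Pool.Agent.H3.FS

open Polynomial

private theorem fra_prod {F : Type} [Field F] [Finite F] {D : F[X]} :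
    ∏ v ∈ H94.PC.pf D, v ∣ D := by
  refine Finset.prod_dvd_of_coprime ?_ fun v hv => (H94.PC.mem_pf' hv).2.2
  intro v hv w hw hne
  have hv' := H94.PC.mem_pf' (Finset.mem_coe.1 hv)
  have hw' := H94.PC.mem_pf' (Finset.mem_coe.1 hw)
  show IsCoprime v w
  rw [hv'.2.1.coprime_iff_not_dvd]
  intro h
  exact hne (eq_of_monic_of_associated hv'.1 hw'.1
    ((hv'.2.1.dvd_irreducible_iff_associated hw'.2.1).1 h))

private theorem fra_Rt {F : Type} [Field F] [Finite F] {n m : ℕ} (hm : 1 ≤ m) {P : F[X]}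
    (hP : P ∈ H94.PC.Pr F m) (a : Fin n → F[X]) (hs : ∀ i, ∃ ρ, P ∣ ρ ^ 2 - a i) :
    (Rt m P a).Nonempty := by
  rw [H94.PC.mem_Pr] at hP
  obtain ⟨hP1, hP2, hP3⟩ := hP
  choose ρ hρ using hs
  refine ⟨fun i => ρ i %ₘ P, fun i => ?_, fun i => ?_⟩
  · rw [← hP2]
    exact natDegree_modByMonic_lt _ hP1 (fun h => by
      rw [h, natDegree_one] at hP2
      omega)
  · have h1 : P ∣ ρ i - ρ i %ₘ P := by
      have h2 := modByMonic_add_div (ρ i) P
      exact ⟨ρ i /ₘ P, by rw [sub_eq_iff_eq_add, add_comm]; exact h2.symm⟩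
    have h3 : (ρ i %ₘ P) ^ 2 - a i =
        (ρ i ^ 2 - a i) - (ρ i - ρ i %ₘ P) * (ρ i + ρ i %ₘ P) := by ring
    show P ∣ (ρ i %ₘ P) ^ 2 - a i
    rw [h3]
    exact dvd_sub (hρ i) (h1.mul_right _)

private theorem sg_inj {x y : ZMod 2} (h : H94.PC.sg x = H94.PC.sg y) : x = y := by
  have h2 : ∀ z : ZMod 2, z = 0 ∨ z = 1 := by decide
  rcases h2 x with rfl | rfl <;> rcases h2 y with rfl | rfl
  · rfl
  · rw [H94.PC.sg_zero, H94.PC.sg_one] at h; norm_num at h
  · rw [H94.PC.sg_zero, H94.PC.sg_one] at h; norm_num at h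
  · rfl

theorem fra (F : Type) [Field F] [Finite F] (h2 : (2 : F) ≠ 0) (r : ℕ) : ∃ K : ℝ, 0 ≤ K ∧
    ∀ (Δ : F[X]) (R S4 : F[X] → ℕ) (Idp : F[X] → F[X] → Prop) (h : ℕ) (D' : F[X]) (m : ℕ)
      (τ : F[X] → ℝ) (s : ℕ), D' * Δ ≠ 0 → 1 ≤ m → 1 ≤ h → (D' * Δ).natDegree ≤ h →
      (∀ v ∈ H94.PC.pf (D' * Δ), v.natDegree < m) → HCell Δ R S4 Idp r h D' m τ →
      |(({P | P ∈ CellD Δ D' m τ ∧ S4 (D' * P) = 2 ^ (2 + s)}.ncard : ℝ)) -
        alt r s * (CellD Δ D' m τ).ncard| ≤ K * h * √((Nat.card F : ℝ) ^ m) := by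
  classical
  obtain ⟨K1, hK1, H1⟩ := eqb F h2 r
  obtain ⟨K2, hK2, H2⟩ := eqd F h2 r
  refine ⟨2 ^ (prs r).card * K2 + K1, by positivity, ?_⟩
  intro Δ R S4 Idp h D' m τ s hD hm hh hdeg hpf HC
  obtain ⟨X, hX⟩ : ∃ X : ℝ, X = √((Nat.card F : ℝ) ^ m) := ⟨_, rfl⟩
  have hX1 : 1 ≤ X := by
    rw [hX, Real.one_le_sqrt]
    have h1 : (1 : ℝ) ≤ Nat.card F := by exact_mod_cast Nat.card_pos
    exact one_le_pow₀ h1
  have hh1 : (1 : ℝ) ≤ h := by exact_mod_cast hh
  rw [← hX]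
  have hRHS : 0 ≤ (2 ^ (prs r).card * K2 + K1) * h * X := by positivity
  rcases Set.eq_empty_or_nonempty (CellD Δ D' m τ) with hemp | ⟨P₁, hP₁⟩
  · have e1 : {P | P ∈ CellD Δ D' m τ ∧ S4 (D' * P) = 2 ^ (2 + s)} = ∅ := by
      rw [hemp]
      ext P
      simp
    rw [e1, hemp, Set.ncard_empty]
    simpa using hRHS
  obtain ⟨a, G, w, hI, ha, hG, hw, hsq, hdat⟩ := HC.data
  obtain ⟨S, hS⟩ : ∃ S : Finset F[X], S = H94.PC.pf (D' * Δ) := ⟨_, rfl⟩
  obtain ⟨τ', hτ'⟩ : ∃ τ' : F[X] → ℝ, τ' = fun v => if v ∈ S then τ v else 1 := ⟨_, rfl⟩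
  have hτS : ∀ v ∈ S, τ' v = τ v := fun v hv => by rw [hτ']; simp [hv]
  have hS1 : ∀ v ∈ S, v.Monic ∧ Irreducible v ∧ v.natDegree < m := by
    intro v hv
    rw [hS] at hv
    exact ⟨(H94.PC.mem_pf' hv).1, (H94.PC.mem_pf' hv).2.1, hpf v hv⟩
  have hτ1 : ∀ v, τ' v = 1 ∨ τ' v = -1 := by
    intro v
    by_cases hv : v ∈ S
    · rw [hτS v hv]
      have h3 := hP₁.1
      rw [H94.PC.mem_Pr] at h3
      obtain ⟨h4, h5, h6⟩ := h3
      obtain ⟨h7, h8, h9⟩ := hS1 v hv
      rw [← hP₁.2 v (by rw [← hS]; exact hv)]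
      refine H94.PC.js_cases' h4 ?_
      rw [isCoprime_comm, h6.coprime_iff_not_dvd]
      intro h10
      have h11 := natDegree_le_of_dvd h10 h7.ne_zero
      omega
    · left
      rw [hτ']
      simp [hv]
  have hCel : CellD Δ D' m τ = Cel m S τ' a := by
    ext P
    constructor
    · intro hP
      refine ⟨hP.1, fun v hv => ?_, hsq P hP⟩
      rw [hτS v hv]
      exact hP.2 v (by rw [← hS]; exact hv)
    · rintro ⟨hP1, hP2, -⟩
      refine ⟨hP1, fun v hv => ?_⟩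
      rw [← hS] at hv
      rw [← hτS v hv]
      exact hP2 v hv
  have hSdeg : (∏ v ∈ S, v).natDegree ≤ h := by
    rw [hS]
    exact (natDegree_le_of_dvd fra_prod hD).trans hdeg
  obtain ⟨C, hC⟩ : ∃ C : Set F[X], C = CellD Δ D' m τ := ⟨_, rfl⟩
  have hCfin : C.Finite := by
    refine (Finset.finite_toSet (H94.PC.Pr F m)).subset ?_
    intro P hP
    rw [hC] at hP
    exact hP.1
  obtain ⟨A, hA⟩ : ∃ A : Set F[X],
    A = {P | P ∈ CellD Δ D' m τ ∧ S4 (D' * P) = 2 ^ (2 + s)} := ⟨_, rfl⟩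
  have hAC : A ⊆ C := by
    intro P hP
    rw [hA] at hP
    rw [hC]
    exact hP.1
  have hAfin : A.Finite := hCfin.subset hAC
  -- the bad primes
  obtain ⟨bad, hbd⟩ : ∃ bad : Finset F[X], bad = (H94.PC.Pr F m).filter (fun P =>
      (∃ i, P ∣ a i) ∨ ∃ p hp, ∃ ρ ∈ Rt m P a,
        H94.PC.js (MvPolynomial.eval ρ (G p hp).el) P = 0) := ⟨_, rfl⟩
  have hbc : (bad.card : ℝ) ≤ K1 * h := by
    have hbad := H1 m h a G hm hh ha hG hI
    have e : {P : F[X] | P ∈ H94.PC.Pr F m ∧ ((∃ i, P ∣ a i) ∨ ∃ p hp, ∃ ρ ∈ Rt m P a,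
        H94.PC.js (MvPolynomial.eval ρ (G p hp).el) P = 0)} = (bad : Set F[X]) := by
      rw [hbd]
      ext P
      simp only [Finset.coe_filter]
    rw [e, Set.ncard_coe_finset] at hbad
    exact hbad
  -- the signs
  obtain ⟨E1, hE1⟩ : ∃ E1 : Finset (Fin r × Fin r → ZMod 2), E1 = (Finset.univ.filter
      fun e : Fin r × Fin r → ZMod 2 => (∀ p, p ∉ prs r → e p = 0) ∧ kc e = 2 ^ s) := ⟨_, rfl⟩
  have hE1c : (E1.card : ℝ) = 2 ^ (prs r).card * alt r s := by
    rw [hE1]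
    exact alt_eq r s
  have hmE : ∀ e, e ∈ E1 ↔ (∀ p, p ∉ prs r → e p = 0) ∧ kc e = 2 ^ s := by
    intro e
    rw [hE1, Finset.mem_filter]
    simp
  obtain ⟨B, hB⟩ : ∃ B : (Fin r × Fin r → ZMod 2) → Set F[X],
    B = fun e => CelG m S τ' a G (fun p => w p * H94.PC.sg (e p)) := ⟨_, rfl⟩
  have hBC : ∀ e, B e ⊆ C := by
    intro e P hP
    rw [hB] at hP
    rw [hC, hCel]
    exact hP.1
  have hBfin : ∀ e, (B e).Finite := fun e => hCfin.subset (hBC e)
  have hww : ∀ p, w p * w p = 1 := by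
    intro p
    rcases hw p with h1 | h1 <;> rw [h1] <;> norm_num
  have hsgn : ∀ p (x : ZMod 2), w p * H94.PC.sg x = 1 ∨ w p * H94.PC.sg x = -1 := by
    intro p x
    rcases hw p with h1 | h1 <;> rcases H94.PC.sg_cases x with h3 | h3 <;> rw [h1, h3] <;>
      norm_num
  have hBcard : ∀ e, |((B e).ncard : ℝ) - (C.ncard : ℝ) / 2 ^ (prs r).card| ≤ K2 * h * X := by
    intro e
    have h3 := H2 m h S a G τ' (fun p => w p * H94.PC.sg (e p)) hm hh hS1 hSdeg ha hG hI hτ1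
      (fun p => hsgn p (e p))
    rw [← hCel, ← hC, ← hX] at h3
    rw [hB]
    exact h3
  -- `B e ⊆ A` for `e ∈ E1`
  have hBA : ∀ e ∈ E1, B e ⊆ A := by
    intro e he P hP
    have hPC : P ∈ CellD Δ D' m τ := by
      have := hBC e hP
      rwa [hC] at this
    rw [hB] at hP
    rw [hA]
    refine ⟨hPC, ?_⟩
    have h3 : ∀ p hp, ∀ ρ ∈ Rt m P a,
        H94.PC.js (MvPolynomial.eval ρ (G p hp).el) P = w p * H94.PC.sg (e p) := hP.2
    rw [hdat P hPC ?_ e ?_, ((hmE e).1 he).2]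
    · rw [pow_add]
      norm_num
    · intro p hp ρ hρ
      rw [h3 p hp ρ hρ]
      rcases hsgn p (e p) with h4 | h4 <;> rw [h4] <;> norm_num
    · intro p hp ρ hρ
      rw [h3 p hp ρ hρ, ← mul_assoc, hww, one_mul]
  -- disjointness
  have hdis : ∀ e ∈ E1, ∀ e' ∈ E1, e ≠ e' → Disjoint (B e) (B e') := by
    intro e he e' he' hne
    rw [Set.disjoint_left]
    intro P hP hP'
    apply hne
    have hPC : P ∈ CellD Δ D' m τ := by
      have := hBC e hP
      rwa [hC] at this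
    obtain ⟨ρ, hρ⟩ := fra_Rt hm hPC.1 a (hsq P hPC)
    rw [hB] at hP hP'
    funext p
    by_cases hp : p ∈ prs r
    · have h3 := hP.2 p hp ρ hρ
      have h4 := hP'.2 p hp ρ hρ
      rw [h3] at h4
      have h4' : w p * H94.PC.sg (e p) = w p * H94.PC.sg (e' p) := h4
      have h5 : H94.PC.sg (e p) = H94.PC.sg (e' p) := by
        have h6 : w p * (w p * H94.PC.sg (e p)) = w p * (w p * H94.PC.sg (e' p)) := by rw [h4']
        rwa [← mul_assoc, ← mul_assoc, hww, one_mul, one_mul] at h6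
      exact sg_inj h5
    · rw [((hmE e).1 he).1 p hp, ((hmE e').1 he').1 p hp]
  -- `A ⊆ bad ∪ ⋃ B e`
  have hcov : A ⊆ (bad : Set F[X]) ∪ ⋃ e ∈ E1, B e := by
    intro P hP
    by_cases hb : P ∈ bad
    · exact Or.inl (Finset.mem_coe.2 hb)
    right
    rw [hA] at hP
    obtain ⟨hPC, hP4⟩ := hP
    have hPP := hPC.1
    have hni : ∀ i, ¬ P ∣ a i := by
      intro i hi
      apply hb
      rw [hbd, Finset.mem_filter]
      exact ⟨hPP, Or.inl ⟨i, hi⟩⟩
    have hnj : ∀ p, ∀ hp : p ∈ prs r, ∀ ρ ∈ Rt m P a,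
        H94.PC.js (MvPolynomial.eval ρ (G p hp).el) P ≠ 0 := by
      intro p hp ρ hρ h0
      apply hb
      rw [hbd, Finset.mem_filter]
      exact ⟨hPP, Or.inr ⟨p, hp, ρ, hρ, h0⟩⟩
    obtain ⟨ρ₀, hρ₀⟩ := fra_Rt hm hPP a (hsq P hPC)
    obtain ⟨e, he⟩ : ∃ e : Fin r × Fin r → ZMod 2, (∀ p, p ∉ prs r → e p = 0) ∧
        ∀ p (hp : p ∈ prs r), w p * H94.PC.sg (e p) =
          H94.PC.js (MvPolynomial.eval ρ₀ (G p hp).el) P := by
      refine ⟨fun p => if hp : p ∈ prs r then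
        (if w p = H94.PC.js (MvPolynomial.eval ρ₀ (G p hp).el) P then 0 else 1) else 0, ?_, ?_⟩
      · intro p hp
        simp [hp]
      · intro p hp
        simp only [hp, dif_pos]
        have h3 := (H94.PC.js_cases (MvPolynomial.eval ρ₀ (G p hp).el) P).resolve_left
          (hnj p hp ρ₀ hρ₀)
        by_cases h4 : w p = H94.PC.js (MvPolynomial.eval ρ₀ (G p hp).el) P
        · rw [if_pos h4, H94.PC.sg_zero, mul_one, h4]
        · rw [if_neg h4, H94.PC.sg_one, mul_neg, mul_one]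
          rcases hw p with h5 | h5 <;> rcases h3 with h6 | h6
          · exact absurd (h5.trans h6.symm) h4
          · rw [h5, h6]
          · rw [h5, h6]
            norm_num
          · exact absurd (h5.trans h6.symm) h4
    have hall : ∀ p hp, ∀ ρ ∈ Rt m P a,
        H94.PC.js (MvPolynomial.eval ρ (G p hp).el) P = w p * H94.PC.sg (e p) := by
      intro p hp ρ hρ
      rw [he.2 p hp]
      exact eqc h2 G p hp hm hPP hρ hρ₀ (hnj p hp ρ hρ) (hnj p hp ρ₀ hρ₀)
    have hkc : kc e = 2 ^ s := by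
      have h3 := hdat P hPC hnj e ?_
      · rw [hP4, pow_add] at h3
        norm_num at h3
        exact h3.symm
      · intro p hp ρ hρ
        rw [hall p hp ρ hρ, ← mul_assoc, hww, one_mul]
    rw [Set.mem_iUnion₂]
    refine ⟨e, (hmE e).2 ⟨he.1, hkc⟩, ?_⟩
    rw [hB]
    refine ⟨?_, hall⟩
    rw [← hCel]
    exact hPC
  -- counting
  have hUfin : (⋃ e ∈ E1, B e).Finite := hCfin.subset (by
    intro P hP
    rw [Set.mem_iUnion₂] at hP
    obtain ⟨e, _, he⟩ := hP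
    exact hBC e he)
  have hU : (⋃ e ∈ E1, B e).ncard = ∑ e ∈ E1, (B e).ncard := by
    have h3 : (⋃ e ∈ E1, B e) = ((E1.biUnion fun e => (hBfin e).toFinset : Finset F[X]) :
        Set F[X]) := by
      ext P
      simp
    rw [h3, Set.ncard_coe_finset, Finset.card_biUnion]
    · refine Finset.sum_congr rfl fun e _ => ?_
      rw [Set.ncard_eq_toFinset_card _ (hBfin e)]
    · intro e he e' he' hne
      show Disjoint (hBfin e).toFinset (hBfin e').toFinset
      rw [Finset.disjoint_left]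
      intro P hP hP'
      rw [Set.Finite.mem_toFinset] at hP hP'
      exact Set.disjoint_left.1 (hdis e he e' he' hne) hP hP'
  have hup : (A.ncard : ℝ) ≤ K1 * h + ∑ e ∈ E1, ((B e).ncard : ℝ) := by
    have h3 : A.ncard ≤ bad.card + ∑ e ∈ E1, (B e).ncard := by
      rw [← hU, ← Set.ncard_coe_finset bad]
      refine (Set.ncard_le_ncard hcov ((Finset.finite_toSet _).union hUfin)).trans ?_
      exact Set.ncard_union_le _ _
    have h4 : (A.ncard : ℝ) ≤ bad.card + ∑ e ∈ E1, ((B e).ncard : ℝ) := by exact_mod_cast h3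
    linarith
  have hlo : ∑ e ∈ E1, ((B e).ncard : ℝ) ≤ A.ncard := by
    have h3 : ∑ e ∈ E1, (B e).ncard ≤ A.ncard := by
      rw [← hU]
      refine Set.ncard_le_ncard ?_ hAfin
      intro P hP
      rw [Set.mem_iUnion₂] at hP
      obtain ⟨e, he, hPe⟩ := hP
      exact hBA e he hPe
    exact_mod_cast h3
  have hsum : |∑ e ∈ E1, ((B e).ncard : ℝ) - alt r s * C.ncard| ≤
      2 ^ (prs r).card * (K2 * h * X) := by
    have h3 : alt r s * (C.ncard : ℝ) = ∑ _e ∈ E1, (C.ncard : ℝ) / 2 ^ (prs r).card := by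
      rw [Finset.sum_const, nsmul_eq_mul, hE1c]
      field_simp
    rw [h3, ← Finset.sum_sub_distrib]
    refine (Finset.abs_sum_le_sum_abs _ _).trans ?_
    refine (Finset.sum_le_sum fun e _ => hBcard e).trans ?_
    rw [Finset.sum_const, nsmul_eq_mul]
    refine mul_le_mul_of_nonneg_right ?_ (by positivity)
    rw [hE1c]
    exact mul_le_of_le_one_right (by positivity) (alt_le_one r s)
  rw [← hA, ← hC]
  have hK1X : K1 * h ≤ K1 * h * X := le_mul_of_one_le_right (by positivity) hX1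
  have hfinal : (2 ^ (prs r).card * K2 + K1) * h * X =
      2 ^ (prs r).card * (K2 * h * X) + K1 * h * X := by ring
  have hK1h : 0 ≤ K1 * h := by positivity
  rw [hfinal]
  rw [abs_le] at hsum ⊢
  obtain ⟨m1, m2⟩ := hsum
  constructor <;> linarith

end Pool.Agent.H3.FS
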