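import Pool.Agent.H3.FS.FRC

set_option autoImplicit false

/-!
# [H3 FS FRM] The limit

If the exceptional set is `o(q^n)` (`hI`), the law of `R` is known (`hL`), and `#{D ∈ Sq F n, T D} ≥ δ q^n` for large `n` (`hP`), then for
all `r, s` the share of the `D` with `R D = 2^(2+r)` and `S4 D = 2^(2+s)` tends to `α r * alt r s`.

Proof.  With `t_n = #{D ∈ Sq F n, T D}`, `N_rs(n)` the number in question, `N_r(n) = #{D ∈ Sq F n, T D, R D = 2^(2+r)}`, `E(n)` the size of the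
exceptional set: `|N_rs(n) - #{D ∈ GdR, S4 = ...}| ≤ E(n)`, `|N_r(n) - #GdR| ≤ E(n)`, so `|N_rs(n) - alt r s N_r(n)| ≤ 2 E(n) +
K (n+1)^C q^n / √(q^√n)` (`frc`, `0 ≤ alt ≤ 1`); divide by `t_n ≥ δ q^n`: the right side tends to `0` (`q ≥ 2`: exponential in `√n` beats
the polynomial), and `N_r(n)/t_n → α r`.
-/

namespace Pool.Agent.H3.FS

open Polynomial Filter

private theorem frm_sqrt (q : ℝ) (hq : 0 ≤ q) (m : ℕ) : √(q ^ m) = √q ^ m := by
  rw [← Real.sqrt_sq (pow_nonneg (Real.sqrt_nonneg q) m)]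
  congr 1
  rw [← pow_mul, mul_comm, pow_mul, Real.sq_sqrt hq]

private theorem frm_nat_sqrt : Tendsto Nat.sqrt atTop atTop := by
  rw [tendsto_atTop]
  intro b
  filter_upwards [eventually_ge_atTop (b * b)] with n hn
  exact Nat.le_sqrt.2 hn

private theorem frm_tz (q : ℝ) (hq : 1 < q) (C : ℕ) :
    Tendsto (fun n : ℕ => ((n : ℝ) + 1) ^ C / √(q ^ Nat.sqrt n)) atTop (nhds 0) := by
  have hs : 1 < √q := by
    rw [← Real.sqrt_one]
    exact Real.sqrt_lt_sqrt zero_le_one hq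
  have hs0 : 0 < √q := by linarith
  have h1 : Tendsto (fun m : ℕ => ((m : ℝ) + 1) ^ (2 * C) / √q ^ m) atTop (nhds 0) := by
    have h2 := tendsto_pow_const_div_const_pow_of_one_lt (2 * C) hs
    have h3 := (h2.comp (tendsto_add_atTop_nat 1)).const_mul (√q)
    rw [mul_zero] at h3
    refine h3.congr fun m => ?_
    simp only [Function.comp_apply]
    push_cast
    rw [pow_succ]
    field_simp
  have h4 := h1.comp frm_nat_sqrt
  refine squeeze_zero (fun n => by positivity) (fun n => ?_) h4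
  simp only [Function.comp_apply]
  rw [frm_sqrt q (by linarith)]
  refine div_le_div_of_nonneg_right ?_ (by positivity)
  have h5 : n + 1 ≤ (Nat.sqrt n + 1) ^ 2 := by
    have := Nat.lt_succ_sqrt n
    rw [sq]
    exact this
  have h6 : (n : ℝ) + 1 ≤ ((Nat.sqrt n : ℝ) + 1) ^ 2 := by exact_mod_cast h5
  calc ((n : ℝ) + 1) ^ C ≤ (((Nat.sqrt n : ℝ) + 1) ^ 2) ^ C :=
        pow_le_pow_left₀ (by positivity) h6 C
    _ = ((Nat.sqrt n : ℝ) + 1) ^ (2 * C) := by rw [← pow_mul]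

/-- the real inequality -/
private theorem frm_real {N Nr GS G E e a t d Q : ℝ} (ha0 : 0 ≤ a) (ha1 : a ≤ 1) (h1 : GS ≤ N)
    (h2 : N ≤ GS + E) (h3 : G ≤ Nr) (h4 : Nr ≤ G + E) (h5 : |GS - a * G| ≤ e) (hd : 0 < d)
    (hQ : 0 < Q) (ht : d * Q ≤ t) : |(N - a * Nr) / t| ≤ 2 / d * (E / Q) + 1 / d * (e / Q) := by
  have ht0 : 0 < t := lt_of_lt_of_le (mul_pos hd hQ) ht
  have hE : 0 ≤ E := by linarith
  have he : 0 ≤ e := (abs_nonneg _).trans h5
  have h6 : |N - a * Nr| ≤ 2 * E + e := by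
    rw [abs_le] at h5 ⊢
    have h7 : a * G ≤ a * Nr := mul_le_mul_of_nonneg_left h3 ha0
    have h8 : a * Nr ≤ a * (G + E) := mul_le_mul_of_nonneg_left h4 ha0
    have h9 : a * E ≤ 1 * E := mul_le_mul_of_nonneg_right ha1 hE
    have h10 : a * (G + E) = a * G + a * E := by ring
    constructor <;> linarith
  rw [abs_div, abs_of_pos ht0]
  calc |N - a * Nr| / t ≤ (2 * E + e) / (d * Q) :=
        div_le_div₀ (by positivity) h6 (mul_pos hd hQ) ht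
    _ = 2 / d * (E / Q) + 1 / d * (e / Q) := by
        field_simp

theorem frm (F : Type) [Field F] [Finite F] (h2 : (2 : F) ≠ 0) {Δ : F[X]} (hΔ : Δ ≠ 0)
    {T : F[X] → Prop} {R S4 : F[X] → ℕ} {Idp : F[X] → F[X] → Prop}
    (hT : ∀ D' P : F[X], P.Monic → Irreducible P → (∀ v ∈ H94.PC.pf Δ, v.natDegree < P.natDegree) →
      (T (D' * P) ↔ T D')) (hH : Hyp Δ T R S4 Idp)
    (hI : Tendsto (fun n : ℕ => ({D | D ∈ H94.PC.Sq F n ∧ T D ∧
      ¬ ∃ P, Lg Δ n D P ∧ Idp D P}.ncard : ℝ) / (Nat.card F : ℝ) ^ n) atTop (nhds 0))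
    (α : ℕ → ℝ) (hL : ∀ r : ℕ, Tendsto (fun n : ℕ =>
      ({D | D ∈ H94.PC.Sq F n ∧ T D ∧ R D = 2 ^ (2 + r)}.ncard : ℝ) /
        {D | D ∈ H94.PC.Sq F n ∧ T D}.ncard) atTop (nhds (α r)))
    (hP : ∃ δ : ℝ, 0 < δ ∧ ∀ᶠ n : ℕ in atTop, δ * (Nat.card F : ℝ) ^ n ≤
      ({D | D ∈ H94.PC.Sq F n ∧ T D}.ncard : ℝ)) (r s : ℕ) :
    Tendsto (fun n : ℕ => ({D | D ∈ H94.PC.Sq F n ∧ T D ∧ R D = 2 ^ (2 + r) ∧
      S4 D = 2 ^ (2 + s)}.ncard : ℝ) / {D | D ∈ H94.PC.Sq F n ∧ T D}.ncard) atTop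
      (nhds (α r * alt r s)) := by
  obtain ⟨K, C, hK, hfrc⟩ := frc F h2 hΔ hT hH r s
  obtain ⟨δ, hδ, hP⟩ := hP
  have hq : (1 : ℝ) < Nat.card F := by
    have : 1 < Nat.card F := Finite.one_lt_card
    exact_mod_cast this
  have ha0 := alt_nonneg r s
  have ha1 := alt_le_one r s
  have hz := frm_tz (Nat.card F) hq C
  -- the error tends to zero
  have herr : Tendsto (fun n : ℕ => 2 / δ * (({D | D ∈ H94.PC.Sq F n ∧ T D ∧
      ¬ ∃ P, Lg Δ n D P ∧ Idp D P}.ncard : ℝ) / (Nat.card F : ℝ) ^ n) + 1 / δ *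
      (K * (n + 1 : ℝ) ^ C * (Nat.card F : ℝ) ^ n / √((Nat.card F : ℝ) ^ Nat.sqrt n) /
        (Nat.card F : ℝ) ^ n)) atTop (nhds 0) := by
    have h3 : Tendsto (fun n : ℕ => K * (((n : ℝ) + 1) ^ C / √((Nat.card F : ℝ) ^ Nat.sqrt n)))
        atTop (nhds (K * 0)) := hz.const_mul K
    have h4 := (hI.const_mul (2 / δ)).add (h3.const_mul (1 / δ))
    rw [mul_zero, mul_zero, mul_zero, add_zero] at h4
    refine h4.congr fun n => ?_
    have hqn : (0 : ℝ) < (Nat.card F : ℝ) ^ n := by positivity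
    congr 2
    field_simp
  have hmain : Tendsto (fun n : ℕ => (({D | D ∈ H94.PC.Sq F n ∧ T D ∧ R D = 2 ^ (2 + r) ∧
      S4 D = 2 ^ (2 + s)}.ncard : ℝ) - alt r s *
        ({D | D ∈ H94.PC.Sq F n ∧ T D ∧ R D = 2 ^ (2 + r)}.ncard : ℝ)) /
        {D | D ∈ H94.PC.Sq F n ∧ T D}.ncard) atTop (nhds 0) := by
    refine squeeze_zero_norm' ?_ herr
    filter_upwards [hP] with n hn
    rw [Real.norm_eq_abs]
    have hfin : ∀ A : Set F[X], (∀ D ∈ A, D ∈ H94.PC.Sq F n) → A.Finite := fun A hA =>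
      (Finset.finite_toSet (H94.PC.Sq F n)).subset hA
    refine frm_real (GS := (({D | D ∈ GdR Δ T R Idp n r ∧ S4 D = 2 ^ (2 + s)}.ncard : ℝ)))
      (G := ((GdR Δ T R Idp n r).ncard : ℝ)) ha0 ha1 ?_ ?_ ?_ ?_ (hfrc n) hδ (by positivity) hn
    · have h3 : {D | D ∈ GdR Δ T R Idp n r ∧ S4 D = 2 ^ (2 + s)}.ncard ≤
          {D | D ∈ H94.PC.Sq F n ∧ T D ∧ R D = 2 ^ (2 + r) ∧ S4 D = 2 ^ (2 + s)}.ncard := by
        refine Set.ncard_le_ncard ?_ (hfin _ fun D hD => hD.1)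
        rintro D ⟨⟨g1, g2, g3, -⟩, g4⟩
        exact ⟨g1, g2, g3, g4⟩
      exact_mod_cast h3
    · have h3 : {D | D ∈ H94.PC.Sq F n ∧ T D ∧ R D = 2 ^ (2 + r) ∧ S4 D = 2 ^ (2 + s)}.ncard ≤
          {D | D ∈ GdR Δ T R Idp n r ∧ S4 D = 2 ^ (2 + s)}.ncard +
          {D | D ∈ H94.PC.Sq F n ∧ T D ∧ ¬ ∃ P, Lg Δ n D P ∧ Idp D P}.ncard := by
        refine le_trans (Set.ncard_le_ncard ?_ ?_) (Set.ncard_union_le _ _)
        · rintro D ⟨g1, g2, g3, g4⟩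
          by_cases h : ∃ P, Lg Δ n D P ∧ Idp D P
          · exact Or.inl ⟨⟨g1, g2, g3, h⟩, g4⟩
          · exact Or.inr ⟨g1, g2, h⟩
        · refine (hfin _ fun D hD => hD.1.1).union (hfin _ fun D hD => hD.1)
      exact_mod_cast h3
    · have h3 : (GdR Δ T R Idp n r).ncard ≤
          {D | D ∈ H94.PC.Sq F n ∧ T D ∧ R D = 2 ^ (2 + r)}.ncard := by
        refine Set.ncard_le_ncard ?_ (hfin _ fun D hD => hD.1)
        rintro D ⟨g1, g2, g3, -⟩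
        exact ⟨g1, g2, g3⟩
      exact_mod_cast h3
    · have h3 : {D | D ∈ H94.PC.Sq F n ∧ T D ∧ R D = 2 ^ (2 + r)}.ncard ≤
          (GdR Δ T R Idp n r).ncard +
          {D | D ∈ H94.PC.Sq F n ∧ T D ∧ ¬ ∃ P, Lg Δ n D P ∧ Idp D P}.ncard := by
        refine le_trans (Set.ncard_le_ncard ?_ ?_) (Set.ncard_union_le _ _)
        · rintro D ⟨g1, g2, g3⟩
          by_cases h : ∃ P, Lg Δ n D P ∧ Idp D P
          · exact Or.inl ⟨g1, g2, g3, h⟩
          · exact Or.inr ⟨g1, g2, h⟩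
        · refine (hfin _ fun D hD => hD.1).union (hfin _ fun D hD => hD.1)
      exact_mod_cast h3
  have hfin2 := hmain.add ((hL r).const_mul (alt r s))
  rw [zero_add, mul_comm (alt r s) (α r)] at hfin2
  refine hfin2.congr fun n => ?_
  rw [sub_div]
  ring

end Pool.Agent.H3.FS
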