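import Pool.Agent.H3.FS.GVD

set_option autoImplicit false

/-!
# [H3 FS GVB] Degrees and values of the governing element

* `bd_mul`, `bd_prod`: `Bd` of products: total degrees and degrees of coefficients add (`MvPolynomial.totalDegree_mul`,
  `MvPolynomial.coeff_mul`, `natDegree_sum_le`, `natDegree_mul_le`).
* `gel_bd`: `Bd (7 h) 4 G.el` if the data have degree `≤ h` (`g, X_0, X_1, X_2` and three factors with coefficients `Z_l, X_l`; total
  degree `1 + 1 + 2`).
* `gel_map`: ring homomorphisms and `gel`; `mv_el`: the value of `G.el`.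
-/

namespace Pool.Agent.H3.FS

open Polynomial

theorem bd_mul {k : Type} [Field k] {ρ h d h' d' : ℕ} {Ξ Ξ' : MvPolynomial (Fin ρ) k[X]}
    (h1 : Bd h d Ξ) (h2 : Bd h' d' Ξ') : Bd (h + h') (d + d') (Ξ * Ξ') := by
  classical
  refine ⟨le_trans (MvPolynomial.totalDegree_mul _ _) (add_le_add h1.1 h2.1), fun α => ?_⟩
  rw [MvPolynomial.coeff_mul]
  refine Polynomial.natDegree_sum_le_of_forall_le _ _ (fun x _ => ?_)
  exact le_trans Polynomial.natDegree_mul_le (add_le_add (h1.2 _) (h2.2 _))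

theorem bd_C {k : Type} [Field k] {ρ : ℕ} (g : k[X]) :
    Bd g.natDegree 0 (MvPolynomial.C g : MvPolynomial (Fin ρ) k[X]) := by
  classical
  refine ⟨by rw [MvPolynomial.totalDegree_C], fun α => ?_⟩
  rw [MvPolynomial.coeff_C]
  split_ifs
  · exact le_refl _
  · rw [Polynomial.natDegree_zero]
    exact Nat.zero_le _

private lemma bd_mono {k : Type} [Field k] {ρ h d h' d' : ℕ} {Ξ : MvPolynomial (Fin ρ) k[X]}
    (h1 : Bd h d Ξ) (hh : h ≤ h') (hd : d ≤ d') : Bd h' d' Ξ :=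
  ⟨le_trans h1.1 hd, fun α => le_trans (h1.2 α) hh⟩

private lemma bd_add {k : Type} [Field k] {ρ h d : ℕ} {Ξ Ξ' : MvPolynomial (Fin ρ) k[X]}
    (h1 : Bd h d Ξ) (h2 : Bd h d Ξ') : Bd h d (Ξ + Ξ') := by
  refine ⟨le_trans (MvPolynomial.totalDegree_add _ _) (max_le h1.1 h2.1), fun α => ?_⟩
  rw [MvPolynomial.coeff_add]
  exact le_trans (Polynomial.natDegree_add_le _ _) (max_le (h1.2 α) (h2.2 α))

private lemma bd_X {k : Type} [Field k] {ρ : ℕ} (i : Fin ρ) :
    Bd 0 1 (MvPolynomial.X i : MvPolynomial (Fin ρ) k[X]) := by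
  classical
  refine ⟨by rw [MvPolynomial.totalDegree_X], fun α => ?_⟩
  rw [MvPolynomial.coeff_X]
  split_ifs
  · rw [Polynomial.natDegree_one]
  · rw [Polynomial.natDegree_zero]

theorem bd_prod {k : Type} [Field k] {ρ h d : ℕ} {κ : Type} (s : Finset κ)
    (Ξ : κ → MvPolynomial (Fin ρ) k[X]) (hs : ∀ i ∈ s, Bd h d (Ξ i)) :
    Bd (s.card * h) (s.card * d) (∏ i ∈ s, Ξ i) := by
  classical
  induction s using Finset.induction_on with
  | empty =>
    rw [Finset.prod_empty, Finset.card_empty, Nat.zero_mul, Nat.zero_mul]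
    have h1 := bd_C (ρ := ρ) (1 : k[X])
    rw [Polynomial.natDegree_one, map_one] at h1
    exact h1
  | insert a s ha ih =>
    rw [Finset.prod_insert ha, Finset.card_insert_of_notMem ha]
    have h1 := bd_mul (hs a (Finset.mem_insert_self a s))
      (ih (fun i hi => hs i (Finset.mem_insert_of_mem hi)))
    refine bd_mono h1 (le_of_eq (by ring)) (le_of_eq (by ring))

theorem gel_map {A B : Type} [CommRing A] [CommRing B] (f : A →+* B) (g : A) (X Z : Fin 3 → A)
    (y1 y2 : A) : f (gel g X Z y1 y2) = gel (f g) (fun l => f (X l)) (fun l => f (Z l)) (f y1)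
      (f y2) := by
  simp only [gel, map_mul, map_add, map_ofNat]

theorem gel_bd {F : Type} [Field F] {r : ℕ} {a : Fin (r * 2) → F[X]} {i j : Fin r} (G : Gd a i j)
    {h : ℕ} (hG : G.Dg h) : Bd (7 * h) 4 G.el := by
  have hC : ∀ p : F[X], p.natDegree ≤ h → Bd h 0 (MvPolynomial.C p : MvPolynomial (Fin (r * 2)) F[X]) :=
    fun p hp => bd_mono (bd_C p) hp (le_refl _)
  have h2 : Bd 0 0 (2 : MvPolynomial (Fin (r * 2)) F[X]) := by
    have h3 := bd_C (ρ := r * 2) (2 : F[X])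
    have h4 : (2 : F[X]).natDegree = 0 := Polynomial.natDegree_ofNat 2
    rw [h4, map_ofNat] at h3
    exact h3
  have hZ : ∀ (l : Fin 3) (e : ℕ) (Y : MvPolynomial (Fin (r * 2)) F[X]), Bd 0 e Y →
      Bd h e (MvPolynomial.C (G.Z l) + MvPolynomial.C (G.X l) * Y) := by
    intro l e Y hY
    refine bd_add (bd_mono (hC _ (hG.2 l).2) (le_refl _) (Nat.zero_le _)) ?_
    exact bd_mono (bd_mul (hC _ (hG.2 l).1) hY) (le_of_eq (by ring)) (le_of_eq (by ring))
  have h5 := bd_mul (bd_mul (bd_mul (bd_mul (bd_mul (bd_mul (bd_mul h2 (hC _ hG.1)) (hC _ (hG.2 0).1))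
    (hC _ (hG.2 1).1)) (hC _ (hG.2 2).1)) (hZ 0 1 _ (bd_X (ix i 0)))) (hZ 1 1 _ (bd_X (ix i 1))))
    (hZ 2 2 _ (bd_mul (bd_X (ix i 0)) (bd_X (ix i 1))))
  exact bd_mono h5 (le_of_eq (by ring)) (le_of_eq (by norm_num))

theorem mv_el {F L : Type} [Field F] [CommRing L] {r : ℕ} {a : Fin (r * 2) → F[X]} {i j : Fin r}
    (G : Gd a i j) (f : F[X] →+* L) (y : Fin (r * 2) → L) :
    mv f G.el y = gel (f G.g) (fun l => f (G.X l)) (fun l => f (G.Z l)) (y (ix i 0))
      (y (ix i 1)) := by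
  have h1 := gel_map (MvPolynomial.eval₂Hom f y) (MvPolynomial.C G.g)
    (fun l => MvPolynomial.C (G.X l)) (fun l => MvPolynomial.C (G.Z l))
    (MvPolynomial.X (ix i 0)) (MvPolynomial.X (ix i 1))
  simp only [MvPolynomial.coe_eval₂Hom, MvPolynomial.eval₂_C, MvPolynomial.eval₂_X] at h1
  exact h1

end Pool.Agent.H3.FS
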