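import Pool.Agent.H3.FS.PRI

set_option autoImplicit false

/-!
# [H3 FS GVD] Governing elements: definitions

`a : Fin (r * 2) → F[X]`: the two components `x_1 = a (ix i 0)`, `x_2 = a (ix i 1)` of the basis element number `i`.  For `i ≠ j`,
`x = x^(i)`, `y = x^(j)`, the data `Gd`:
`Z_0² - x_1 X_0² = c y_2 W_0²`, `Z_1² - x_2 X_1² = c y_1 W_1²`, `Z_2² - x_1 x_2 X_2² = c W_2²`, and the governing element
`el = 2 g X_0 X_1 X_2 (Z_0 + X_0 Y_1)(Z_1 + X_1 Y_2)(Z_2 + X_2 Y_1 Y_2)`, `Y_1 = √x_1`, `Y_2 = √x_2` (variables `ix i 0`, `ix i 1`).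
-/

namespace Pool.Agent.H3.FS

open Polynomial

/-- the index of the component `e` of the element `i` -/
def ix {r : ℕ} (i : Fin r) (e : Fin 2) : Fin (r * 2) := finProdFinEquiv (i, e)

/-- data of the governing element -/
structure Gd {F : Type} [Field F] {r : ℕ} (a : Fin (r * 2) → F[X]) (i j : Fin r) where
  g : F[X]
  c : F[X]
  X : Fin 3 → F[X]
  Z : Fin 3 → F[X]
  W : Fin 3 → F[X]
  g0 : g ≠ 0
  c0 : c ≠ 0
  X0 : ∀ l, X l ≠ 0
  W0 : ∀ l, W l ≠ 0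
  e0 : Z 0 ^ 2 - a (ix i 0) * X 0 ^ 2 = c * a (ix j 1) * W 0 ^ 2
  e1 : Z 1 ^ 2 - a (ix i 1) * X 1 ^ 2 = c * a (ix j 0) * W 1 ^ 2
  e2 : Z 2 ^ 2 - a (ix i 0) * a (ix i 1) * X 2 ^ 2 = c * W 2 ^ 2

/-- the governing element as a function of the square roots `y1 = √x_1`, `y2 = √x_2` -/
def gel {A : Type} [CommRing A] (g : A) (X Z : Fin 3 → A) (y1 y2 : A) : A :=
  2 * g * X 0 * X 1 * X 2 * (Z 0 + X 0 * y1) * (Z 1 + X 1 * y2) * (Z 2 + X 2 * (y1 * y2))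

/-- the governing element as a polynomial in the square roots -/
noncomputable def Gd.el {F : Type} [Field F] {r : ℕ} {a : Fin (r * 2) → F[X]} {i j : Fin r}
    (G : Gd a i j) : MvPolynomial (Fin (r * 2)) F[X] :=
  gel (MvPolynomial.C G.g) (fun l => MvPolynomial.C (G.X l)) (fun l => MvPolynomial.C (G.Z l))
    (MvPolynomial.X (ix i 0)) (MvPolynomial.X (ix i 1))

/-- the degrees of the data are at most `h` -/
def Gd.Dg {F : Type} [Field F] {r : ℕ} {a : Fin (r * 2) → F[X]} {i j : Fin r} (G : Gd a i j)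
    (h : ℕ) : Prop :=
  G.g.natDegree ≤ h ∧ ∀ l, (G.X l).natDegree ≤ h ∧ (G.Z l).natDegree ≤ h

/-- the pairs `i < j` -/
def prs (r : ℕ) : Finset (Fin r × Fin r) := Finset.univ.filter fun p => p.1 < p.2

end Pool.Agent.H3.FS
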