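import Pool.Agent.H3.FS.GVB

set_option autoImplicit false

/-!
# [H3 FS GVN] Norm identities of the governing element

In a commutative ring: `z_l² - α_l x_l² = β_l` with `α_0 = y1²`, `α_1 = y2²`, `α_2 = y1² y2²`.  With
`G(y1, y2) = gel g X Z y1 y2`:
* `G(y1, y2) G(-y1, y2) = N_0 N_2 (2 g X_0 X_1 X_2 (Z_1 + X_1 y2))²`,
* `G(y1, y2) G(y1, -y2) = N_1 N_2 (2 g X_0 X_1 X_2 (Z_0 + X_0 y1))²`,
* `G(y1, y2) G(-y1, -y2) = N_0 N_1 (2 g X_0 X_1 X_2 (Z_2 + X_2 y1 y2))²`,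
`N_0 = Z_0² - y1² X_0²`, `N_1 = Z_1² - y2² X_1²`, `N_2 = Z_2² - y1² y2² X_2²`.  (All by `ring`.)

`nrm_gov`: over a finite field `E`: if `N_0 = c v² w_0²`, `N_1 = c u² w_1²`, `N_2 = c w_2²` and both values are non-zero, then
`G(y1, y2)` is a square iff `G(±y1, ±y2)` is: the product of the two values is a square
(`N_0 N_2 = (c v w_0 w_2)²`, `N_1 N_2 = (c u w_1 w_2)²`, `N_0 N_1 = (c u v w_0 w_1)²`).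
-/

namespace Pool.Agent.H3.FS

theorem gel_n0 {A : Type} [CommRing A] (g : A) (X Z : Fin 3 → A) (y1 y2 : A) :
    gel g X Z y1 y2 * gel g X Z (-y1) y2 = (Z 0 ^ 2 - y1 ^ 2 * X 0 ^ 2) *
      (Z 2 ^ 2 - y1 ^ 2 * y2 ^ 2 * X 2 ^ 2) * (2 * g * X 0 * X 1 * X 2 * (Z 1 + X 1 * y2)) ^ 2 := by
  simp only [gel]; ring

theorem gel_n1 {A : Type} [CommRing A] (g : A) (X Z : Fin 3 → A) (y1 y2 : A) :
    gel g X Z y1 y2 * gel g X Z y1 (-y2) = (Z 1 ^ 2 - y2 ^ 2 * X 1 ^ 2) *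
      (Z 2 ^ 2 - y1 ^ 2 * y2 ^ 2 * X 2 ^ 2) * (2 * g * X 0 * X 1 * X 2 * (Z 0 + X 0 * y1)) ^ 2 := by
  simp only [gel]; ring

theorem gel_n2 {A : Type} [CommRing A] (g : A) (X Z : Fin 3 → A) (y1 y2 : A) :
    gel g X Z y1 y2 * gel g X Z (-y1) (-y2) = (Z 0 ^ 2 - y1 ^ 2 * X 0 ^ 2) *
      (Z 1 ^ 2 - y2 ^ 2 * X 1 ^ 2) *
      (2 * g * X 0 * X 1 * X 2 * (Z 2 + X 2 * (y1 * y2))) ^ 2 := by
  simp only [gel]; ring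

theorem nrm_gov {E : Type} [Field E] (g c : E) (X Z W : Fin 3 → E) (y1 y2 y1' y2' u v : E)
    (h1 : y1' ^ 2 = y1 ^ 2) (h2 : y2' ^ 2 = y2 ^ 2)
    (e0 : Z 0 ^ 2 - y1 ^ 2 * X 0 ^ 2 = c * v ^ 2 * W 0 ^ 2)
    (e1 : Z 1 ^ 2 - y2 ^ 2 * X 1 ^ 2 = c * u ^ 2 * W 1 ^ 2)
    (e2 : Z 2 ^ 2 - y1 ^ 2 * y2 ^ 2 * X 2 ^ 2 = c * W 2 ^ 2)
    (n : gel g X Z y1 y2 ≠ 0) (n' : gel g X Z y1' y2' ≠ 0) :
    IsSquare (gel g X Z y1 y2 * gel g X Z y1' y2') := by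
  rcases sq_eq_sq_iff_eq_or_eq_neg.1 h1 with hy1 | hy1 <;>
    rcases sq_eq_sq_iff_eq_or_eq_neg.1 h2 with hy2 | hy2
  · rw [hy1, hy2]
    exact ⟨_, rfl⟩
  · rw [hy1, hy2, gel_n1, e1, e2]
    exact ⟨c * u * W 1 * W 2 * (2 * g * X 0 * X 1 * X 2 * (Z 0 + X 0 * y1)), by ring⟩
  · rw [hy1, hy2, gel_n0, e0, e2]
    exact ⟨c * v * W 0 * W 2 * (2 * g * X 0 * X 1 * X 2 * (Z 1 + X 1 * y2)), by ring⟩
  · rw [hy1, hy2, gel_n2, e0, e1]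
    exact ⟨c * v * u * W 0 * W 1 * (2 * g * X 0 * X 1 * X 2 * (Z 2 + X 2 * (y1 * y2))), by ring⟩

end Pool.Agent.H3.FS
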