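import Pool.Agent.H3.FS.GVN
import Pool.Agent.H3.FS.TND
import Pool.Agent.H3.FS.TOW
import Pool.Agent.H3.FS.CLO

set_option autoImplicit false

/-!
# [H3 FS GVX] Products of governing elements are not squares (commutator argument)

`a : Fin (r * 2) → k[X]` independent (`Ind`), `2 ≠ 0` in `k`, governing data over `k` (here in the form: polynomials over `k` with the
norm relations), `n ⊆ prs r` not empty, `g ∈ k[X]`, `g ≠ 0`.  Then `NS a (C g * ∏_{p ∈ n} el_p)`.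

Proof.  Let `R, y, b` be the tower of `tow` for `A = k[X]` (`tnd0`), a domain, and `Θ = mv (algebraMap) (...) y ∈ R`,
`Θ = g ∏_p G_p`, `G_p = gel(g_p, X_p, Z_p, y_(i,0), y_(i,1))` for `p = (i, j)`.  Let `L, f, t, w` be as in `NS`, `w² = mv f (...) t`.
By `clo` there are `ψ : R → L` injective over `f`, `ψ(y) = t`, and `x ≠ 0`, `z` in `R` with `ψ(x) w = ψ(z)`; so `x² Θ = z²` in `R`
(`ψ Θ = mv f (...) t`; `ψ` injective).
Let `j_0` be the largest second index of the pairs in `n`, `(i_0, j_0) ∈ n`.  Let `τ`, `τ' : R → R` be the homomorphisms over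
`k[X]` (`lft`) with `τ(y_(i_0, 0)) = -y_(i_0, 0)`, `τ'(y_(j_0, 1)) = -y_(j_0, 1)` and the identity on all other `y`.  They commute and are
involutions (they agree on the generators; every element is a `k[X]`-combination of products of the `y`), so they are injective.
(1) `τ' Θ = Θ`: `Θ` involves only the `y_(i, e)` with `i < j ≤ j_0` for some `(i, j) ∈ n`.
(2) `Θ τΘ = (β ω)²` with `β = ∏_{(i_0, j) ∈ n} y_(j, 1)` and `ω = g² ... ` the product of `g` , `G_p` for `p = (i, j) ∈ n`, `i ≠ i_0` (fixed by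
`τ`), and `c W_0 W_2 (2 g X_0 X_1 X_2 (Z_1 + X_1 y_(i_0, 1)))` for `p = (i_0, j) ∈ n` (`gel_n0`, `G.e0`, `G.e2`:
`N_0 N_2 = c y_2 W_0² c W_2²`, `y_2 = y_(j, 1)²`).  `τ' ω = ω`, `τ' β = -β` (`j_0` occurs exactly once among the `j` with
`(i_0, j) ∈ n`), and `β ω ≠ 0`: `Θ ≠ 0`, because all factors are non-zero in `R`: `G_p ≠ 0` as `Z + X y = 0` would give `(Z + X y)(Z - X y) =
N = 0`, but `N_0 = c a_(j,1) W_0² ≠ 0` etc.; and `τ` is injective.
(3) From `x² Θ = z²`: `(z τz)² = (x τx)² (β ω)²`, so `z τz = δ x τx β ω`, `δ = ± 1`.  From `x² Θ = z²` and its image under `τ'`: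
`(τ'z x)² = (z τ'x)²`, so `τ'z x = ε z τ'x`, `ε = ± 1`; apply `τ` and multiply: `τ'z τ'τz · x τx = z τz · τ'x τ'τx = δ x τx β ω τ'x τ'τx`, so
`τ'z τ'τz = δ β ω τ'x τ'τx` (`x τx ≠ 0`).  But `τ'` applied to the first relation gives `τ'z τ'τz = -δ β ω τ'x τ'τx`.  So
`2 β ω τ'x τ'τx = 0`: contradiction.
-/

namespace Pool.Agent.H3.FS

open Polynomial

private theorem gvx_ix {r : ℕ} {i i' : Fin r} {e e' : Fin 2} (h : ix i e = ix i' e') :
    i = i' ∧ e = e' := by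
  have h1 := finProdFinEquiv.injective h
  exact Prod.ext_iff.1 h1

private theorem gvx_hom {A R : Type} [CommRing A] [CommRing R] [Algebra A R] {n : ℕ}
    (y : Fin n → R) (b : Module.Basis (Finset (Fin n)) A R) (hb : ∀ S, b S = ∏ i ∈ S, y i)
    (ψ₁ ψ₂ : R →+* R) (h : ∀ f, ψ₁ (algebraMap A R f) = ψ₂ (algebraMap A R f))
    (hy : ∀ i, ψ₁ (y i) = ψ₂ (y i)) (x : R) : ψ₁ x = ψ₂ x := by
  rw [← b.sum_repr x, map_sum, map_sum]
  refine Finset.sum_congr rfl (fun S _ => ?_)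
  rw [Algebra.smul_def, map_mul, map_mul, h, hb, map_prod, map_prod]
  congr 1
  exact Finset.prod_congr rfl (fun i _ => hy i)

private theorem gvx_conj {A R : Type} [CommRing A] [CommRing R] [Algebra A R] {n : ℕ}
    (a : Fin n → A) (y : Fin n → R) (hy : ∀ i, y i ^ 2 = algebraMap A R (a i))
    (b : Module.Basis (Finset (Fin n)) A R) (hb : ∀ S, b S = ∏ i ∈ S, y i) (s : Fin n) :
    ∃ τ : R →+* R, (∀ f, τ (algebraMap A R f) = algebraMap A R f) ∧ τ (y s) = - y s ∧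
      (∀ i, i ≠ s → τ (y i) = y i) ∧ Function.Injective τ := by
  classical
  obtain ⟨τ, h1, h2⟩ := lft a y hy b hb (algebraMap A R) (fun i => if i = s then - y i else y i)
    (fun i => by
      show (if i = s then - y i else y i) ^ 2 = _
      split_ifs
      · rw [neg_sq, hy]
      · exact hy i)
  have h3 : τ (y s) = - y s := by rw [h2, if_pos rfl]
  have h4 : ∀ i, i ≠ s → τ (y i) = y i := fun i hi => by rw [h2, if_neg hi]
  refine ⟨τ, h1, h3, h4, ?_⟩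
  have h5 : ∀ x, τ (τ x) = x := by
    intro x
    have h6 := gvx_hom y b hb (τ.comp τ) (RingHom.id R)
      (fun f => by rw [RingHom.comp_apply, h1, h1, RingHom.id_apply])
      (fun i => by
        rw [RingHom.comp_apply, RingHom.id_apply]
        by_cases hi : i = s
        · rw [hi, h3, map_neg, h3, neg_neg]
        · rw [h4 i hi, h4 i hi]) x
    exact h6
  exact Function.LeftInverse.injective h5

private theorem gvx_comm {R : Type} [CommRing R] [IsDomain R] (τ τ' : R →+* R)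
    (hτ : Function.Injective τ) (hτ' : Function.Injective τ') (hc : ∀ x, τ (τ' x) = τ' (τ x))
    (h2 : (2 : R) ≠ 0) (Θ κ x z : R) (h1 : τ' Θ = Θ) (h : Θ * τ Θ = κ ^ 2) (hκ : κ ≠ 0)
    (hκ' : τ' κ = -κ) (hx : x ^ 2 * Θ = z ^ 2) : x = 0 := by
  by_contra hx0
  have hτx : τ x ≠ 0 := fun h0 => hx0 (hτ (h0.trans (map_zero τ).symm))
  have hτx' : τ' x ≠ 0 := fun h0 => hx0 (hτ' (h0.trans (map_zero τ').symm))
  have hττx : τ (τ' x) ≠ 0 := fun h0 => hτx' (hτ (h0.trans (map_zero τ).symm))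
  have e1 : (z * τ z) ^ 2 = (x * τ x * κ) ^ 2 := by
    have h3 := congrArg τ hx
    rw [map_mul, map_pow, map_pow] at h3
    calc (z * τ z) ^ 2 = z ^ 2 * (τ z) ^ 2 := by ring
      _ = (x ^ 2 * Θ) * ((τ x) ^ 2 * τ Θ) := by rw [hx, h3]
      _ = x ^ 2 * (τ x) ^ 2 * (Θ * τ Θ) := by ring
      _ = (x * τ x * κ) ^ 2 := by rw [h]; ring
  have e2 : (τ' z * x) ^ 2 = (z * τ' x) ^ 2 := by
    have h3 := congrArg τ' hx
    rw [map_mul, map_pow, map_pow, h1] at h3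
    calc (τ' z * x) ^ 2 = x ^ 2 * (τ' z) ^ 2 := by ring
      _ = (x ^ 2 * Θ) * (τ' x) ^ 2 := by rw [← h3]; ring
      _ = (z * τ' x) ^ 2 := by rw [hx]; ring
  obtain ⟨δ, hδ, e3, e3'⟩ : ∃ δ : R, δ * δ = 1 ∧ τ' δ = δ ∧ z * τ z = δ * (x * τ x * κ) := by
    rcases sq_eq_sq_iff_eq_or_eq_neg.1 e1 with h3 | h3
    · exact ⟨1, one_mul 1, map_one _, by rw [h3, one_mul]⟩
    · exact ⟨-1, by ring, by rw [map_neg, map_one], by rw [h3]; ring⟩
  obtain ⟨ε, hε, e4, e4'⟩ : ∃ ε : R, ε * ε = 1 ∧ τ ε = ε ∧ τ' z * x = ε * (z * τ' x) := by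
    rcases sq_eq_sq_iff_eq_or_eq_neg.1 e2 with h3 | h3
    · exact ⟨1, one_mul 1, map_one _, by rw [h3, one_mul]⟩
    · exact ⟨-1, by ring, by rw [map_neg, map_one], by rw [h3]; ring⟩
  have e5 := congrArg τ e4'
  rw [map_mul, map_mul, map_mul, e4] at e5
  have e6 := congrArg τ' e3'
  rw [map_mul, map_mul, map_mul, map_mul, hκ', e3, ← hc, ← hc] at e6
  have e7 : (x * τ x) * (τ' z * τ (τ' z)) = (x * τ x) * (δ * κ * (τ' x * τ (τ' x))) := by
    calc (x * τ x) * (τ' z * τ (τ' z)) = (τ' z * x) * (τ (τ' z) * τ x) := by ring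
      _ = (ε * (z * τ' x)) * (ε * (τ z * τ (τ' x))) := by rw [e4', e5]
      _ = (ε * ε) * (z * τ z) * (τ' x * τ (τ' x)) := by ring
      _ = (x * τ x) * (δ * κ * (τ' x * τ (τ' x))) := by rw [hε, e3']; ring
  have e8 := mul_left_cancel₀ (mul_ne_zero hx0 hτx) e7
  rw [e6] at e8
  have e9 : 2 * (δ * κ * (τ' x * τ (τ' x))) = 0 := by linear_combination -e8
  have hδ0 : δ ≠ 0 := by
    rintro rfl
    rw [zero_mul] at hδ
    exact zero_ne_one hδ
  exact mul_ne_zero h2 (mul_ne_zero (mul_ne_zero hδ0 hκ) (mul_ne_zero hτx' hττx)) e9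

theorem gvx {k : Type} [Field k] (h2 : (2 : k) ≠ 0) {r : ℕ} {a : Fin (r * 2) → k[X]} (hI : Ind a)
    (G : ∀ p : Fin r × Fin r, p ∈ prs r → Gd a p.1 p.2) (n : Finset (Fin r × Fin r))
    (hn : n ⊆ prs r) (hne : n.Nonempty) {g : k[X]} (hg : g ≠ 0) :
    NS a (MvPolynomial.C g * ∏ p ∈ n.attach, (G p.1 (hn p.2)).el) := by
  classical
  intro L iL f hf t ht w hw hww
  have h2' : (2 : k[X]) ≠ 0 := by
    intro h0
    apply h2
    have h1 := congrArg (eval 0) h0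
    simpa using h1
  obtain ⟨R, iR, iD, iA, y, b, hy, hb, -⟩ := tow h2' (r * 2) a
    (fun I hn x z hxz => tnd0 hI I hn x z hxz)
  have hb1 : b ∅ = 1 := by rw [hb, Finset.prod_empty]
  have hinj : Function.Injective (algebraMap k[X] R) := by
    rw [injective_iff_map_eq_zero]
    intro f hf
    have h1 : f • b ∅ = 0 := by rw [hb1, Algebra.smul_def, hf, zero_mul]
    have h2 := congrArg (fun r => b.repr r ∅) h1
    simpa using h2
  obtain ⟨φ, hφ⟩ : ∃ φ : k[X] →+* R, φ = algebraMap k[X] R := ⟨_, rfl⟩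
  rw [← hφ] at hinj
  have hφ0 : ∀ {u : k[X]}, u ≠ 0 → φ u ≠ 0 := fun hu h0 => hu (hinj (h0.trans (map_zero φ).symm))
  have h2R : (2 : R) ≠ 0 := by
    have h1 := hφ0 h2'
    rwa [map_ofNat] at h1
  have ha0 : ∀ i, a i ≠ 0 := by
    intro i h0
    apply hI {i} (Finset.singleton_nonempty i) 0 0
    rw [Finset.prod_singleton, h0]
    simp
  have hy' : ∀ i, y i ^ 2 = φ (a i) := by rw [hφ]; exact hy
  have hy0 : ∀ i, y i ≠ 0 := by
    intro i h0
    have h1 := hy' i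
    rw [h0, zero_pow two_ne_zero] at h1
    exact hφ0 (ha0 i) h1.symm
  obtain ⟨p0, hp0, hmax⟩ := n.exists_max_image (fun p => p.2) hne
  have hlt : ∀ p ∈ n, p.1 < p.2 := fun p hp => (Finset.mem_filter.1 (hn hp)).2
  have hne' : ∀ p ∈ n, p.1 ≠ p0.2 := fun p hp => ne_of_lt ((hlt p hp).trans_le (hmax p hp))
  obtain ⟨τ, t1, t2, t3, t4⟩ := gvx_conj a y hy b hb (ix p0.1 0)
  obtain ⟨τ', s1, s2, s3, s4⟩ := gvx_conj a y hy b hb (ix p0.2 1)
  rw [← hφ] at t1 s1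
  have hpp : (ix p0.1 0 : Fin (r * 2)) ≠ ix p0.2 1 := by
    intro h0
    exact (ne_of_lt (hlt p0 hp0)) (gvx_ix h0).1
  have hc : ∀ x, τ (τ' x) = τ' (τ x) := by
    intro x
    refine gvx_hom y b hb (τ.comp τ') (τ'.comp τ) (fun f => ?_) (fun i => ?_) x
    · rw [← hφ, RingHom.comp_apply, RingHom.comp_apply, t1, s1, t1]
    · rw [RingHom.comp_apply, RingHom.comp_apply]
      by_cases h3 : i = ix p0.1 0
      · rw [h3, s3 _ hpp, t2, map_neg, s3 _ hpp]
      · by_cases h4 : i = ix p0.2 1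
        · rw [h4, s2, t3 _ (Ne.symm hpp), s2, map_neg, t3 _ (Ne.symm hpp)]
        · rw [s3 _ h4, t3 _ h3, s3 _ h4]
  obtain ⟨gv, hgv⟩ : ∃ gv : {p // p ∈ n} → R → R → R, ∀ p y1 y2, gv p y1 y2 =
      gel (φ (G p.1 (hn p.2)).g) (fun l => φ ((G p.1 (hn p.2)).X l))
        (fun l => φ ((G p.1 (hn p.2)).Z l)) y1 y2 := ⟨_, fun _ _ _ => rfl⟩
  have hE0 : ∀ p : {p // p ∈ n}, φ ((G p.1 (hn p.2)).Z 0) ^ 2 -
      y (ix p.1.1 0) ^ 2 * φ ((G p.1 (hn p.2)).X 0) ^ 2 =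
      φ (G p.1 (hn p.2)).c * y (ix p.1.2 1) ^ 2 * φ ((G p.1 (hn p.2)).W 0) ^ 2 := by
    intro p
    have h3 := congrArg φ (G p.1 (hn p.2)).e0
    simp only [map_sub, map_mul, map_pow, ← hy'] at h3
    exact h3
  have hE1 : ∀ p : {p // p ∈ n}, φ ((G p.1 (hn p.2)).Z 1) ^ 2 -
      y (ix p.1.1 1) ^ 2 * φ ((G p.1 (hn p.2)).X 1) ^ 2 =
      φ (G p.1 (hn p.2)).c * y (ix p.1.2 0) ^ 2 * φ ((G p.1 (hn p.2)).W 1) ^ 2 := by
    intro p
    have h3 := congrArg φ (G p.1 (hn p.2)).e1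
    simp only [map_sub, map_mul, map_pow, ← hy'] at h3
    exact h3
  have hE2 : ∀ p : {p // p ∈ n}, φ ((G p.1 (hn p.2)).Z 2) ^ 2 -
      y (ix p.1.1 0) ^ 2 * y (ix p.1.1 1) ^ 2 * φ ((G p.1 (hn p.2)).X 2) ^ 2 =
      φ (G p.1 (hn p.2)).c * φ ((G p.1 (hn p.2)).W 2) ^ 2 := by
    intro p
    have h3 := congrArg φ (G p.1 (hn p.2)).e2
    simp only [map_sub, map_mul, map_pow, ← hy'] at h3
    exact h3
  have hgv0 : ∀ p : {p // p ∈ n}, gv p (y (ix p.1.1 0)) (y (ix p.1.1 1)) ≠ 0 := by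
    intro p
    have hc0 := hφ0 (G p.1 (hn p.2)).c0
    have hg0 := hφ0 (G p.1 (hn p.2)).g0
    have hX0 := fun l => hφ0 ((G p.1 (hn p.2)).X0 l)
    have hW0 := fun l => hφ0 ((G p.1 (hn p.2)).W0 l)
    rw [hgv]
    unfold gel
    have k0 : φ ((G p.1 (hn p.2)).Z 0) + φ ((G p.1 (hn p.2)).X 0) * y (ix p.1.1 0) ≠ 0 := by
      intro h0
      have h3 := hE0 p
      have h4 : φ ((G p.1 (hn p.2)).Z 0) ^ 2 -
          y (ix p.1.1 0) ^ 2 * φ ((G p.1 (hn p.2)).X 0) ^ 2 = 0 := by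
        linear_combination (φ ((G p.1 (hn p.2)).Z 0) -
          φ ((G p.1 (hn p.2)).X 0) * y (ix p.1.1 0)) * h0
      rw [h3] at h4
      exact mul_ne_zero (mul_ne_zero hc0 (pow_ne_zero 2 (hy0 _))) (pow_ne_zero 2 (hW0 0)) h4
    have k1 : φ ((G p.1 (hn p.2)).Z 1) + φ ((G p.1 (hn p.2)).X 1) * y (ix p.1.1 1) ≠ 0 := by
      intro h0
      have h3 := hE1 p
      have h4 : φ ((G p.1 (hn p.2)).Z 1) ^ 2 -
          y (ix p.1.1 1) ^ 2 * φ ((G p.1 (hn p.2)).X 1) ^ 2 = 0 := by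
        linear_combination (φ ((G p.1 (hn p.2)).Z 1) -
          φ ((G p.1 (hn p.2)).X 1) * y (ix p.1.1 1)) * h0
      rw [h3] at h4
      exact mul_ne_zero (mul_ne_zero hc0 (pow_ne_zero 2 (hy0 _))) (pow_ne_zero 2 (hW0 1)) h4
    have k2 : φ ((G p.1 (hn p.2)).Z 2) + φ ((G p.1 (hn p.2)).X 2) *
        (y (ix p.1.1 0) * y (ix p.1.1 1)) ≠ 0 := by
      intro h0
      have h3 := hE2 p
      have h4 : φ ((G p.1 (hn p.2)).Z 2) ^ 2 -
          y (ix p.1.1 0) ^ 2 * y (ix p.1.1 1) ^ 2 * φ ((G p.1 (hn p.2)).X 2) ^ 2 = 0 := by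
        linear_combination (φ ((G p.1 (hn p.2)).Z 2) -
          φ ((G p.1 (hn p.2)).X 2) * (y (ix p.1.1 0) * y (ix p.1.1 1))) * h0
      rw [h3] at h4
      exact mul_ne_zero hc0 (pow_ne_zero 2 (hW0 2)) h4
    exact mul_ne_zero (mul_ne_zero (mul_ne_zero (mul_ne_zero (mul_ne_zero (mul_ne_zero
      (mul_ne_zero h2R hg0) (hX0 0)) (hX0 1)) (hX0 2)) k0) k1) k2
  obtain ⟨κ, hκ⟩ : ∃ κ : {p // p ∈ n} → R, ∀ p, κ p = if p.1.1 = p0.1 then
      φ (G p.1 (hn p.2)).c * y (ix p.1.2 1) * φ ((G p.1 (hn p.2)).W 0) *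
        φ ((G p.1 (hn p.2)).W 2) * (2 * φ (G p.1 (hn p.2)).g * φ ((G p.1 (hn p.2)).X 0) *
        φ ((G p.1 (hn p.2)).X 1) * φ ((G p.1 (hn p.2)).X 2) *
        (φ ((G p.1 (hn p.2)).Z 1) + φ ((G p.1 (hn p.2)).X 1) * y (ix p.1.1 1)))
      else gv p (y (ix p.1.1 0)) (y (ix p.1.1 1)) := ⟨_, fun _ => rfl⟩
  -- the factors
  have hs3 : ∀ (p : {p // p ∈ n}) (e : Fin 2), τ' (y (ix p.1.1 e)) = y (ix p.1.1 e) := by
    intro p e
    exact s3 _ (fun h0 => hne' p.1 p.2 (gvx_ix h0).1)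
  have hgs : ∀ p : {p // p ∈ n}, τ' (gv p (y (ix p.1.1 0)) (y (ix p.1.1 1))) =
      gv p (y (ix p.1.1 0)) (y (ix p.1.1 1)) := by
    intro p
    rw [hgv, gel_map, hs3, hs3]
    simp only [s1]
  have ht1 : ∀ p : {p // p ∈ n}, τ (y (ix p.1.1 1)) = y (ix p.1.1 1) := by
    intro p
    exact t3 _ (fun h0 => absurd (gvx_ix h0).2 (by decide))
  have hgt : ∀ p : {p // p ∈ n}, gv p (y (ix p.1.1 0)) (y (ix p.1.1 1)) *
      τ (gv p (y (ix p.1.1 0)) (y (ix p.1.1 1))) = κ p ^ 2 := by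
    intro p
    rw [hκ]
    by_cases h3 : p.1.1 = p0.1
    · rw [if_pos h3]
      have h4 : τ (y (ix p.1.1 0)) = - y (ix p.1.1 0) := by rw [h3, t2]
      have h5 : τ (gv p (y (ix p.1.1 0)) (y (ix p.1.1 1))) =
          gv p (- y (ix p.1.1 0)) (y (ix p.1.1 1)) := by
        rw [hgv, gel_map, h4, ht1, hgv]
        simp only [t1]
      rw [h5, hgv, hgv, gel_n0, hE0, hE2]
      ring
    · rw [if_neg h3]
      have h4 : τ (y (ix p.1.1 0)) = y (ix p.1.1 0) := t3 _ (fun h0 => h3 (gvx_ix h0).1)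
      have h5 : τ (gv p (y (ix p.1.1 0)) (y (ix p.1.1 1))) =
          gv p (y (ix p.1.1 0)) (y (ix p.1.1 1)) := by
        rw [hgv, gel_map, h4, ht1]
        simp only [t1]
      rw [h5]
      ring
  have hκs : ∀ p : {p // p ∈ n}, τ' (κ p) = (if p.1 = p0 then -1 else 1) * κ p := by
    intro p
    rw [hκ]
    by_cases h3 : p.1.1 = p0.1
    · rw [if_pos h3]
      by_cases h4 : p.1.2 = p0.2
      · have h5 : p.1 = p0 := Prod.ext h3 h4
        have h6 : τ' (y (ix p.1.2 1)) = - y (ix p.1.2 1) := by rw [h4, s2]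
        rw [if_pos h5]
        simp only [map_mul, map_add, map_ofNat, s1, hs3, h6]
        ring
      · have h5 : p.1 ≠ p0 := fun h0 => h4 (by rw [h0])
        have h6 : τ' (y (ix p.1.2 1)) = y (ix p.1.2 1) := s3 _ (fun h0 => h4 (gvx_ix h0).1)
        rw [if_neg h5]
        simp only [map_mul, map_add, map_ofNat, s1, hs3, h6]
        ring
    · have h5 : p.1 ≠ p0 := fun h0 => h3 (by rw [h0])
      rw [if_neg h3, if_neg h5, hgs, one_mul]
  obtain ⟨Θ, hΘ⟩ : ∃ Θ : R, Θ = φ g * ∏ p ∈ n.attach, gv p (y (ix p.1.1 0)) (y (ix p.1.1 1)) :=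
    ⟨_, rfl⟩
  have hΘ0 : Θ ≠ 0 := by
    rw [hΘ]
    exact mul_ne_zero (hφ0 hg) (Finset.prod_ne_zero_iff.2 (fun p _ => hgv0 p))
  have hΘs : τ' Θ = Θ := by
    rw [hΘ, map_mul, s1, map_prod]
    congr 1
    exact Finset.prod_congr rfl (fun p _ => hgs p)
  have hΘt : Θ * τ Θ = (φ g * ∏ p ∈ n.attach, κ p) ^ 2 := by
    rw [hΘ, map_mul, t1, map_prod, mul_mul_mul_comm, ← Finset.prod_mul_distrib,
      Finset.prod_congr rfl (fun p _ => hgt p), Finset.prod_pow]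
    ring
  have hκ0 : φ g * ∏ p ∈ n.attach, κ p ≠ 0 := by
    intro h0
    rw [h0, zero_pow two_ne_zero] at hΘt
    rcases mul_eq_zero.1 hΘt with h3 | h3
    · exact hΘ0 h3
    · exact hΘ0 (t4 (h3.trans (map_zero τ).symm))
  have hκs' : τ' (φ g * ∏ p ∈ n.attach, κ p) = -(φ g * ∏ p ∈ n.attach, κ p) := by
    rw [map_mul, s1, map_prod, Finset.prod_congr rfl (fun p _ => hκs p),
      Finset.prod_mul_distrib]
    have h3 : (∏ p ∈ n.attach, (if p.1 = p0 then (-1 : R) else 1)) = -1 := by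
      rw [Finset.prod_attach n (fun p => if p = p0 then (-1 : R) else 1),
        Finset.prod_ite_eq' n p0 (fun _ => (-1 : R)), if_pos hp0]
    rw [h3]
    ring
  obtain ⟨ψ, p1, p2, p3, p4⟩ := clo a y hy b hb f hf t ht
  obtain ⟨x, z, hx0, hxz⟩ := p4 w hw
  apply hx0
  have hψΘ : ψ Θ = mv f (MvPolynomial.C g * ∏ p ∈ n.attach, (G p.1 (hn p.2)).el) t := by
    have h3 : mv f (MvPolynomial.C g * ∏ p ∈ n.attach, (G p.1 (hn p.2)).el) t =
        f g * ∏ p ∈ n.attach, mv f (G p.1 (hn p.2)).el t := by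
      unfold mv
      rw [MvPolynomial.eval₂_mul, MvPolynomial.eval₂_C, MvPolynomial.eval₂_prod]
    have h4 : ∀ u, ψ (φ u) = f u := fun u => by rw [hφ]; exact p2 u
    rw [h3, hΘ, map_mul, h4, map_prod]
    congr 1
    refine Finset.prod_congr rfl (fun p _ => ?_)
    rw [mv_el, hgv, gel_map, p3, p3]
    simp only [h4]
  refine gvx_comm τ τ' t4 s4 hc h2R Θ (φ g * ∏ p ∈ n.attach, κ p) x z hΘs hΘt hκ0 hκs' ?_
  apply p1
  rw [map_mul, map_pow, map_pow, hψΘ, ← hww, ← hxz]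
  ring

/-- governing data over an extension of the constants -/
noncomputable def Gd.ext {F : Type} [Field F] {r : ℕ} {a : Fin (r * 2) → F[X]} {i j : Fin r} (G : Gd a i j)
    (E : Type) [Field E] [Algebra F E] : Gd (fun i => (a i).map (algebraMap F E)) i j where
  g := G.g.map (algebraMap F E)
  c := G.c.map (algebraMap F E)
  X l := (G.X l).map (algebraMap F E)
  Z l := (G.Z l).map (algebraMap F E)
  W l := (G.W l).map (algebraMap F E)
  g0 := (Polynomial.map_ne_zero_iff (algebraMap F E).injective).2 G.g0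
  c0 := (Polynomial.map_ne_zero_iff (algebraMap F E).injective).2 G.c0
  X0 l := (Polynomial.map_ne_zero_iff (algebraMap F E).injective).2 (G.X0 l)
  W0 l := (Polynomial.map_ne_zero_iff (algebraMap F E).injective).2 (G.W0 l)
  e0 := by
    have h := congrArg (Polynomial.map (algebraMap F E)) G.e0
    simpa only [Polynomial.map_sub, Polynomial.map_mul, Polynomial.map_pow] using h
  e1 := by
    have h := congrArg (Polynomial.map (algebraMap F E)) G.e1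
    simpa only [Polynomial.map_sub, Polynomial.map_mul, Polynomial.map_pow] using h
  e2 := by
    have h := congrArg (Polynomial.map (algebraMap F E)) G.e2
    simpa only [Polynomial.map_sub, Polynomial.map_mul, Polynomial.map_pow] using h

theorem ext_el {F : Type} [Field F] {r : ℕ} {a : Fin (r * 2) → F[X]} {i j : Fin r} (G : Gd a i j)
    (E : Type) [Field E] [Algebra F E] : (G.ext E).el = mpE E G.el := by
  unfold Gd.el mpE gel Gd.ext
  simp only [map_mul, map_add, map_ofNat, MvPolynomial.map_C, MvPolynomial.map_X,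
    Polynomial.coe_mapRingHom]

end Pool.Agent.H3.FS
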