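import Pool.Agent.H3.FS.DIM

set_option autoImplicit false

/-!
# [H3 FS KER] Stepanov's auxiliary function: the pigeonhole principle

`k` finite of characteristic `p`, `w = p^μ`, `h_i ∈ Lsp c ℓ` for `i ∈ Fin d`.  If
`N (a + 1) d > N ((a + h) w + ℓ) + 1` then there are `f_i ∈ Wsp c a`, not all zero, with `∑ f_i^w h_i = 0`.

Proof.  The map `(f_i) ↦ ∑ f_i^w h_i` from `(Wsp c a)^d` (with `Q^(N (a+1) d)` elements, `wsp_card`) to `Lsp c ((a + h) w + ℓ)`
(at most `Q^(N ((a+h) w + ℓ) + 1)` elements, `lsp_card`; `wsp_mem`, `lsp_pow`, `lsp_mul`, `lsp_sum`) is not injective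
(`Q ≥ 2`; `Finset.exists_ne_map_eq_of_card_lt_of_maps_to` or `Set.ncard`), so two different tuples have the same image; their
difference is a tuple in `Wsp c a` (closed under subtraction: `repr` is additive), not all zero, and as `x ↦ x^(p^μ)` is additive in
characteristic `p` (`sub_pow_char_pow`; `B` has characteristic `p`: it is a hypothesis here) its image is `0`.
-/

namespace Pool.Agent.H3.FS

open Polynomial

theorem ker {k : Type} [Field k] [Finite k] {B : Type} [CommRing B] [Algebra k[X] B] {ι : Type}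
    [Fintype ι] [DecidableEq ι] [Nonempty ι] {h : ℕ} (c : Conj k B ι h) {p : ℕ} [Fact p.Prime]
    [CharP B p] {μ a ℓ d : ℕ} (g : Fin d → B) (hg : ∀ i, g i ∈ Lsp c ℓ)
    (hd : Fintype.card ι * ((a + h) * p ^ μ + ℓ) + 1 < Fintype.card ι * (a + 1) * d) :
    ∃ f : Fin d → B, (∀ i, f i ∈ Wsp c a) ∧ (∃ i, f i ≠ 0) ∧ ∑ i, f i ^ (p ^ μ) * g i = 0 := by
  obtain ⟨m, hm⟩ : ∃ m : ℕ, m = (a + h) * p ^ μ + ℓ := ⟨_, rfl⟩
  obtain ⟨hLf, hLc⟩ := lsp_card c m
  obtain ⟨hWf, hWc⟩ := wsp_card c a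
  have hmem : ∀ f : Fin d → B, (∀ i, f i ∈ Wsp c a) → ∑ i, f i ^ (p ^ μ) * g i ∈ Lsp c m := by
    intro f hf
    apply lsp_sum
    intro i _
    have h1 := lsp_mul c (lsp_pow c (wsp_mem c (hf i)) (p ^ μ)) (hg i)
    rw [hm, mul_comm (a + h)]
    exact h1
  have hex : ∃ f f' : Fin d → B, (∀ i, f i ∈ Wsp c a) ∧ (∀ i, f' i ∈ Wsp c a) ∧ f ≠ f' ∧
      ∑ i, f i ^ (p ^ μ) * g i = ∑ i, f' i ^ (p ^ μ) * g i := by
    by_contra hc
    push Not at hc
    have hFL : Finite ↥(Lsp c m) := hLf.to_subtype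
    obtain ⟨Φ, hΦ⟩ : ∃ Φ : (Fin d → ↥(Wsp c a)) → ↥(Lsp c m), ∀ f, (Φ f : B) = ∑ i, (f i : B) ^ (p ^ μ) * g i :=
      ⟨fun f => ⟨∑ i, (f i : B) ^ (p ^ μ) * g i, hmem (fun i => (f i : B)) (fun i => (f i).2)⟩, fun _ => rfl⟩
    have hinj : Function.Injective Φ := by
      intro f f' hff
      by_contra hne
      have h1 : (fun i => (f i : B)) ≠ (fun i => (f' i : B)) := by
        intro h
        apply hne
        funext i
        exact Subtype.ext (congrFun h i)
      have h2 := hc (fun i => (f i : B)) (fun i => (f' i : B)) (fun i => (f i).2) (fun i => (f' i).2) h1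
      apply h2
      rw [← hΦ f, ← hΦ f', hff]
    have h1 := Nat.card_le_card_of_injective Φ hinj
    rw [Nat.card_fun, Nat.card_fin, Nat.card_coe_set_eq, Nat.card_coe_set_eq, hWc, ← pow_mul] at h1
    have h2 := h1.trans hLc
    have hQ : 1 < Nat.card k := Finite.one_lt_card
    have h3 := (Nat.pow_le_pow_iff_right hQ).1 h2
    rw [hm] at h3
    omega
  obtain ⟨f, f', hf, hf', hne, heq⟩ := hex
  refine ⟨fun i => f i - f' i, ?_, ?_, ?_⟩
  · intro i j
    rw [map_sub, Finsupp.sub_apply]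
    exact (natDegree_sub_le _ _).trans (max_le (hf i j) (hf' i j))
  · by_contra hc
    push Not at hc
    apply hne
    funext i
    exact sub_eq_zero.1 (hc i)
  · have h1 : ∀ i, (f i - f' i) ^ (p ^ μ) * g i = f i ^ (p ^ μ) * g i - f' i ^ (p ^ μ) * g i := by
      intro i
      rw [sub_pow_char_pow, sub_mul]
    rw [Finset.sum_congr rfl fun i _ => h1 i, Finset.sum_sub_distrib, heq, sub_self]

end Pool.Agent.H3.FS
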