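import Mathlib

set_option autoImplicit false

/-!
# [H3 FS LAU] Polynomials in `u = 1 / z` as Laurent series in `z`

FOUR-SELMER LAW (MP_1bad5e_ag), chapter Chebotarev (Bombieri-Stepanov).  `lau : k[u] → k((z))`, `u ↦ z⁻¹`.

* `lau_inj`: injective; `lau_order`: the order of `lau f` is `-natDegree f` for `f ≠ 0`.  Proof: `lau f = ∑ f_n z^(-n)`:
  `(lau f).coeff m = f.coeff (-m).toNat` for `m ≤ 0`, and `0` for `m > 0` (`Polynomial.eval₂_eq_sum`,
  `HahnSeries.single_pow`, `HahnSeries.C_mul_eq_smul` / `HahnSeries.single_mul_single`).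
* `lau_coeff_lead`: the coefficient of `lau f` at `-natDegree f` is the leading coefficient of `f`.
-/

namespace Pool.Agent.H3.FS

open Polynomial

/-- `f(u) ↦ f(1/z)` -/
noncomputable def lau (k : Type) [Field k] : k[X] →+* LaurentSeries k :=
  eval₂RingHom (HahnSeries.C : k →+* LaurentSeries k) (HahnSeries.single (-1 : ℤ) (1 : k))

variable {k : Type} [Field k]

theorem lau_C (c : k) : lau k (C c) = HahnSeries.C c := by
  simp [lau]

theorem lau_X : lau k X = HahnSeries.single (-1 : ℤ) (1 : k) := by
  simp [lau]

theorem lau_coeff (f : k[X]) (m : ℤ) :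
    (lau k f).coeff m = if m ≤ 0 then f.coeff (-m).toNat else 0 := by
  induction f using Polynomial.induction_on' with
  | add p q hp hq =>
    rw [map_add, HahnSeries.coeff_add, hp, hq]
    split_ifs
    · rw [Polynomial.coeff_add]
    · rw [add_zero]
  | monomial n a =>
    have h1 : lau k (monomial n a) = HahnSeries.single (-(n : ℤ)) a := by
      unfold lau
      rw [coe_eval₂RingHom, eval₂_monomial, HahnSeries.single_pow, HahnSeries.C_apply, HahnSeries.single_mul_single,
        one_pow, mul_one, zero_add]
      congr 1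
      simp
    rw [h1, coeff_monomial]
    by_cases hm : m = -(n : ℤ)
    · rw [hm, HahnSeries.coeff_single_same, if_pos (by omega), if_pos (by omega)]
    · rw [HahnSeries.coeff_single_of_ne hm]
      split_ifs with h2 h3
      · exact absurd (by omega) hm
      · rfl
      · rfl

theorem lau_inj : Function.Injective (lau k) := by
  rw [injective_iff_map_eq_zero]
  intro f hf
  ext n
  have h1 := lau_coeff f (-(n : ℤ))
  rw [hf, if_pos (by omega), neg_neg, Int.toNat_natCast, HahnSeries.coeff_zero] at h1
  rw [← h1, coeff_zero]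

theorem lau_ne {f : k[X]} (hf : f ≠ 0) : lau k f ≠ 0 := fun h =>
  hf (lau_inj (h.trans (map_zero _).symm))

theorem lau_order {f : k[X]} (hf : f ≠ 0) : (lau k f).order = -(f.natDegree : ℤ) := by
  have h0 := lau_ne hf
  apply le_antisymm
  · apply HahnSeries.order_le_of_coeff_ne_zero
    rw [lau_coeff, if_pos (by omega), neg_neg, Int.toNat_natCast]
    exact leadingCoeff_ne_zero.2 hf
  · by_contra hc
    push Not at hc
    have h1 : (lau k f).coeff (lau k f).order ≠ 0 := mt HahnSeries.coeff_order_eq_zero.1 h0
    apply h1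
    rw [lau_coeff]
    split_ifs
    · exact coeff_eq_zero_of_natDegree_lt (by omega)
    · rfl

end Pool.Agent.H3.FS
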