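import Pool.Agent.H3.FS.NRM

set_option autoImplicit false

/-!
# [H3 FS ORD] Orders of the conjugates

`Lsp c ℓ` is the set of the `f ∈ B` whose conjugates have order `≥ -ℓ` (or are zero).  For `G ∈ Lsp c ℓ`, `G ≠ 0`:
`N(G) ≠ 0`, `deg N(G) ≤ N ℓ`, and the order of every conjugate is at most `(N - 1) ℓ` (`N = #ι`).

Proof.  The conjugates of `G` are not zero (`faith`), so `lau (N G) = ∏ σ_i G ≠ 0` (`nrm`), `N G ≠ 0`, and
`-deg N(G) = ord lau (N G) = ∑ ord σ_i G` (`lau_order`, `HahnSeries.order_mul`, induction over the product;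
LaurentSeries is a field).  So `∑ ord σ_i G ≤ 0`, `ord σ_i G ≤ -∑_{j ≠ i} ord σ_j G ≤ (N - 1) ℓ`, and
`deg N(G) = -∑ ord σ_i G ≤ N ℓ`.

`wsp_mem`: the elements `∑ f_j b_j` with `deg f_j ≤ n` belong to `Lsp c (n + h)` (order of a sum, of a product, and
`lau_order`).
-/

namespace Pool.Agent.H3.FS

open Polynomial

/-- the elements whose conjugates have order at least `-ℓ` -/
def Lsp {k : Type} [Field k] {B : Type} [CommRing B] [Algebra k[X] B] {ι : Type} [Fintype ι] {h : ℕ}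
    (c : Conj k B ι h) (ℓ : ℕ) : Set B :=
  {f | ∀ i, c.σ i f = 0 ∨ -(ℓ : ℤ) ≤ (c.σ i f).order}

/-- the elements `∑ f_j b_j` with `deg f_j ≤ n` -/
def Wsp {k : Type} [Field k] {B : Type} [CommRing B] [Algebra k[X] B] {ι : Type} [Fintype ι] {h : ℕ}
    (c : Conj k B ι h) (n : ℕ) : Set B :=
  {f | ∀ j, (c.b.repr f j).natDegree ≤ n}

private theorem ord_add {k : Type} [Field k] {ℓ : ℕ} {x y : LaurentSeries k}
    (hx : x = 0 ∨ -(ℓ : ℤ) ≤ x.order) (hy : y = 0 ∨ -(ℓ : ℤ) ≤ y.order) :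
    x + y = 0 ∨ -(ℓ : ℤ) ≤ (x + y).order := by
  by_cases hxy : x + y = 0
  · exact Or.inl hxy
  right
  rcases hx with rfl | hx
  · rw [zero_add] at hxy ⊢
    exact hy.resolve_left hxy
  rcases hy with rfl | hy
  · rw [add_zero]
    exact hx
  exact (le_min hx hy).trans (HahnSeries.min_order_le_order_add hxy)

private theorem ord_mul {k : Type} [Field k] {ℓ ℓ' : ℕ} {x y : LaurentSeries k}
    (hx : x = 0 ∨ -(ℓ : ℤ) ≤ x.order) (hy : y = 0 ∨ -(ℓ' : ℤ) ≤ y.order) :
    x * y = 0 ∨ -((ℓ + ℓ' : ℕ) : ℤ) ≤ (x * y).order := by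
  by_cases hx0 : x = 0
  · left
    rw [hx0, zero_mul]
  by_cases hy0 : y = 0
  · left
    rw [hy0, mul_zero]
  right
  rw [HahnSeries.order_mul hx0 hy0]
  have h1 := hx.resolve_left hx0
  have h2 := hy.resolve_left hy0
  push_cast
  linarith

private theorem ord_sum {k : Type} [Field k] {ℓ : ℕ} {κ : Type} (s : Finset κ)
    {x : κ → LaurentSeries k} (hx : ∀ i ∈ s, x i = 0 ∨ -(ℓ : ℤ) ≤ (x i).order) :
    ∑ i ∈ s, x i = 0 ∨ -(ℓ : ℤ) ≤ (∑ i ∈ s, x i).order := by
  classical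
  induction s using Finset.induction_on with
  | empty => exact Or.inl Finset.sum_empty
  | insert a s ha ih =>
    rw [Finset.sum_insert ha]
    exact ord_add (hx a (Finset.mem_insert_self a s))
      (ih fun i hi => hx i (Finset.mem_insert_of_mem hi))

private theorem ord_prod {k : Type} [Field k] {κ : Type} (s : Finset κ) {x : κ → LaurentSeries k}
    (hx : ∀ i ∈ s, x i ≠ 0) : (∏ i ∈ s, x i).order = ∑ i ∈ s, (x i).order := by
  classical
  induction s using Finset.induction_on with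
  | empty =>
    rw [Finset.prod_empty, Finset.sum_empty]
    exact HahnSeries.order_one
  | insert a s ha ih =>
    have h1 : ∏ i ∈ s, x i ≠ 0 :=
      Finset.prod_ne_zero_iff.2 fun i hi => hx i (Finset.mem_insert_of_mem hi)
    rw [Finset.prod_insert ha, Finset.sum_insert ha,
      HahnSeries.order_mul (hx a (Finset.mem_insert_self a s)) h1,
      ih fun i hi => hx i (Finset.mem_insert_of_mem hi)]

variable {k : Type} [Field k] {B : Type} [CommRing B] [Algebra k[X] B] {ι : Type} [Fintype ι]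
  [DecidableEq ι] {h : ℕ} (c : Conj k B ι h)

theorem ord_norm {ℓ : ℕ} {G : B} (hG : G ∈ Lsp c ℓ) (h0 : G ≠ 0) :
    Algebra.norm k[X] G ≠ 0 ∧
      ((Algebra.norm k[X] G).natDegree : ℤ) ≤ Fintype.card ι * ℓ ∧
      ∀ i, (c.σ i G).order ≤ ((Fintype.card ι : ℤ) - 1) * ℓ := by
  have hσ : ∀ i, c.σ i G ≠ 0 := fun i hi => h0 (c.faith i (hi.trans (map_zero _).symm))
  have hp : ∏ i, c.σ i G ≠ 0 := Finset.prod_ne_zero_iff.2 fun i _ => hσ i
  have hn := nrm c G
  have hN : Algebra.norm k[X] G ≠ 0 := by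
    intro hz
    rw [hz, map_zero] at hn
    exact hp hn.symm
  have hlow : ∀ i, -(ℓ : ℤ) ≤ (c.σ i G).order := fun i => (hG i).resolve_left (hσ i)
  have hord : -((Algebra.norm k[X] G).natDegree : ℤ) = ∑ i, (c.σ i G).order := by
    rw [← lau_order hN, hn]
    exact ord_prod _ fun i _ => hσ i
  refine ⟨hN, ?_, fun i => ?_⟩
  · have h1 : ∑ _i : ι, -(ℓ : ℤ) ≤ ∑ i, (c.σ i G).order := Finset.sum_le_sum fun i _ => hlow i
    rw [Finset.sum_const, Finset.card_univ, nsmul_eq_mul] at h1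
    linarith
  · have h1 : ∑ _j ∈ Finset.univ.erase i, -(ℓ : ℤ) ≤ ∑ j ∈ Finset.univ.erase i, (c.σ j G).order :=
      Finset.sum_le_sum fun j _ => hlow j
    rw [Finset.sum_const, Finset.card_erase_of_mem (Finset.mem_univ i), Finset.card_univ,
      nsmul_eq_mul] at h1
    have h2 := Finset.add_sum_erase Finset.univ (fun j => (c.σ j G).order) (Finset.mem_univ i)
    have h3 : 1 ≤ Fintype.card ι := Fintype.card_pos_iff.2 ⟨i⟩
    rw [Nat.cast_sub h3, Nat.cast_one] at h1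
    have h4 : (0 : ℤ) ≤ (Algebra.norm k[X] G).natDegree := Int.natCast_nonneg _
    linarith

omit [DecidableEq ι] in
theorem wsp_mem {n : ℕ} {f : B} (hf : f ∈ Wsp c n) : f ∈ Lsp c (n + h) := by
  intro i
  have h1 : c.σ i f = ∑ j, lau k (c.b.repr f j) * c.σ i (c.b j) := by
    conv_lhs => rw [← c.b.sum_repr f]
    rw [map_sum]
    refine Finset.sum_congr rfl fun j _ => ?_
    rw [Algebra.smul_def, map_mul, c.base]
  rw [h1]
  refine ord_sum _ fun j _ => ord_mul ?_ (Or.inr (c.pole i j))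
  by_cases hp : c.b.repr f j = 0
  · left
    rw [hp, map_zero]
  · right
    rw [lau_order hp]
    have h2 : (c.b.repr f j).natDegree ≤ n := hf j
    have h3 : ((c.b.repr f j).natDegree : ℤ) ≤ n := by exact_mod_cast h2
    linarith

omit [DecidableEq ι] in
theorem lsp_add {ℓ : ℕ} {f g : B} (hf : f ∈ Lsp c ℓ) (hg : g ∈ Lsp c ℓ) : f + g ∈ Lsp c ℓ := by
  intro i
  rw [map_add]
  exact ord_add (hf i) (hg i)

omit [DecidableEq ι] in
theorem lsp_sum {ℓ : ℕ} {κ : Type} (s : Finset κ) {f : κ → B} (hf : ∀ i ∈ s, f i ∈ Lsp c ℓ) :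
    ∑ i ∈ s, f i ∈ Lsp c ℓ := by
  classical
  induction s using Finset.induction_on with
  | empty =>
    intro i
    left
    simp
  | insert a s ha ih =>
    rw [Finset.sum_insert ha]
    exact lsp_add c (hf a (Finset.mem_insert_self a s))
      (ih fun i hi => hf i (Finset.mem_insert_of_mem hi))

omit [DecidableEq ι] in
theorem lsp_mul {ℓ ℓ' : ℕ} {f g : B} (hf : f ∈ Lsp c ℓ) (hg : g ∈ Lsp c ℓ') :
    f * g ∈ Lsp c (ℓ + ℓ') := by
  intro i
  rw [map_mul]
  exact ord_mul (hf i) (hg i)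

omit [DecidableEq ι] in
theorem lsp_pow {ℓ : ℕ} {f : B} (hf : f ∈ Lsp c ℓ) (n : ℕ) : f ^ n ∈ Lsp c (n * ℓ) := by
  induction n with
  | zero =>
    intro i
    right
    simp
  | succ n ih =>
    rw [pow_succ, Nat.succ_mul]
    exact lsp_mul c ih hf

end Pool.Agent.H3.FS
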