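import Mathlib

set_option autoImplicit false

/-!
# [H3 FS QDM] `R[√a]` is a domain

`R` a domain, `a ∈ R` with `x² a = z² → x = 0`.  Then `QuadraticAlgebra R a 0` is a domain.
Proof: `norm (x + y ω) = x² - a y²` (`QuadraticAlgebra.norm_def`) is multiplicative and vanishes only at `0`
(`y² a = x²` gives `y = 0`, `x = 0`).
-/

namespace Pool.Agent.H3.FS

theorem qdm {R : Type} [CommRing R] [IsDomain R] (a : R) (h : ∀ x z : R, x ^ 2 * a = z ^ 2 → x = 0) :
    IsDomain (QuadraticAlgebra R a 0) := by
  have key : ∀ z : QuadraticAlgebra R a 0, QuadraticAlgebra.norm z = 0 → z = 0 := by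
    intro z hz
    rw [QuadraticAlgebra.norm_def] at hz
    have h1 : z.im ^ 2 * a = z.re ^ 2 := by linear_combination -hz
    have h2 : z.im = 0 := h _ _ h1
    have h3 : z.re ^ 2 = 0 := by
      rw [← h1, h2]
      ring
    have h4 : z.re = 0 := pow_eq_zero_iff (two_ne_zero) |>.1 h3
    ext
    · exact h4
    · exact h2
  have : NoZeroDivisors (QuadraticAlgebra R a 0) := by
    refine ⟨fun {x y} hxy => ?_⟩
    have h1 : QuadraticAlgebra.norm x * QuadraticAlgebra.norm y = 0 := by
      rw [← map_mul, hxy, QuadraticAlgebra.norm_zero]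
    rcases mul_eq_zero.1 h1 with h2 | h2
    · exact Or.inl (key _ h2)
    · exact Or.inr (key _ h2)
  exact NoZeroDivisors.to_isDomain _

end Pool.Agent.H3.FS
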