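import Pool.Agent.H94.MW.Mw
import Pool.Agent.H40.FS.COC
import Pool.Agent.H40.FS.RES
import Pool.Agent.H40.FS.HSG

set_option autoImplicit false

/-!
# [H3 FS RNK] Rational points and lifting classes

The class of a rational point `(x, y)`, `y ≠ 0`, is twice the class of a cocycle `σ ↦ σ Z - Z`, `4 Z = (x, y)`, which becomes a
coboundary over all fields.  So a set `S` of classes which contains all the classes of rational points and has `2 ^ (2 + s)`
elements gives: the group of the points is finitely generated, of rank at most `s`.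
-/

namespace Pool.Agent.H3.FS

open Polynomial WeierstrassCurve Pool.Agent.H94.MW Pool.Agent.H94.PM Pool.Agent.H40.FS

section pts

variable {K : Type} [Field K] {e : Fin 3 → K} {Ω : Type} [Field Ω] [Algebra K Ω] [DecidableEq Ω]

/-- the class of a rational point lifts -/
theorem pt_lift [DecidableEq K] [IsSepClosed Ω] [IsGalois K Ω] (h2 : (2 : K) ≠ 0)
    (he : Function.Injective e) {x y : K} (hy : y ≠ 0) (h : y ^ 2 = ∏ k, (x - e k)) :
    ∃ Z : Pt e Ω, IsCoc (fun σ : Ω ≃ₐ[K] Ω => act e (σ : Ω →ₐ[K] Ω) Z - Z) ∧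
      IsCls (fun k => x - e k) fun σ : Ω ≃ₐ[K] Ω => 2 • (act e (σ : Ω →ₐ[K] Ω) Z - Z) := by
  have hx : ∀ k, x - e k ≠ 0 := by
    intro k hk
    apply hy
    have h1 : ∏ k, (x - e k) = 0 := Finset.prod_eq_zero (Finset.mem_univ k) hk
    rw [h1] at h
    exact pow_eq_zero_iff (two_ne_zero) |>.mp h
  have hbc : ((crv e)⁄K) = crv e := by
    unfold crv
    ext <;> simp [WeierstrassCurve.map, WeierstrassCurve.baseChange]
  have hns : ((crv e)⁄K).toAffine.Nonsingular x y := by
    rw [hbc]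
    exact (nonsing_iff h2 he x y).2 h
  obtain ⟨Z₂, hZ₂⟩ := exists_half h2 he (act e (IsScalarTower.toAlgHom K K Ω)
    (.some x y hns) : Pt e Ω)
  obtain ⟨Z, hZ⟩ := exists_half h2 he Z₂
  refine ⟨Z, coc_pt h2 he hx ⟨y, h.symm⟩ fun σ => ?_⟩
  have h3 := half_sg (M := K) h2 he hns hy hZ₂ σ
  rw [hZ]
  exact h3

variable {M : Type} [Field M] [Algebra K M] {Ω' : Type} [Field Ω'] [Algebra M Ω'] [Algebra K Ω']
  [IsScalarTower K M Ω'] [DecidableEq Ω']

/-- the cocycle of a rational point becomes a coboundary over all fields -/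
theorem pt_triv [IsGalois K Ω] [IsSepClosed Ω'] (Z : Pt e Ω) :
    IsTriv M Ω' fun σ : Ω ≃ₐ[K] Ω => act e (σ : Ω →ₐ[K] Ω) Z - Z := by
  refine ⟨IsSepClosed.lift, act e IsSepClosed.lift Z, fun τ σ h => ?_⟩
  rw [map_sub]
  congr 1
  show Affine.Point.map (W' := (crv e).toAffine) _ (Affine.Point.map _ Z) =
    Affine.Point.map (W' := (crv e).toAffine) _ (Affine.Point.map _ Z)
  rw [Affine.Point.map_map, Affine.Point.map_map]
  congr 2
  ext x
  exact h x

end pts

section grp

/-- the structure of a finitely generated abelian group -/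
theorem grp_str {G : Type} [AddCommGroup G] (hG : AddGroup.FG G) :
    ∃ (T : Type) (_ : AddCommGroup T) (_ : Finite T),
      Nonempty (G ≃+ T × (Fin (Module.finrank ℤ G) → ℤ)) := by
  classical
  obtain ⟨n, ι, _, p, hp, ex, ⟨e₀⟩⟩ := AddCommGroup.equiv_free_prod_directSum_zmod G
  obtain ⟨T, hTg, hTf, ⟨e⟩⟩ : ∃ (T : Type) (_ : AddCommGroup T) (_ : Finite T),
      Nonempty (G ≃+ (Fin n →₀ ℤ) × T) := by
    refine ⟨∀ i, ZMod (p i ^ ex i), inferInstance, ?_, ⟨e₀.trans
      (AddEquiv.prodCongr (AddEquiv.refl _) (DirectSum.addEquivProd _))⟩⟩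
    have : ∀ i, NeZero (p i ^ ex i) := fun i => ⟨pow_ne_zero _ (hp i).ne_zero⟩
    infer_instance
  have hrank : Module.finrank ℤ G = n := by
    obtain ⟨f, hf⟩ : ∃ f : G →ₗ[ℤ] (Fin n →₀ ℤ), ∀ g, f g = (e g).1 :=
      ⟨(LinearMap.fst ℤ (Fin n →₀ ℤ) T).comp (e.toIntLinearEquiv : G →ₗ[ℤ] _), fun _ => rfl⟩
    have hsurj : Function.Surjective f := by
      intro m
      refine ⟨e.symm (m, 0), ?_⟩
      rw [hf, AddEquiv.apply_symm_apply]
    have hker : LinearMap.ker f ≤ Submodule.torsion ℤ G := by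
      intro g hg
      rw [LinearMap.mem_ker, hf] at hg
      have hc : (Nat.card T : ℤ) ≠ 0 := by exact_mod_cast Nat.card_pos.ne'
      refine ⟨⟨(Nat.card T : ℤ), mem_nonZeroDivisors_of_ne_zero hc⟩, ?_⟩
      show (Nat.card T : ℤ) • g = 0
      rw [natCast_zsmul]
      apply e.injective
      rw [map_nsmul, map_zero]
      ext1
      · show Nat.card T • (e g).1 = 0
        rw [hg, nsmul_zero]
      · show Nat.card T • (e g).2 = 0
        exact card_nsmul_eq_zero'
    rw [← finrank_quotient_eq_of_le_torsion hker,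
      (LinearMap.quotKerEquivOfSurjective f hsurj).finrank_eq, Module.finrank_finsupp_self,
      Fintype.card_fin]
  rw [hrank]
  exact ⟨T, hTg, hTf, ⟨e.trans ((AddEquiv.prodCongr
    (Finsupp.linearEquivFunOnFinite ℤ ℤ (Fin n)).toAddEquiv (AddEquiv.refl T)).trans
      AddEquiv.prodComm)⟩⟩

variable {F : Type} [Field F] [Finite F] [DecidableEq (RatFunc F)]

private noncomputable def rk_kf {K : Type} [Field K] (e : Fin 3 → K) :
    (crv e).toAffine.Point → (Fin 3 → Kˣ ⧸ (powMonoidHom 2 : Kˣ →* Kˣ).range)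
  | .zero => fun _ => 1
  | .some x _ _ => fun k =>
      open Classical in
      if hk : x - e k = 0 then 1 else QuotientGroup.mk (Units.mk0 (x - e k) hk)

omit [Finite F] [DecidableEq (RatFunc F)] in
private theorem rk_two (h2 : (2 : F) ≠ 0) : (2 : RatFunc F) ≠ 0 := by
  intro h
  apply h2
  have h1 : algebraMap F (RatFunc F) 2 = 0 := by rw [map_ofNat]; exact h
  exact (map_eq_zero_iff _ (algebraMap F (RatFunc F)).injective).mp h1

private theorem rk_ne {K : Type} [Field K] {e : Fin 3 → K} {x y : K} (hy : y ≠ 0)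
    (h : y ^ 2 = ∏ i, (x - e i)) (k : Fin 3) : x - e k ≠ 0 := by
  intro hk
  apply hy
  have h1 : ∏ i, (x - e i) = 0 := Finset.prod_eq_zero (Finset.mem_univ k) hk
  rw [h1] at h
  exact pow_eq_zero_iff (two_ne_zero) |>.mp h

private theorem rk_kf_some {K : Type} [Field K] {e : Fin 3 → K} {x y : K}
    (h : (crv e).toAffine.Nonsingular x y) (k : Fin 3) (hk : x - e k ≠ 0) :
    rk_kf e (.some x y h) k = QuotientGroup.mk (Units.mk0 (x - e k) hk) := by
  unfold rk_kf
  exact dif_neg hk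

private theorem rk_zero {K : Type} [Field K] [DecidableEq K] (e : Fin 3 → K) :
    2 • (Affine.Point.zero : (crv e).toAffine.Point) = 0 := by
  have h : (Affine.Point.zero : (crv e).toAffine.Point) = 0 := rfl
  rw [h, smul_zero]

/-- **the rank and the classes of the rational points** -/
theorem rnk (h2 : (2 : F) ≠ 0) {e : Fin 3 → RatFunc F} (he : Function.Injective e)
    {S : Set (Fin 3 → (RatFunc F)ˣ ⧸ (powMonoidHom 2 : (RatFunc F)ˣ →* (RatFunc F)ˣ).range)}
    (hS : ∀ (x y : RatFunc F) (δ : Fin 3 → (RatFunc F)ˣ), y ≠ 0 → y ^ 2 = ∏ k, (x - e k) →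
      (∀ k, (δ k : RatFunc F) = x - e k) → (fun k => QuotientGroup.mk (δ k)) ∈ S)
    {s : ℕ} (hs : Nat.card S = 2 ^ (2 + s)) :
    ∃ (T : Type) (_ : AddCommGroup T) (_ : Finite T) (ρ : ℕ), ρ ≤ s ∧
      Nonempty ((crv e).toAffine.Point ≃+ T × (Fin ρ → ℤ)) := by
  have h2K := rk_two h2
  have hfin : S.Finite := by
    have h1 : Nat.card S ≠ 0 := by
      rw [hs]
      positivity
    exact Set.finite_coe_iff.mp (Nat.finite_of_card_ne_zero h1)
  have hκ1 : ∀ g : (crv e).toAffine.Point, 2 • g ≠ 0 → rk_kf e g ∈ S := by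
    intro g hg
    match g, hg with
    | .zero, hg => exact (hg (rk_zero _)).elim
    | .some x y h, hg =>
      have hy : y ≠ 0 := fun hy => hg ((two_smul_some h2K h).mpr hy)
      have hns := (nonsing_iff h2K he x y).mp h
      have hne := rk_ne hy hns
      have h3 := hS x y (fun k => Units.mk0 (x - e k) (hne k)) hy hns fun k => rfl
      have h4 : rk_kf e (.some x y h) = fun k => QuotientGroup.mk (Units.mk0 (x - e k) (hne k)) :=
        funext fun k => rk_kf_some h k (hne k)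
      rw [h4]
      exact h3
  have hκ2 : ∀ g g' : (crv e).toAffine.Point, 2 • g ≠ 0 → 2 • g' ≠ 0 →
      rk_kf e g = rk_kf e g' → ∃ r, g - g' = 2 • r := by
    intro g g' hg hg' hκ
    match g, g', hg, hg', hκ with
    | .zero, _, hg, _, _ => exact (hg (rk_zero _)).elim
    | .some _ _ _, .zero, _, hg', _ => exact (hg' (rk_zero _)).elim
    | .some x₁ y₁ h₁, .some x₂ y₂ h₂, hg, hg', hκ =>
      have hy₁ : y₁ ≠ 0 := fun hy => hg ((two_smul_some h2K h₁).mpr hy)
      have hy₂ : y₂ ≠ 0 := fun hy => hg' ((two_smul_some h2K h₂).mpr hy)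
      have hne₁ := rk_ne hy₁ ((nonsing_iff h2K he x₁ y₁).mp h₁)
      have hne₂ := rk_ne hy₂ ((nonsing_iff h2K he x₂ y₂).mp h₂)
      have ht : ∀ i, ∃ t : RatFunc F, t ≠ 0 ∧ x₁ - e i = (x₂ - e i) * t ^ 2 := by
        intro i
        have h3 := (congrFun hκ i).symm
        rw [rk_kf_some h₁ i (hne₁ i), rk_kf_some h₂ i (hne₂ i)] at h3
        obtain ⟨w, hw⟩ := QuotientGroup.eq.1 h3
        refine ⟨(w : RatFunc F), w.ne_zero, ?_⟩
        have h4 := congrArg (fun u : (RatFunc F)ˣ => (u : RatFunc F)) hw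
        simp only [powMonoidHom_apply, Units.val_pow_eq_pow_val, Units.val_mul,
          Units.val_inv_eq_inv_val, Units.val_mk0] at h4
        rw [h4, mul_inv_cancel_left₀ (hne₂ i)]
      obtain ⟨R, hR⟩ := dfh h2K he h₁ h₂ hy₁ hy₂ ht
      exact ⟨R, by rw [hR, two_nsmul]⟩
  have hfg : AddGroup.FG (crv e).toAffine.Point := by
    have hidx := fin_idx _ hfin hκ1 hκ2 (card_two h2K he)
    obtain ⟨inst, hN⟩ := ht F
    obtain ⟨C, hC⟩ := plg h2K he
    have hnp : Northcott (hp (e := e)) := npt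
    exact AddCommGroup.fg_of_descent' (h := hp) hidx (fun x => Height.logHeight_nonneg _) hC
  have hrk : Module.finrank ℤ (crv e).toAffine.Point ≤ s :=
    rk_bd hfg _ hfin hκ1 hκ2 (card_two h2K he) (le_of_eq (by
      rw [← Nat.card_coe_set_eq]
      exact hs))
  obtain ⟨T, i1, i2, h⟩ := grp_str hfg
  exact ⟨T, i1, i2, _, hrk, h⟩

end grp

end Pool.Agent.H3.FS
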