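import Pool.Agent.H3.FS.LAU

set_option autoImplicit false

/-!
# [H3 FS THE] Change of the variable `t = c + 1/u`

`theta c N f = u^N f(c + 1/u)` for `deg f ≤ N`: `(f.comp (X + C c)).reflect N`.

* `theta_map`: for ring homomorphisms `g, g' : k[X] → L` (`L` a field), `g X = u ≠ 0`, `g' = g` on constants, `g' X = g(c) + 1/u`:
  `g (theta c N f) = u^N g' f`.  Proof: both sides are additive in `f`... write `F = f.comp (X + C c)`, `deg F ≤ N`, `g' f = F(1/u)`
  (with coefficients mapped by `g ∘ C`), and `g (F.reflect N) = u^N F(1/u)` (`Polynomial.eval₂_reflect_mul_pow` or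
  directly with `reflect` of monomials).
* `theta_coeff`: the coefficient of `theta c N f` at `N` is `f(c)`.
* `theta_mul` (`Polynomial.reflect_mul`), `theta_inj`, `theta_surj`: `theta c N` is a bijection of the polynomials of degree
  `≤ N` (inverse: `f ↦ (f.reflect N).comp (X - C c)`; `reflect_reflect`/`Polynomial.reflect_invol`).
* `lau_theta`: for `f(c) ≠ 0` the Laurent series `lau (theta c N f)` has order `-N` and its lowest coefficient is `f(c)`.
-/

namespace Pool.Agent.H3.FS

open Polynomial

variable {k : Type} [Field k]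

/-- `u^N f(c + 1/u)` -/
noncomputable def theta (c : k) (N : ℕ) (f : k[X]) : k[X] := (f.comp (X + C c)).reflect N

theorem theta_coeff (c : k) (N : ℕ) (f : k[X]) : (theta c N f).coeff N = f.eval c := by
  unfold theta
  rw [coeff_reflect, revAt_le le_rfl, Nat.sub_self, coeff_zero_eq_eval_zero, eval_comp]
  simp

private theorem the_deg (c : k) (f : k[X]) : (f.comp (X + C c)).natDegree = f.natDegree := by
  rw [natDegree_comp, natDegree_X_add_C, mul_one]

theorem theta_deg (c : k) {N : ℕ} {f : k[X]} (hf : f.natDegree ≤ N) :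
    (theta c N f).natDegree ≤ N := by
  unfold theta
  refine natDegree_reflect_le.trans (max_le le_rfl ?_)
  rw [the_deg]
  exact hf

theorem theta_map {L : Type} [Field L] (c : k) (g g' : k[X] →+* L) (hu : g X ≠ 0)
    (hC : ∀ x : k, g' (C x) = g (C x)) (hX : g' X = g (C c) + (g X)⁻¹) {N : ℕ} {f : k[X]}
    (hf : f.natDegree ≤ N) : g (theta c N f) = g X ^ N * g' f := by
  have h1 : ∀ p : k[X], g p = eval₂ (g.comp C) (g X) p := by
    intro p
    conv_lhs => rw [← eval₂_C_X (p := p)]
    rw [hom_eval₂]
  have h2 : ∀ p : k[X], g' p = eval₂ (g.comp C) (g (C c) + (g X)⁻¹) p := by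
    intro p
    conv_lhs => rw [← eval₂_C_X (p := p)]
    rw [hom_eval₂, hX]
    congr 1
    ext x
    exact hC x
  have hx0 : (g X)⁻¹ ≠ 0 := inv_ne_zero hu
  letI : Invertible ((g X)⁻¹) := invertibleOfNonzero hx0
  have hF : (f.comp (X + C c)).natDegree ≤ N := by
    rw [the_deg]
    exact hf
  have h3 := eval₂_reflect_mul_pow (g.comp C) ((g X)⁻¹) N (f.comp (X + C c)) hF
  rw [invOf_eq_inv, inv_inv] at h3
  have h4 : eval₂ (g.comp C) ((g X)⁻¹) (f.comp (X + C c)) = g' f := by
    rw [h2, eval₂_comp]
    congr 1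
    rw [eval₂_add, eval₂_X, eval₂_C, add_comm]
    rfl
  rw [h4] at h3
  rw [h1]
  unfold theta
  rw [← h3, inv_pow]
  field_simp

theorem theta_mul (c : k) {N M : ℕ} {f g : k[X]} (hf : f.natDegree ≤ N) (hg : g.natDegree ≤ M) :
    theta c (N + M) (f * g) = theta c N f * theta c M g := by
  unfold theta
  rw [mul_comp, reflect_mul]
  · rw [the_deg]
    exact hf
  · rw [the_deg]
    exact hg

private theorem the_back (c : k) (f : k[X]) : (f.comp (X + C c)).comp (X - C c) = f := by
  rw [comp_assoc]
  simp

private theorem the_forw (c : k) (f : k[X]) : (f.comp (X - C c)).comp (X + C c) = f := by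
  rw [comp_assoc]
  simp

theorem theta_inj (c : k) {N : ℕ} {f g : k[X]} (hf : f.natDegree ≤ N) (hg : g.natDegree ≤ N)
    (h : theta c N f = theta c N g) : f = g := by
  unfold theta at h
  have h1 := congrArg (reflect N) h
  rw [reflect_reflect, reflect_reflect] at h1
  have h2 := congrArg (fun p : k[X] => p.comp (X - C c)) h1
  simp only [the_back] at h2
  exact h2

theorem theta_surj (c : k) {N : ℕ} {w : k[X]} (hw : w.natDegree ≤ N) :
    ∃ f : k[X], f.natDegree ≤ N ∧ theta c N f = w := by
  refine ⟨(w.reflect N).comp (X - C c), ?_, ?_⟩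
  · rw [natDegree_comp, natDegree_X_sub_C, mul_one]
    exact natDegree_reflect_le.trans (max_le le_rfl hw)
  · unfold theta
    rw [the_forw, reflect_reflect]

theorem lau_theta (c : k) {N : ℕ} {f : k[X]} (hf : f.natDegree ≤ N) (hc : f.eval c ≠ 0) :
    (lau k (theta c N f)).order = -(N : ℤ) ∧
      (lau k (theta c N f)).coeff (-(N : ℤ)) = f.eval c := by
  have h1 : (theta c N f).coeff N ≠ 0 := by
    rw [theta_coeff]
    exact hc
  have h2 : (theta c N f).natDegree = N := natDegree_eq_of_le_of_coeff_ne_zero (theta_deg c hf) h1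
  have h3 : theta c N f ≠ 0 := by
    intro h0
    rw [h0, coeff_zero] at h1
    exact h1 rfl
  constructor
  · rw [lau_order h3, h2]
  · rw [lau_coeff, if_pos (by omega), neg_neg, Int.toNat_natCast, theta_coeff]

end Pool.Agent.H3.FS
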