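import Pool.Agent.H3.FS.BAD
import Pool.Agent.H3.FS.BLD
import Pool.Agent.H3.FS.BSP

set_option autoImplicit false

/-!
# [H3 FS UPB] The upper bound for the number of rational points

`#{(t, y, s) : y_i² = a_i(t), s² = Ξ(t, y)} ≤ Q + K h √Q`, `K` depends only on `p, ρ, d`.

Proof.  `N = 2^(ρ+1)`.  Every `t ∈ k` carries at most `N` points.  Let `T` be the set of bad `t` (`bad`).
Case 1: there are `c ∉ T`, and a point over `c`, i.e. `r` over `c` and `s² = Ξ(c, r)`.  Then all `a_i(c) ≠ 0`, and for all `y'` over `c`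
`Ξ(c, y') ≠ 0`, and it is a square by `NRM'` (`Ξ(c, r)` is a non-zero square).  `bld` gives `B`, conjugates with `h' = (ρ + d + 1) h ≥ 1`,
and `π`; `bsp` for the image `Y` of `π` (finite, `Set.Finite.toFinset` or `Fintype`; `CharP B p`: `B` is a non-trivial algebra over `k`,
`charP_of_injective_ringHom`/`algebraMap`) gives `#{points with t ≠ c} ≤ Q + 6 N² h' p √Q`; the points with `t = c` are at most `N`.
Case 2: otherwise every point lies over a bad `t`: at most `N (ρ h + 2^ρ (d + 1) h)` points, `≤ K h √Q` as `√Q ≥ 1`.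
-/

namespace Pool.Agent.H3.FS

open Polynomial

private theorem upb_sq {k : Type} [Field k] [Fintype k] [DecidableEq k] (c : k) :
    (Finset.univ.filter (fun s : k => s ^ 2 = c)).card ≤ 2 := by
  have h1 : (Finset.univ.filter (fun s : k => s ^ 2 = c)) ⊆ (X ^ 2 - C c : k[X]).roots.toFinset := by
    intro s hs
    rw [Finset.mem_filter] at hs
    rw [Multiset.mem_toFinset, mem_roots (X_pow_sub_C_ne_zero (by norm_num) c)]
    simp [hs.2]
  refine (Finset.card_le_card h1).trans ((Multiset.toFinset_card_le _).trans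
    ((card_roots' _).trans ?_))
  rw [natDegree_X_pow_sub_C]

private theorem upb_over {k : Type} [Field k] [Finite k] {ρ : ℕ} (a : Fin ρ → k[X])
    (Ξ : MvPolynomial (Fin ρ) k[X]) (t : k) :
    {x | x ∈ pts a Ξ ∧ x.1 = t}.ncard ≤ 2 ^ ρ * 2 := by
  classical
  have : Fintype k := Fintype.ofFinite k
  let P : Finset (Fin ρ → k) :=
    Fintype.piFinset (fun i => Finset.univ.filter (fun s : k => s ^ 2 = (a i).eval t))
  let T : Finset (k × (Fin ρ → k) × k) := P.biUnion (fun y =>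
    (Finset.univ.filter (fun s : k => s ^ 2 = mve Ξ t y)).image (fun s => (t, y, s)))
  have hsub : {x | x ∈ pts a Ξ ∧ x.1 = t} ⊆ (T : Set (k × (Fin ρ → k) × k)) := by
    rintro ⟨t', y, s⟩ ⟨⟨h1, h2⟩, h3⟩
    simp only at h1 h2 h3
    subst h3
    rw [Finset.mem_coe, Finset.mem_biUnion]
    refine ⟨y, ?_, ?_⟩
    · rw [Fintype.mem_piFinset]
      intro i
      rw [Finset.mem_filter]
      exact ⟨Finset.mem_univ _, h1 i⟩
    · rw [Finset.mem_image]
      exact ⟨s, by rw [Finset.mem_filter]; exact ⟨Finset.mem_univ _, h2⟩, rfl⟩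
  have hP : P.card ≤ 2 ^ ρ := by
    rw [Fintype.card_piFinset]
    refine (Finset.prod_le_prod' fun i _ => upb_sq _).trans ?_
    rw [Finset.prod_const, Finset.card_univ, Fintype.card_fin]
  calc {x | x ∈ pts a Ξ ∧ x.1 = t}.ncard ≤ (T : Set (k × (Fin ρ → k) × k)).ncard :=
        Set.ncard_le_ncard hsub T.finite_toSet
    _ = T.card := Set.ncard_coe_finset T
    _ ≤ ∑ y ∈ P, ((Finset.univ.filter (fun s : k => s ^ 2 = mve Ξ t y)).image
          (fun s => (t, y, s))).card := Finset.card_biUnion_le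
    _ ≤ ∑ y ∈ P, 2 := Finset.sum_le_sum fun y _ => Finset.card_image_le.trans (upb_sq _)
    _ = P.card * 2 := by rw [Finset.sum_const, smul_eq_mul]
    _ ≤ 2 ^ ρ * 2 := Nat.mul_le_mul_right _ hP

theorem upb (p ρ d : ℕ) [Fact p.Prime] (hp : p ≠ 2) : ∃ K : ℝ, 0 ≤ K ∧
    ∀ (k : Type) [Field k] [Finite k] [CharP k p] (h : ℕ) (a : Fin ρ → k[X])
      (Ξ : MvPolynomial (Fin ρ) k[X]), 1 ≤ h → (∀ i, (a i).natDegree ≤ h) → Bd h d Ξ → Ind a →
      NS a Ξ → NRM' a Ξ →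
      ((pts a Ξ).ncard : ℝ) ≤ Nat.card k + K * h * √(Nat.card k) := by
  obtain ⟨N, hN⟩ : ∃ N : ℕ, N = 2 ^ ρ * 2 := ⟨_, rfl⟩
  refine ⟨6 * (N : ℝ) ^ 2 * (ρ + d + 1) * p + N + N * (ρ + 2 ^ ρ * (d + 1)), by positivity, ?_⟩
  intro k _ _ _ h a Ξ hh ha hΞ hI hNS hNRM
  classical
  have hfk : Fintype k := Fintype.ofFinite k
  have h2 : (2 : k) ≠ 0 := by
    intro h0
    have h1 : ((2 : ℕ) : k) = 0 := by exact_mod_cast h0
    rw [CharP.cast_eq_zero_iff k p 2] at h1
    have h3 := Nat.le_of_dvd (by norm_num) h1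
    have h4 := (Fact.out : p.Prime).two_le
    omega
  have hQ1 : (1 : ℝ) ≤ √(Nat.card k) := by
    rw [Real.one_le_sqrt]
    exact_mod_cast Nat.card_pos (α := k)
  have hhR : (1 : ℝ) ≤ h := by exact_mod_cast hh
  have hhQ : (1 : ℝ) ≤ h * √(Nat.card k) := by nlinarith
  have hfin : (pts a Ξ).Finite := Set.toFinite _
  by_cases hcase : ∃ c, (∀ i, (a i).eval c ≠ 0) ∧ (∀ y, Ov a c y → mve Ξ c y ≠ 0) ∧
      ∃ x ∈ pts a Ξ, x.1 = c
  · obtain ⟨c, hc1, hc2, ⟨c', r, s⟩, ⟨hr, hs⟩, hcc⟩ := hcase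
    simp only at hr hs hcc
    subst hcc
    have hsq : ∀ y, Ov a c' y → mve Ξ c' y ≠ 0 ∧ IsSquare (mve Ξ c' y) := by
      intro y hy
      exact ⟨hc2 y hy, hNRM c' r y hr hy (hc2 r hr) (hc2 y hy) ⟨s, by rw [← hs, sq]⟩⟩
    obtain ⟨B, iB, iD, iA, cj, π, hπ, hπc⟩ := bld h2 ha hΞ hI hNS c' r hr hc1 hsq
    have hchB : CharP B p := by
      have hinj : Function.Injective ((algebraMap k[X] B).comp (C : k →+* k[X])) :=
        RingHom.injective _
      exact charP_of_injective_ringHom hinj p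
    have hft : Fintype {x : k × (Fin ρ → k) × k // x ∈ pts a Ξ ∧ x.1 ≠ c'} := Fintype.ofFinite _
    let Y : Finset (B →+* k) := Finset.univ.image π
    have hYc : Y.card = {x | x ∈ pts a Ξ ∧ x.1 ≠ c'}.ncard := by
      rw [Finset.card_image_of_injective _ hπ, Finset.card_univ]
      rw [← Nat.card_eq_fintype_card]
      rfl
    have hY := bsp (c := cj) (p := p) (h := (ρ + d + 1) * h) (Nat.mul_pos (by omega) hh) Y (by
      intro y hy c
      rw [Finset.mem_image] at hy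
      obtain ⟨x, -, rfl⟩ := hy
      exact hπc x c)
    have hcard : Fintype.card (Finset (Fin ρ) × Fin 2) = N := by
      rw [hN, Fintype.card_prod, Fintype.card_finset, Fintype.card_fin, Fintype.card_fin]
    rw [hcard] at hY
    have hover := upb_over a Ξ c'
    rw [← hN] at hover
    have hsplit : (pts a Ξ).ncard ≤ Y.card + N := by
      have h3 : pts a Ξ ⊆ {x | x ∈ pts a Ξ ∧ x.1 ≠ c'} ∪ {x | x ∈ pts a Ξ ∧ x.1 = c'} := by
        intro x hx
        by_cases hxc : x.1 = c'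
        · exact Or.inr ⟨hx, hxc⟩
        · exact Or.inl ⟨hx, hxc⟩
      calc (pts a Ξ).ncard ≤ ({x | x ∈ pts a Ξ ∧ x.1 ≠ c'} ∪ {x | x ∈ pts a Ξ ∧ x.1 = c'}).ncard :=
            Set.ncard_le_ncard h3 (Set.toFinite _)
        _ ≤ _ := Set.ncard_union_le _ _
        _ ≤ Y.card + N := by rw [hYc]; omega
    have hsR : ((pts a Ξ).ncard : ℝ) ≤ Y.card + N := by exact_mod_cast hsplit
    have e1 : (N : ℝ) ≤ N * (h * √(Nat.card k)) := by
      have : (0 : ℝ) ≤ N := Nat.cast_nonneg N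
      nlinarith
    have e2 : 0 ≤ (N : ℝ) * (ρ + 2 ^ ρ * (d + 1)) * (h * √(Nat.card k)) := by positivity
    push_cast at hY
    calc ((pts a Ξ).ncard : ℝ) ≤ Y.card + N := hsR
      _ ≤ (Nat.card k + 6 * (N : ℝ) ^ 2 * ((ρ + d + 1) * h) * p * √(Nat.card k)) +
          N * (h * √(Nat.card k)) := add_le_add hY e1
      _ ≤ (Nat.card k + 6 * (N : ℝ) ^ 2 * ((ρ + d + 1) * h) * p * √(Nat.card k)) +
          N * (h * √(Nat.card k)) + (N : ℝ) * (ρ + 2 ^ ρ * (d + 1)) * (h * √(Nat.card k)) := by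
          linarith
      _ = _ := by ring
  · -- every point lies over a bad value
    have hbad := bad h2 ha hΞ hI hNS
    obtain ⟨T, hT⟩ : ∃ T : Set k, T = {t : k | (∃ i, (a i).eval t = 0) ∨
        ∃ y, Ov a t y ∧ mve Ξ t y = 0} := ⟨_, rfl⟩
    rw [← hT] at hbad
    have hTf : T.Finite := Set.toFinite _
    have hall : ∀ x ∈ pts a Ξ, x.1 ∈ T := by
      intro x hx
      by_contra hxT
      rw [hT, Set.mem_setOf_eq, not_or] at hxT
      apply hcase
      refine ⟨x.1, fun i h0 => hxT.1 ⟨i, h0⟩, fun y hy h0 => hxT.2 ⟨y, hy, h0⟩, x, hx, rfl⟩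
    have hcount : (pts a Ξ).ncard ≤ N * T.ncard := by
      have hsub : pts a Ξ ⊆ ((hTf.toFinset.biUnion fun t =>
          (Set.toFinite {x | x ∈ pts a Ξ ∧ x.1 = t}).toFinset : Finset (k × (Fin ρ → k) × k)) :
            Set (k × (Fin ρ → k) × k)) := by
        intro x hx
        rw [Finset.mem_coe, Finset.mem_biUnion]
        exact ⟨x.1, hTf.mem_toFinset.2 (hall x hx), (Set.Finite.mem_toFinset _).2 ⟨hx, rfl⟩⟩
      calc (pts a Ξ).ncard ≤ _ := Set.ncard_le_ncard hsub (Finset.finite_toSet _)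
        _ = _ := Set.ncard_coe_finset _
        _ ≤ ∑ t ∈ hTf.toFinset, ((Set.toFinite {x | x ∈ pts a Ξ ∧ x.1 = t}).toFinset).card :=
            Finset.card_biUnion_le
        _ ≤ ∑ t ∈ hTf.toFinset, N := by
            refine Finset.sum_le_sum fun t _ => ?_
            rw [← Set.ncard_eq_toFinset_card, hN]
            exact upb_over a Ξ t
        _ = N * T.ncard := by
            rw [Finset.sum_const, smul_eq_mul, ← Set.ncard_eq_toFinset_card, mul_comm]
    have hc2 : (pts a Ξ).ncard ≤ N * (ρ * h + 2 ^ ρ * ((d + 1) * h)) :=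
      hcount.trans (Nat.mul_le_mul_left _ hbad)
    have hc3 : ((pts a Ξ).ncard : ℝ) ≤ N * (ρ * h + 2 ^ ρ * ((d + 1) * h)) := by
      exact_mod_cast hc2
    have e0 : (0 : ℝ) ≤ Nat.card k := Nat.cast_nonneg _
    have e2 : (N : ℝ) * (ρ + 2 ^ ρ * (d + 1)) * h * 1 ≤
        (N : ℝ) * (ρ + 2 ^ ρ * (d + 1)) * h * √(Nat.card k) :=
      mul_le_mul_of_nonneg_left hQ1 (by positivity)
    have e3 : (0 : ℝ) ≤ (6 * (N : ℝ) ^ 2 * (ρ + d + 1) * p + N) * h * √(Nat.card k) := by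
      positivity
    calc ((pts a Ξ).ncard : ℝ) ≤ N * (ρ * h + 2 ^ ρ * ((d + 1) * h)) := hc3
      _ = (N : ℝ) * (ρ + 2 ^ ρ * (d + 1)) * h * 1 := by ring
      _ ≤ (N : ℝ) * (ρ + 2 ^ ρ * (d + 1)) * h * √(Nat.card k) := e2
      _ ≤ Nat.card k + (6 * (N : ℝ) ^ 2 * (ρ + d + 1) * p + N) * h * √(Nat.card k) +
          (N : ℝ) * (ρ + 2 ^ ρ * (d + 1)) * h * √(Nat.card k) := by linarith
      _ = _ := by ring

end Pool.Agent.H3.FS
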