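import Pool.Agent.H3.FS.THE
import Pool.Agent.H3.FS.CHD

set_option autoImplicit false

/-!
# [H3 FS XIV] The element `Ξ` in the new variable

`xit c h e Ξ y = ∑_α theta c (2 e - h |α|) (Ξ_α) ∏ y_i^(α_i)`, an element of a `k[X]`-algebra `R` with elements `y_i` (think
`y_i = u^h √a_i`).  For a ring homomorphism `Ψ : R → L` to a field with `u = Ψ(X) ≠ 0`:
`Ψ (xit) = u^(2e) Ξ(Ψ(y_i) / u^h)`, where the coefficients of `Ξ` are mapped by `g' : k[X] → L`, `g' = Ψ` on constants,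
`g'(X) = Ψ(c) + 1/u`, if `Bd h d Ξ` and `h (d + 1) ≤ 2 e`.

Proof: `theta_map` for every coefficient (`deg Ξ_α ≤ h ≤ 2 e - h |α|` as `|α| ≤ d` for `α` in the support:
`MvPolynomial.le_totalDegree`), `u^(2e - h|α|) ∏ Ψ(y_i)^(α_i) = u^(2e) ∏ (Ψ(y_i)/u^h)^(α_i)`, and `MvPolynomial.eval₂_eq'`.
-/

namespace Pool.Agent.H3.FS

open Polynomial

/-- `u^(2e) Ξ` in the variable `u` -/
noncomputable def xit {k : Type} [Field k] {ρ : ℕ} {R : Type} [CommRing R] [Algebra k[X] R] (c : k)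
    (h e : ℕ) (Ξ : MvPolynomial (Fin ρ) k[X]) (y : Fin ρ → R) : R :=
  ∑ α ∈ Ξ.support, algebraMap k[X] R (theta c (2 * e - h * α.degree) (Ξ.coeff α)) *
    ∏ i, y i ^ α i

theorem xiv {k : Type} [Field k] {ρ : ℕ} {R L : Type} [CommRing R] [Algebra k[X] R] [Field L]
    {c : k} {h e d : ℕ} {Ξ : MvPolynomial (Fin ρ) k[X]} (hΞ : Bd h d Ξ) (he : h * (d + 1) ≤ 2 * e)
    (y : Fin ρ → R) (Ψ : R →+* L) (hu : Ψ (algebraMap k[X] R X) ≠ 0) (g' : k[X] →+* L)
    (hC : ∀ x : k, g' (C x) = Ψ (algebraMap k[X] R (C x)))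
    (hX : g' X = Ψ (algebraMap k[X] R (C c)) + (Ψ (algebraMap k[X] R X))⁻¹) :
    Ψ (xit c h e Ξ y) = Ψ (algebraMap k[X] R X) ^ (2 * e) *
      mv g' Ξ (fun i => Ψ (y i) / Ψ (algebraMap k[X] R X) ^ h) := by
  classical
  obtain ⟨u, hudef⟩ : ∃ u : L, u = Ψ (algebraMap k[X] R X) := ⟨_, rfl⟩
  rw [← hudef] at hu hX ⊢
  unfold mv xit
  rw [MvPolynomial.eval₂_eq', map_sum, Finset.mul_sum]
  refine Finset.sum_congr rfl fun α hα => ?_
  have hdeg : α.degree ≤ d := by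
    have h1 := MvPolynomial.le_totalDegree hα
    have h2 : (α.sum fun _ n => n) = α.degree := by
      rw [Finsupp.degree_apply]
      rfl
    rw [h2] at h1
    exact h1.trans hΞ.1
  have hhα : h * α.degree ≤ h * d := Nat.mul_le_mul_left _ hdeg
  have he' : h * (d + 1) = h * d + h := by ring
  have hN : (Ξ.coeff α).natDegree ≤ 2 * e - h * α.degree := by
    have h1 := hΞ.2 α
    omega
  have ht := theta_map c (Ψ.comp (algebraMap k[X] R)) g' (by
    rw [RingHom.comp_apply, ← hudef]; exact hu) (fun x => hC x) (by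
    rw [RingHom.comp_apply, RingHom.comp_apply, ← hudef]; exact hX) hN
  rw [RingHom.comp_apply, RingHom.comp_apply, ← hudef] at ht
  rw [map_mul, ht, map_prod]
  have h3 : ∏ i, (Ψ (y i) / u ^ h) ^ α i = (∏ i, Ψ (y i) ^ α i) / u ^ (h * α.degree) := by
    have h4 : ∏ i, (u ^ h) ^ α i = u ^ (h * α.degree) := by
      rw [Finset.prod_pow_eq_pow_sum, ← pow_mul, Finsupp.degree_eq_sum]
    rw [← h4, ← Finset.prod_div_distrib]
    exact Finset.prod_congr rfl fun i _ => div_pow _ _ _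
  rw [h3]
  have h5 : u ^ (2 * e) = u ^ (2 * e - h * α.degree) * u ^ (h * α.degree) := by
    rw [← pow_add]
    congr 1
    omega
  rw [h5]
  have h6 : u ^ (h * α.degree) ≠ 0 := pow_ne_zero _ hu
  simp only [map_pow]
  field_simp

end Pool.Agent.H3.FS
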